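import Mathlib
import Pool.Agent.Helper35.YG.Model

set_option autoImplicit false

open Matrix

namespace Pool.Agent.Helper37.YGm

open Pool.Agent.Helper35.YG

section basics

variable {F E : Type*} [Field F] [CommRing E] [Nontrivial E] [Algebra F E] (q : QE F E)

include q

lemma T_add (x y : E) : q.T (x + y) = q.T x + q.T y := by
  apply (algebraMap F E).injective
  simp only [map_add, q.T_eq]; ring

lemma T_smul (c : F) (x : E) : q.T (c • x) = c * q.T x := by
  apply (algebraMap F E).injective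
  simp only [map_mul, q.T_eq, Algebra.smul_def, q.bar_alg]; ring

lemma T_bar (x : E) : q.T (q.bar x) = q.T x := by
  apply (algebraMap F E).injective
  simp only [q.T_eq, q.bar_bar]; ring

lemma T_zero : q.T 0 = 0 := by
  apply (algebraMap F E).injective
  simp only [q.T_eq, map_zero, add_zero]

lemma N_mul (x y : E) : q.N (x * y) = q.N x * q.N y := by
  apply (algebraMap F E).injective
  simp only [map_mul, q.N_eq]; ring

lemma N_add (x y : E) : q.N (x + y) = q.N x + q.N y + q.T (x * q.bar y) := by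
  apply (algebraMap F E).injective
  simp only [map_add, q.N_eq, q.T_eq, map_mul, q.bar_bar]; ring

lemma N_smul (c : F) (x : E) : q.N (c • x) = c ^ 2 * q.N x := by
  apply (algebraMap F E).injective
  simp only [map_mul, map_pow, q.N_eq, Algebra.smul_def, q.bar_alg]; ring

lemma N_bar (x : E) : q.N (q.bar x) = q.N x := by
  apply (algebraMap F E).injective
  simp only [q.N_eq, q.bar_bar]; ring

lemma N_zero : q.N 0 = 0 := by
  apply (algebraMap F E).injective
  simp only [q.N_eq, map_zero, mul_zero]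

lemma N_one : q.N 1 = 1 := by
  apply (algebraMap F E).injective
  simp only [q.N_eq, map_one, mul_one]

lemma N_alg (c : F) : q.N (algebraMap F E c) = c ^ 2 := by
  apply (algebraMap F E).injective
  simp only [q.N_eq, q.bar_alg, map_pow]; ring

lemma N_η : q.N q.η = 1 := by
  apply (algebraMap F E).injective
  simp only [q.N_eq, q.η_bar, map_one]

lemma bar_smul (c : F) (x : E) : q.bar (c • x) = c • q.bar x := by
  simp only [Algebra.smul_def, map_mul, q.bar_alg]

lemma unit_of_N {x : E} (h : q.N x = 1) : x * q.bar x = 1 := by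
  rw [← q.N_eq, h, map_one]

lemma nondeg_T (h2 : (2 : E) = 0) (e : E) (h : ∀ f, q.T (e * q.bar f) = 0) : e = 0 := by
  have h1 := h 1
  rw [map_one, mul_one] at h1
  have h1' : e + q.bar e = 0 := by rw [← q.T_eq, h1, map_zero]
  have hz := h (q.η * q.η)
  have hz' : e * q.bar (q.η * q.η) + q.bar e * (q.η * q.η) = 0 := by
    have := q.T_eq (e * q.bar (q.η * q.η))
    rw [hz, map_zero, map_mul q.bar e, q.bar_bar] at this
    exact this.symm
  have hs := q.T_eq (q.η * q.η)
  have : algebraMap F E (q.T (q.η * q.η)) * e = 0 := by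
    rw [hs]
    have : q.bar e = e := by linear_combination h1' - e * h2
    rw [this] at hz'
    linear_combination hz'
  have hu : IsUnit (algebraMap F E (q.T (q.η * q.η))) := (isUnit_iff_ne_zero.mpr q.s_ne).map _
  exact (hu.mul_right_eq_zero).1 this

end basics

section hermitian

variable {F E : Type*} [Field F] [CommRing E] [Nontrivial E] [Algebra F E] (q : QE F E)

/-- the hermitian matrix -/
def Hm (x : F × F × E) : Matrix (Fin 2) (Fin 2) E :=
  !![algebraMap F E x.1, x.2.2; q.bar x.2.2, algebraMap F E x.2.1]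

lemma Hm_inj : Function.Injective (Hm q) := by
  intro x y h
  have h00 := congrFun (congrFun h 0) 0
  have h11 := congrFun (congrFun h 1) 1
  have h01 := congrFun (congrFun h 0) 1
  simp [Hm] at h00 h11 h01
  exact Prod.ext h00 (Prod.ext h11 h01)

/-- conjugate transpose -/
def star' (g : Matrix (Fin 2) (Fin 2) E) : Matrix (Fin 2) (Fin 2) E := (g.map q.bar)ᵀ

lemma star'_mul (g h : Matrix (Fin 2) (Fin 2) E) : star' q (g * h) = star' q h * star' q g := by
  unfold star'
  rw [Matrix.map_mul, Matrix.transpose_mul]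

lemma star'_one : star' q (1 : Matrix (Fin 2) (Fin 2) E) = 1 := by
  unfold star'
  ext i j; fin_cases i <;> fin_cases j <;> simp

/-- the action on hermitian matrices -/
def G3 (g : Matrix (Fin 2) (Fin 2) E) : (F × F × E) → (F × F × E) := fun x =>
  (q.N (g 0 0) * x.1 + q.N (g 0 1) * x.2.1 + q.T (g 0 0 * x.2.2 * q.bar (g 0 1)),
   q.N (g 1 0) * x.1 + q.N (g 1 1) * x.2.1 + q.T (g 1 0 * x.2.2 * q.bar (g 1 1)),
   algebraMap F E x.1 * (g 0 0 * q.bar (g 1 0)) + algebraMap F E x.2.1 * (g 0 1 * q.bar (g 1 1))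
    + g 0 0 * x.2.2 * q.bar (g 1 1) + g 0 1 * q.bar x.2.2 * q.bar (g 1 0))

lemma Hm_G3 (g : Matrix (Fin 2) (Fin 2) E) (x : F × F × E) :
    Hm q (G3 q g x) = g * Hm q x * star' q g := by
  ext i j
  fin_cases i <;> fin_cases j <;>
    simp only [Hm, G3, star', Fin.zero_eta, Fin.mk_one, Fin.isValue, of_apply, cons_val', cons_val_zero,
      cons_val_fin_one, cons_val_one, map_add, map_mul, q.N_eq, q.T_eq, Matrix.mul_apply,
      Fin.sum_univ_two, Matrix.transpose_apply, Matrix.map_apply, q.bar_bar, q.bar_alg] <;> ring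

lemma G3_mul (g h : Matrix (Fin 2) (Fin 2) E) (x : F × F × E) :
    G3 q (g * h) x = G3 q g (G3 q h x) := by
  apply Hm_inj q
  rw [Hm_G3, Hm_G3, Hm_G3, star'_mul]
  simp only [Matrix.mul_assoc]

lemma G3_one (x : F × F × E) : G3 q 1 x = x := by
  apply Hm_inj q
  rw [Hm_G3, star'_one, one_mul, mul_one]

omit [Nontrivial E] in
lemma Hm_add (x y : F × F × E) : Hm q (x + y) = Hm q x + Hm q y := by
  ext i j
  fin_cases i <;> fin_cases j <;> simp [Hm]

omit [Nontrivial E] in
lemma Hm_smul (c : F) (x : F × F × E) : Hm q (c • x) = algebraMap F E c • Hm q x := by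
  ext i j
  fin_cases i <;> fin_cases j <;> simp [Hm, Algebra.smul_def, q.bar_alg]

lemma G3_add (g : Matrix (Fin 2) (Fin 2) E) (x y : F × F × E) :
    G3 q g (x + y) = G3 q g x + G3 q g y := by
  apply Hm_inj q
  rw [Hm_add, Hm_G3, Hm_G3, Hm_G3, Hm_add, mul_add, add_mul]

lemma G3_smul (g : Matrix (Fin 2) (Fin 2) E) (c : F) (x : F × F × E) :
    G3 q g (c • x) = c • G3 q g x := by
  apply Hm_inj q
  rw [Hm_smul, Hm_G3, Hm_G3, Hm_smul, Matrix.mul_smul, Matrix.smul_mul]

omit [Nontrivial E] in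
lemma Q3_det (h2 : (2 : E) = 0) (x : F × F × E) : algebraMap F E (q.Q3 x) = (Hm q x).det := by
  rw [Matrix.det_fin_two]
  simp only [Hm, QE.Q3, map_add, map_mul, q.N_eq, Fin.isValue, of_apply, cons_val', cons_val_zero,
      cons_val_fin_one, cons_val_one]
  linear_combination (x.2.2 * q.bar x.2.2) * h2

lemma Q3_G3 (h2 : (2 : E) = 0) (g : Matrix (Fin 2) (Fin 2) E) (hg : g.det = 1) (x : F × F × E) :
    q.Q3 (G3 q g x) = q.Q3 x := by
  apply (algebraMap F E).injective
  rw [Q3_det q h2, Q3_det q h2, Hm_G3, Matrix.det_mul, Matrix.det_mul, hg, one_mul]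
  have : (star' q g).det = 1 := by
    unfold star'
    rw [Matrix.det_transpose]
    have : (g.map q.bar).det = q.bar g.det := (RingHom.map_det q.bar g).symm
    rw [this, hg, map_one]
  rw [this, mul_one]

lemma Q3_add (x y : F × F × E) : q.Q3 (x + y) = q.Q3 x + q.Q3 y + q.B3 x y := by
  simp only [QE.Q3, QE.B3, Prod.fst_add, Prod.snd_add, N_add]; ring

lemma Q3_smul (c : F) (x : F × F × E) : q.Q3 (c • x) = c ^ 2 * q.Q3 x := by
  simp only [QE.Q3, Prod.smul_fst, Prod.smul_snd, N_smul, smul_eq_mul]; ring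

lemma B3_comm (x y : F × F × E) : q.B3 x y = q.B3 y x := by
  have : q.T (x.2.2 * q.bar y.2.2) = q.T (y.2.2 * q.bar x.2.2) := by
    rw [← T_bar, map_mul, q.bar_bar, mul_comm]
  simp only [QE.B3, this]; ring

lemma B3_add_left (x x' y : F × F × E) : q.B3 (x + x') y = q.B3 x y + q.B3 x' y := by
  simp only [QE.B3, Prod.fst_add, Prod.snd_add, add_mul, T_add]; ring

lemma B3_smul_left (c : F) (x y : F × F × E) : q.B3 (c • x) y = c * q.B3 x y := by
  simp only [QE.B3, Prod.smul_fst, Prod.smul_snd, smul_mul_assoc, T_smul, smul_eq_mul]; ring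

lemma B3_G3 (h2 : (2 : E) = 0) (g : Matrix (Fin 2) (Fin 2) E) (hg : g.det = 1) (x y : F × F × E) :
    q.B3 (G3 q g x) (G3 q g y) = q.B3 x y := by
  have h1 := Q3_add q (G3 q g x) (G3 q g y)
  rw [← G3_add, Q3_G3 q h2 g hg, Q3_G3 q h2 g hg, Q3_G3 q h2 g hg, Q3_add] at h1
  exact (add_left_cancel h1).symm

/-- conjugation on hermitian matrices -/
def t3 (x : F × F × E) : F × F × E := (x.1, x.2.1, q.bar x.2.2)

lemma Q3_t3 (x : F × F × E) : q.Q3 (t3 q x) = q.Q3 x := by
  simp [QE.Q3, t3, N_bar]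

lemma B3_t3 (x y : F × F × E) : q.B3 (t3 q x) (t3 q y) = q.B3 x y := by
  simp only [QE.B3, t3]
  rw [← map_mul, T_bar]

end hermitian

section big

variable {F E : Type*} [Field F] [CommRing E] [Nontrivial E] [Algebra F E] (q : QE F E)

/-- the quadratic form on the second component -/
def QF (M : ℕ) (f : ℕ → F) : F :=
  (∑ i ∈ Finset.range M, f i ^ 2) + ∑ j ∈ Finset.range M, ∑ i ∈ Finset.range j, f i * f j

/-- the bilinear form on the second component -/
def BF (M : ℕ) (f g : ℕ → F) : F :=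
  (∑ i ∈ Finset.range M, f i) * (∑ i ∈ Finset.range M, g i) + ∑ i ∈ Finset.range M, f i * g i

lemma QF_add [CharP F 2] (M : ℕ) (f g : ℕ → F) : QF M (f + g) = QF M f + QF M g + BF M f g := by
  have h2 : (2 : F) = 0 := CharTwo.two_eq_zero
  induction M with
  | zero => simp [QF, BF]
  | succ M ih =>
    simp only [QF, BF, Finset.sum_range_succ, Pi.add_apply] at ih ⊢
    have e1 : ∑ x ∈ Finset.range M, (f x + g x) * (f M + g M) =
        (∑ x ∈ Finset.range M, f x) * f M + (∑ x ∈ Finset.range M, f x) * g M +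
        (∑ x ∈ Finset.range M, g x) * f M + (∑ x ∈ Finset.range M, g x) * g M := by
      rw [← Finset.sum_mul, Finset.sum_add_distrib]; ring
    have e2 : ∑ x ∈ Finset.range M, f x * f M = (∑ x ∈ Finset.range M, f x) * f M := by
      rw [← Finset.sum_mul]
    have e3 : ∑ x ∈ Finset.range M, g x * g M = (∑ x ∈ Finset.range M, g x) * g M := by
      rw [← Finset.sum_mul]
    rw [e1, e2, e3]
    linear_combination ih + (f M * g M) * h2 - (f M * g M) * h2

lemma QF_smul (M : ℕ) (c : F) (f : ℕ → F) : QF M (c • f) = c ^ 2 * QF M f := by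
  simp only [QF, Pi.smul_apply, smul_eq_mul, mul_add, Finset.mul_sum]
  congr 1
  · exact Finset.sum_congr rfl fun i _ => by ring
  · exact Finset.sum_congr rfl fun i _ => Finset.sum_congr rfl fun j _ => by ring

lemma BF_comm (M : ℕ) (f g : ℕ → F) : BF M f g = BF M g f := by
  simp only [BF]
  rw [mul_comm]
  congr 1
  exact Finset.sum_congr rfl fun i _ => by ring

lemma BF_add_left (M : ℕ) (f f' g : ℕ → F) : BF M (f + f') g = BF M f g + BF M f' g := by
  simp only [BF, Pi.add_apply, Finset.sum_add_distrib, add_mul]; ring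

lemma BF_smul_left (M : ℕ) (c : F) (f g : ℕ → F) : BF M (c • f) g = c * BF M f g := by
  simp only [BF, Pi.smul_apply, smul_eq_mul, mul_add, Finset.mul_sum, mul_assoc, Finset.sum_mul]

omit [Nontrivial E] in
lemma QM_eq (M : ℕ) (y : QE.W F E) : q.QM M y = q.Q3 y.1 + QF M y.2 := by
  simp only [QE.QM, QF]; ring

omit [Nontrivial E] in
lemma BM_eq (M : ℕ) (y z : QE.W F E) : q.BM M y z = q.B3 y.1 z.1 + BF M y.2 z.2 := by
  simp only [QE.BM, BF]; ring

lemma QM_add [CharP F 2] (M : ℕ) (y z : QE.W F E) :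
    q.QM M (y + z) = q.QM M y + q.QM M z + q.BM M y z := by
  simp only [QM_eq, BM_eq, Prod.fst_add, Prod.snd_add, QF_add, Q3_add]; ring

lemma QM_smul (M : ℕ) (c : F) (y : QE.W F E) : q.QM M (c • y) = c ^ 2 * q.QM M y := by
  simp only [QM_eq, Prod.smul_fst, Prod.smul_snd, QF_smul, Q3_smul]; ring

lemma BM_comm (M : ℕ) (y z : QE.W F E) : q.BM M y z = q.BM M z y := by
  rw [BM_eq, BM_eq, B3_comm, BF_comm]

lemma BM_add_left (M : ℕ) (x y z : QE.W F E) :
    q.BM M (x + y) z = q.BM M x z + q.BM M y z := by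
  simp only [BM_eq, Prod.fst_add, Prod.snd_add, B3_add_left, BF_add_left]; ring

lemma BM_smul_left (M : ℕ) (c : F) (y z : QE.W F E) :
    q.BM M (c • y) z = c * q.BM M y z := by
  simp only [BM_eq, Prod.smul_fst, Prod.smul_snd, B3_smul_left, BF_smul_left]; ring

omit [Nontrivial E] [CommRing E] [Algebra F E] in
lemma add_self_W {V : Type*} [AddCommGroup V] [Module F V] [CharP F 2] (y : V) : y + y = 0 := by
  have := two_smul F y
  rw [CharTwo.two_eq_zero, zero_smul] at this
  exact this.symm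

lemma QM_zero (M : ℕ) : q.QM M (0 : QE.W F E) = 0 := by
  have := QM_smul q M (0 : F) (0 : QE.W F E)
  simpa using this

lemma BM_self [CharP F 2] (M : ℕ) (y : QE.W F E) : q.BM M y y = 0 := by
  have h := QM_add q M y y
  rw [add_self_W (F := F), CharTwo.add_self_eq_zero, QM_zero, zero_add] at h
  exact h.symm

lemma BM_add_right (M : ℕ) (x y z : QE.W F E) :
    q.BM M x (y + z) = q.BM M x y + q.BM M x z := by
  rw [BM_comm, BM_add_left, BM_comm q M y, BM_comm q M z]

lemma BM_smul_right (M : ℕ) (c : F) (y z : QE.W F E) :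
    q.BM M y (c • z) = c * q.BM M y z := by
  rw [BM_comm, BM_smul_left, BM_comm]

/-- the linear functional `B(., v)` -/
def Bl (M : ℕ) (v : QE.W F E) : QE.W F E →ₗ[F] F where
  toFun y := q.BM M y v
  map_add' x y := BM_add_left q M x y v
  map_smul' c y := by simp [BM_smul_left]

/-- transvection -/
def Rf [CharP F 2] (M : ℕ) (v : QE.W F E) : QE.W F E ≃ₗ[F] QE.W F E :=
  LinearEquiv.ofInvolutive (LinearMap.id + (Bl q M v).smulRight v) (by
    intro y
    simp only [Bl, LinearMap.add_apply, LinearMap.id_coe, id_eq, LinearMap.smulRight_apply,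
      LinearMap.coe_mk, AddHom.coe_mk, BM_add_left, BM_smul_left, BM_self, mul_zero, add_zero]
    rw [add_assoc, add_self_W (F := F), add_zero])

lemma Rf_apply [CharP F 2] (M : ℕ) (v y : QE.W F E) : Rf q M v y = y + q.BM M y v • v := rfl

lemma Rf_mul_self [CharP F 2] (M : ℕ) (v : QE.W F E) : Rf q M v * Rf q M v = 1 := by
  ext1 y
  show Rf q M v (Rf q M v y) = y
  simp only [Rf_apply, BM_add_left, BM_smul_left, BM_self, mul_zero, add_zero]
  rw [add_assoc, add_self_W (F := F), add_zero]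

lemma Rf_BM [CharP F 2] (M : ℕ) (v y z : QE.W F E) :
    q.BM M (Rf q M v y) (Rf q M v z) = q.BM M y z := by
  simp only [Rf_apply, BM_add_left, BM_smul_left, BM_self, mul_zero, add_zero, BM_add_right,
    BM_smul_right]
  rw [BM_comm q M v z]
  linear_combination (q.BM M z v * q.BM M y v) * (CharTwo.two_eq_zero : (2 : F) = 0)

lemma Rf_QM [CharP F 2] (M : ℕ) (v y : QE.W F E) (hv : q.QM M v = 1) :
    q.QM M (Rf q M v y) = q.QM M y := by
  rw [Rf_apply, QM_add, QM_smul, BM_smul_right, hv]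
  linear_combination (q.BM M y v ^ 2) * (CharTwo.two_eq_zero : (2 : F) = 0)

lemma Rf_conj [CharP F 2] (M : ℕ) (v : QE.W F E) (g : QE.W F E ≃ₗ[F] QE.W F E)
    (hg : ∀ y z, q.BM M (g y) (g z) = q.BM M y z) : g * Rf q M v = Rf q M (g v) * g := by
  ext1 y
  show g (Rf q M v y) = Rf q M (g v) (g y)
  rw [Rf_apply, Rf_apply, hg, map_add, map_smul]

lemma Rf_commute [CharP F 2] (M : ℕ) (v : QE.W F E) (g : QE.W F E ≃ₗ[F] QE.W F E)
    (hg : ∀ y z, q.BM M (g y) (g z) = q.BM M y z) (h : g v = v) : Commute (Rf q M v) g := by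
  have := Rf_conj q M v g hg
  rw [h] at this
  exact this.symm

lemma Rf_commute' [CharP F 2] (M : ℕ) (u v : QE.W F E) (h : q.BM M u v = 0) :
    Commute (Rf q M u) (Rf q M v) := by
  apply Rf_commute
  · exact Rf_BM q M v
  · rw [Rf_apply, h, zero_smul, add_zero]

lemma Rf_braid [CharP F 2] (M : ℕ) (u v : QE.W F E) (h : q.BM M u v = 1) :
    Rf q M u * Rf q M v * Rf q M u = Rf q M v * Rf q M u * Rf q M v := by
  have h1 := Rf_conj q M v (Rf q M u) (Rf_BM q M u)
  have h2 := Rf_conj q M u (Rf q M v) (Rf_BM q M v)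
  rw [h1, h2, mul_assoc, mul_assoc, Rf_mul_self, Rf_mul_self, Rf_apply, Rf_apply, h, BM_comm q M v u,
    h, one_smul, one_smul, add_comm]

/-- the action of `SL_2(E)` on the ambient space -/
def gW (g : SpecialLinearGroup (Fin 2) E) : QE.W F E ≃ₗ[F] QE.W F E where
  toFun y := (G3 q (g : Matrix (Fin 2) (Fin 2) E) y.1, y.2)
  map_add' y z := by simp [G3_add]
  map_smul' c y := by simp [G3_smul]
  invFun y := (G3 q ((g⁻¹ : SpecialLinearGroup (Fin 2) E) : Matrix (Fin 2) (Fin 2) E) y.1, y.2)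
  left_inv y := by
    simp only
    rw [← G3_mul, ← Matrix.SpecialLinearGroup.coe_mul, inv_mul_cancel, Matrix.SpecialLinearGroup.coe_one, G3_one]
  right_inv y := by
    simp only
    rw [← G3_mul, ← Matrix.SpecialLinearGroup.coe_mul, mul_inv_cancel, Matrix.SpecialLinearGroup.coe_one, G3_one]

/-- the representation -/
def gm : SpecialLinearGroup (Fin 2) E →* (QE.W F E ≃ₗ[F] QE.W F E) where
  toFun := gW q
  map_one' := by
    ext1 y
    show (G3 q ((1 : SpecialLinearGroup (Fin 2) E) : Matrix (Fin 2) (Fin 2) E) y.1, y.2) = y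
    rw [Matrix.SpecialLinearGroup.coe_one, G3_one]
  map_mul' g h := by
    ext1 y
    show (G3 q ((g * h : SpecialLinearGroup (Fin 2) E) : Matrix (Fin 2) (Fin 2) E) y.1, y.2) =
      (G3 q (g : Matrix (Fin 2) (Fin 2) E) (G3 q (h : Matrix (Fin 2) (Fin 2) E) y.1), y.2)
    rw [Matrix.SpecialLinearGroup.coe_mul, G3_mul]

lemma gm_apply (g : SpecialLinearGroup (Fin 2) E) (y : QE.W F E) :
    gm q g y = (G3 q (g : Matrix (Fin 2) (Fin 2) E) y.1, y.2) := rfl

lemma gm_BM (h2 : (2 : E) = 0) (M : ℕ) (g : SpecialLinearGroup (Fin 2) E) (y z : QE.W F E) :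
    q.BM M (gm q g y) (gm q g z) = q.BM M y z := by
  rw [gm_apply, gm_apply, BM_eq, BM_eq]
  simp only
  rw [B3_G3 q h2 _ g.2]

lemma gm_QM (h2 : (2 : E) = 0) (M : ℕ) (g : SpecialLinearGroup (Fin 2) E) (y : QE.W F E) :
    q.QM M (gm q g y) = q.QM M y := by
  rw [gm_apply, QM_eq, QM_eq]
  simp only
  rw [Q3_G3 q h2 _ g.2]

/-- conjugation on the ambient space -/
def tm : QE.W F E ≃ₗ[F] QE.W F E :=
  LinearEquiv.ofInvolutive
    { toFun := fun y => (t3 q y.1, y.2)
      map_add' := fun y z => by simp [t3]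
      map_smul' := fun c y => by simp [t3, bar_smul] }
    (fun y => by simp [t3, q.bar_bar])

lemma tm_apply (y : QE.W F E) : tm q y = (t3 q y.1, y.2) := rfl

lemma tm_BM (M : ℕ) (y z : QE.W F E) : q.BM M (tm q y) (tm q z) = q.BM M y z := by
  rw [tm_apply, tm_apply, BM_eq, BM_eq]
  simp only
  rw [B3_t3]

lemma tm_QM (M : ℕ) (y : QE.W F E) : q.QM M (tm q y) = q.QM M y := by
  rw [tm_apply, QM_eq, QM_eq]
  simp only
  rw [Q3_t3]

lemma tm_mul_self : tm q * tm q = 1 := by
  ext1 y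
  show tm q (tm q y) = y
  simp [tm_apply, t3, q.bar_bar]

lemma tm_gm (g : SpecialLinearGroup (Fin 2) E) : tm q * gm q g * tm q = gm q (q.barSL g) := by
  ext1 y
  show tm q (gm q g (tm q y)) = gm q (q.barSL g) y
  simp only [tm_apply, gm_apply]
  refine Prod.ext ?_ rfl
  simp only
  have hb : ∀ i j, ((q.barSL g : SpecialLinearGroup (Fin 2) E) : Matrix (Fin 2) (Fin 2) E) i j =
      q.bar ((g : Matrix (Fin 2) (Fin 2) E) i j) := fun i j => rfl
  refine Prod.ext ?_ (Prod.ext ?_ ?_)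
  · simp only [t3, G3, hb, N_bar, q.bar_bar]
    rw [← T_bar q (_ * _ * _)]
    simp only [map_mul, q.bar_bar]
  · simp only [t3, G3, hb, N_bar, q.bar_bar]
    rw [← T_bar q (_ * _ * _)]
    simp only [map_mul, q.bar_bar]
  · simp only [t3, G3, hb, N_bar, q.bar_bar, map_add, map_mul, q.bar_alg]

/-- the vectors of the reflections -/
def vec (F E : Type*) [Field F] [CommRing E] : ℕ → QE.W F E
  | 0 => ((1, 0, 0), Pi.single 0 1)
  | j + 1 => QE.oo F E j

omit [Nontrivial E] [Algebra F E] in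
lemma oo_snd (i k : ℕ) : (QE.oo F E i).2 k = (if k = i then 1 else 0) + (if k = i + 1 then 1 else 0) := by
  simp [QE.oo, QE.rho, Pi.single_apply]

omit [Nontrivial E] [Algebra F E] in
lemma oo_fst (i : ℕ) : (QE.oo F E i).1 = 0 := by
  simp [QE.oo, QE.rho]

lemma BF_single (M i : ℕ) (hi : i < M) (f : ℕ → F) :
    BF M f (Pi.single i 1) = (∑ k ∈ Finset.range M, f k) + f i := by
  have h1 : ∑ k ∈ Finset.range M, (Pi.single i 1 : ℕ → F) k = 1 := by
    rw [Finset.sum_eq_single i]
    · simp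
    · intro b _ hb; simp [Pi.single_apply, hb]
    · intro h; exact absurd (Finset.mem_range.2 hi) h
  have h2 : ∑ k ∈ Finset.range M, f k * (Pi.single i 1 : ℕ → F) k = f i := by
    rw [Finset.sum_eq_single i]
    · simp
    · intro b _ hb; simp [Pi.single_apply, hb]
    · intro h; exact absurd (Finset.mem_range.2 hi) h
  rw [BF, h1, h2, mul_one]

lemma QF_single (M i : ℕ) (hi : i < M) : QF M (Pi.single i 1 : ℕ → F) = 1 := by
  have h1 : ∑ k ∈ Finset.range M, ((Pi.single i 1 : ℕ → F) k) ^ 2 = 1 := by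
    rw [Finset.sum_eq_single i]
    · simp
    · intro b _ hb; simp [Pi.single_apply, hb]
    · intro h; exact absurd (Finset.mem_range.2 hi) h
  rw [QF, h1]
  have h2 : ∑ j ∈ Finset.range M, ∑ k ∈ Finset.range j, (Pi.single i 1 : ℕ → F) k * (Pi.single i 1 : ℕ → F) j = 0 := by
    apply Finset.sum_eq_zero
    intro j _
    apply Finset.sum_eq_zero
    intro k hk
    by_cases hj : j = i
    · have : k ≠ i := by have := Finset.mem_range.1 hk; omega
      simp [Pi.single_apply, this]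
    · simp [Pi.single_apply, hj]
  rw [h2, add_zero]

lemma BM_oo [CharP F 2] (M i : ℕ) (hi : i + 1 < M) (y : QE.W F E) :
    q.BM M y (QE.oo F E i) = y.2 i + y.2 (i + 1) := by
  have : QE.oo F E i = (0, Pi.single i 1) + (0, Pi.single (i + 1) 1) := rfl
  rw [this, BM_add_right, BM_eq, BM_eq]
  simp only
  rw [BF_single M i (by omega), BF_single M (i + 1) hi]
  have h0 : q.B3 y.1 0 = 0 := by
    have := B3_smul_left q (0 : F) 0 y.1
    rw [zero_smul, zero_mul] at this
    rw [B3_comm]; exact this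
  rw [h0]
  linear_combination (∑ k ∈ Finset.range M, y.2 k) * (CharTwo.two_eq_zero : (2 : F) = 0)

lemma QM_oo [CharP F 2] (M i : ℕ) (hi : i + 1 < M) : q.QM M (QE.oo F E i) = 1 := by
  have : QE.oo F E i = (0, Pi.single i 1) + (0, Pi.single (i + 1) 1) := rfl
  have h3 : q.BM M (0, Pi.single i 1) (0, Pi.single (i + 1) 1) = 1 := by
    rw [BM_eq]
    simp only
    rw [BF_comm, BF_single M i (by omega)]
    have h0 : q.B3 (0 : F × F × E) 0 = 0 := by
      have := B3_smul_left q (0 : F) 0 (0 : F × F × E)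
      rwa [zero_smul, zero_mul] at this
    rw [h0, zero_add]
    have h1 : ∑ k ∈ Finset.range M, (Pi.single (i + 1) 1 : ℕ → F) k = 1 := by
      rw [Finset.sum_eq_single (i + 1)]
      · simp
      · intro b _ hb; simp [Pi.single_apply, hb]
      · intro h; exact absurd (Finset.mem_range.2 hi) h
    rw [h1]; simp
  rw [this, QM_add, h3, QM_eq, QM_eq]
  simp only
  rw [QF_single M i (by omega), QF_single M (i + 1) hi]
  have h0 : q.Q3 (0 : F × F × E) = 0 := by
    have := Q3_smul q (0 : F) (0 : F × F × E)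
    simpa using this
  rw [h0]
  linear_combination (CharTwo.two_eq_zero : (2 : F) = 0)

lemma B3_p2 (x : F × F × E) : q.B3 x (1, 0, 0) = x.2.1 := by
  simp [QE.B3, T_zero]

lemma BM_vec0 (M : ℕ) (hM : 0 < M) (y : QE.W F E) :
    q.BM M y (vec F E 0) = y.1.2.1 + ((∑ k ∈ Finset.range M, y.2 k) + y.2 0) := by
  rw [BM_eq]
  show q.B3 y.1 (1, 0, 0) + BF M y.2 (Pi.single 0 1) = _
  rw [B3_p2, BF_single M 0 hM]

lemma QM_vec0 (M : ℕ) (hM : 0 < M) : q.QM M (vec F E 0) = 1 := by
  rw [QM_eq]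
  show q.Q3 (1, 0, 0) + QF M (Pi.single 0 1) = _
  rw [QF_single M 0 hM]
  simp [QE.Q3, N_zero]

lemma QM_vec [CharP F 2] (M j : ℕ) (hj : j < M) : q.QM M (vec F E j) = 1 := by
  cases j with
  | zero => exact QM_vec0 q M hj
  | succ j => exact QM_oo q M j hj

omit [Nontrivial E] [Algebra F E] in
lemma vec_snd (j k : ℕ) (hk : j < k) : (vec F E j).2 k = 0 := by
  cases j with
  | zero => simp only [vec, Pi.single_apply]; rw [if_neg (by omega)]
  | succ j => simp only [vec]; rw [oo_snd, if_neg (by omega), if_neg (by omega), add_zero]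

lemma sum_ones (M k : ℕ) (hk : k < M) :
    ∑ l ∈ Finset.range M, (QE.ones F E k).2 l = (k + 1 : F) := by
  simp only [QE.ones]
  rw [Finset.sum_ite, Finset.sum_const_zero, add_zero, Finset.sum_const, nsmul_eq_mul, mul_one]
  have : (Finset.range M).filter (fun x => x ≤ k) = Finset.range (k + 1) := by
    ext x; simp only [Finset.mem_filter, Finset.mem_range]; omega
  rw [this, Finset.card_range]; push_cast; ring

lemma BM_ones [CharP F 2] (M k j : ℕ) (hk : k < M) (hk2 : Even k) (hj : j ≤ k) :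
    q.BM M (QE.ones F E k) (vec F E j) = 0 := by
  cases j with
  | zero =>
    rw [BM_vec0 q M (by omega), sum_ones M k hk]
    have hk0 : (k : F) = 0 := by
      obtain ⟨r, hr⟩ := hk2
      rw [hr]; push_cast; exact CharTwo.add_self_eq_zero _
    simp only [QE.ones]
    rw [hk0, if_pos (Nat.zero_le k)]
    simp [CharTwo.add_self_eq_zero]
  | succ j =>
    show q.BM M (QE.ones F E k) (QE.oo F E j) = 0
    rw [BM_oo q M j (by omega)]
    simp only [QE.ones]
    rw [if_pos (by omega), if_pos hj, CharTwo.add_self_eq_zero]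

lemma BM_vec_far [CharP F 2] (M i j : ℕ) (hj : j < M) (hij : i + 2 ≤ j) :
    q.BM M (vec F E i) (vec F E j) = 0 := by
  obtain ⟨j, rfl⟩ : ∃ j', j = j' + 1 := ⟨j - 1, by omega⟩
  show q.BM M (vec F E i) (QE.oo F E j) = 0
  rw [BM_oo q M j hj, vec_snd i j (by omega), vec_snd i (j + 1) (by omega), add_zero]

lemma BM_vec_near [CharP F 2] (M j : ℕ) (hj : j + 1 < M) :
    q.BM M (vec F E j) (vec F E (j + 1)) = 1 := by
  show q.BM M (vec F E j) (QE.oo F E j) = 1
  rw [BM_oo q M j hj, vec_snd j (j + 1) (by omega), add_zero]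
  cases j with
  | zero => simp [vec]
  | succ j => simp only [vec]; rw [oo_snd, if_neg (by omega), if_pos rfl, zero_add]

lemma gm_fix (g : SpecialLinearGroup (Fin 2) E) (y : QE.W F E) (h : y.1 = 0) : gm q g y = y := by
  rw [gm_apply, h]
  have : G3 q (g : Matrix (Fin 2) (Fin 2) E) 0 = 0 := by
    have := G3_smul q (g : Matrix (Fin 2) (Fin 2) E) (0 : F) 0
    rw [zero_smul, zero_smul] at this
    exact this
  rw [this, ← h]

lemma tm_fix (y : QE.W F E) (h : y.1 = 0) : tm q y = y := by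
  rw [tm_apply, h]
  have : t3 q 0 = 0 := by simp [t3]
  rw [this, ← h]

lemma JJ_tm (h2 : (2 : E) = 0) [CharP F 2] (M : ℕ) :
    gm q (JJ h2) * tm q = Rf q M ((1, 1, 0), 0) := by
  ext1 y
  show gm q (JJ h2) (tm q y) = Rf q M ((1, 1, 0), 0) y
  rw [Rf_apply, tm_apply, gm_apply, BM_eq]
  have hB : BF M y.2 (0 : ℕ → F) = 0 := by simp [BF]
  have hB3 : q.B3 y.1 (1, 1, 0) = y.1.1 + y.1.2.1 := by simp [QE.B3, T_zero]
  simp only
  rw [hB, hB3, add_zero]
  have e2 : (2 : F) = 0 := CharTwo.two_eq_zero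
  obtain ⟨⟨α, β, e⟩, f⟩ := y
  refine Prod.ext (Prod.ext ?_ (Prod.ext ?_ ?_)) ?_
  · simp [G3, t3, JJ, N_zero, N_one, T_zero]
    linear_combination (-α) * e2
  · simp [G3, t3, JJ, N_zero, N_one, T_zero]
    linear_combination (-β) * e2
  · simp [G3, t3, JJ, q.bar_bar]
  · simp

lemma gm_vec0 (g : SpecialLinearGroup (Fin 2) E) (hN : q.N ((g : Matrix (Fin 2) (Fin 2) E) 0 0) = 1)
    (hc : (g : Matrix (Fin 2) (Fin 2) E) 1 0 = 0) : gm q g (vec F E 0) = vec F E 0 := by
  rw [gm_apply]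
  refine Prod.ext (Prod.ext ?_ (Prod.ext ?_ ?_)) rfl
  · simp [G3, vec, hN, T_zero]
  · simp [G3, vec, hc, N_zero, T_zero]
  · simp [G3, vec, hc]

/-- the membership in `XX` is preserved -/
lemma XX_step (M i : ℕ) (g : QE.W F E ≃ₗ[F] QE.W F E) (hQ : ∀ y, q.QM M (g y) = q.QM M y)
    (hk : ∀ y : QE.W F E, ∀ k, i < k → (g y).2 k = y.2 k)
    (h1 : Odd i → g (QE.ones F E (i + 1)) = QE.ones F E (i + 1))
    (y : QE.W F E) (hy : y ∈ q.XX M i) : g y ∈ q.XX M i := by
  obtain ⟨ha, hb, hc, hd⟩ := hy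
  refine ⟨fun j hj => ?_, ?_, ?_, fun ho he => ?_⟩
  · rw [hk y j (by omega)]; exact ha j hj
  · rw [hk y (i + 1) (by omega)]; exact hb
  · rw [hQ]; exact hc
  · have := h1 ho
    rw [← this] at he
    exact hd ho (g.injective he)

lemma exists_sqrt [Finite F] [CharP F 2] (a : F) : ∃ b : F, b ^ 2 = a := by
  haveI := Fintype.ofFinite F
  obtain ⟨b, hb⟩ := FiniteField.isSquare_of_char_two (ringChar.eq F 2 ▸ rfl) a
  exact ⟨b, by rw [hb, sq]⟩

lemma uu_apply (e : E) (x : F × F × E) : G3 q ((uu e : SpecialLinearGroup (Fin 2) E) : Matrix (Fin 2) (Fin 2) E) x =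
    (x.1 + q.N e * x.2.1 + q.T (x.2.2 * q.bar e), x.2.1, algebraMap F E x.2.1 * e + x.2.2) := by
  refine Prod.ext ?_ (Prod.ext ?_ ?_)
  · simp [G3, uu, N_one]
  · simp [G3, uu, N_one, N_zero, T_zero]
  · simp [G3, uu]

lemma trans_aux [Finite F] [CharP F 2] (h2 : (2 : E) = 0) (x : F × F × E) (hx : q.Q3 x = 0)
    (hβ : x.2.1 ≠ 0) : ∃ g : SpecialLinearGroup (Fin 2) E,
      G3 q (g : Matrix (Fin 2) (Fin 2) E) (1, 0, 0) = x := by
  obtain ⟨b, hb⟩ := exists_sqrt x.2.1
  have hb0 : b ≠ 0 := by rintro rfl; exact hβ (by rw [← hb]; simp)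
  have hN : q.N x.2.2 = x.1 * x.2.1 := by
    have : x.1 * x.2.1 + q.N x.2.2 = 0 := hx
    linear_combination this - (x.1 * x.2.1) * (CharTwo.two_eq_zero : (2 : F) = 0)
  refine ⟨⟨!![b⁻¹ • x.2.2, algebraMap F E b⁻¹; algebraMap F E b, 0], ?_⟩, ?_⟩
  · rw [Matrix.det_fin_two_of, mul_zero, zero_sub, ← map_mul, inv_mul_cancel₀ hb0, map_one]
    linear_combination (-1 : E) * h2
  · refine Prod.ext ?_ (Prod.ext ?_ ?_)
    · simp only [G3, Matrix.SpecialLinearGroup.coe_mk, Fin.isValue, of_apply, cons_val', cons_val_zero,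
        cons_val_fin_one, cons_val_one, N_smul, N_alg, mul_one, mul_zero, add_zero, zero_mul, T_zero, hN]
      rw [inv_pow, hb]
      field_simp
    · simp only [G3, Matrix.SpecialLinearGroup.coe_mk, Fin.isValue, of_apply, cons_val', cons_val_zero,
        cons_val_fin_one, cons_val_one, N_smul, N_alg, mul_one, mul_zero, add_zero, zero_mul, T_zero, hb]
    · simp only [G3, Matrix.SpecialLinearGroup.coe_mk, Fin.isValue, of_apply, cons_val', cons_val_zero,
        cons_val_fin_one, cons_val_one, q.bar_alg, map_one, one_mul, map_zero, zero_mul, add_zero, mul_zero]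
      rw [Algebra.smul_def, mul_comm (algebraMap F E b⁻¹), mul_assoc, ← map_mul, inv_mul_cancel₀ hb0,
        map_one, mul_one]

lemma trans_all [Finite F] [CharP F 2] (h2 : (2 : E) = 0) (x : F × F × E) (hx : q.Q3 x = 0)
    (hx0 : x ≠ 0) : ∃ g : SpecialLinearGroup (Fin 2) E,
      G3 q (g : Matrix (Fin 2) (Fin 2) E) (1, 0, 0) = x := by
  -- it suffices to move `x` to a vector with `β ≠ 0`
  have key : ∀ h : SpecialLinearGroup (Fin 2) E,
      (G3 q (h : Matrix (Fin 2) (Fin 2) E) x).2.1 ≠ 0 →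
      ∃ g : SpecialLinearGroup (Fin 2) E, G3 q (g : Matrix (Fin 2) (Fin 2) E) (1, 0, 0) = x := by
    intro h hh
    obtain ⟨g, hg⟩ := trans_aux q h2 (G3 q (h : Matrix (Fin 2) (Fin 2) E) x)
      (by rw [Q3_G3 q h2 _ h.2]; exact hx) hh
    refine ⟨h⁻¹ * g, ?_⟩
    rw [Matrix.SpecialLinearGroup.coe_mul, G3_mul, hg, ← G3_mul, ← Matrix.SpecialLinearGroup.coe_mul,
      inv_mul_cancel, Matrix.SpecialLinearGroup.coe_one, G3_one]
  have hJ : ∀ y : F × F × E, (G3 q ((JJ h2 : SpecialLinearGroup (Fin 2) E) : Matrix (Fin 2) (Fin 2) E) y).2.1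
      = y.1 := by
    intro y
    simp [G3, JJ, N_one, N_zero, T_zero]
  by_cases hα : x.1 = 0
  · by_cases hβ : x.2.1 = 0
    · have he : x.2.2 ≠ 0 := by
        intro he
        exact hx0 (Prod.ext hα (Prod.ext hβ he))
      have : ∃ f, q.T (x.2.2 * q.bar f) ≠ 0 := by
        by_contra hcon
        push Not at hcon
        exact he (nondeg_T q h2 _ hcon)
      obtain ⟨f, hf⟩ := this
      refine key (JJ h2 * uu f) ?_
      rw [Matrix.SpecialLinearGroup.coe_mul, G3_mul, hJ, uu_apply, hα, hβ]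
      simpa using hf
    · exact trans_aux q h2 x hx hβ
  · refine key (JJ h2) ?_
    rw [hJ]; exact hα

end big

section main

open QE in
/-- **The model.** -/
theorem model {F E : Type*} [Field F] [Fintype F] [CharP F 2] [CommRing E] [Nontrivial E]
    [Algebra F E] (h2 : (2 : E) = 0) (q : QE F E) (K : ℕ) :
    ∃ (gm : Matrix.SpecialLinearGroup (Fin 2) E →* (QE.W F E ≃ₗ[F] QE.W F E))
      (tm : QE.W F E ≃ₗ[F] QE.W F E) (sm : ℕ → (QE.W F E ≃ₗ[F] QE.W F E)),
      -- (1)
      (tm * tm = 1 ∧ (∀ g, tm * gm g * tm = gm (q.barSL g)) ∧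
        (∀ j < K, sm j * sm j = 1) ∧ (∀ j < K, Commute (sm j) tm) ∧
        (∀ j < K, Commute (sm j) (gm (dd q.η (q.bar q.η) q.η_bar))) ∧
        (∀ j < K, ∀ e, Commute (sm j) (gm (uu e))) ∧
        (∀ j < K, 1 ≤ j → ∀ g, Commute (sm j) (gm g)) ∧
        (∀ i j, j < K → i + 2 ≤ j → Commute (sm i) (sm j)) ∧
        (∀ j, j + 1 < K → sm j * sm (j + 1) * sm j = sm (j + 1) * sm j * sm (j + 1)) ∧
        (0 < K → sm 0 * (gm (JJ h2) * tm) * sm 0 =
          (gm (JJ h2) * tm) * sm 0 * (gm (JJ h2) * tm))) ∧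
      -- (2)
      (∀ i < K, ∀ y ∈ q.XX (K + 2) i,
        (∀ g, gm g y ∈ q.XX (K + 2) i) ∧ tm y ∈ q.XX (K + 2) i ∧
          ∀ j ≤ i, sm j y ∈ q.XX (K + 2) i) ∧
      -- (3)
      (∀ y z, (∀ g, q.BM (K + 2) (gm g y) (gm g z) = q.BM (K + 2) y z) ∧
        q.BM (K + 2) (tm y) (tm z) = q.BM (K + 2) y z ∧
        ∀ j < K, q.BM (K + 2) (sm j y) (sm j z) = q.BM (K + 2) y z) ∧
      -- (4)
      (∀ i, Even i → i + 1 ≤ K + 2 → (∀ g, gm g (ones F E i) = ones F E i) ∧
        tm (ones F E i) = ones F E i ∧ ∀ j ≤ i, j < K → sm j (ones F E i) = ones F E i) ∧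
      -- (5)
      (∀ i < K, (∀ g, gm g (oo F E i) = oo F E i) ∧ tm (oo F E i) = oo F E i ∧
        ∀ j < i, sm j (oo F E i) = oo F E i) ∧
      -- (6)
      (∀ j, j + 1 < K → sm (j + 1) (oo F E (j + 1)) = oo F E (j + 1) + oo F E j) ∧
      (0 < K → sm 0 (oo F E 0) = ((1, 0, 0), Pi.single 1 1)) ∧
      -- (7)
      (∀ x : F × F × E, q.Q3 x = 0 → x ≠ 0 →
        ∃ g, gm g ((1, 0, 0), Pi.single 1 1) = (x, Pi.single 1 1)) ∧
      -- (8)
      (∀ g, gm g ((1, 0, 0), Pi.single 1 1) = ((1, 0, 0), Pi.single 1 1) →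
        ∃ (ξ : E) (h : ξ * q.bar ξ = 1) (e : E), g = dd ξ (q.bar ξ) h * uu e) ∧
      -- (9)
      (∀ x : F × F × E, q.Q3 x = 0 → q.B3 x (1, 0, 0) = 1 →
        ∃ e, gm (uu e) ((0, 1, 0), Pi.single 1 1) = (x, Pi.single 1 1)) ∧
      -- (10)
      gm (JJ h2) (tm ((1, 0, 0), Pi.single 1 1)) = ((0, 1, 0), Pi.single 1 1) := by
  refine ⟨gm q, tm q, fun j => Rf q (K + 2) (vec F E j), ⟨tm_mul_self q, tm_gm q, ?_, ?_, ?_, ?_, ?_, ?_,
    ?_, ?_⟩, ?_, ?_, ?_, ?_, ?_, ?_, ?_, ?_, ?_, ?_⟩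
  · exact fun j _ => Rf_mul_self q _ _
  · intro j hj
    apply Rf_commute q _ _ _ (tm_BM q _)
    cases j with
    | zero => simp [tm_apply, vec, t3]
    | succ j => exact tm_fix q _ (oo_fst j)
  · intro j hj
    apply Rf_commute q _ _ _ (gm_BM q h2 _ _)
    cases j with
    | zero => exact gm_vec0 q _ (N_η q) rfl
    | succ j => exact gm_fix q _ _ (oo_fst j)
  · intro j hj e
    apply Rf_commute q _ _ _ (gm_BM q h2 _ _)
    cases j with
    | zero => exact gm_vec0 q _ (N_one q) rfl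
    | succ j => exact gm_fix q _ _ (oo_fst j)
  · intro j hj hj1 g
    apply Rf_commute q _ _ _ (gm_BM q h2 _ _)
    obtain ⟨j, rfl⟩ : ∃ j', j = j' + 1 := ⟨j - 1, by omega⟩
    exact gm_fix q _ _ (oo_fst j)
  · intro i j hj hij
    exact Rf_commute' q _ _ _ (BM_vec_far q _ i j (by omega) hij)
  · intro j hj
    exact Rf_braid q _ _ _ (BM_vec_near q _ j (by omega))
  · intro hK
    rw [JJ_tm q h2 (K + 2)]
    apply Rf_braid
    rw [BM_comm, BM_vec0 q _ (by omega)]
    simp
  · intro i hi y hy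
    refine ⟨fun g => ?_, ?_, fun j hj => ?_⟩
    · refine XX_step q _ i (gm q g) (gm_QM q h2 _ g) (fun _ _ _ => rfl) (fun _ => gm_fix q _ _ rfl) y hy
    · refine XX_step q _ i (tm q) (tm_QM q _) (fun _ _ _ => rfl) (fun _ => tm_fix q _ rfl) y hy
    · refine XX_step q _ i (Rf q (K + 2) (vec F E j))
        (fun y => Rf_QM q _ _ y (QM_vec q _ j (by omega))) (fun y k hk => ?_) (fun ho => ?_) y hy
      · rw [Rf_apply]
        simp only [Prod.snd_add, Prod.smul_snd, Pi.add_apply, Pi.smul_apply, smul_eq_mul]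
        rw [vec_snd j k (by omega), mul_zero, add_zero]
      · rw [Rf_apply, BM_ones q (K + 2) (i + 1) j (by omega) ho.add_one (by omega), zero_smul, add_zero]
  · intro y z
    exact ⟨fun g => gm_BM q h2 _ g y z, tm_BM q _ y z, fun j _ => Rf_BM q _ _ y z⟩
  · intro i hi hiK
    refine ⟨fun g => gm_fix q _ _ rfl, tm_fix q _ rfl, fun j hj _ => ?_⟩
    simp only
    rw [Rf_apply, BM_ones q (K + 2) i j (by omega) hi hj, zero_smul, add_zero]
  · intro i hi
    refine ⟨fun g => gm_fix q _ _ (oo_fst i), tm_fix q _ (oo_fst i), fun j hj => ?_⟩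
    simp only
    have : q.BM (K + 2) (oo F E i) (vec F E j) = 0 := by
      rw [BM_comm]
      exact BM_vec_far q (K + 2) j (i + 1) (by omega) (by omega)
    rw [Rf_apply, this, zero_smul, add_zero]
  · intro j hj
    have : q.BM (K + 2) (oo F E (j + 1)) (oo F E j) = 1 := by
      rw [BM_comm]
      exact BM_vec_near q (K + 2) (j + 1) (by omega)
    show Rf q (K + 2) (oo F E j) (oo F E (j + 1)) = _
    rw [Rf_apply, this, one_smul]
  · intro hK
    have : q.BM (K + 2) (oo F E 0) (vec F E 0) = 1 := by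
      rw [BM_comm]
      exact BM_vec_near q (K + 2) 0 (by omega)
    show Rf q (K + 2) (vec F E 0) (oo F E 0) = _
    rw [Rf_apply, this, one_smul]
    refine Prod.ext ?_ ?_
    · rw [Prod.fst_add, oo_fst]; simp [vec]
    · rw [Prod.snd_add]
      funext k
      rw [Pi.add_apply, oo_snd]
      simp only [vec, Pi.single_apply, zero_add]
      by_cases hk : k = 0
      · subst hk; simp [CharTwo.add_self_eq_zero]
      · simp [hk]
  · intro x hx hx0
    obtain ⟨g, hg⟩ := trans_all q h2 x hx hx0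
    exact ⟨g, by rw [gm_apply]; simp only; rw [hg]⟩
  · intro g hg
    rw [gm_apply] at hg
    have h1 := congrArg Prod.fst hg
    simp only at h1
    set a := (g : Matrix (Fin 2) (Fin 2) E) 0 0 with ha
    set b := (g : Matrix (Fin 2) (Fin 2) E) 0 1 with hb
    set c := (g : Matrix (Fin 2) (Fin 2) E) 1 0 with hc
    set d := (g : Matrix (Fin 2) (Fin 2) E) 1 1 with hd
    have hN : q.N a = 1 := by
      have := congrArg Prod.fst h1
      simpa [G3, T_zero, ← ha] using this
    have hac : a * q.bar c = 0 := by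
      have := congrArg (fun z => z.2.2) h1
      simpa [G3, ← ha, ← hc] using this
    have haa := unit_of_N q hN
    have hc0 : c = 0 := by
      have : q.bar c = 0 := by
        have : q.bar a * (a * q.bar c) = 0 := by rw [hac, mul_zero]
        rw [← mul_assoc, mul_comm (q.bar a), haa, one_mul] at this
        exact this
      rw [← q.bar_bar c, this, map_zero]
    have hdet : a * d = 1 := by
      have := Matrix.SpecialLinearGroup.det_coe g
      rw [Matrix.det_fin_two, ← ha, ← hb, ← hc, ← hd, hc0, mul_zero, sub_zero] at this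
      exact this
    have hd' : d = q.bar a := by
      calc d = (a * q.bar a) * d := by rw [haa, one_mul]
        _ = q.bar a * (a * d) := by ring
        _ = q.bar a := by rw [hdet, mul_one]
    refine ⟨a, haa, q.bar a * b, ?_⟩
    ext i j
    rw [Matrix.SpecialLinearGroup.coe_mul]
    fin_cases i <;> fin_cases j
    · simp [Matrix.mul_apply, Fin.sum_univ_two, dd, uu, ← ha]
    · simp [Matrix.mul_apply, Fin.sum_univ_two, dd, uu, ← hb]
      rw [← mul_assoc, haa, one_mul]
    · simp [Matrix.mul_apply, Fin.sum_univ_two, dd, uu, ← hc, hc0]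
    · simp [Matrix.mul_apply, Fin.sum_univ_two, dd, uu, ← hd, hd']
  · intro x hx hB
    rw [B3_p2] at hB
    refine ⟨x.2.2, ?_⟩
    rw [gm_apply]
    refine Prod.ext ?_ rfl
    simp only
    rw [uu_apply]
    have hN : q.N x.2.2 = x.1 := by
      have : x.1 * x.2.1 + q.N x.2.2 = 0 := hx
      rw [hB] at this
      linear_combination this - x.1 * (CharTwo.two_eq_zero : (2 : F) = 0)
    refine Prod.ext ?_ (Prod.ext ?_ ?_)
    · simp [T_zero, hN]
    · simp [hB]
    · simp
  · rw [tm_apply, gm_apply]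
    refine Prod.ext (Prod.ext ?_ (Prod.ext ?_ ?_)) rfl
    · simp [G3, t3, JJ, N_one, N_zero, T_zero]
    · simp [G3, t3, JJ, N_one, N_zero, T_zero]
    · simp [G3, t3, JJ]

end main

end Pool.Agent.Helper37.YGm
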