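import Mathlib
import Pool.Agent.Helper85.FC.Defs

/-!
Small regular languages used in the union construction (part of MP_cb855e_lc).
-/

set_option autoImplicit false

namespace Pool.Agent.Helper37.FCUnion

open Pool.Agent.Helper85.FC

variable {A : Type}

theorem reg_of_quot (L : Language A) (S : Set (Language A)) (hS : S.Finite)
    (h : ∀ x, L.leftQuotient x ∈ S) : L.IsRegular :=
  Language.IsRegular.of_finite_range_leftQuotient
    (hS.subset (by rintro _ ⟨x, rfl⟩; exact h x))

/-- everything -/
def Top : Language A := {_u : List A | True}

/-- nothing -/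
def Bot : Language A := {_u : List A | False}

/-- only the empty word -/
def Eps : Language A := {u : List A | u = []}

/-- words starting with `a` -/
def SW (a : A) : Language A := {u : List A | ∃ v, u = a :: v}

/-- words without `d` -/
def Avoid (d : A) : Language A := {u : List A | d ∉ u}

/-- words whose only `d` is the last letter -/
def EndD (d : A) : Language A := {u : List A | ∃ p, d ∉ p ∧ u = p ++ [d]}

/-- odd length -/
def OddL : Language A := {u : List A | u.length % 2 = 1}

/-- even length -/
def EvenL : Language A := {u : List A | u.length % 2 = 0}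

/-- length at most one -/
def Le1 : Language A := {u : List A | u.length ≤ 1}

theorem mem_top (u : List A) : u ∈ (Top : Language A) := trivial
theorem mem_bot (u : List A) : u ∈ (Bot : Language A) ↔ False := Iff.rfl
theorem mem_eps (u : List A) : u ∈ (Eps : Language A) ↔ u = [] := Iff.rfl
theorem mem_SW (a : A) (u : List A) : u ∈ SW a ↔ ∃ v, u = a :: v := Iff.rfl
theorem mem_avoid (d : A) (u : List A) : u ∈ Avoid d ↔ d ∉ u := Iff.rfl
theorem mem_endD (d : A) (u : List A) : u ∈ EndD d ↔ ∃ p, d ∉ p ∧ u = p ++ [d] := Iff.rfl
theorem mem_odd (u : List A) : u ∈ (OddL : Language A) ↔ u.length % 2 = 1 := Iff.rfl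
theorem mem_even (u : List A) : u ∈ (EvenL : Language A) ↔ u.length % 2 = 0 := Iff.rfl
theorem mem_le1 (u : List A) : u ∈ (Le1 : Language A) ↔ u.length ≤ 1 := Iff.rfl

theorem reg_bot : (Bot : Language A).IsRegular := by
  refine reg_of_quot _ {Bot} (Set.finite_singleton _) fun x => ?_
  rw [Set.mem_singleton_iff]
  ext y
  rw [Language.mem_leftQuotient, mem_bot, mem_bot]

theorem reg_eps : (Eps : Language A).IsRegular := by
  refine reg_of_quot _ {Eps, Bot} (Set.toFinite _) fun x => ?_
  rcases x with _ | ⟨b, x⟩
  · left
    rfl
  · right
    rw [Set.mem_singleton_iff]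
    ext y
    rw [Language.mem_leftQuotient, mem_bot, mem_eps]
    simp

theorem reg_SW (a : A) : (SW a).IsRegular := by
  classical
  refine reg_of_quot _ {SW a, Top, Bot} (Set.toFinite _) fun x => ?_
  rcases x with _ | ⟨b, x⟩
  · left
    rfl
  · right
    by_cases h : b = a
    · left
      ext y
      rw [Language.mem_leftQuotient, mem_SW]
      simp [h, mem_top]
    · right
      rw [Set.mem_singleton_iff]
      ext y
      rw [Language.mem_leftQuotient, mem_SW, mem_bot]
      simp [h]

theorem reg_avoid (d : A) : (Avoid d).IsRegular := by
  classical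
  refine reg_of_quot _ {Avoid d, Bot} (Set.toFinite _) fun x => ?_
  by_cases h : d ∈ x
  · right
    rw [Set.mem_singleton_iff]
    ext y
    rw [Language.mem_leftQuotient, mem_avoid, mem_bot]
    simp [h]
  · left
    ext y
    rw [Language.mem_leftQuotient, mem_avoid, mem_avoid]
    simp [h]

theorem reg_endD (d : A) : (EndD d).IsRegular := by
  classical
  refine reg_of_quot _ {EndD d, Eps, Bot} (Set.toFinite _) fun x => ?_
  by_cases h : d ∈ x
  · right
    by_cases h2 : x ∈ EndD d
    · left
      obtain ⟨p, hp, rfl⟩ := h2
      ext y
      rw [Language.mem_leftQuotient, mem_endD, mem_eps]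
      constructor
      · rintro ⟨p', hp', e⟩
        rcases List.eq_nil_or_concat y with rfl | ⟨y', b, rfl⟩
        · rfl
        · exfalso
          rw [List.concat_eq_append, ← List.append_assoc] at e
          have := List.append_inj_left' e rfl
          apply hp'
          rw [← this]
          simp
      · rintro rfl
        exact ⟨p, hp, by simp⟩
    · right
      rw [Set.mem_singleton_iff]
      ext y
      rw [Language.mem_leftQuotient, mem_endD, mem_bot, iff_false]
      rintro ⟨p, hp, e⟩
      rcases List.eq_nil_or_concat y with rfl | ⟨y', b, rfl⟩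
      · apply h2
        rw [List.append_nil] at e
        exact ⟨p, hp, e⟩
      · rw [List.concat_eq_append, ← List.append_assoc] at e
        have := List.append_inj_left' e rfl
        apply hp
        rw [← this]
        simp [h]
  · left
    ext y
    rw [Language.mem_leftQuotient, mem_endD, mem_endD]
    constructor
    · rintro ⟨p, hp, e⟩
      rcases List.eq_nil_or_concat y with rfl | ⟨y', b, rfl⟩
      · exfalso
        rw [List.append_nil] at e
        apply h
        rw [e]
        simp
      · rw [List.concat_eq_append, ← List.append_assoc] at e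
        have e1 := List.append_inj_left' e rfl
        have e2 := List.append_inj_right' e rfl
        refine ⟨y', ?_, ?_⟩
        · intro hy
          apply hp
          rw [← e1]
          simp [hy]
        · rw [List.concat_eq_append, e2]
    · rintro ⟨p, hp, rfl⟩
      exact ⟨x ++ p, by simp [h, hp], by simp⟩

theorem reg_odd : (OddL : Language A).IsRegular := by
  refine reg_of_quot _ {OddL, EvenL} (Set.toFinite _) fun x => ?_
  rcases Nat.mod_two_eq_zero_or_one x.length with h | h
  · left
    ext y
    rw [Language.mem_leftQuotient, mem_odd, mem_odd, List.length_append]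
    omega
  · right
    rw [Set.mem_singleton_iff]
    ext y
    rw [Language.mem_leftQuotient, mem_odd, mem_even, List.length_append]
    omega

theorem reg_le1 : (Le1 : Language A).IsRegular := by
  refine reg_of_quot _ {Le1, Eps, Bot} (Set.toFinite _) fun x => ?_
  rcases x with _ | ⟨b, _ | ⟨c, x⟩⟩
  · left
    rfl
  · right; left
    ext y
    rw [Language.mem_leftQuotient, mem_le1, mem_eps]
    simp
  · right; right
    rw [Set.mem_singleton_iff]
    ext y
    rw [Language.mem_leftQuotient, mem_le1, mem_bot]
    simp

/-- the one-letter word `a` or the empty word -/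
def EL (a : A) : Language A := {u : List A | u = [] ∨ u = [a]}

theorem mem_EL (a : A) (u : List A) : u ∈ EL a ↔ u = [] ∨ u = [a] := Iff.rfl

theorem reg_EL (a : A) : (EL a).IsRegular := by
  classical
  refine reg_of_quot _ {EL a, Eps, Bot} (Set.toFinite _) fun x => ?_
  rcases x with _ | ⟨b, x⟩
  · left
    rfl
  · right
    by_cases h : b = a ∧ x = []
    · left
      obtain ⟨rfl, rfl⟩ := h
      ext y
      rw [Language.mem_leftQuotient, mem_EL, mem_eps]
      simp
    · right
      rw [Set.mem_singleton_iff]
      ext y
      rw [Language.mem_leftQuotient, mem_EL, mem_bot]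
      simp only [List.cons_append, reduceCtorEq, List.cons.injEq, List.append_eq_nil_iff, false_or,
        iff_false]
      tauto

/-- adding the empty word -/
def WE (L : Language A) : Language A := Eps + L

theorem mem_WE (L : Language A) (u : List A) : u ∈ WE L ↔ u = [] ∨ u ∈ L := Iff.rfl

theorem reg_WE {L : Language A} (h : L.IsRegular) : (WE L).IsRegular := reg_eps.add h

end Pool.Agent.Helper37.FCUnion
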