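import Mathlib
import Pool.Agent.Helper85.FC.Defs
import Pool.Agent.Helper37.FCReg

/-!
The big query: union of nice queries (part of MP_cb855e_lc).
-/

set_option autoImplicit false

namespace Pool.Agent.Helper37.FCUnion

open Pool.Agent.Helper85.FC

variable {A : Type}

/-- A nice query. -/
structure NQ (A : Type) where
  a : A
  eqs : List (ℕ × Pattern A ℕ)
  regs : List (ℕ × Language A × Option A)

/-- admissibility of a nice query -/
def NQ.OK (q : NQ A) : Prop :=
  ∀ r ∈ q.regs, r.2.1.IsRegular ∧ (r.2.2 = none → [] ∈ r.2.1) ∧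
    ∀ d, r.2.2 = some d → ∀ u ∈ r.2.1, u ∈ SW d

/-- satisfaction -/
def NQ.Sat (q : NQ A) (σ : ℕ → List A) : Prop :=
  (∀ e ∈ q.eqs, σ e.1 = subst σ e.2) ∧ ∀ r ∈ q.regs, σ r.1 ∈ r.2.1

/-- language -/
def NQ.lang (q : NQ A) : Set (List A) :=
  {u | ∃ σ : ℕ → List A, (∀ x, σ x <:+: σ 0) ∧ q.Sat σ ∧ σ 0 = u ∧ u ∈ SW q.a}

/-- the letters that are needed -/
def NQ.need (q : NQ A) : List A :=
  q.eqs.flatMap (fun e => e.2.filterMap (Sum.elim some (fun _ => none))) ++
    q.regs.filterMap (fun r => r.2.2)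

/-- variables of the big query -/
inductive VV (N : ℕ) (A : Type) : Type
  | w : VV N A
  | c : VV N A
  | cp (i : Fin N) (y : ℕ) : VV N A
  | tl (i : Fin N) (y : ℕ) : VV N A
  | m (i : Fin N) : VV N A
  | n (i : Fin N) : VV N A
  | k (i : Fin N) : VV N A
  | r (i : Fin N) : VV N A
  | v (i : Fin N) : VV N A
  | k' (i : Fin N) : VV N A
  | t (i : Fin N) : VV N A
  | s (i : Fin N) : VV N A
  | e (i : Fin N) (d : A) : VV N A
  | q (i : Fin N) (d : A) : VV N A
  | g (i : Fin N) (d : A) : VV N A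

/-- coding of the variables -/
def VV.code {N : ℕ} : VV N A → ℕ × ℕ × ℕ × Option A
  | .w => (0, 0, 0, none)
  | .c => (1, 0, 0, none)
  | .cp i y => (2, i, y, none)
  | .tl i y => (3, i, y, none)
  | .m i => (4, i, 0, none)
  | .n i => (5, i, 0, none)
  | .k i => (6, i, 0, none)
  | .r i => (7, i, 0, none)
  | .v i => (8, i, 0, none)
  | .k' i => (9, i, 0, none)
  | .t i => (10, i, 0, none)
  | .s i => (11, i, 0, none)
  | .e i d => (12, i, 0, some d)
  | .q i d => (13, i, 0, some d)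
  | .g i d => (14, i, 0, some d)

theorem VV.code_injective {N : ℕ} : Function.Injective (VV.code (N := N) (A := A)) := by
  intro x y h
  cases x <;> cases y <;> simp [VV.code] at h ⊢ <;>
    first
      | exact Fin.ext h
      | exact ⟨Fin.ext h.1, h.2⟩

instance {N : ℕ} [Countable A] : Countable (VV N A) := VV.code_injective.countable

section
variable {N : ℕ} (Q : Fin N → NQ A)

open scoped Classical in
/-- gate variable for the letter `d` in copy `i` -/
noncomputable def gate (i : Fin N) (d : A) : VV N A :=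
  if d = (Q i).a then VV.t i else VV.g i d

/-- translation of pattern symbols -/
noncomputable def tr (i : Fin N) : A ⊕ ℕ → A ⊕ VV N A :=
  Sum.elim (fun d => Sum.inr (gate Q i d)) (fun x => Sum.inr (VV.cp i x))

open scoped Classical in
/-- the needed letters different from the first letter -/
noncomputable def need' (i : Fin N) : List A := (Q i).need.filter (fun d => d ≠ (Q i).a)

/-- equations of copy `i` -/
noncomputable def eqsOf (i : Fin N) : List (VV N A × Pattern A (VV N A)) :=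
  [(VV.cp i 0, [Sum.inr (VV.m i), Sum.inr (VV.n i)]),
    (VV.m i, [Sum.inr (VV.k i), Sum.inr (VV.k i), Sum.inr (VV.r i)]),
    (VV.r i, [Sum.inr (VV.v i), Sum.inr (VV.k' i), Sum.inr (VV.k' i)]),
    (VV.t i, [Sum.inr (VV.v i), Sum.inr (VV.k' i)]),
    (VV.s i, [Sum.inr (VV.k i), Sum.inr (VV.k i), Sum.inr (VV.t i)])] ++
  ((need' Q i).map (fun d => (VV.e i d, [Sum.inr (VV.t i), Sum.inr (VV.q i d),
    Sum.inr (VV.g i d)])) ++
  ((Q i).eqs.map (fun e => (VV.cp i e.1, e.2.map (tr Q i))) ++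
  (Q i).regs.filterMap (fun r => r.2.2.map (fun d =>
    (VV.cp i r.1, [Sum.inr (gate Q i d), Sum.inr (VV.tl i r.1)])))))

open scoped Classical in
/-- constraints of copy `i` -/
noncomputable def regsOf (i : Fin N) : List (VV N A × Language A) :=
  [(VV.cp i 0, WE (SW (Q i).a)), (VV.n i, (SW (Q i).a)ᶜ), (VV.t i, EL (Q i).a),
    (VV.s i, WE OddL)] ++
  ((need' Q i).map (fun d => (VV.e i d, WE (SW (Q i).a ⊓ EndD d))) ++
  ((need' Q i).map (fun d => (VV.q i d, Avoid d)) ++
  ((need' Q i).map (fun d => (VV.g i d, EL d)) ++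
  (Q i).regs.map (fun r => (VV.cp i r.1, if r.2.2 = none then r.2.1 else WE r.2.1)))))

/-- the big query -/
noncomputable def big : SCQ A (VV N A) where
  eqs := (VV.w, (List.finRange N).map (fun i => Sum.inr (VV.cp i 0))) ::
    (VV.c, (List.finRange N).map (fun i => Sum.inr (VV.t i))) ::
    (List.finRange N).flatMap (fun i => eqsOf Q i)
  regs := (VV.c, Le1) :: (List.finRange N).flatMap (fun i => regsOf Q i)

/-- explicit form of satisfaction of copy `i` -/
structure Expl (i : Fin N) (σ : VV N A → List A) : Prop where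
  h1 : σ (VV.cp i 0) = σ (VV.m i) ++ σ (VV.n i)
  h2 : σ (VV.m i) = σ (VV.k i) ++ (σ (VV.k i) ++ σ (VV.r i))
  h3 : σ (VV.r i) = σ (VV.v i) ++ (σ (VV.k' i) ++ σ (VV.k' i))
  h4 : σ (VV.t i) = σ (VV.v i) ++ σ (VV.k' i)
  h5 : σ (VV.s i) = σ (VV.k i) ++ (σ (VV.k i) ++ σ (VV.t i))
  h6 : ∀ d ∈ (Q i).need, d ≠ (Q i).a →
    σ (VV.e i d) = σ (VV.t i) ++ (σ (VV.q i d) ++ σ (VV.g i d))
  h7 : ∀ e ∈ (Q i).eqs, σ (VV.cp i e.1) = subst σ (e.2.map (tr Q i))
  h8 : ∀ r ∈ (Q i).regs, ∀ d, r.2.2 = some d →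
    σ (VV.cp i r.1) = σ (gate Q i d) ++ σ (VV.tl i r.1)
  r1 : σ (VV.cp i 0) ∈ WE (SW (Q i).a)
  r2 : σ (VV.n i) ∉ SW (Q i).a
  r3 : σ (VV.t i) ∈ EL (Q i).a
  r4 : σ (VV.s i) ∈ WE (OddL : Language A)
  r5 : ∀ d ∈ (Q i).need, d ≠ (Q i).a → σ (VV.e i d) = [] ∨
    (σ (VV.e i d) ∈ SW (Q i).a ∧ σ (VV.e i d) ∈ EndD d)
  r6 : ∀ d ∈ (Q i).need, d ≠ (Q i).a → d ∉ σ (VV.q i d)
  r7 : ∀ d ∈ (Q i).need, d ≠ (Q i).a → σ (VV.g i d) ∈ EL d
  r8 : ∀ r ∈ (Q i).regs, r.2.2 = none → σ (VV.cp i r.1) ∈ r.2.1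
  r9 : ∀ r ∈ (Q i).regs, r.2.2 ≠ none → σ (VV.cp i r.1) ∈ WE r.2.1

theorem subst_cons_inr {V : Type} (σ : V → List A) (x : V) (α : Pattern A V) :
    subst σ (Sum.inr x :: α) = σ x ++ subst σ α := by
  simp [subst]

theorem subst_nil {V : Type} (σ : V → List A) : subst σ ([] : Pattern A V) = [] := rfl

theorem mem_need' (i : Fin N) (d : A) : d ∈ need' Q i ↔ d ∈ (Q i).need ∧ d ≠ (Q i).a := by
  simp [need']

theorem expl_iff (i : Fin N) (σ : VV N A → List A) :
    ((∀ e ∈ eqsOf Q i, σ e.1 = subst σ e.2) ∧ ∀ r ∈ regsOf Q i, σ r.1 ∈ r.2) ↔ Expl Q i σ := by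
  constructor
  · rintro ⟨he, hr⟩
    unfold eqsOf at he
    unfold regsOf at hr
    rw [List.forall_mem_append, List.forall_mem_append, List.forall_mem_append] at he
    rw [List.forall_mem_append, List.forall_mem_append, List.forall_mem_append,
      List.forall_mem_append] at hr
    obtain ⟨he1, he2, he3, he4⟩ := he
    obtain ⟨hr1, hr2, hr3, hr4, hr5⟩ := hr
    simp only [List.mem_cons, List.not_mem_nil, or_false, forall_eq_or_imp, forall_eq,
      subst_cons_inr, subst_nil, List.append_nil] at he1 hr1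
    simp only [List.forall_mem_map, subst_cons_inr, subst_nil, List.append_nil, mem_need'] at he2 he3 hr2 hr3 hr4 hr5
    simp only [List.mem_filterMap, Option.map_eq_some_iff] at he4
    obtain ⟨a1, a2, a3, a4, a5⟩ := he1
    obtain ⟨b1, b2, b3, b4⟩ := hr1
    refine ⟨a1, a2, a3, a4, a5, fun d h h' => he2 d ⟨h, h'⟩, he3, ?_, b1, b2, b3, b4, ?_, ?_, ?_,
      ?_, ?_⟩
    · intro r hr d hd
      have := he4 _ ⟨r, hr, d, hd, rfl⟩
      simpa only [subst_cons_inr, subst_nil, List.append_nil] using this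
    · intro d h h'
      exact hr2 d ⟨h, h'⟩
    · intro d h h'
      exact hr3 d ⟨h, h'⟩
    · intro d h h'
      exact hr4 d ⟨h, h'⟩
    · intro r h h'
      have := hr5 r h
      rwa [if_pos h'] at this
    · intro r h h'
      have := hr5 r h
      rwa [if_neg h'] at this
  · intro E
    unfold eqsOf regsOf
    rw [List.forall_mem_append, List.forall_mem_append, List.forall_mem_append,
      List.forall_mem_append, List.forall_mem_append, List.forall_mem_append,
      List.forall_mem_append]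
    simp only [List.mem_cons, List.not_mem_nil, or_false, forall_eq_or_imp, forall_eq,
      subst_cons_inr, subst_nil, List.append_nil, List.forall_mem_map, mem_need',
      List.mem_filterMap, Option.map_eq_some_iff]
    refine ⟨⟨⟨E.h1, E.h2, E.h3, E.h4, E.h5⟩, fun d h => E.h6 d h.1 h.2, E.h7, ?_⟩,
      ⟨E.r1, E.r2, E.r3, E.r4⟩, fun d h => E.r5 d h.1 h.2, fun d h => E.r6 d h.1 h.2,
      fun d h => E.r7 d h.1 h.2, ?_⟩
    · rintro e ⟨r, hr, d, hd, rfl⟩
      simpa only [subst_cons_inr, subst_nil, List.append_nil] using E.h8 r hr d hd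
    · intro r hr
      by_cases h : r.2.2 = none
      · rw [if_pos h]
        exact E.r8 r hr h
      · rw [if_neg h]
        exact E.r9 r hr h

theorem subst_map_inr {V : Type} (σ : V → List A) (l : List (Fin N)) (f : Fin N → V) :
    subst σ (l.map (fun i => Sum.inr (f i)) : Pattern A V) = l.flatMap (fun i => σ (f i)) := by
  simp [subst, List.flatMap_map]

theorem big_sat_iff (σ : VV N A → List A) :
    (big Q).Sat σ ↔ σ VV.w = (List.finRange N).flatMap (fun i => σ (VV.cp i 0)) ∧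
      σ VV.c = (List.finRange N).flatMap (fun i => σ (VV.t i)) ∧ (σ VV.c).length ≤ 1 ∧
      ∀ i, Expl Q i σ := by
  unfold SCQ.Sat big
  simp only [List.mem_cons, forall_eq_or_imp, List.mem_flatMap, List.mem_finRange, true_and,
    forall_exists_index, subst_map_inr, ← expl_iff]
  constructor
  · rintro ⟨⟨h1, h2, h3⟩, h4, h5⟩
    exact ⟨h1, h2, h4, fun i => ⟨fun e he => h3 e i he, fun r hr => h5 r i hr⟩⟩
  · rintro ⟨h1, h2, h3, h4⟩
    exact ⟨⟨h1, h2, fun e i he => (h4 i).1 e he⟩, h3, fun r i hr => (h4 i).2 r hr⟩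

theorem big_reg (hQ : ∀ i, (Q i).OK) : (big Q).Reg := by
  unfold SCQ.Reg big
  simp only [List.mem_cons, forall_eq_or_imp, List.mem_flatMap, List.mem_finRange, true_and,
    forall_exists_index]
  refine ⟨reg_le1, ?_⟩
  intro r i hr
  unfold regsOf at hr
  rw [List.mem_append, List.mem_append, List.mem_append, List.mem_append] at hr
  simp only [List.mem_cons, List.not_mem_nil, or_false, List.mem_map] at hr
  rcases hr with (rfl | rfl | rfl | rfl) | ⟨d, -, rfl⟩ | ⟨d, -, rfl⟩ | ⟨d, -, rfl⟩ | ⟨r', hr', rfl⟩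
  · exact reg_WE (reg_SW _)
  · exact (reg_SW _).compl
  · exact reg_EL _
  · exact reg_WE reg_odd
  · exact reg_WE ((reg_SW _).inf (reg_endD _))
  · exact reg_avoid _
  · exact reg_EL _
  · have := (hQ i r' hr').1
    by_cases h : r'.2.2 = none
    · simp only [h, if_true]
      exact this
    · simp only [h, if_false]
      exact reg_WE this

end

end Pool.Agent.Helper37.FCUnion
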