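import Mathlib
import Pool.Agent.Helper85.FC.Defs
import Pool.Agent.Helper37.FCBig

/-!
The language of the big query (part of MP_cb855e_lc).
-/

set_option autoImplicit false

namespace Pool.Agent.Helper37.FCUnion

open Pool.Agent.Helper85.FC

variable {A : Type} {N : ℕ} (Q : Fin N → NQ A)

theorem t_eq {Q : Fin N → NQ A} {i : Fin N} {σ : VV N A → List A} (E : Expl Q i σ)
    (h : σ (VV.cp i 0) ≠ []) :
    σ (VV.t i) = [(Q i).a] ∧ σ (VV.cp i 0) ∈ SW (Q i).a := by
  have hSW : σ (VV.cp i 0) ∈ SW (Q i).a := by
    rcases E.r1 with h' | h'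
    · exact absurd h' h
    · exact h'
  refine ⟨?_, hSW⟩
  rcases E.r3 with h' | h'
  · exfalso
    have h4 := E.h4
    rw [h'] at h4
    have h4' := List.append_eq_nil_iff.mp h4.symm
    have h3 := E.h3
    rw [h4'.1, h4'.2] at h3
    have h5 := E.h5
    rw [h'] at h5
    have h2 := E.h2
    rw [h3] at h2
    have hk : σ (VV.k i) = [] := by
      rcases E.r4 with h6 | h6
      · rw [h5] at h6
        exact (List.append_eq_nil_iff.mp h6).1
      · have h7 : (σ (VV.s i)).length % 2 = 1 := h6
        rw [h5] at h7
        simp only [List.append_nil, List.length_append] at h7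
        omega
    rw [hk] at h2
    have h1 := E.h1
    rw [h2] at h1
    simp only [List.nil_append] at h1
    exact E.r2 (h1 ▸ hSW)
  · exact h'

theorem gate_eq {Q : Fin N → NQ A} {i : Fin N} {σ : VV N A → List A} (E : Expl Q i σ)
    (h : σ (VV.cp i 0) ≠ []) (d : A) (hd : d ∈ (Q i).need) : σ (gate Q i d) = [d] := by
  obtain ⟨ht, -⟩ := t_eq E h
  unfold gate
  by_cases hda : d = (Q i).a
  · rw [if_pos hda, ht, hda]
  · rw [if_neg hda]
    have h6 := E.h6 d hd hda
    rcases E.r7 d hd hda with h7 | h7
    · exfalso
      rcases E.r5 d hd hda with h5 | ⟨-, p, hp, h5⟩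
      · rw [h5, ht] at h6
        simp at h6
      · rw [h7, ht] at h6
        have : d ∈ σ (VV.e i d) := by rw [h5]; simp
        rw [h6] at this
        simp only [List.append_nil, List.singleton_append, List.mem_cons] at this
        rcases this with h8 | h8
        · exact hda h8
        · exact E.r6 d hd hda h8
    · exact h7

theorem subst_tr (i : Fin N) (σ : VV N A → List A) (α : Pattern A ℕ)
    (h : ∀ d, Sum.inl d ∈ α → σ (gate Q i d) = [d]) :
    subst σ (α.map (tr Q i)) = subst (fun y => σ (VV.cp i y)) α := by
  induction α with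
  | nil => rfl
  | cons x α ih =>
    rw [List.map_cons]
    have ih' := ih fun d hd => h d (List.mem_cons_of_mem _ hd)
    rcases x with d | y
    · have hd := h d List.mem_cons_self
      simp only [subst, List.flatMap_cons, tr, Sum.elim_inl, Sum.elim_inr] at ih' ⊢
      rw [hd, ← ih']
    · simp only [subst, List.flatMap_cons, tr, Sum.elim_inr] at ih' ⊢
      exact congrArg _ ih'

theorem mem_need_of_eq {q : NQ A} {e : ℕ × Pattern A ℕ} (he : e ∈ q.eqs) {d : A}
    (hd : Sum.inl d ∈ e.2) : d ∈ q.need := by
  unfold NQ.need
  rw [List.mem_append]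
  left
  rw [List.mem_flatMap]
  refine ⟨e, he, ?_⟩
  rw [List.mem_filterMap]
  exact ⟨Sum.inl d, hd, rfl⟩

theorem mem_need_of_reg {q : NQ A} {r : ℕ × Language A × Option A} (hr : r ∈ q.regs) {d : A}
    (hd : r.2.2 = some d) : d ∈ q.need := by
  unfold NQ.need
  rw [List.mem_append]
  right
  rw [List.mem_filterMap]
  exact ⟨r, hr, hd⟩

theorem flatMap_single (f : Fin N → List A) (j : Fin N) (h : ∀ i, i ≠ j → f i = []) :
    (List.finRange N).flatMap f = f j := by
  have key : ∀ l : List (Fin N), l.Nodup → j ∈ l → l.flatMap f = f j := by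
    intro l hl hj
    induction l with
    | nil => simp at hj
    | cons x l ih =>
      rw [List.flatMap_cons]
      rw [List.nodup_cons] at hl
      by_cases hx : x = j
      · subst hx
        have : l.flatMap f = [] := by
          rw [List.flatMap_eq_nil_iff]
          intro y hy
          exact h y (fun e => hl.1 (e ▸ hy))
        rw [this, List.append_nil]
      · rw [h x hx, List.nil_append]
        apply ih hl.2
        rcases List.mem_cons.mp hj with h' | h'
        · exact absurd h'.symm hx
        · exact h'
  exact key _ (List.nodup_finRange N) (List.mem_finRange j)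

theorem flatMap_le_one (f : Fin N → List A) (j : Fin N) (hj : f j ≠ [])
    (h : ((List.finRange N).flatMap f).length ≤ 1) : ∀ i, i ≠ j → f i = [] := by
  have key : ∀ l : List (Fin N), l.Nodup → (l.flatMap f).length ≤ 1 → ∀ i ∈ l, ∀ k ∈ l, i ≠ k →
      f i ≠ [] → f k = [] := by
    intro l hl hle
    induction l with
    | nil => simp
    | cons x l ih =>
      rw [List.flatMap_cons, List.length_append] at hle
      rw [List.nodup_cons] at hl
      have ih' := ih hl.2 (by omega)
      have aux : ∀ y ∈ l, f y ≠ [] → 1 ≤ (l.flatMap f).length := by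
        intro y hy hne
        have : f y <:+: l.flatMap f := by
          have := List.infix_of_mem_flatten (L := l.map f) (l := f y) (List.mem_map_of_mem hy)
          rwa [List.flatMap_def]
        have h1 := this.length_le
        have h2 := List.length_pos_iff.mpr hne
        omega
      intro i hi k hk hik hfi
      rcases List.mem_cons.mp hi with rfl | hi'
      · rcases List.mem_cons.mp hk with rfl | hk'
        · exact absurd rfl hik
        · by_contra hne
          have h1 := aux k hk' hne
          have h2 := List.length_pos_iff.mpr hfi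
          omega
      · rcases List.mem_cons.mp hk with rfl | hk'
        · by_contra hne
          have h1 := aux i hi' hfi
          have h2 := List.length_pos_iff.mpr hne
          omega
        · exact ih' i hi' k hk' hik hfi
  intro i hi
  exact key _ (List.nodup_finRange N) h j (List.mem_finRange j) i (List.mem_finRange i)
    (fun e => hi e.symm) hj

/-- forward direction -/
theorem big_forward {u : List A} (hu : u ∈ (big Q).lang VV.w) (hne : u ≠ []) :
    ∃ i, u ∈ (Q i).lang := by
  obtain ⟨σ, hsafe, hsat, rfl⟩ := hu
  rw [big_sat_iff] at hsat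
  obtain ⟨hw, hc, hle, hE⟩ := hsat
  obtain ⟨j, hj⟩ : ∃ j, σ (VV.cp j 0) ≠ [] := by
    by_contra hcon
    push Not at hcon
    apply hne
    rw [hw, List.flatMap_eq_nil_iff]
    intro i _
    exact hcon i
  have htj := (t_eq (hE j) hj).1
  have hti : ∀ i, i ≠ j → σ (VV.t i) = [] := by
    apply flatMap_le_one (fun i => σ (VV.t i)) j
    · rw [htj]
      simp
    · rw [← hc]
      exact hle
  have hxi : ∀ i, i ≠ j → σ (VV.cp i 0) = [] := by
    intro i hi
    by_contra hne'
    have := (t_eq (hE i) hne').1
    rw [hti i hi] at this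
    simp at this
  have hwj : σ VV.w = σ (VV.cp j 0) := by
    rw [hw]
    exact flatMap_single (fun i => σ (VV.cp i 0)) j hxi
  refine ⟨j, fun y => σ (VV.cp j y), ?_, ⟨?_, ?_⟩, hwj.symm, ?_⟩
  · intro x
    change σ (VV.cp j x) <:+: σ (VV.cp j 0)
    rw [← hwj]
    exact hsafe _
  · intro e he
    rw [← subst_tr Q j σ e.2 fun d hd => gate_eq (hE j) hj d (mem_need_of_eq he hd)]
    exact (hE j).h7 e he
  · intro r hr
    rcases h : r.2.2 with _ | d
    · exact (hE j).r8 r hr h
    · have h8 := (hE j).h8 r hr d h
      rw [gate_eq (hE j) hj d (mem_need_of_reg hr h)] at h8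
      rcases (hE j).r9 r hr (by rw [h]; simp) with h9 | h9
      · rw [h9] at h8
        simp at h8
      · exact h9
  · rw [hwj]
    exact (t_eq (hE j) hj).2

/-- the copy a variable belongs to -/
def copy : VV N A → Option (Fin N)
  | .w => none
  | .c => none
  | .cp i _ => some i
  | .tl i _ => some i
  | .m i => some i
  | .n i => some i
  | .k i => some i
  | .r i => some i
  | .v i => some i
  | .k' i => some i
  | .t i => some i
  | .s i => some i
  | .e i _ => some i
  | .q i _ => some i
  | .g i _ => some i

theorem copy_gate (i : Fin N) (d : A) : copy (gate Q i d) = some i := by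
  unfold gate
  split_ifs <;> rfl

theorem expl_of_zero (hQ : ∀ i, (Q i).OK) (i : Fin N) (σ : VV N A → List A)
    (h : ∀ x, copy x = some i → σ x = []) : Expl Q i σ where
  h1 := by rw [h (VV.cp i 0) rfl, h (VV.m i) rfl, h (VV.n i) rfl]; rfl
  h2 := by rw [h (VV.m i) rfl, h (VV.k i) rfl, h (VV.r i) rfl]; rfl
  h3 := by rw [h (VV.r i) rfl, h (VV.v i) rfl, h (VV.k' i) rfl]; rfl
  h4 := by rw [h (VV.t i) rfl, h (VV.v i) rfl, h (VV.k' i) rfl]; rfl
  h5 := by rw [h (VV.s i) rfl, h (VV.k i) rfl, h (VV.t i) rfl]; rfl
  h6 := by
    intro d _ _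
    rw [h (VV.e i d) rfl, h (VV.t i) rfl, h (VV.q i d) rfl, h (VV.g i d) rfl]; rfl
  h7 := by
    intro e _
    rw [h (VV.cp i e.1) rfl]
    symm
    unfold subst
    rw [List.flatMap_eq_nil_iff]
    intro x hx
    rw [List.mem_map] at hx
    obtain ⟨y, -, rfl⟩ := hx
    rcases y with d | y
    · simp only [tr, Sum.elim_inl, Sum.elim_inr]
      exact h _ (copy_gate Q i d)
    · simp only [tr, Sum.elim_inr]
      exact h _ rfl
  h8 := by
    intro r _ d _
    rw [h (VV.cp i r.1) rfl, h _ (copy_gate Q i d), h (VV.tl i r.1) rfl]; rfl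
  r1 := by rw [h (VV.cp i 0) rfl]; left; rfl
  r2 := by
    rw [h (VV.n i) rfl]
    rintro ⟨v, hv⟩
    simp at hv
  r3 := by rw [h (VV.t i) rfl]; left; rfl
  r4 := by rw [h (VV.s i) rfl]; left; rfl
  r5 := by
    intro d _ _
    left
    exact h (VV.e i d) rfl
  r6 := by
    intro d _ _
    rw [h (VV.q i d) rfl]
    simp
  r7 := by
    intro d _ _
    rw [h (VV.g i d) rfl]
    left; rfl
  r8 := by
    intro r hr h0
    rw [h (VV.cp i r.1) rfl]
    exact (hQ i r hr).2.1 h0
  r9 := by
    intro r _ _
    rw [h (VV.cp i r.1) rfl]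
    left; rfl

theorem nil_mem_big (hQ : ∀ i, (Q i).OK) : [] ∈ (big Q).lang VV.w := by
  refine ⟨fun _ => [], fun _ => List.infix_rfl, ?_, rfl⟩
  rw [big_sat_iff]
  refine ⟨?_, ?_, ?_, fun i => expl_of_zero Q hQ i _ fun _ _ => rfl⟩
  · symm
    rw [List.flatMap_eq_nil_iff]
    intro _ _
    rfl
  · symm
    rw [List.flatMap_eq_nil_iff]
    intro _ _
    rfl
  · simp

theorem replicate_infix (a : A) {n M : ℕ} (h : n ≤ M) :
    List.replicate n a <:+: List.replicate M a := by
  obtain ⟨k, rfl⟩ := Nat.exists_eq_add_of_le h
  exact ⟨[], List.replicate k a, by rw [List.replicate_add, List.nil_append]⟩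

theorem gate_exists (a : A) (M : ℕ) (hM : 1 ≤ M) : ∃ k r v k' s : List A,
    List.replicate M a = k ++ (k ++ r) ∧ r = v ++ (k' ++ k') ∧ [a] = v ++ k' ∧
    s = k ++ (k ++ [a]) ∧ s.length % 2 = 1 ∧ k <:+: List.replicate M a ∧
    r <:+: List.replicate M a ∧ v <:+: List.replicate M a ∧ k' <:+: List.replicate M a ∧
    s <:+: List.replicate M a := by
  rcases Nat.even_or_odd' M with ⟨n, rfl | rfl⟩
  · obtain ⟨n, rfl⟩ : ∃ n', n = n' + 1 := ⟨n - 1, by omega⟩
    have hs : List.replicate n a ++ (List.replicate n a ++ [a]) = List.replicate (2 * n + 1) a := by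
      rw [show 2 * n + 1 = n + (n + 1) by ring, List.replicate_add, List.replicate_add]
      rfl
    refine ⟨List.replicate n a, [a, a], [], [a], List.replicate (2 * n + 1) a, ?_, rfl, rfl,
      hs.symm, ?_, replicate_infix a (by omega), ?_, ?_, ?_, replicate_infix a (by omega)⟩
    · rw [show 2 * (n + 1) = n + (n + 2) by ring, List.replicate_add, List.replicate_add]
      rfl
    · rw [List.length_replicate]
      omega
    · exact replicate_infix a (n := 2) (by omega)
    · exact List.nil_infix
    · exact replicate_infix a (n := 1) (by omega)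
  · have hs : List.replicate n a ++ (List.replicate n a ++ [a]) = List.replicate (2 * n + 1) a := by
      rw [show 2 * n + 1 = n + (n + 1) by ring, List.replicate_add, List.replicate_add]
      rfl
    refine ⟨List.replicate n a, [a], [a], [], List.replicate (2 * n + 1) a, hs.symm, rfl, rfl,
      hs.symm, ?_, replicate_infix a (by omega), ?_, ?_, ?_, List.infix_rfl⟩
    · rw [List.length_replicate]
      omega
    · exact replicate_infix a (n := 1) (by omega)
    · exact replicate_infix a (n := 1) (by omega)
    · exact List.nil_infix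

theorem leading_run (a : A) (u : List A) (hu : u ∈ SW a) :
    ∃ M n, 1 ≤ M ∧ u = List.replicate M a ++ n ∧ n ∉ SW a := by
  obtain ⟨v, rfl⟩ := hu
  induction v with
  | nil => exact ⟨1, [], le_rfl, rfl, by rintro ⟨v, hv⟩; simp at hv⟩
  | cons b v ih =>
    by_cases hb : b = a
    · subst hb
      obtain ⟨M, n, h1, h2, h3⟩ := ih
      refine ⟨M + 1, n, by omega, ?_, h3⟩
      rw [List.replicate_succ, List.cons_append, ← h2]
    · refine ⟨1, b :: v, le_rfl, rfl, ?_⟩
      rintro ⟨v', hv'⟩
      rw [List.cons.injEq] at hv'
      exact hb hv'.1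

theorem const_exists (a : A) (u : List A) (hu : u ∈ SW a) (d : A) : ∃ E q g : List A,
    (d ∈ u → d ≠ a → E = [a] ++ (q ++ g) ∧ E ∈ SW a ∧ E ∈ EndD d ∧ d ∉ q ∧ g = [d]) ∧
    E <:+: u ∧ q <:+: u ∧ g <:+: u := by
  by_cases h : d ∈ u ∧ d ≠ a
  · obtain ⟨h1, h2⟩ := h
    obtain ⟨p, rest, hp, hd⟩ := List.eq_append_cons_of_mem h1
    obtain ⟨v, rfl⟩ := hu
    rcases p with _ | ⟨b, p⟩
    · simp only [List.nil_append, List.cons.injEq] at hp
      exact absurd hp.1.symm h2
    · simp only [List.cons_append, List.cons.injEq] at hp
      obtain ⟨rfl, rfl⟩ := hp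
      rw [List.mem_cons, not_or] at hd
      refine ⟨a :: (p ++ [d]), p, [d], fun _ _ => ⟨rfl, ⟨_, rfl⟩, ⟨a :: p, ?_, rfl⟩, hd.2, rfl⟩,
        ?_, ?_, ?_⟩
      · rw [List.mem_cons, not_or]
        exact hd
      · exact ⟨[], rest, by simp⟩
      · exact ⟨[a], d :: rest, by simp⟩
      · exact ⟨a :: p, rest, by simp⟩
  · refine ⟨[], [], [], fun h1 h2 => absurd ⟨h1, h2⟩ h, List.nil_infix, List.nil_infix,
      List.nil_infix⟩

open scoped Classical in
/-- the substitution built from a solution of copy `j` -/
noncomputable def bs (j : Fin N) (a : A) (ρ : ℕ → List A) (m n k r v k' s : List A)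
    (E q g : A → List A) : VV N A → List A
  | .w => ρ 0
  | .c => [a]
  | .cp i y => if i = j then ρ y else []
  | .tl i y => if i = j then (ρ y).tail else []
  | .m i => if i = j then m else []
  | .n i => if i = j then n else []
  | .k i => if i = j then k else []
  | .r i => if i = j then r else []
  | .v i => if i = j then v else []
  | .k' i => if i = j then k' else []
  | .t i => if i = j then [a] else []
  | .s i => if i = j then s else []
  | .e i d => if i = j then E d else []
  | .q i d => if i = j then q d else []
  | .g i d => if i = j then g d else []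

theorem mem_subst_of_inl (ρ : ℕ → List A) (α : Pattern A ℕ) (d : A) (h : Sum.inl d ∈ α) :
    d ∈ subst ρ α := by
  unfold subst
  rw [List.mem_flatMap]
  exact ⟨Sum.inl d, h, by simp⟩

/-- backward direction -/
theorem big_backward (hQ : ∀ i, (Q i).OK) {u : List A} {j : Fin N} (hu : u ∈ (Q j).lang) :
    u ∈ (big Q).lang VV.w := by
  obtain ⟨ρ, hsafe, hsat, rfl, hSW⟩ := hu
  set a := (Q j).a with ha
  obtain ⟨M, n, hM, hMn, hn⟩ := leading_run a (ρ 0) hSW
  obtain ⟨k, r, v, k', s, g1, g2, g3, g4, g5, g6, g7, g8, g9, g10⟩ := gate_exists a M hM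
  choose E q g hEqg hE hq hg using const_exists a (ρ 0) hSW
  have hneed : ∀ d ∈ (Q j).need, d ∈ ρ 0 := by
    intro d hd
    unfold NQ.need at hd
    rw [List.mem_append, List.mem_flatMap, List.mem_filterMap] at hd
    rcases hd with ⟨e, he, hd⟩ | ⟨r, hr, hd⟩
    · rw [List.mem_filterMap] at hd
      obtain ⟨x, hx, hxd⟩ := hd
      rcases x with d' | y
      · simp only [Sum.elim_inl, Option.some.injEq] at hxd
        subst hxd
        have h1 := mem_subst_of_inl ρ e.2 d' hx
        rw [← hsat.1 e he] at h1
        exact (hsafe e.1).subset h1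
      · simp at hxd
    · have h1 := hsat.2 r hr
      obtain ⟨v, hv⟩ := (hQ j r hr).2.2 d hd _ h1
      apply (hsafe r.1).subset
      rw [hv]
      simp
  have hrun : List.replicate M a <:+: ρ 0 := ⟨[], n, by rw [hMn]; simp⟩
  set σ := bs (N := N) j a ρ (List.replicate M a) n k r v k' s E q g with hσ
  have hgate : ∀ d ∈ (Q j).need, σ (gate Q j d) = [d] := by
    intro d hd
    unfold gate
    by_cases hda : d = (Q j).a
    · rw [if_pos hda]
      simp [hσ, bs, hda, ha]
    · rw [if_neg hda]
      simp only [hσ, bs, if_true]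
      exact (hEqg d (hneed d hd) hda).2.2.2.2
  refine ⟨σ, ?_, ?_, rfl⟩
  · intro x
    change σ x <:+: ρ 0
    have hnil : ([] : List A) <:+: ρ 0 := List.nil_infix
    cases x with
    | w => exact List.infix_rfl
    | c =>
      change [a] <:+: ρ 0
      exact (replicate_infix a (n := 1) hM).trans hrun
    | cp i y =>
      simp only [hσ, bs]
      split_ifs
      · exact hsafe y
      · exact hnil
    | tl i y =>
      simp only [hσ, bs]
      split_ifs
      · exact (List.tail_suffix _).isInfix.trans (hsafe y)
      · exact hnil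
    | m i =>
      simp only [hσ, bs]
      split_ifs
      · exact hrun
      · exact hnil
    | n i =>
      simp only [hσ, bs]
      split_ifs
      · exact ⟨List.replicate M a, [], by rw [hMn]; simp⟩
      · exact hnil
    | k i =>
      simp only [hσ, bs]
      split_ifs
      · exact g6.trans hrun
      · exact hnil
    | r i =>
      simp only [hσ, bs]
      split_ifs
      · exact g7.trans hrun
      · exact hnil
    | v i =>
      simp only [hσ, bs]
      split_ifs
      · exact g8.trans hrun
      · exact hnil
    | k' i =>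
      simp only [hσ, bs]
      split_ifs
      · exact g9.trans hrun
      · exact hnil
    | t i =>
      simp only [hσ, bs]
      split_ifs
      · exact (replicate_infix a (n := 1) hM).trans hrun
      · exact hnil
    | s i =>
      simp only [hσ, bs]
      split_ifs
      · exact g10.trans hrun
      · exact hnil
    | e i d =>
      simp only [hσ, bs]
      split_ifs
      · exact hE d
      · exact hnil
    | q i d =>
      simp only [hσ, bs]
      split_ifs
      · exact hq d
      · exact hnil
    | g i d =>
      simp only [hσ, bs]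
      split_ifs
      · exact hg d
      · exact hnil
  · rw [big_sat_iff]
    refine ⟨?_, ?_, ?_, ?_⟩
    · rw [flatMap_single (fun i => σ (VV.cp i 0)) j]
      · simp [hσ, bs]
      · intro i hi
        simp [hσ, bs, hi]
    · rw [flatMap_single (fun i => σ (VV.t i)) j]
      · simp [hσ, bs]
      · intro i hi
        simp [hσ, bs, hi]
    · simp [hσ, bs]
    · intro i
      by_cases hij : i = j
      · subst hij
        refine ⟨?_, ?_, ?_, ?_, ?_, ?_, ?_, ?_, ?_, ?_, ?_, ?_, ?_, ?_, ?_, ?_, ?_⟩
        · simp only [hσ, bs, if_true]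
          exact hMn
        · simp only [hσ, bs, if_true]
          exact g1
        · simp only [hσ, bs, if_true]
          exact g2
        · simp only [hσ, bs, if_true]
          exact g3
        · simp only [hσ, bs, if_true]
          exact g4
        · intro d hd hda
          simp only [hσ, bs, if_true]
          exact (hEqg d (hneed d hd) hda).1
        · intro e he
          rw [subst_tr Q i σ e.2 fun d hd => hgate d (mem_need_of_eq he hd)]
          simp only [hσ, bs, if_true]
          exact hsat.1 e he
        · intro r' hr' d hd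
          rw [hgate d (mem_need_of_reg hr' hd)]
          simp only [hσ, bs, if_true]
          obtain ⟨v', hv'⟩ := (hQ i r' hr').2.2 d hd _ (hsat.2 r' hr')
          rw [hv']
          rfl
        · simp only [hσ, bs, if_true]
          right
          exact hSW
        · simp only [hσ, bs, if_true]
          exact hn
        · simp only [hσ, bs, if_true]
          right
          rfl
        · simp only [hσ, bs, if_true]
          right
          exact g5
        · intro d hd hda
          simp only [hσ, bs, if_true]
          right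
          exact ⟨(hEqg d (hneed d hd) hda).2.1, (hEqg d (hneed d hd) hda).2.2.1⟩
        · intro d hd hda
          simp only [hσ, bs, if_true]
          exact (hEqg d (hneed d hd) hda).2.2.2.1
        · intro d hd hda
          simp only [hσ, bs, if_true]
          right
          exact (hEqg d (hneed d hd) hda).2.2.2.2
        · intro r' hr' _
          simp only [hσ, bs, if_true]
          exact hsat.2 r' hr'
        · intro r' hr' _
          simp only [hσ, bs, if_true]
          right
          exact hsat.2 r' hr'
      · apply expl_of_zero Q hQ i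
        intro x hx
        cases x <;> simp only [copy, Option.some.injEq, reduceCtorEq] at hx <;> subst hx <;>
          simp [hσ, bs, hij]

theorem big_lang (hQ : ∀ i, (Q i).OK) (u : List A) :
    u ∈ (big Q).lang VV.w ↔ u = [] ∨ ∃ i, u ∈ (Q i).lang := by
  constructor
  · intro h
    by_cases hu : u = []
    · exact Or.inl hu
    · exact Or.inr (big_forward Q h hu)
  · rintro (rfl | ⟨i, h⟩)
    · exact nil_mem_big Q hQ
    · exact big_backward Q hQ h

end Pool.Agent.Helper37.FCUnion
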