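import Mathlib
import Pool.Agent.Helper85.FC.Defs
import Pool.Agent.Helper37.FCBig2

/-!
Closure of conjunctive queries under union (part B of MP_cb855e_lc).
-/

set_option autoImplicit false

namespace Pool.Agent.Helper37.FCUnion

open Pool.Agent.Helper85.FC

variable {A : Type}

/-! ### Transfer to variables in `ℕ` -/

theorem subst_map {V W : Type} (f : V → W) (σ : W → List A) (α : Pattern A V) :
    subst σ (α.map (Sum.map id f)) = subst (σ ∘ f) α := by
  induction α with
  | nil => rfl
  | cons x α ih =>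
    simp only [subst, List.map_cons, List.flatMap_cons] at ih ⊢
    rw [ih]
    rcases x with d | y <;> rfl

theorem transfer {V : Type} [Countable V] (w : V) (φ : SCQ A V) (hφ : φ.Reg) :
    ∃ ψ : SCQ A ℕ, ψ.Reg ∧ ψ.lang 0 = φ.lang w := by
  classical
  obtain ⟨e, he⟩ := Countable.exists_injective_nat V
  set f : V → ℕ := Equiv.swap (e w) 0 ∘ e with hf
  have hfi : Function.Injective f := (Equiv.injective _).comp he
  have hf0 : f w = 0 := by simp [hf]
  refine ⟨⟨φ.eqs.map (fun p => (f p.1, p.2.map (Sum.map id f))),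
    φ.regs.map (fun r => (f r.1, r.2))⟩, ?_, ?_⟩
  · intro r hr
    simp only [List.mem_map] at hr
    obtain ⟨r', hr', rfl⟩ := hr
    exact hφ r' hr'
  · ext u
    constructor
    · rintro ⟨σ, h1, ⟨h2, h3⟩, h4⟩
      refine ⟨σ ∘ f, ?_, ⟨?_, ?_⟩, ?_⟩
      · intro x
        simp only [Function.comp_apply, hf0]
        exact h1 _
      · intro p hp
        have := h2 (f p.1, p.2.map (Sum.map id f)) (List.mem_map_of_mem (f := fun p : V × Pattern A V => (f p.1, p.2.map (Sum.map id f))) hp)
        simp only [subst_map] at this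
        exact this
      · intro r hr
        exact h3 (f r.1, r.2) (List.mem_map_of_mem (f := fun r : V × Language A => (f r.1, r.2)) hr)
      · simp only [Function.comp_apply, hf0]
        exact h4
    · rintro ⟨σ, h1, ⟨h2, h3⟩, h4⟩
      set τ : ℕ → List A := Function.extend f σ (fun _ => []) with hτ
      have hτf : ∀ x, τ (f x) = σ x := fun x => hfi.extend_apply _ _ _
      have hτf' : τ ∘ f = σ := funext hτf
      have hτ0 : τ 0 = σ w := by rw [← hf0]; exact hτf w
      refine ⟨τ, ?_, ⟨?_, ?_⟩, ?_⟩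
      · intro n
        rw [hτ0]
        by_cases hn : ∃ x, f x = n
        · obtain ⟨x, rfl⟩ := hn
          rw [hτf]
          exact h1 x
        · rw [hτ, Function.extend_apply' _ _ _ hn]
          exact List.nil_infix
      · intro p hp
        simp only [List.mem_map] at hp
        obtain ⟨p', hp', rfl⟩ := hp
        simp only [subst_map, hτf, hτf']
        exact h2 p' hp'
      · intro r hr
        simp only [List.mem_map] at hr
        obtain ⟨r', hr', rfl⟩ := hr
        simp only [hτf]
        exact h3 r' hr'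
      · rw [hτ0]
        exact h4

/-! ### Decomposition into nice queries -/

open scoped Classical in
/-- all first-letter choices for a list of constraints -/
noncomputable def choices [Fintype A] :
    List (ℕ × Language A) → List (List (ℕ × Language A × Option A))
  | [] => [[]]
  | r :: rs =>
    (if [] ∈ r.2 then (choices rs).map (fun c => (r.1, Eps, none) :: c) else []) ++
      (Finset.univ : Finset A).toList.flatMap
        (fun d => (choices rs).map (fun c => (r.1, r.2 ⊓ SW d, some d) :: c))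

open scoped Classical in
theorem choices_cons [Fintype A] (r : ℕ × Language A) (rs : List (ℕ × Language A)) :
    choices (r :: rs) =
      (if [] ∈ r.2 then (choices rs).map (fun c => (r.1, Eps, none) :: c) else []) ++
      (Finset.univ : Finset A).toList.flatMap
        (fun d => (choices rs).map (fun c => (r.1, r.2 ⊓ SW d, some d) :: c)) := rfl

theorem choices_sound [Fintype A] (rs : List (ℕ × Language A)) (σ : ℕ → List A) :
    (∀ r ∈ rs, σ r.1 ∈ r.2) ↔ ∃ c ∈ choices rs, ∀ r ∈ c, σ r.1 ∈ r.2.1 := by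
  induction rs with
  | nil => simp [choices]
  | cons r rs ih =>
    rw [List.forall_mem_cons, ih, choices_cons]
    constructor
    · rintro ⟨h1, c, hc, h2⟩
      rcases h : σ r.1 with _ | ⟨d, v⟩
      · refine ⟨(r.1, Eps, none) :: c, ?_, ?_⟩
        · rw [List.mem_append]
          left
          rw [if_pos (h ▸ h1)]
          exact List.mem_map_of_mem hc
        · rw [List.forall_mem_cons]
          exact ⟨h, h2⟩
      · refine ⟨(r.1, r.2 ⊓ SW d, some d) :: c, ?_, ?_⟩
        · rw [List.mem_append]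
          right
          rw [List.mem_flatMap]
          exact ⟨d, by simp, List.mem_map_of_mem hc⟩
        · rw [List.forall_mem_cons]
          exact ⟨⟨h1, ⟨v, h⟩⟩, h2⟩
    · rintro ⟨c', hc', h2⟩
      rw [List.mem_append] at hc'
      rcases hc' with hc' | hc'
      · split_ifs at hc' with hnil
        · rw [List.mem_map] at hc'
          obtain ⟨c, hc, rfl⟩ := hc'
          rw [List.forall_mem_cons] at h2
          have h3 : σ r.1 = [] := h2.1
          exact ⟨h3 ▸ hnil, c, hc, h2.2⟩
        · simp at hc'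
      · rw [List.mem_flatMap] at hc'
        obtain ⟨d, -, hc'⟩ := hc'
        rw [List.mem_map] at hc'
        obtain ⟨c, hc, rfl⟩ := hc'
        rw [List.forall_mem_cons] at h2
        exact ⟨h2.1.1, c, hc, h2.2⟩

theorem choices_ok [Fintype A] (rs : List (ℕ × Language A)) (h : ∀ r ∈ rs, r.2.IsRegular) :
    ∀ c ∈ choices rs, ∀ r ∈ c, r.2.1.IsRegular ∧ (r.2.2 = none → [] ∈ r.2.1) ∧
      ∀ d, r.2.2 = some d → ∀ u ∈ r.2.1, u ∈ SW d := by
  induction rs with
  | nil => simp [choices]
  | cons r rs ih =>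
    rw [List.forall_mem_cons] at h
    have ih' := ih h.2
    rw [choices_cons]
    intro c' hc'
    rw [List.mem_append] at hc'
    rcases hc' with hc' | hc'
    · split_ifs at hc' with hnil
      · rw [List.mem_map] at hc'
        obtain ⟨c, hc, rfl⟩ := hc'
        rw [List.forall_mem_cons]
        refine ⟨⟨reg_eps, fun _ => rfl, ?_⟩, ih' c hc⟩
        intro d hd
        simp at hd
      · simp at hc'
    · rw [List.mem_flatMap] at hc'
      obtain ⟨d, -, hc'⟩ := hc'
      rw [List.mem_map] at hc'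
      obtain ⟨c, hc, rfl⟩ := hc'
      rw [List.forall_mem_cons]
      refine ⟨⟨h.1.inf (reg_SW d), ?_, ?_⟩, ih' c hc⟩
      · intro hd
        simp at hd
      · intro d' hd' u hu
        simp only [Option.some.injEq] at hd'
        subst hd'
        exact hu.2

/-- the nice queries of a query -/
noncomputable def toNQ [Fintype A] (φ : SCQ A ℕ) : List (NQ A) :=
  (Finset.univ : Finset A).toList.flatMap
    (fun a => (choices φ.regs).map (fun c => ⟨a, φ.eqs, c⟩))

theorem toNQ_ok [Fintype A] (φ : SCQ A ℕ) (h : φ.Reg) : ∀ q ∈ toNQ φ, q.OK := by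
  intro q hq
  unfold toNQ at hq
  rw [List.mem_flatMap] at hq
  obtain ⟨a, -, hq⟩ := hq
  rw [List.mem_map] at hq
  obtain ⟨c, hc, rfl⟩ := hq
  exact choices_ok φ.regs h c hc

theorem toNQ_lang [Fintype A] (φ : SCQ A ℕ) (u : List A) (hu : u ≠ []) :
    u ∈ φ.lang 0 ↔ ∃ q ∈ toNQ φ, u ∈ q.lang := by
  constructor
  · rintro ⟨σ, h1, ⟨h2, h3⟩, h4⟩
    obtain ⟨c, hc, h5⟩ := (choices_sound φ.regs σ).mp h3
    rcases u with _ | ⟨a, v⟩
    · exact absurd rfl hu
    · refine ⟨⟨a, φ.eqs, c⟩, ?_, σ, h1, ⟨h2, h5⟩, h4, ⟨v, rfl⟩⟩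
      unfold toNQ
      rw [List.mem_flatMap]
      exact ⟨a, by simp, List.mem_map_of_mem hc⟩
  · rintro ⟨q, hq, hu⟩
    unfold toNQ at hq
    rw [List.mem_flatMap] at hq
    obtain ⟨a, -, hq⟩ := hq
    rw [List.mem_map] at hq
    obtain ⟨c, hc, rfl⟩ := hq
    obtain ⟨σ, h1, ⟨h2, h3⟩, h4, -⟩ := hu
    exact ⟨σ, h1, ⟨h2, (choices_sound φ.regs σ).mpr ⟨c, hc, h3⟩⟩, h4⟩

/-- part B -/
theorem union : UnionStatement := by
  classical
  intro A _ l hl
  set L : List (NQ A) := l.flatMap toNQ with hL
  set Q : Fin L.length → NQ A := L.get with hQ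
  have hOK : ∀ i, (Q i).OK := by
    intro i
    have : Q i ∈ L := L.get_mem i
    rw [hL, List.mem_flatMap] at this
    obtain ⟨φ, hφ, hq⟩ := this
    exact toNQ_ok φ (hl φ hφ) _ hq
  have hlang : ∀ u, u ≠ [] → ((∃ i, u ∈ (Q i).lang) ↔ ∃ φ ∈ l, u ∈ φ.lang 0) := by
    intro u hu
    constructor
    · rintro ⟨i, hi⟩
      have : Q i ∈ L := L.get_mem i
      rw [hL, List.mem_flatMap] at this
      obtain ⟨φ, hφ, hq⟩ := this
      exact ⟨φ, hφ, (toNQ_lang φ u hu).mpr ⟨_, hq, hi⟩⟩
    · rintro ⟨φ, hφ, h⟩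
      obtain ⟨q, hq, hu'⟩ := (toNQ_lang φ u hu).mp h
      have : q ∈ L := by
        rw [hL, List.mem_flatMap]
        exact ⟨φ, hφ, hq⟩
      obtain ⟨i, hi⟩ := List.get_of_mem this
      exact ⟨i, by rw [hQ, hi]; exact hu'⟩
  by_cases hnil : ∃ φ ∈ l, [] ∈ φ.lang 0
  · obtain ⟨ψ, hψ, hψl⟩ := transfer VV.w (big Q) (big_reg Q hOK)
    refine ⟨ψ, hψ, ?_⟩
    rw [hψl]
    ext u
    rw [big_lang Q hOK]
    by_cases hu : u = []
    · subst hu
      exact ⟨fun _ => hnil, fun _ => Or.inl rfl⟩
    · have := hlang u hu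
      simp only [hu, false_or]
      exact this
  · set Φ : SCQ A (VV L.length A) := ⟨(big Q).eqs, (VV.w, Epsᶜ) :: (big Q).regs⟩ with hΦ
    have hΦreg : Φ.Reg := by
      intro r hr
      rcases List.mem_cons.mp hr with rfl | h
      · exact reg_eps.compl
      · exact big_reg Q hOK r h
    obtain ⟨ψ, hψ, hψl⟩ := transfer VV.w Φ hΦreg
    refine ⟨ψ, hψ, ?_⟩
    rw [hψl]
    ext u
    have hΦl : u ∈ Φ.lang VV.w ↔ u ∈ (big Q).lang VV.w ∧ u ≠ [] := by
      constructor
      · rintro ⟨σ, h1, ⟨h2, h3⟩, h4⟩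
        rw [List.forall_mem_cons] at h3
        refine ⟨⟨σ, h1, ⟨h2, h3.2⟩, h4⟩, ?_⟩
        intro hu
        exact h3.1 (h4.trans hu)
      · rintro ⟨⟨σ, h1, ⟨h2, h3⟩, h4⟩, hu⟩
        refine ⟨σ, h1, ⟨h2, ?_⟩, h4⟩
        rw [List.forall_mem_cons]
        refine ⟨?_, h3⟩
        intro h5
        exact hu (h4.symm.trans h5)
    rw [hΦl, big_lang Q hOK]
    by_cases hu : u = []
    · subst hu
      constructor
      · rintro ⟨-, h⟩
        exact absurd rfl h
      · intro h
        exact absurd h hnil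
    · have := hlang u hu
      simp only [hu, false_or, ne_eq, not_false_eq_true, and_true]
      exact this

end Pool.Agent.Helper37.FCUnion
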