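import Pool.Agent.Helper37.KGDefs

/-!
# Computing the collapse sequence from a rank function on points
-/

set_option autoImplicit false

namespace Pool.Agent.Helper37.KG

theorem FiniteLengthMod.trans {L : Type 1} [Lattice L] {θ : L → L → Prop} {a d b : L}
    (h1 : FiniteLengthMod θ a d) (h2 : FiniteLengthMod θ d b) : FiniteLengthMod θ a b := by
  obtain ⟨n1, c1, m1, s1, t1, g1⟩ := h1
  obtain ⟨n2, c2, m2, s2, t2, g2⟩ := h2
  refine ⟨n1 + n2, fun i => if i ≤ n1 then c1 i else c2 (i - n1), ?_, ?_, ?_, ?_⟩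
  · intro i j hij
    dsimp only
    split_ifs with hi hj hj
    · exact m1 hij
    · calc c1 i ≤ c1 n1 := m1 hi
        _ = c2 0 := by rw [t1, s2]
        _ ≤ c2 (j - n1) := m2 (Nat.zero_le _)
    · omega
    · exact m2 (by omega)
  · simp [s1]
  · dsimp only
    split_ifs with h
    · have : n2 = 0 := by omega
      subst this
      simp only [add_zero]
      rw [t1, ← s2, t2]
    · rw [show n1 + n2 - n1 = n2 by omega, t2]
  · intro i hi d' hd1 hd2
    dsimp only at hd1 hd2 ⊢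
    by_cases hlt : i + 1 ≤ n1
    · rw [if_pos (by omega : i ≤ n1)] at hd1
      rw [if_pos hlt] at hd2
      rw [if_pos (by omega : i ≤ n1), if_pos hlt]
      exact g1 i (by omega) d' hd1 hd2
    · rw [if_neg hlt] at hd2 ⊢
      have e1 : (if i ≤ n1 then c1 i else c2 (i - n1)) = c2 (i - n1) := by
        split_ifs with h
        · have : i = n1 := by omega
          subst this
          simp [t1, s2]
        · rfl
      rw [e1] at hd1 ⊢
      have e2 : i + 1 - n1 = (i - n1) + 1 := by omega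
      rw [e2] at hd2 ⊢
      exact g2 (i - n1) (by omega) d' hd1 hd2

/-- A representation of a lattice by sets of ranked points. -/
structure Ranked {L : Type 1} [Lattice L] {X : Type} (e : L → Set X) (rank : X → ℕ) : Prop where
  inf : ∀ a b, e (a ⊓ b) = e a ∩ e b
  sup : ∀ a b, e (a ⊔ b) = e a ∪ e b
  inj : Function.Injective e
  sep : ∀ p q, p ≠ q → ∃ d, (p ∈ e d ∧ q ∉ e d) ∨ (q ∈ e d ∧ p ∉ e d)
  lower : ∀ a b n p, p ∈ e b → p ∉ e a → rank p = n + 1 →
    ∃ q, q ≠ p ∧ q ∈ e b ∧ q ∉ e a ∧ n ≤ rank q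
  fin : ∀ a b n, (∀ p, p ∈ e b → p ∉ e a → rank p ≤ n) →
    {p | p ∈ e b ∧ p ∉ e a ∧ rank p = n}.Finite

namespace Ranked

variable {L : Type 1} [Lattice L] {X : Type} {e : L → Set X} {rank : X → ℕ}

theorem mono (h : Ranked e rank) {a b : L} (hab : a ≤ b) : e a ⊆ e b := by
  have := h.inf a b
  rw [inf_eq_left.mpr hab] at this
  rw [this]
  exact Set.inter_subset_right

theorem exists_mid (h : Ranked e rank) {a b : L} (hab : a ≤ b) {p q : X} (hpq : p ≠ q)
    (hpb : p ∈ e b) (hpa : p ∉ e a) (hqb : q ∈ e b) (hqa : q ∉ e a) :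
    ∃ d, a ≤ d ∧ d ≤ b ∧ (∃ r, (r = p ∨ r = q) ∧ r ∈ e d ∧ r ∉ e a) ∧
      (∃ r, (r = p ∨ r = q) ∧ r ∈ e b ∧ r ∉ e d) := by
  obtain ⟨d, hd⟩ := h.sep p q hpq
  refine ⟨(d ⊓ b) ⊔ a, le_sup_right, sup_le inf_le_right hab, ?_, ?_⟩
  · rcases hd with ⟨h1, h2⟩ | ⟨h1, h2⟩
    · exact ⟨p, Or.inl rfl, by rw [h.sup, h.inf]; exact Or.inl ⟨h1, hpb⟩, hpa⟩
    · exact ⟨q, Or.inr rfl, by rw [h.sup, h.inf]; exact Or.inl ⟨h1, hqb⟩, hqa⟩
  · rcases hd with ⟨h1, h2⟩ | ⟨h1, h2⟩
    · refine ⟨q, Or.inr rfl, hqb, ?_⟩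
      rw [h.sup, h.inf]
      rintro (⟨h3, _⟩ | h3)
      · exact h2 h3
      · exact hqa h3
    · refine ⟨p, Or.inl rfl, hpb, ?_⟩
      rw [h.sup, h.inf]
      rintro (⟨h3, _⟩ | h3)
      · exact h2 h3
      · exact hpa h3

theorem finiteLength (h : Ranked e rank) (n : ℕ)
    (ih : ∀ a b : L, collapse (n : Ordinal.{0}) a b ↔
      ∀ p, n ≤ rank p → (p ∈ e a ↔ p ∈ e b)) :
    ∀ (N : ℕ) (a b : L), a ≤ b → (∀ p, p ∈ e b → p ∉ e a → rank p ≤ n) →
      {p | p ∈ e b ∧ p ∉ e a ∧ rank p = n}.ncard ≤ N →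
      FiniteLengthMod (collapse (n : Ordinal.{0})) a b := by
  intro N
  induction N using Nat.strong_induction_on with
  | _ N IH =>
  intro a b hab hr hN
  by_cases hs : ∀ d, a ≤ d → d ≤ b →
      collapse (n : Ordinal.{0}) a d ∨ collapse (n : Ordinal.{0}) d b
  · refine ⟨1, fun i => if i = 0 then a else b, ?_, by simp, by simp, ?_⟩
    · intro i j hij
      dsimp only
      split_ifs with h1 h2
      · exact le_refl _
      · exact hab
      · omega
      · exact le_refl _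
    · intro i hi d hd1 hd2
      have : i = 0 := by omega
      subst this
      simp at hd1 hd2 ⊢
      exact hs d hd1 hd2
  · push Not at hs
    obtain ⟨d, had, hdb, h1, h2⟩ := hs
    rw [ih] at h1 h2
    push Not at h1 h2
    obtain ⟨p, hp, hp'⟩ := h1
    obtain ⟨q, hq, hq'⟩ := h2
    have hp1 : p ∈ e d ∧ p ∉ e a := by
      rcases hp' with ⟨x1, x2⟩ | ⟨x1, x2⟩
      · exact absurd (h.mono had x1) x2
      · exact ⟨x2, x1⟩
    have hq1 : q ∈ e b ∧ q ∉ e d := by
      rcases hq' with ⟨x1, x2⟩ | ⟨x1, x2⟩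
      · exact absurd (h.mono hdb x1) x2
      · exact ⟨x2, x1⟩
    have hfin := h.fin a b n hr
    have hpn : rank p = n := le_antisymm (hr p (h.mono hdb hp1.1) hp1.2) hp
    have hqn : rank q = n := le_antisymm (hr q hq1.1 (fun x => hq1.2 (h.mono had x))) hq
    have c1 : {p | p ∈ e d ∧ p ∉ e a ∧ rank p = n}.ncard <
        {p | p ∈ e b ∧ p ∉ e a ∧ rank p = n}.ncard := by
      apply Set.ncard_lt_ncard _ hfin
      have hsub : {p | p ∈ e d ∧ p ∉ e a ∧ rank p = n} ⊆ {p | p ∈ e b ∧ p ∉ e a ∧ rank p = n} :=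
        fun x hx => ⟨h.mono hdb hx.1, hx.2⟩
      rw [Set.ssubset_iff_of_subset hsub]
      exact ⟨q, ⟨hq1.1, fun x => hq1.2 (h.mono had x), hqn⟩, fun x => hq1.2 x.1⟩
    have c2 : {p | p ∈ e b ∧ p ∉ e d ∧ rank p = n}.ncard <
        {p | p ∈ e b ∧ p ∉ e a ∧ rank p = n}.ncard := by
      apply Set.ncard_lt_ncard _ hfin
      have hsub : {p | p ∈ e b ∧ p ∉ e d ∧ rank p = n} ⊆ {p | p ∈ e b ∧ p ∉ e a ∧ rank p = n} :=
        fun x hx => ⟨hx.1, fun y => hx.2.1 (h.mono had y), hx.2.2⟩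
      rw [Set.ssubset_iff_of_subset hsub]
      exact ⟨p, ⟨h.mono hdb hp1.1, hp1.2, hpn⟩, fun x => x.2.1 hp1.1⟩
    exact FiniteLengthMod.trans
      (IH _ (lt_of_lt_of_le c1 hN) a d had
        (fun x hx hx' => hr x (h.mono hdb hx) hx') (le_refl _))
      (IH _ (lt_of_lt_of_le c2 hN) d b hdb
        (fun x hx hx' => hr x hx (fun y => hx' (h.mono had y))) (le_refl _))

theorem collapse_iff (h : Ranked e rank) (n : ℕ) : ∀ a b : L,
    collapse (n : Ordinal.{0}) a b ↔ ∀ p, n ≤ rank p → (p ∈ e a ↔ p ∈ e b) := by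
  induction n with
  | zero =>
    intro a b
    rw [Nat.cast_zero, collapse_zero]
    constructor
    · rintro rfl; simp
    · intro hp
      exact h.inj (Set.ext fun p => hp p (Nat.zero_le _))
  | succ n ih =>
    intro a b
    rw [Nat.cast_add, Nat.cast_one, collapse_succ]
    have hab : a ⊓ b ≤ a ⊔ b := inf_le_sup
    constructor
    · rintro ⟨N, c, hm, h0, hN, hc⟩
      by_contra hcon
      push Not at hcon
      obtain ⟨p, hp, hp'⟩ := hcon
      have hpI : p ∈ e (a ⊔ b) ∧ p ∉ e (a ⊓ b) := by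
        rw [h.sup, h.inf]
        rcases hp' with ⟨x1, x2⟩ | ⟨x1, x2⟩
        · exact ⟨Or.inl x1, fun y => x2 y.2⟩
        · exact ⟨Or.inr x2, fun y => x1 y.1⟩
      -- find the jump
      have key : ∀ k, p ∉ e (c 0) → p ∈ e (c k) → ∃ i < k, p ∉ e (c i) ∧ p ∈ e (c (i + 1)) := by
        intro k
        induction k with
        | zero => intro x y; exact absurd y x
        | succ k ihk =>
          intro x y
          by_cases hk : p ∈ e (c k)
          · obtain ⟨i, hi, h3⟩ := ihk x hk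
            exact ⟨i, by omega, h3⟩
          · exact ⟨k, by omega, hk, y⟩
      rw [← h0] at hpI
      rw [← hN] at hpI
      obtain ⟨i, hi, hpi, hpi'⟩ := key N hpI.2 hpI.1
      obtain ⟨m, hm'⟩ : ∃ m, rank p = m + 1 := ⟨rank p - 1, by omega⟩
      obtain ⟨q, hqp, hq1, hq2, hq3⟩ := h.lower (c i) (c (i + 1)) m p hpi' hpi hm'
      obtain ⟨d, hd1, hd2, ⟨r, hr, hr1, hr2⟩, ⟨t, ht, ht1, ht2⟩⟩ :=
        h.exists_mid (hm (Nat.le_succ i)) hqp.symm hpi' hpi hq1 hq2
      have hrn : n ≤ rank r := by rcases hr with rfl | rfl <;> omega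
      have htn : n ≤ rank t := by rcases ht with rfl | rfl <;> omega
      rcases hc i hi d hd1 hd2 with h4 | h4
      · rw [ih] at h4
        exact hr2 ((h4 r hrn).mpr hr1)
      · rw [ih] at h4
        exact ht2 ((h4 t htn).mpr ht1)
    · intro hp
      apply h.finiteLength n ih _ _ _ hab _ (le_refl _)
      intro p hp1 hp2
      by_contra hlt
      push Not at hlt
      have := hp p hlt
      rw [h.sup] at hp1
      rw [h.inf] at hp2
      rcases hp1 with x | x
      · exact hp2 ⟨x, this.mp x⟩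
      · exact hp2 ⟨this.mpr x, x⟩

end Ranked

end Pool.Agent.Helper37.KG
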