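import Mathlib

/-!
# Serial rings, Krull dimension, lattice of pp formulas, Krull-Gabriel dimension

All definitions used by the statement of the hand-in `MP_9ad289_al.OddKrullGabriel`.
-/

set_option autoImplicit false

namespace Pool.Agent.Helper37.KG

open MulOpposite

/-! ## Serial rings -/

/-- A module is uniserial if its submodules are totally ordered by inclusion. -/
def IsUniserial (A M : Type) [Ring A] [AddCommGroup M] [Module A M] : Prop :=
  ∀ N P : Submodule A M, N ≤ P ∨ P ≤ N

/-- A primitive idempotent: a nonzero idempotent which is not the sum of two nonzero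
orthogonal idempotents. -/
def IsPrimitiveIdem {R : Type} [Ring R] (e : R) : Prop :=
  e * e = e ∧ e ≠ 0 ∧
    ∀ f g : R, f * f = f → g * g = g → f * g = 0 → g * f = 0 → f + g = e → f = 0 ∨ g = 0

/-- A ring is serial if `1` is a finite sum of pairwise orthogonal primitive idempotents `e i`
such that every right module `(e i) R` and every left module `R (e i)` is uniserial.
Right `R`-modules are modules over `Rᵐᵒᵖ`. -/
def IsSerialRing (R : Type) [Ring R] : Prop :=
  ∃ (n : ℕ) (e : Fin n → R),
    ∑ i, e i = 1 ∧ (∀ i, IsPrimitiveIdem (e i)) ∧ (∀ i j, i ≠ j → e i * e j = 0) ∧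
    (∀ i, IsUniserial Rᵐᵒᵖ (Submodule.span Rᵐᵒᵖ ({e i} : Set R))) ∧
    (∀ i, IsUniserial R (Submodule.span R ({e i} : Set R)))

/-! ## Krull dimension (Gabriel-Rentschler) -/

/-- `DevLE α a b`: the interval `[a, b]` of the poset `P` has deviation at most `α`, i.e. in every
descending sequence inside `[a, b]` all but finitely many factors are trivial or have deviation
smaller than `α`. -/
def DevLE {P : Type} [PartialOrder P] (α : Ordinal.{0}) (a b : P) : Prop :=
  ∀ f : ℕ → P, Antitone f → (∀ i, a ≤ f i ∧ f i ≤ b) →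
    ∃ N : ℕ, ∀ i, N ≤ i → f (i + 1) = f i ∨ ∃ β, ∃ _ : β < α, DevLE β (f (i + 1)) (f i)
termination_by α

/-- The (right) Krull dimension of the nonzero ring `R` is the ordinal `α`: the deviation of the
lattice of right ideals is at most `α` and at most no smaller ordinal. -/
def HasKrullDim (R : Type) [Ring R] (α : Ordinal.{0}) : Prop :=
  DevLE α (⊥ : Submodule Rᵐᵒᵖ R) ⊤ ∧ ∀ β < α, ¬ DevLE β (⊥ : Submodule Rᵐᵒᵖ R) ⊤

/-! ## Positive primitive formulas in one variable -/

/-- A pp formula in one free variable `x` for right `R`-modules: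
`∃ y₁ … yₙ, ⋀ⱼ (x * r j + ∑ᵢ yᵢ * s i j = 0)`, with `m` equations. -/
structure PPFormula (R : Type) where
  /-- number of quantified variables -/
  n : ℕ
  /-- number of equations -/
  m : ℕ
  /-- coefficients of the free variable -/
  r : Fin m → R
  /-- coefficients of the quantified variables -/
  s : Fin n → Fin m → R

/-- The subgroup of a right `R`-module `M` defined by a pp formula. -/
def PPFormula.eval {R : Type} [Ring R] (φ : PPFormula R) (M : ModuleCat.{0} Rᵐᵒᵖ) :
    AddSubgroup M where
  carrier := {x | ∃ y : Fin φ.n → M, ∀ j, op (φ.r j) • x + ∑ i, op (φ.s i j) • y i = 0}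
  zero_mem' := ⟨0, fun j => by simp⟩
  add_mem' := by
    rintro a b ⟨y, hy⟩ ⟨z, hz⟩
    refine ⟨y + z, fun j => ?_⟩
    have h1 := hy j
    have h2 := hz j
    simp only [Pi.add_apply, smul_add, Finset.sum_add_distrib]
    calc _ = (op (φ.r j) • a + ∑ i, op (φ.s i j) • y i)
        + (op (φ.r j) • b + ∑ i, op (φ.s i j) • z i) := by abel
      _ = 0 := by rw [h1, h2, add_zero]
  neg_mem' := by
    rintro a ⟨y, hy⟩
    refine ⟨-y, fun j => ?_⟩
    have h1 := hy j
    simp only [Pi.neg_apply, smul_neg, Finset.sum_neg_distrib]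
    rw [← neg_add, h1, neg_zero]

/-- Conjunction of two pp formulas. -/
def PPFormula.conj {R : Type} [Ring R] (φ ψ : PPFormula R) : PPFormula R where
  n := φ.n + ψ.n
  m := φ.m + ψ.m
  r := Fin.append φ.r ψ.r
  s := Fin.append (fun i => Fin.append (φ.s i) (fun _ => 0))
    (fun i => Fin.append (fun _ => 0) (ψ.s i))

theorem PPFormula.eval_conj {R : Type} [Ring R] (φ ψ : PPFormula R) (M : ModuleCat.{0} Rᵐᵒᵖ) :
    (φ.conj ψ).eval M = φ.eval M ⊓ ψ.eval M := by
  obtain ⟨n, m, r, s⟩ := φ
  obtain ⟨n', m', r', s'⟩ := ψ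
  ext x
  constructor
  · rintro ⟨y, hy⟩
    change ∀ j : Fin (m + m'), op (Fin.append r r' j) • x + ∑ i : Fin (n + n'),
      op (Fin.append (fun i => Fin.append (s i) (fun _ => 0))
      (fun i => Fin.append (fun _ => 0) (s' i)) i j) • y i = 0 at hy
    refine ⟨⟨fun i => y (Fin.castAdd _ i), fun j => ?_⟩, ⟨fun i => y (Fin.natAdd _ i), fun j => ?_⟩⟩
    · have := hy (Fin.castAdd _ j)
      simpa [Fin.sum_univ_add] using this
    · have := hy (Fin.natAdd _ j)
      simpa [Fin.sum_univ_add] using this
  · rintro ⟨⟨y, hy⟩, ⟨z, hz⟩⟩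
    refine ⟨(Fin.append y z : Fin (n + n') → M), ?_⟩
    change ∀ j : Fin (m + m'), op (Fin.append r r' j) • x + ∑ i : Fin (n + n'),
      op (Fin.append (fun i => Fin.append (s i) (fun _ => 0))
      (fun i => Fin.append (fun _ => 0) (s' i)) i j) • (Fin.append y z : Fin (n + n') → M) i = 0
    intro j
    refine Fin.addCases (fun j => ?_) (fun j => ?_) j
    · simpa [Fin.sum_univ_add] using hy j
    · simpa [Fin.sum_univ_add] using hz j

/-- The sum `φ + ψ` of two pp formulas: `∃ z, φ(z) ∧ ψ(x - z)`. -/
def PPFormula.sum {R : Type} [Ring R] (φ ψ : PPFormula R) : PPFormula R where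
  n := φ.n + ψ.n + 1
  m := φ.m + ψ.m
  r := Fin.append (fun _ => 0) ψ.r
  s := Fin.append (Fin.append (fun i => Fin.append (φ.s i) (fun _ => 0))
    (fun i => Fin.append (fun _ => 0) (ψ.s i)))
    (fun _ => Fin.append φ.r (fun j => - ψ.r j))

theorem PPFormula.eval_sum {R : Type} [Ring R] (φ ψ : PPFormula R) (M : ModuleCat.{0} Rᵐᵒᵖ) :
    (φ.sum ψ).eval M = φ.eval M ⊔ ψ.eval M := by
  obtain ⟨n, m, r, s⟩ := φ
  obtain ⟨n', m', r', s'⟩ := ψ
  ext x
  rw [AddSubgroup.mem_sup]
  constructor
  · rintro ⟨y, hy⟩
    change Fin (n + n' + 1) → M at y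
    change ∀ j : Fin (m + m'), op (Fin.append (fun _ => 0) r' j) • x + ∑ i : Fin (n + n' + 1),
      op (Fin.append (Fin.append (fun i => Fin.append (s i) (fun _ => 0))
        (fun i => Fin.append (fun _ => 0) (s' i)))
        (fun _ => Fin.append r (fun j => - r' j)) i j) • y i = 0 at hy
    refine ⟨y (Fin.natAdd _ 0), ⟨fun i => y (Fin.castAdd _ (Fin.castAdd _ i)), fun j => ?_⟩,
      x - y (Fin.natAdd _ 0), ⟨fun i => y (Fin.castAdd _ (Fin.natAdd _ i)), fun j => ?_⟩, by abel⟩
    · have := hy (Fin.castAdd _ j)
      simp only [Fin.sum_univ_add, Fin.append_left, Fin.append_right, op_zero, zero_smul, zero_add,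
        Finset.sum_const_zero, add_zero, Finset.univ_unique, Finset.sum_singleton,
        Fin.default_eq_zero] at this
      rw [add_comm]
      exact this
    · have := hy (Fin.natAdd _ j)
      simp only [Fin.sum_univ_add, Fin.append_left, Fin.append_right, op_zero, zero_smul, zero_add,
        Finset.sum_const_zero, Finset.univ_unique, Finset.sum_singleton, op_neg, neg_smul,
        Fin.default_eq_zero] at this
      rw [smul_sub, ← this]
      abel
  · rintro ⟨a, ⟨y, hy⟩, b, ⟨z, hz⟩, rfl⟩
    change Fin n → M at y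
    change Fin n' → M at z
    refine ⟨(Fin.append (Fin.append y z) (fun _ => a) : Fin (n + n' + 1) → M), ?_⟩
    change ∀ j : Fin (m + m'), op (Fin.append (fun _ => 0) r' j) • (a + b) +
      ∑ i : Fin (n + n' + 1),
      op (Fin.append (Fin.append (fun i => Fin.append (s i) (fun _ => 0))
        (fun i => Fin.append (fun _ => 0) (s' i)))
        (fun _ => Fin.append r (fun j => - r' j)) i j) •
          (Fin.append (Fin.append y z) (fun _ => a) : Fin (n + n' + 1) → M) i = 0
    intro j
    refine Fin.addCases (fun j => ?_) (fun j => ?_) j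
    · have := hy j
      change op (r j) • a + ∑ i : Fin n, op (s i j) • y i = 0 at this
      simp only [Fin.sum_univ_add, Fin.append_left, Fin.append_right, op_zero, zero_smul, zero_add,
        Finset.sum_const_zero, add_zero, Finset.univ_unique, Finset.sum_singleton]
      rw [add_comm]
      exact this
    · have := hz j
      change op (r' j) • b + ∑ i : Fin n', op (s' i j) • z i = 0 at this
      simp only [Fin.sum_univ_add, Fin.append_left, Fin.append_right, op_zero, zero_smul, zero_add,
        Finset.sum_const_zero, Finset.univ_unique, Finset.sum_singleton, op_neg, neg_smul,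
        smul_add]
      rw [← this]
      abel

/-- The lattice of pp formulas in one variable for right `R`-modules: pp formulas are identified
when they define the same subgroup in every right `R`-module, and they are ordered by inclusion
of the subgroups which they define. The meet is conjunction and the join is the sum. -/
def PPLattice (R : Type) [Ring R] : Sublattice (∀ M : ModuleCat.{0} Rᵐᵒᵖ, AddSubgroup M) where
  carrier := {F | ∃ φ : PPFormula R, F = fun M => φ.eval M}
  supClosed' := by
    rintro _ ⟨φ, rfl⟩ _ ⟨ψ, rfl⟩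
    exact ⟨φ.sum ψ, by funext M; exact (PPFormula.eval_sum φ ψ M).symm⟩
  infClosed' := by
    rintro _ ⟨φ, rfl⟩ _ ⟨ψ, rfl⟩
    exact ⟨φ.conj ψ, by funext M; exact (PPFormula.eval_conj φ ψ M).symm⟩

/-! ## m-dimension of a lattice -/

/-- The interval `[a, b]` has finite length modulo the relation `θ`: there is a finite chain
from `a` to `b` such that, modulo `θ`, there is nothing strictly between consecutive terms. -/
def FiniteLengthMod {L : Type 1} [Lattice L] (θ : L → L → Prop) (a b : L) : Prop :=
  ∃ (n : ℕ) (c : ℕ → L), Monotone c ∧ c 0 = a ∧ c n = b ∧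
    ∀ i < n, ∀ d, c i ≤ d → d ≤ c (i + 1) → θ (c i) d ∨ θ d (c (i + 1))

/-- The transfinite sequence of congruences defining the m-dimension: `collapse 0` is equality,
`collapse (α + 1)` identifies `a` and `b` when `[a ⊓ b, a ⊔ b]` has finite length modulo
`collapse α`, and unions are taken at limit ordinals. -/
noncomputable def collapse {L : Type 1} [Lattice L] (α : Ordinal.{0}) : L → L → Prop :=
  Ordinal.limitRecOn α (fun a b => a = b)
    (fun _ θ a b => FiniteLengthMod θ (a ⊓ b) (a ⊔ b))
    (fun o _ θ a b => ∃ β, ∃ h : β < o, θ β h a b)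

/-- The m-dimension of the (nontrivial) lattice `L` is `α`: `α` is the least ordinal such that
`collapse (α + 1)` identifies all elements. -/
def HasMDim (L : Type 1) [Lattice L] (α : Ordinal.{0}) : Prop :=
  (∀ a b : L, collapse (α + 1) a b) ∧ ∀ β < α, ¬ ∀ a b : L, collapse (β + 1) a b

/-- The Krull-Gabriel dimension of the nonzero ring `R` is `α`: it is the m-dimension of the
lattice of pp formulas in one variable for right `R`-modules. -/
def HasKGDim (R : Type) [Ring R] (α : Ordinal.{0}) : Prop := HasMDim (PPLattice R) α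

theorem collapse_zero {L : Type 1} [Lattice L] (a b : L) : collapse 0 a b ↔ a = b := by
  unfold collapse
  rw [Ordinal.limitRecOn_zero]

theorem collapse_succ {L : Type 1} [Lattice L] (α : Ordinal.{0}) (a b : L) :
    collapse (α + 1) a b ↔ FiniteLengthMod (collapse α) (a ⊓ b) (a ⊔ b) := by
  unfold collapse
  rw [Ordinal.limitRecOn_add_one]

end Pool.Agent.Helper37.KG
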