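import Mathlib

/-!
# Diagonalisation of matrices over (two-sided) chain rings
-/

set_option autoImplicit false

namespace Pool.Agent.Helper37.KG

open Matrix

/-- at most one nonzero entry in each row and in each column -/
def PD {R : Type} [Ring R] {ι κ : Type} (B : Matrix ι κ R) : Prop :=
  (∀ i j j', B i j ≠ 0 → B i j' ≠ 0 → j = j') ∧ (∀ i i' j, B i j ≠ 0 → B i' j ≠ 0 → i = i')

/-- equivalent to a matrix with at most one nonzero entry in each row and column -/
def Diagble {R : Type} [Ring R] {ι κ : Type} [Fintype ι] [DecidableEq ι] [Fintype κ]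
    [DecidableEq κ] (A : Matrix ι κ R) : Prop :=
  ∃ (U U' : Matrix ι ι R) (V V' : Matrix κ κ R), U * U' = 1 ∧ U' * U = 1 ∧ V * V' = 1 ∧
    V' * V = 1 ∧ PD (U * A * V)

section
variable {R : Type} [Ring R] {ι κ : Type} [Fintype ι] [DecidableEq ι] [Fintype κ]
    [DecidableEq κ]

theorem Diagble.of_PD {A : Matrix ι κ R} (h : PD A) : Diagble A :=
  ⟨1, 1, 1, 1, by simp, by simp, by simp, by simp, by simpa using h⟩

theorem Diagble.of_mul {A : Matrix ι κ R} {P P' : Matrix ι ι R} {Q Q' : Matrix κ κ R}
    (h1 : P * P' = 1) (h2 : P' * P = 1) (h3 : Q * Q' = 1) (h4 : Q' * Q = 1)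
    (h : Diagble (P * A * Q)) : Diagble A := by
  obtain ⟨U, U', V, V', hU, hU', hV, hV', hp⟩ := h
  refine ⟨U * P, P' * U', Q * V, V' * Q', ?_, ?_, ?_, ?_, ?_⟩
  · rw [Matrix.mul_assoc, ← Matrix.mul_assoc P, h1, Matrix.one_mul, hU]
  · rw [Matrix.mul_assoc, ← Matrix.mul_assoc U', hU', Matrix.one_mul, h2]
  · rw [Matrix.mul_assoc, ← Matrix.mul_assoc V, hV, Matrix.one_mul, h3]
  · rw [Matrix.mul_assoc, ← Matrix.mul_assoc Q', h4, Matrix.one_mul, hV']
  · simpa only [Matrix.mul_assoc] using hp

theorem Diagble.of_submatrix {ι' κ' : Type} [Fintype ι'] [DecidableEq ι'] [Fintype κ']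
    [DecidableEq κ'] {A : Matrix ι κ R} (e : ι' ≃ ι) (f : κ' ≃ κ)
    (h : Diagble (A.submatrix e f)) : Diagble A := by
  obtain ⟨U, U', V, V', hU, hU', hV, hV', hp⟩ := h
  refine ⟨U.submatrix e.symm e.symm, U'.submatrix e.symm e.symm, V.submatrix f.symm f.symm,
    V'.submatrix f.symm f.symm, ?_, ?_, ?_, ?_, ?_⟩
  · rw [Matrix.submatrix_mul_equiv, hU, Matrix.submatrix_one_equiv]
  · rw [Matrix.submatrix_mul_equiv, hU', Matrix.submatrix_one_equiv]
  · rw [Matrix.submatrix_mul_equiv, hV, Matrix.submatrix_one_equiv]
  · rw [Matrix.submatrix_mul_equiv, hV', Matrix.submatrix_one_equiv]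
  · have hA : A = (A.submatrix e f).submatrix e.symm f.symm := by simp
    rw [hA, Matrix.submatrix_mul_equiv, Matrix.submatrix_mul_equiv]
    constructor
    · intro i j j' h1 h2
      exact f.symm.injective (hp.1 _ _ _ h1 h2)
    · intro i i' j h1 h2
      exact e.symm.injective (hp.2 _ _ _ h1 h2)

theorem Diagble.fromBlocks {ι' κ' : Type} [Fintype ι'] [DecidableEq ι'] [Fintype κ']
    [DecidableEq κ'] {A : Matrix ι κ R} {B : Matrix ι' κ' R} (h : Diagble A) (hB : PD B) :
    Diagble (Matrix.fromBlocks A 0 0 B) := by
  obtain ⟨U, U', V, V', hU, hU', hV, hV', hp⟩ := h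
  refine ⟨Matrix.fromBlocks U 0 0 1, Matrix.fromBlocks U' 0 0 1, Matrix.fromBlocks V 0 0 1,
    Matrix.fromBlocks V' 0 0 1, ?_, ?_, ?_, ?_, ?_⟩
  · simp [Matrix.fromBlocks_multiply, hU]
  · simp [Matrix.fromBlocks_multiply, hU']
  · simp [Matrix.fromBlocks_multiply, hV]
  · simp [Matrix.fromBlocks_multiply, hV']
  · simp only [Matrix.fromBlocks_multiply, Matrix.mul_zero, Matrix.zero_mul, add_zero, zero_add,
      Matrix.one_mul, Matrix.mul_one]
    constructor
    · rintro (i | i) (j | j) (j' | j') h1 h2
      · exact congrArg Sum.inl (hp.1 i j j' (by simpa using h1) (by simpa using h2))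
      · simp at h2
      · simp at h1
      · simp at h1
      · simp at h1
      · simp at h1
      · simp at h2
      · exact congrArg Sum.inr (hB.1 i j j' (by simpa using h1) (by simpa using h2))
    · rintro (i | i) (i' | i') (j | j) h1 h2
      · exact congrArg Sum.inl (hp.2 i i' j (by simpa using h1) (by simpa using h2))
      · simp at h1
      · simp at h2
      · simp at h1
      · simp at h1
      · simp at h2
      · simp at h1
      · exact congrArg Sum.inr (hB.2 i i' j (by simpa using h1) (by simpa using h2))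

end

/-- chain condition for left ideals and for right ideals -/
structure ChainRing (R : Type) [Ring R] : Prop where
  left : ∀ a b : R, (∃ r, a = r * b) ∨ (∃ r, b = r * a)
  right : ∀ a b : R, (∃ r, a = b * r) ∨ (∃ r, b = a * r)

theorem exists_dominating {R : Type} [Ring R] (hR : ChainRing R) {κ : Type}
    [Nonempty κ] (v : κ → R) (s : Finset κ) : ∃ j0, ∀ j ∈ s, ∃ t, v j = v j0 * t := by
  classical
  induction s using Finset.induction_on with
  | empty => exact ⟨Classical.arbitrary κ, by simp⟩
  | insert a s ha ih =>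
    obtain ⟨j0, h0⟩ := ih
    rcases hR.right (v a) (v j0) with ⟨t, ht⟩ | ⟨t, ht⟩
    · refine ⟨j0, fun j hj => ?_⟩
      rcases Finset.mem_insert.mp hj with rfl | hj
      · exact ⟨t, ht⟩
      · exact h0 j hj
    · refine ⟨a, fun j hj => ?_⟩
      rcases Finset.mem_insert.mp hj with rfl | hj
      · exact ⟨1, by simp⟩
      · obtain ⟨t', ht'⟩ := h0 j hj
        exact ⟨t * t', by rw [ht', ht, mul_assoc]⟩

theorem diagble_all {R : Type} [Ring R] (hR : ChainRing R) (n : ℕ) :
    ∀ (κ : Type) [Fintype κ] [DecidableEq κ] (A : Matrix (Fin n) κ R), Diagble A := by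
  induction n with
  | zero =>
    intro κ _ _ A
    apply Diagble.of_PD
    constructor
    · intro i; exact i.elim0
    · intro i; exact i.elim0
  | succ n ih =>
    intro κ _ _ A
    classical
    -- pass to rows `Fin n ⊕ Fin 1`
    apply Diagble.of_submatrix (finSumFinEquiv (m := n) (n := 1)) (Equiv.refl κ)
    generalize A.submatrix (finSumFinEquiv (m := n) (n := 1)) (Equiv.refl κ) = A
    rw [← Matrix.fromRows_toRows A]
    obtain ⟨U, U', V, V', hU, hU', hV, hV', hB⟩ := ih κ A.toRows₁
    refine Diagble.of_mul (P := Matrix.fromBlocks U 0 0 1) (P' := Matrix.fromBlocks U' 0 0 1)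
      (Q := V) (Q' := V') (by simp [Matrix.fromBlocks_multiply, hU])
      (by simp [Matrix.fromBlocks_multiply, hU']) hV hV' ?_
    rw [Matrix.fromBlocks_mul_fromRows, Matrix.fromRows_mul]
    simp only [Matrix.zero_mul, add_zero, zero_add, Matrix.one_mul]
    generalize U * A.toRows₁ * V = B at hB ⊢
    generalize A.toRows₂ * V = v
    -- step 2: clear what can be cleared in the last row
    let r : Matrix (Fin 1) (Fin n) R := fun _ i =>
      if h : ∃ t j, B i j ≠ 0 ∧ v 0 j = t * B i j then h.choose else 0
    let v' : Matrix (Fin 1) κ R := v - r * B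
    have hv' : ∀ j, v' 0 j = 0 ∨ ∀ i, ∃ s, B i j = s * v' 0 j := by
      intro j
      by_cases hz : ∀ i, B i j = 0
      · right
        intro i
        exact ⟨0, by rw [hz i, zero_mul]⟩
      · push Not at hz
        obtain ⟨i0, hi0⟩ := hz
        have hsum : (r * B) 0 j = r 0 i0 * B i0 j := by
          rw [Matrix.mul_apply]
          apply Finset.sum_eq_single i0
          · intro i _ hi
            have : B i j = 0 := by
              by_contra h
              exact hi (hB.2 i i0 j h hi0)
            rw [this, mul_zero]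
          · intro h; exact absurd (Finset.mem_univ _) h
        by_cases hex : ∃ t j, B i0 j ≠ 0 ∧ v 0 j = t * B i0 j
        · left
          have hr : r 0 i0 = hex.choose := dif_pos hex
          obtain ⟨j', hj', hj''⟩ := hex.choose_spec
          have : j' = j := hB.1 i0 j' j hj' hi0
          subst this
          show v 0 j' - (r * B) 0 j' = 0
          rw [hsum, hr, hj'']
          exact sub_self _
        · right
          have hr : r 0 i0 = 0 := dif_neg hex
          have hvj : v' 0 j = v 0 j := by
            show v 0 j - (r * B) 0 j = v 0 j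
            rw [hsum, hr, zero_mul, sub_zero]
          intro i
          by_cases hi : i = i0
          · subst hi
            rcases hR.left (B i j) (v 0 j) with h | ⟨t, ht⟩
            · rw [hvj]; exact h
            · exact absurd ⟨t, j, hi0, ht⟩ hex
          · have : B i j = 0 := by
              by_contra h
              exact hi (hB.2 i i0 j h hi0)
            exact ⟨0, by rw [this, zero_mul]⟩
    refine Diagble.of_mul (P := Matrix.fromBlocks 1 0 (-r) 1) (P' := Matrix.fromBlocks 1 0 r 1)
      (Q := 1) (Q' := 1) (by simp [Matrix.fromBlocks_multiply])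
      (by simp [Matrix.fromBlocks_multiply]) (by simp) (by simp) ?_
    rw [Matrix.fromBlocks_mul_fromRows, Matrix.mul_one]
    have e1 : (1 : Matrix (Fin n) (Fin n) R) * B + (0 : Matrix (Fin n) (Fin 1) R) * v = B := by
      simp
    have e2 : -r * B + (1 : Matrix (Fin 1) (Fin 1) R) * v = v' := by
      simp only [Matrix.neg_mul, Matrix.one_mul]
      rw [add_comm, ← sub_eq_add_neg]
    rw [e1, e2]
    clear_value v'
    by_cases h0 : ∀ j, v' 0 j = 0
    · apply Diagble.of_PD
      constructor
      · rintro (i | i) j j' h1 h2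
        · exact hB.1 i j j' h1 h2
        · fin_cases i
          exact absurd (h0 j) h1
      · rintro (i | i) (i' | i') j h1 h2
        · exact congrArg Sum.inl (hB.2 i i' j h1 h2)
        · fin_cases i'
          exact absurd (h0 j) h2
        · fin_cases i
          exact absurd (h0 j) h1
        · fin_cases i; fin_cases i'; rfl
    · push Not at h0
      obtain ⟨j1, hj1⟩ := h0
      have : Nonempty κ := ⟨j1⟩
      obtain ⟨j0, hj0⟩ := exists_dominating hR (fun j => v' 0 j) Finset.univ
      have hj0' : v' 0 j0 ≠ 0 := by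
        intro h
        obtain ⟨t, ht⟩ := hj0 j1 (Finset.mem_univ _)
        rw [h, zero_mul] at ht
        exact hj1 ht
      choose t ht using fun j => hj0 j (Finset.mem_univ j)
      rcases hv' j0 with h | hs
      · exact absurd h hj0'
      choose s hs using hs
      -- column operation
      let E : Matrix κ κ R := fun j k => if j = j0 ∧ k ≠ j0 then t k else 0
      have hEE : E * E = 0 := by
        ext j k
        rw [Matrix.mul_apply, Matrix.zero_apply]
        apply Finset.sum_eq_zero
        intro l _
        show (if j = j0 ∧ l ≠ j0 then t l else 0) * (if l = j0 ∧ k ≠ j0 then t k else 0) = 0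
        by_cases hl : l = j0
        · rw [if_neg (fun h => h.2 hl), zero_mul]
        · rw [if_neg (fun h => hl h.1) (c := l = j0 ∧ k ≠ j0), mul_zero]
      let S : Matrix (Fin n) (Fin 1) R := fun i _ => s i
      refine Diagble.of_mul (P := Matrix.fromBlocks 1 (-S) 0 1) (P' := Matrix.fromBlocks 1 S 0 1)
        (Q := 1 - E) (Q' := 1 + E) (by simp [Matrix.fromBlocks_multiply])
        (by simp [Matrix.fromBlocks_multiply]) ?_ ?_ ?_
      · rw [Matrix.sub_mul, Matrix.mul_add, Matrix.mul_add, hEE]; simp
      · rw [Matrix.add_mul, Matrix.mul_sub, Matrix.mul_sub, hEE]; simp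
      have e3 : (1 : Matrix (Fin n) (Fin n) R) * B + -S * v' = B - S * v' := by
        rw [Matrix.one_mul, Matrix.neg_mul, sub_eq_add_neg]
      have e4 : (0 : Matrix (Fin 1) (Fin n) R) * B + (1 : Matrix (Fin 1) (Fin 1) R) * v' = v' := by
        rw [Matrix.zero_mul, Matrix.one_mul, zero_add]
      rw [Matrix.fromBlocks_mul_fromRows, Matrix.fromRows_mul, e3, e4]
      have hE : ∀ {m : ℕ} (C : Matrix (Fin m) κ R) (i : Fin m) (k : κ),
          (C * ((1 : Matrix κ κ R) - E)) i k =
            if k = j0 then C i j0 else C i k - C i j0 * t k := by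
        intro m C i k
        rw [Matrix.mul_sub, Matrix.mul_one, Matrix.sub_apply, Matrix.mul_apply]
        have : ∑ j, C i j * E j k = if k = j0 then 0 else C i j0 * t k := by
          rw [Finset.sum_eq_single j0]
          · show C i j0 * (if j0 = j0 ∧ k ≠ j0 then t k else 0) = _
            by_cases hk : k = j0 <;> simp [hk]
          · intro j _ hj
            show C i j * (if j = j0 ∧ k ≠ j0 then t k else 0) = 0
            rw [if_neg (fun h => hj h.1), mul_zero]
          · intro h; exact absurd (Finset.mem_univ _) h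
        rw [this]
        by_cases hk : k = j0
        · subst hk; simp
        · simp [hk]
      -- split the columns
      apply Diagble.of_submatrix (Equiv.refl _) (Equiv.sumCompl (fun k => k ≠ j0))
      let M1 : Matrix (Fin n) {k // k ≠ j0} R := fun i k =>
        ((B - S * v') * ((1 : Matrix κ κ R) - E)) i k.1
      let w : Matrix (Fin 1) {k // ¬ (k ≠ j0)} R := fun i k =>
        (v' * ((1 : Matrix κ κ R) - E)) i k.1
      have hM : (fromRows ((B - S * v') * ((1 : Matrix κ κ R) - E))
          (v' * ((1 : Matrix κ κ R) - E))).submatrix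
          (Equiv.refl _) (Equiv.sumCompl (fun k => k ≠ j0)) = Matrix.fromBlocks M1 0 0 w := by
        ext i k
        rcases i with i | i <;> rcases k with k | k
        · rfl
        · have hk : k.1 = j0 := not_not.mp k.2
          show ((B - S * v') * ((1 : Matrix κ κ R) - E)) i k.1 = 0
          rw [hE, if_pos hk, Matrix.sub_apply, Matrix.mul_apply]
          simp only [Finset.univ_unique, Fin.default_eq_zero, Finset.sum_singleton]
          show B i j0 - (s i * v' 0 j0) = 0
          rw [hs i, sub_self]
        · show (v' * ((1 : Matrix κ κ R) - E)) i k.1 = 0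
          rw [hE, if_neg k.2]
          fin_cases i
          show v' 0 k.1 - v' 0 j0 * t k.1 = 0
          rw [ht k.1, sub_self]
        · rfl
      rw [hM]
      apply Diagble.fromBlocks (ih _ M1)
      constructor
      · intro i j j' _ _
        exact Subtype.ext ((not_not.mp j.2).trans (not_not.mp j'.2).symm)
      · intro i i' j _ _
        exact Subsingleton.elim _ _

end Pool.Agent.Helper37.KG
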