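import Pool.Agent.Helper37.KGRing

/-!
# The field `ℚ(X)` with the shift
-/

set_option autoImplicit false

namespace Pool.Agent.Helper37.KG

open Polynomial

/-- the field of rational functions -/
abbrev QX : Type := RatFunc ℚ

/-- the shift `X ↦ X + 1` -/
noncomputable def shift : RingAut QX :=
  IsFractionRing.ringEquivOfRingEquiv (A := ℚ[X]) (B := ℚ[X])
    (algEquivAevalXAddC (1 : ℚ)).toRingEquiv

theorem shift_algebraMap (p : ℚ[X]) :
    shift (algebraMap ℚ[X] QX p) = algebraMap ℚ[X] QX (p.comp (X + C 1)) := by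
  unfold shift
  rw [IsFractionRing.ringEquivOfRingEquiv_algebraMap]
  congr 1

theorem shift_pow_algebraMap (m : ℕ) (p : ℚ[X]) :
    (shift ^ m) (algebraMap ℚ[X] QX p) = algebraMap ℚ[X] QX (p.comp (X + C (m : ℚ))) := by
  induction m generalizing p with
  | zero => simp
  | succ m ih =>
    rw [pow_succ', RingAut.mul_apply, ih, shift_algebraMap, Polynomial.comp_assoc]
    congr 2
    simp
    ring

theorem shift_pow_symm_algebraMap (m : ℕ) (p : ℚ[X]) :
    (shift ^ m).symm (algebraMap ℚ[X] QX p) =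
      algebraMap ℚ[X] QX (p.comp (X - C (m : ℚ))) := by
  rw [RingEquiv.symm_apply_eq, shift_pow_algebraMap, Polynomial.comp_assoc]
  simp

/-- the `X`-adic valuation -/
noncomputable def vX : Valuation QX (WithZero (Multiplicative ℤ)) :=
  IsDedekindDomain.HeightOneSpectrum.valuation QX (Polynomial.idealX ℚ)

theorem vX_le (n : ℕ) (p q : ℚ[X]) (h : p = q * X ^ n) :
    vX (algebraMap ℚ[X] QX p) ≤ WithZero.exp (-(n : ℤ)) := by
  have h1 : vX (algebraMap ℚ[X] QX p) = (Polynomial.idealX ℚ).intValuation p :=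
    IsDedekindDomain.HeightOneSpectrum.valuation_of_algebraMap _ _
  rw [h1, IsDedekindDomain.HeightOneSpectrum.intValuation_le_pow_iff_mem]
  rw [Polynomial.idealX_span, Ideal.span_singleton_pow, Ideal.mem_span_singleton, h]
  exact Dvd.intro_left _ rfl

/-- the valuation data -/
noncomputable def dataQX : VData QX shift where
  ν := fun x => -(WithZero.log (vX x))
  mul := by
    intro x y hx hy
    rw [map_mul, WithZero.log_mul ((Valuation.ne_zero_iff _).mpr hx)
      ((Valuation.ne_zero_iff _).mpr hy)]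
    ring
  add := by
    intro x y hx hy hxy
    have h := vX.map_add x y
    have h1 := (Valuation.ne_zero_iff vX).mpr hx
    have h2 := (Valuation.ne_zero_iff vX).mpr hy
    have h3 := (Valuation.ne_zero_iff vX).mpr hxy
    rcases le_max_iff.mp h with h | h
    · have := (WithZero.log_le_log h3 h1).mpr h
      omega
    · have := (WithZero.log_le_log h3 h2).mpr h
      omega
  surj := by
    intro n
    refine ⟨RatFunc.X ^ n, zpow_ne_zero _ RatFunc.X_ne_zero, ?_⟩
    have : vX RatFunc.X = WithZero.exp (-1) := Polynomial.valuation_X_eq_neg_one ℚ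
    rw [map_zpow₀, this, ← WithZero.exp_zsmul, WithZero.log_exp]
    simp
  approx := by
    intro m hm N
    have hcop : IsCoprime ((X : ℚ[X]) ^ N.toNat) ((X + C (m : ℚ)) ^ N.toNat) := by
      apply IsCoprime.pow
      refine ⟨-C ((m : ℚ)⁻¹), C ((m : ℚ)⁻¹), ?_⟩
      have hm0 : (m : ℚ) ≠ 0 := by exact_mod_cast (by omega : m ≠ 0)
      have : C ((m : ℚ)⁻¹) * C (m : ℚ) = 1 := by
        rw [← C_mul, inv_mul_cancel₀ hm0, C_1]
      linear_combination this
    obtain ⟨a, b, hab⟩ := hcop
    refine ⟨algebraMap ℚ[X] QX (b * (X + C (m : ℚ)) ^ N.toNat), ?_, ?_⟩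
    · by_cases h1 : algebraMap ℚ[X] QX (b * (X + C (m : ℚ)) ^ N.toNat) = 1
      · exact Or.inl h1
      right
      have h2 : algebraMap ℚ[X] QX (b * (X + C (m : ℚ)) ^ N.toNat) - 1 =
          algebraMap ℚ[X] QX ((-a) * X ^ N.toNat) := by
        rw [← map_one (algebraMap ℚ[X] QX), ← map_sub]
        congr 1
        linear_combination hab
      have h3 := vX_le N.toNat _ _ (rfl : (-a) * (X : ℚ[X]) ^ N.toNat = _)
      rw [← h2] at h3
      have h4 : vX (algebraMap ℚ[X] QX (b * (X + C (m : ℚ)) ^ N.toNat) - 1) ≠ 0 :=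
        (Valuation.ne_zero_iff _).mpr (sub_ne_zero.mpr h1)
      have := (WithZero.log_le_iff_le_exp h4).mpr h3
      omega
    · by_cases h1 : (shift ^ m).symm (algebraMap ℚ[X] QX (b * (X + C (m : ℚ)) ^ N.toNat)) = 0
      · exact Or.inl h1
      right
      have h2 : (shift ^ m).symm (algebraMap ℚ[X] QX (b * (X + C (m : ℚ)) ^ N.toNat)) =
          algebraMap ℚ[X] QX ((b.comp (X - C (m : ℚ))) * X ^ N.toNat) := by
        rw [shift_pow_symm_algebraMap]
        congr 1
        simp
      have h3 := vX_le N.toNat _ _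
        (rfl : (b.comp (X - C (m : ℚ))) * (X : ℚ[X]) ^ N.toNat = _)
      rw [← h2] at h3
      have h4 := (Valuation.ne_zero_iff vX).mpr h1
      have := (WithZero.log_le_iff_le_exp h4).mpr h3
      omega

end Pool.Agent.Helper37.KG
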