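import Pool.Agent.Helper37.KGPoints

/-!
# Lattices generated by two chains with the prescribed relations have m-dimension three
-/

set_option autoImplicit false

namespace Pool.Agent.Helper37.KG

theorem Kmem_total (κ κ' : Key) :
    (∀ c, Kmem κ c → Kmem κ' c) ∨ (∀ c, Kmem κ' c → Kmem κ c) := by
  rcases κ with _ | ⟨l, v⟩
  · right; intro c _; trivial
  rcases κ' with _ | ⟨l', v'⟩
  · left; intro c _; trivial
  by_cases h : l < l' ∨ (l = l' ∧ v ≤ v')
  · left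
    intro c
    cases c with
    | P i w => simp only [Kmem]; omega
    | T j => simp only [Kmem]; omega
    | Z => simp only [Kmem]; exact id
  · right
    intro c
    cases c with
    | P i w => simp only [Kmem]; omega
    | T j => simp only [Kmem]; omega
    | Z => simp only [Kmem]; exact id

/-- The abstract data computed for the lattice of pp formulas. -/
structure Frame (L : Type 1) [Lattice L] (R : Type) (κL κR : R → Key) (δ α : R → L) : Prop where
  surjL : ∀ κ, KValid κ → ∃ a, κL a = κ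
  surjR : ∀ κ, KValid κ → ∃ a, κR a = κ
  monoδ : ∀ a a', (∀ c, Kmem (κL a) c → Kmem (κL a') c) → δ a' ≤ δ a
  monoα : ∀ b b', (∀ c, Kmem (κR b) c → Kmem (κR b') c) → α b ≤ α b'
  star : ∀ a b c d, δ a ⊓ α b ≤ δ c ⊔ α d ↔ ∀ p, p ∉ rect (κL a) (κR b) (κL c) (κR d)
  joins : ∀ φ : L, ∃ s : Finset (R × R), IsLUB {x | ∃ p ∈ s, x = δ p.1 ⊓ α p.2} φ
  meets : ∀ φ : L, ∃ s : Finset (R × R), IsGLB {x | ∃ p ∈ s, x = δ p.1 ⊔ α p.2} φ

namespace Frame

variable {L : Type 1} [Lattice L] {R : Type} {κL κR : R → Key} {δ α : R → L}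

/-- points of an element of the lattice -/
def ev (_ : Frame L R κL κR δ α) (φ : L) : Set Point :=
  {p | ∃ a b, δ a ⊓ α b ≤ φ ∧ ¬ Kmem (κL a) p.1.1 ∧ Kmem (κR b) p.1.2}

variable (F : Frame L R κL κR δ α)
include F

theorem not_mem_of {φ : L} {p : Point} {c d : R} (h : φ ≤ δ c ⊔ α d) (hc : Kmem (κL c) p.1.1)
    (hd : ¬ Kmem (κR d) p.1.2) : p ∉ F.ev φ := by
  rintro ⟨a, b, hab, h1, h2⟩
  exact (F.star a b c d).mp (hab.trans h) p ⟨h1, h2, hc, hd⟩

theorem exists_upper (p : Point) (s : Finset (R × R))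
    (hs : ∀ q ∈ s, Kmem (κL q.1) p.1.1 ∨ ¬ Kmem (κR q.2) p.1.2) :
    ∃ c d, Kmem (κL c) p.1.1 ∧ ¬ Kmem (κR d) p.1.2 ∧ ∀ q ∈ s, δ q.1 ⊓ α q.2 ≤ δ c ⊔ α d := by
  classical
  induction s using Finset.induction_on with
  | empty =>
    obtain ⟨c, hc⟩ := F.surjL none trivial
    obtain ⟨d, hd⟩ := F.surjR (some (0, 0)) (Or.inr (le_refl _))
    refine ⟨c, d, by rw [hc]; trivial, ?_, by simp⟩
    rw [hd]
    obtain ⟨⟨c1, c2⟩, h1, h2, h3⟩ := p
    cases c2 with
    | P i w => simp [Kmem, Cut.Proper] at h2 ⊢; omega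
    | T j => simp [Kmem, Cut.Proper] at h2 ⊢; omega
    | Z => simp [Kmem]
  | insert q s hq ih =>
    obtain ⟨c, d, hc, hd, hcd⟩ := ih (fun q' hq' => hs q' (Finset.mem_insert_of_mem hq'))
    rcases hs q (Finset.mem_insert_self _ _) with h | h
    · -- use q.1
      rcases Kmem_total (κL q.1) (κL c) with h1 | h1
      · refine ⟨q.1, d, h, hd, fun q' hq' => ?_⟩
        rcases Finset.mem_insert.mp hq' with rfl | hq'
        · exact inf_le_left.trans le_sup_left
        · exact (hcd q' hq').trans (sup_le_sup_right (F.monoδ _ _ h1) _)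
      · refine ⟨c, d, hc, hd, fun q' hq' => ?_⟩
        rcases Finset.mem_insert.mp hq' with rfl | hq'
        · exact inf_le_left.trans ((F.monoδ _ _ h1).trans le_sup_left)
        · exact hcd q' hq'
    · rcases Kmem_total (κR q.2) (κR d) with h1 | h1
      · refine ⟨c, d, hc, hd, fun q' hq' => ?_⟩
        rcases Finset.mem_insert.mp hq' with rfl | hq'
        · exact inf_le_right.trans ((F.monoα _ _ h1).trans le_sup_right)
        · exact hcd q' hq'
      · refine ⟨c, q.2, hc, h, fun q' hq' => ?_⟩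
        rcases Finset.mem_insert.mp hq' with rfl | hq'
        · exact inf_le_right.trans le_sup_right
        · exact (hcd q' hq').trans (sup_le_sup_left (F.monoα _ _ h1) _)

theorem exists_lower (p : Point) (s : Finset (R × R))
    (hs : ∀ q ∈ s, ¬ Kmem (κL q.1) p.1.1 ∨ Kmem (κR q.2) p.1.2) :
    ∃ a b, ¬ Kmem (κL a) p.1.1 ∧ Kmem (κR b) p.1.2 ∧ ∀ q ∈ s, δ a ⊓ α b ≤ δ q.1 ⊔ α q.2 := by
  classical
  induction s using Finset.induction_on with
  | empty =>
    obtain ⟨c, hc⟩ := F.surjR none trivial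
    obtain ⟨d, hd⟩ := F.surjL (some (0, 0)) (Or.inr (le_refl _))
    refine ⟨d, c, ?_, by rw [hc]; trivial, by simp⟩
    rw [hd]
    obtain ⟨⟨c1, c2⟩, h1, h2, h3⟩ := p
    cases c1 with
    | P i w => simp [Kmem, Cut.Proper] at h1 ⊢; omega
    | T j => simp [Kmem, Cut.Proper] at h1 ⊢; omega
    | Z => simp [Kmem]
  | insert q s hq ih =>
    obtain ⟨a, b, ha, hb, hab⟩ := ih (fun q' hq' => hs q' (Finset.mem_insert_of_mem hq'))
    rcases hs q (Finset.mem_insert_self _ _) with h | h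
    · rcases Kmem_total (κL q.1) (κL a) with h1 | h1
      · refine ⟨a, b, ha, hb, fun q' hq' => ?_⟩
        rcases Finset.mem_insert.mp hq' with rfl | hq'
        · exact inf_le_left.trans ((F.monoδ _ _ h1).trans le_sup_left)
        · exact hab q' hq'
      · refine ⟨q.1, b, h, hb, fun q' hq' => ?_⟩
        rcases Finset.mem_insert.mp hq' with rfl | hq'
        · exact inf_le_left.trans le_sup_left
        · exact (inf_le_inf_right _ (F.monoδ _ _ h1)).trans (hab q' hq')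
    · rcases Kmem_total (κR q.2) (κR b) with h1 | h1
      · refine ⟨a, q.2, ha, h, fun q' hq' => ?_⟩
        rcases Finset.mem_insert.mp hq' with rfl | hq'
        · exact inf_le_right.trans le_sup_right
        · exact (inf_le_inf_left _ (F.monoα _ _ h1)).trans (hab q' hq')
      · refine ⟨a, b, ha, hb, fun q' hq' => ?_⟩
        rcases Finset.mem_insert.mp hq' with rfl | hq'
        · exact inf_le_right.trans ((F.monoα _ _ h1).trans le_sup_right)
        · exact hab q' hq'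

theorem mem_iff_of_lub {φ : L} {s : Finset (R × R)}
    (hs : IsLUB {x | ∃ p ∈ s, x = δ p.1 ⊓ α p.2} φ) (p : Point) :
    p ∈ F.ev φ ↔ ∃ q ∈ s, ¬ Kmem (κL q.1) p.1.1 ∧ Kmem (κR q.2) p.1.2 := by
  constructor
  · intro hp
    by_contra hcon
    push Not at hcon
    obtain ⟨c, d, hc, hd, hcd⟩ := F.exists_upper p s (fun q hq => by
      by_cases h : Kmem (κL q.1) p.1.1
      · exact Or.inl h
      · exact Or.inr (hcon q hq h))
    refine F.not_mem_of (φ := φ) (hs.2 ?_) hc hd hp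
    rintro _ ⟨q, hq, rfl⟩
    exact hcd q hq
  · rintro ⟨q, hq, h1, h2⟩
    exact ⟨q.1, q.2, hs.1 ⟨q, hq, rfl⟩, h1, h2⟩

theorem not_mem_iff_of_glb {φ : L} {s : Finset (R × R)}
    (hs : IsGLB {x | ∃ p ∈ s, x = δ p.1 ⊔ α p.2} φ) (p : Point) :
    p ∉ F.ev φ ↔ ∃ q ∈ s, Kmem (κL q.1) p.1.1 ∧ ¬ Kmem (κR q.2) p.1.2 := by
  constructor
  · intro hp
    by_contra hcon
    push Not at hcon
    obtain ⟨a, b, ha, hb, hab⟩ := F.exists_lower p s (fun q hq => by
      by_cases h : Kmem (κL q.1) p.1.1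
      · exact Or.inr (hcon q hq h)
      · exact Or.inl h)
    refine hp ⟨a, b, hs.2 ?_, ha, hb⟩
    rintro _ ⟨q, hq, rfl⟩
    exact hab q hq
  · rintro ⟨q, hq, h1, h2⟩
    exact F.not_mem_of (hs.1 ⟨q, hq, rfl⟩) h1 h2

theorem mem_δ (a : R) (p : Point) : p ∈ F.ev (δ a) ↔ ¬ Kmem (κL a) p.1.1 := by
  constructor
  · intro h hk
    obtain ⟨d, hd⟩ := F.surjR (some (0, 0)) (Or.inr (le_refl _))
    refine F.not_mem_of (φ := δ a) (c := a) (d := d) le_sup_left hk ?_ h
    rw [hd]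
    obtain ⟨⟨c1, c2⟩, h1, h2, h3⟩ := p
    cases c2 with
    | P i w => simp [Kmem, Cut.Proper] at h2 ⊢; omega
    | T j => simp [Kmem, Cut.Proper] at h2 ⊢; omega
    | Z => simp [Kmem]
  · intro h
    obtain ⟨b, hb⟩ := F.surjR none trivial
    exact ⟨a, b, inf_le_left, h, by rw [hb]; trivial⟩

theorem mem_α (b : R) (p : Point) : p ∈ F.ev (α b) ↔ Kmem (κR b) p.1.2 := by
  constructor
  · intro h
    by_contra hk
    obtain ⟨c, hc⟩ := F.surjL none trivial
    exact F.not_mem_of (φ := α b) (c := c) (d := b) le_sup_right (by rw [hc]; trivial) hk h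
  · intro h
    obtain ⟨a, ha⟩ := F.surjL (some (0, 0)) (Or.inr (le_refl _))
    refine ⟨a, b, inf_le_right, ?_, h⟩
    rw [ha]
    obtain ⟨⟨c1, c2⟩, h1, h2, h3⟩ := p
    cases c1 with
    | P i w => simp [Kmem, Cut.Proper] at h1 ⊢; omega
    | T j => simp [Kmem, Cut.Proper] at h1 ⊢; omega
    | Z => simp [Kmem]

omit F in
/-- distinct proper cuts are separated by a valid key -/
theorem exists_key (c c' : Cut) (hc : c.Proper) (hc' : c'.Proper) (h : c ≠ c') :
    ∃ κ, KValid κ ∧ ((Kmem κ c ∧ ¬ Kmem κ c') ∨ (Kmem κ c' ∧ ¬ Kmem κ c)) := by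
  cases c with
  | P i v =>
    cases c' with
    | P j w =>
      by_cases h1 : i < j ∨ (i = j ∧ v < w)
      · refine ⟨some (i, v), ?_, ?_⟩
        · simp [KValid, Cut.Proper] at *; omega
        · simp [Kmem]; omega
      · refine ⟨some (j, w), ?_, ?_⟩
        · simp [KValid, Cut.Proper] at *; omega
        · have : ¬ (i = j ∧ v = w) := by rintro ⟨rfl, rfl⟩; exact h rfl
          simp [Kmem]; omega
    | T j =>
      by_cases h1 : i < j
      · refine ⟨some (i, v), ?_, ?_⟩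
        · simp [KValid, Cut.Proper] at *; omega
        · simp [Kmem]; omega
      · refine ⟨some (i, v - 1), ?_, ?_⟩
        · simp [KValid, Cut.Proper] at *; omega
        · simp [Kmem]; omega
    | Z =>
      refine ⟨some (i, v), ?_, ?_⟩
      · simp [KValid, Cut.Proper] at *; omega
      · simp [Kmem]
  | T i =>
    cases c' with
    | P j w =>
      by_cases h1 : j < i
      · refine ⟨some (j, w), ?_, ?_⟩
        · simp [KValid, Cut.Proper] at *; omega
        · simp [Kmem]; omega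
      · refine ⟨some (j, w - 1), ?_, ?_⟩
        · simp [KValid, Cut.Proper] at *; omega
        · simp [Kmem]; omega
    | T j =>
      have hij : i ≠ j := fun x => h (by rw [x])
      refine ⟨some (min i j, 0), ?_, ?_⟩
      · simp [KValid, Cut.Proper] at *
      · simp [Kmem]; omega
    | Z =>
      refine ⟨some (i, 0), ?_, ?_⟩
      · simp [KValid, Cut.Proper] at *
      · simp [Kmem]
  | Z =>
    cases c' with
    | P j w =>
      refine ⟨some (j, w), ?_, ?_⟩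
      · simp [KValid, Cut.Proper] at *; omega
      · simp [Kmem]
    | T j =>
      refine ⟨some (j, 0), ?_, ?_⟩
      · simp [KValid, Cut.Proper] at *
      · simp [Kmem]
    | Z => exact absurd rfl h

theorem ranked : Ranked F.ev Point.rank where
  inf := by
    intro φ ψ
    ext p
    constructor
    · rintro ⟨a, b, hab, h1, h2⟩
      exact ⟨⟨a, b, hab.trans inf_le_left, h1, h2⟩, ⟨a, b, hab.trans inf_le_right, h1, h2⟩⟩
    · rintro ⟨⟨a, b, hab, h1, h2⟩, ⟨a', b', hab', h1', h2'⟩⟩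
      obtain ⟨x, hx1, hx2, hx3⟩ : ∃ x, ¬ Kmem (κL x) p.1.1 ∧ δ x ≤ δ a ∧ δ x ≤ δ a' := by
        rcases Kmem_total (κL a) (κL a') with h | h
        · exact ⟨a', h1', F.monoδ _ _ h, le_refl _⟩
        · exact ⟨a, h1, le_refl _, F.monoδ _ _ h⟩
      obtain ⟨y, hy1, hy2, hy3⟩ : ∃ y, Kmem (κR y) p.1.2 ∧ α y ≤ α b ∧ α y ≤ α b' := by
        rcases Kmem_total (κR b) (κR b') with h | h
        · exact ⟨b, h2, le_refl _, F.monoα _ _ h⟩
        · exact ⟨b', h2', F.monoα _ _ h, le_refl _⟩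
      exact ⟨x, y, le_inf ((inf_le_inf hx2 hy2).trans hab) ((inf_le_inf hx3 hy3).trans hab'),
        hx1, hy1⟩
  sup := by
    intro φ ψ
    ext p
    constructor
    · intro hp
      by_contra hcon
      rw [Set.mem_union] at hcon
      push Not at hcon
      obtain ⟨s, hs⟩ := F.meets φ
      obtain ⟨t, ht⟩ := F.meets ψ
      obtain ⟨q, hq, hq1, hq2⟩ := (F.not_mem_iff_of_glb hs p).mp hcon.1
      obtain ⟨r, hr, hr1, hr2⟩ := (F.not_mem_iff_of_glb ht p).mp hcon.2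
      obtain ⟨x, hx1, hx2, hx3⟩ : ∃ x, Kmem (κL x) p.1.1 ∧ δ q.1 ≤ δ x ∧ δ r.1 ≤ δ x := by
        rcases Kmem_total (κL q.1) (κL r.1) with h | h
        · exact ⟨q.1, hq1, le_refl _, F.monoδ _ _ h⟩
        · exact ⟨r.1, hr1, F.monoδ _ _ h, le_refl _⟩
      obtain ⟨y, hy1, hy2, hy3⟩ : ∃ y, ¬ Kmem (κR y) p.1.2 ∧ α q.2 ≤ α y ∧ α r.2 ≤ α y := by
        rcases Kmem_total (κR q.2) (κR r.2) with h | h
        · exact ⟨r.2, hr2, F.monoα _ _ h, le_refl _⟩
        · exact ⟨q.2, hq2, le_refl _, F.monoα _ _ h⟩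
      refine F.not_mem_of (φ := φ ⊔ ψ) (c := x) (d := y) (sup_le ?_ ?_) hx1 hy1 hp
      · exact (hs.1 ⟨q, hq, rfl⟩).trans (sup_le_sup hx2 hy2)
      · exact (ht.1 ⟨r, hr, rfl⟩).trans (sup_le_sup hx3 hy3)
    · rintro (⟨a, b, hab, h1, h2⟩ | ⟨a, b, hab, h1, h2⟩)
      · exact ⟨a, b, hab.trans le_sup_left, h1, h2⟩
      · exact ⟨a, b, hab.trans le_sup_right, h1, h2⟩
  inj := by
    have key : ∀ φ ψ : L, F.ev φ ⊆ F.ev ψ → φ ≤ ψ := by
      intro φ ψ h
      obtain ⟨s, hs⟩ := F.joins φ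
      obtain ⟨t, ht⟩ := F.meets ψ
      apply hs.2
      rintro _ ⟨q, hq, rfl⟩
      apply ht.2
      rintro _ ⟨r, hr, rfl⟩
      rw [F.star]
      rintro p ⟨h1, h2, h3, h4⟩
      exact (F.not_mem_iff_of_glb ht p).mpr ⟨r, hr, h3, h4⟩
        (h ((F.mem_iff_of_lub hs p).mpr ⟨q, hq, h1, h2⟩))
    intro φ ψ h
    exact le_antisymm (key φ ψ h.le) (key ψ φ h.ge)
  sep := by
    intro p q hpq
    by_cases h : p.1.1 = q.1.1
    · have h2 : p.1.2 ≠ q.1.2 := by
        intro h2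
        exact hpq (Subtype.ext (Prod.ext h h2))
      obtain ⟨κ, hκ, hk⟩ := exists_key _ _ p.2.2.1 q.2.2.1 h2
      obtain ⟨b, rfl⟩ := F.surjR κ hκ
      refine ⟨α b, ?_⟩
      rw [F.mem_α, F.mem_α]
      exact hk
    · obtain ⟨κ, hκ, hk⟩ := exists_key _ _ p.2.1 q.2.1 h
      obtain ⟨a, rfl⟩ := F.surjL κ hκ
      refine ⟨δ a, ?_⟩
      rw [F.mem_δ, F.mem_δ]
      tauto
  lower := by
    intro φ ψ n p hp1 hp2 hn
    obtain ⟨s, hs⟩ := F.meets φ
    obtain ⟨a, b, hab, h1, h2⟩ := hp1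
    obtain ⟨r, hr, hr1, hr2⟩ := (F.not_mem_iff_of_glb hs p).mp hp2
    obtain ⟨q, hqp, ⟨hq1, hq2, hq3, hq4⟩, hq5⟩ :=
      rect_lower (κL a) (κR b) (κL r.1) (κR r.2) p ⟨h1, h2, hr1, hr2⟩ n hn
    exact ⟨q, hqp, ⟨a, b, hab, hq1, hq2⟩, (F.not_mem_iff_of_glb hs q).mpr ⟨r, hr, hq3, hq4⟩, hq5⟩
  fin := by
    intro φ ψ n hr
    obtain ⟨s, hs⟩ := F.meets φ
    obtain ⟨t, ht⟩ := F.joins ψ
    have hsub : {p | p ∈ F.ev ψ ∧ p ∉ F.ev φ ∧ p.rank = n} ⊆
        ⋃ q ∈ t, ⋃ r ∈ s, {p | p ∈ rect (κL q.1) (κR q.2) (κL r.1) (κR r.2) ∧ p.rank = n} := by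
      rintro p ⟨h1, h2, h3⟩
      obtain ⟨q, hq, hq1, hq2⟩ := (F.mem_iff_of_lub ht p).mp h1
      obtain ⟨r, hr', hr1, hr2⟩ := (F.not_mem_iff_of_glb hs p).mp h2
      simp only [Set.mem_iUnion]
      exact ⟨q, hq, r, hr', ⟨hq1, hq2, hr1, hr2⟩, h3⟩
    refine Set.Finite.subset ?_ hsub
    refine Set.Finite.biUnion t.finite_toSet fun q hq => ?_
    refine Set.Finite.biUnion s.finite_toSet fun r hr' => ?_
    apply rect_fin
    rintro p ⟨h1, h2, h3, h4⟩
    exact hr p ((F.mem_iff_of_lub ht p).mpr ⟨q, hq, h1, h2⟩)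
      ((F.not_mem_iff_of_glb hs p).mpr ⟨r, hr', h3, h4⟩)

theorem hasMDim : HasMDim L 3 := by
  have hR := F.ranked
  refine ⟨fun a b => ?_, fun β hβ h => ?_⟩
  · have h3 : ((3 : Ordinal.{0}) + 1) = ((4 : ℕ) : Ordinal.{0}) := by norm_num
    rw [h3, hR.collapse_iff 4]
    intro p hp
    have := rank_le_three p
    omega
  · have : ∃ n : ℕ, n < 3 ∧ β = (n : Ordinal.{0}) := by
      have h3 : (3 : Ordinal.{0}) = ((3 : ℕ) : Ordinal.{0}) := by norm_num
      rw [h3] at hβ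
      obtain ⟨n, rfl⟩ := Ordinal.lt_omega0.mp (hβ.trans (Ordinal.natCast_lt_omega0 3))
      exact ⟨n, by exact_mod_cast hβ, rfl⟩
    obtain ⟨n, hn, rfl⟩ := this
    obtain ⟨a, ha⟩ := F.surjL none trivial
    obtain ⟨b, hb⟩ := F.surjR none trivial
    have h4 := h (δ a) (α b)
    rw [← Nat.cast_one, ← Nat.cast_add, hR.collapse_iff (n + 1)] at h4
    have h5 := h4 ⟨(.Z, .Z), trivial, trivial, trivial⟩ (by simp [Point.rank, rk]; omega)
    rw [F.mem_δ, F.mem_α, ha, hb] at h5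
    simp [Kmem] at h5

end Frame

end Pool.Agent.Helper37.KG
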