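import Pool.Agent.Helper37.KGRing

/-!
# The ring is serial and has Krull dimension two
-/

set_option autoImplicit false

namespace Pool.Agent.Helper37.KG

open MulOpposite

theorem DevLE.mono {P : Type} [PartialOrder P] {α β : Ordinal.{0}} {a b : P} (h : DevLE α a b)
    (hαβ : α ≤ β) : DevLE β a b := by
  rw [DevLE] at h ⊢
  intro f hf hab
  obtain ⟨N, hN⟩ := h f hf hab
  refine ⟨N, fun i hi => ?_⟩
  rcases hN i hi with h1 | ⟨γ, hγ, h1⟩
  · exact Or.inl h1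
  · exact Or.inr ⟨γ, hγ.trans_le hαβ, h1⟩

/-- an antitone sequence of natural numbers is eventually constant -/
theorem eventually_const_nat (g : ℕ → ℕ) (hg : Antitone g) : ∃ N, ∀ i, N ≤ i → g i = g N := by
  obtain ⟨N, hN⟩ := WellFounded.has_min (wellFounded_lt (α := ℕ)) (Set.range g) ⟨g 0, 0, rfl⟩
  obtain ⟨⟨N, rfl⟩, hmin⟩ := hN
  refine ⟨N, fun i hi => le_antisymm (hg hi) ?_⟩
  by_contra h
  exact hmin (g i) ⟨i, rfl⟩ (by omega)

namespace VData

variable {K : Type} [Field K] {σ : RingAut K} (V : VData K σ)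

theorem right_dvd_of_ord {a b : V.R} {l : ℕ} (ha : IsOrd a.1 l) (hb : ∀ i < l, b.1 0 i = 0)
    (hv : b.1 0 l = 0 ∨ V.ν ((σ ^ l).symm (a.1 0 l)) ≤ V.ν ((σ ^ l).symm (b.1 0 l))) :
    ∃ r, b = a * r := by
  rw [← V.right_iff]
  intro c hc
  rcases V.cases b with h | ⟨m, hm⟩
  · rw [V.κR_zero b h]; trivial
  rw [V.κR_ord ha] at hc
  rw [V.κR_ord hm]
  refine Kmem_le ?_ c hc
  by_cases hlm : l = m
  · subst hlm
    right
    exact ⟨rfl, hv.resolve_left hm.1⟩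
  · left
    by_contra hlt
    exact hm.1 (hb m (by omega))

theorem mem_right {I : Submodule V.Rᵐᵒᵖ V.R} {a : V.R} (ha : a ∈ I) (r : V.R) : a * r ∈ I :=
  I.smul_mem (op r) ha

theorem dev_zero {I J : Submodule V.Rᵐᵒᵖ V.R} {l : ℕ} {a : V.R} (haI : a ∈ I)
    (ha : IsOrd a.1 l) (hJ : ∀ b ∈ J, ∀ i < l, b.1 0 i = 0) : DevLE 0 I J := by
  classical
  rw [DevLE]
  intro f hf hIJ
  by_cases hcase : ∀ k, ∀ b : V.R, (∀ i < l, b.1 0 i = 0) → b ∈ f k
  · refine ⟨0, fun k _ => Or.inl (le_antisymm (hf (Nat.le_succ k)) fun b hb => ?_)⟩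
    exact hcase (k + 1) b (hJ b ((hIJ k).2 hb))
  push Not at hcase
  obtain ⟨k0, b, hb, hbk⟩ := hcase
  -- b has order l
  have hbl : b.1 0 l ≠ 0 := by
    intro h0
    obtain ⟨r, hr⟩ := V.right_dvd_of_ord ha hb (Or.inl h0)
    exact hbk (hr ▸ V.mem_right ((hIJ k0).1 haI) r)
  have hbord : IsOrd b.1 l := ⟨hbl, hb⟩
  let S : Finset ℤ := Finset.Ioc (V.ν ((σ ^ l).symm (b.1 0 l))) (V.ν ((σ ^ l).symm (a.1 0 l)))
  let G : ℕ → Finset ℤ := fun k => S.filter (fun v => ∃ c ∈ f (k0 + k), IsOrd c.1 l ∧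
    V.ν ((σ ^ l).symm (c.1 0 l)) = v)
  have hG : Antitone G := by
    intro k k' hkk v hv
    rw [Finset.mem_filter] at hv ⊢
    obtain ⟨h1, c, hc, h2⟩ := hv
    exact ⟨h1, c, hf (by omega) hc, h2⟩
  obtain ⟨N, hN⟩ := eventually_const_nat (fun k => (G k).card)
    (fun k k' hkk => Finset.card_le_card (hG hkk))
  have hGN : ∀ k, N ≤ k → G k = G N := fun k hk =>
    Finset.eq_of_subset_of_card_le (hG hk) (by rw [hN k hk])
  refine ⟨k0 + N, fun i hi => Or.inl (le_antisymm (hf (Nat.le_succ i)) fun x hx => ?_)⟩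
  obtain ⟨k, rfl⟩ := Nat.exists_eq_add_of_le (le_trans (Nat.le_add_right k0 N) hi)
  have hxl : ∀ i < l, x.1 0 i = 0 := hJ x ((hIJ _).2 hx)
  have haf : a ∈ f (k0 + k + 1) := (hIJ _).1 haI
  by_cases hx1 : x.1 0 l = 0 ∨
      V.ν ((σ ^ l).symm (a.1 0 l)) ≤ V.ν ((σ ^ l).symm (x.1 0 l))
  · obtain ⟨r, rfl⟩ := V.right_dvd_of_ord ha hxl hx1
    exact V.mem_right haf r
  push Not at hx1
  have hxord : IsOrd x.1 l := ⟨hx1.1, hxl⟩
  have hbx : V.ν ((σ ^ l).symm (b.1 0 l)) < V.ν ((σ ^ l).symm (x.1 0 l)) := by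
    by_contra hle
    obtain ⟨r, hr⟩ := V.right_dvd_of_ord hxord hb (Or.inr (by omega))
    apply hbk
    rw [hr]
    exact V.mem_right (hf (by omega) hx) r
  have hmem : V.ν ((σ ^ l).symm (x.1 0 l)) ∈ G k := by
    rw [Finset.mem_filter, Finset.mem_Ioc]
    exact ⟨⟨hbx, hx1.2.le⟩, x, hx, hxord, rfl⟩
  rw [hGN k (by omega), ← hGN (k + 1) (by omega), Finset.mem_filter] at hmem
  obtain ⟨_, c, hc, hc1, hc2⟩ := hmem
  obtain ⟨r, rfl⟩ := V.right_dvd_of_ord hc1 hxl (Or.inr (by rw [hc2]))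
  exact V.mem_right hc r

theorem dev_one {I J : Submodule V.Rᵐᵒᵖ V.R} (hI : I ≠ ⊥) : DevLE 1 I J := by
  classical
  rw [DevLE]
  intro f hf hIJ
  obtain ⟨a, haI, ha0⟩ := Submodule.exists_mem_ne_zero_of_ne_bot hI
  rcases V.cases a with h | ⟨l0, ha⟩
  · exact absurd (Subtype.ext h) ha0
  have hex : ∀ k, ∃ n, ∃ b ∈ f k, IsOrd b.1 n := fun k => ⟨l0, a, (hIJ k).1 haI, ha⟩
  let m : ℕ → ℕ := fun k => Nat.find (hex k)
  have hm : ∀ k, m k ≤ l0 := fun k => Nat.find_min' (hex k) ⟨a, (hIJ k).1 haI, ha⟩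
  have hmono : Monotone m := by
    intro k k' hkk
    obtain ⟨b, hb, hb'⟩ := Nat.find_spec (hex k')
    exact Nat.find_min' (hex k) ⟨b, hf hkk hb, hb'⟩
  obtain ⟨N, hN⟩ := eventually_const_nat (fun k => l0 - m k)
    (fun k k' hkk => by have := hmono hkk; show l0 - m k' ≤ l0 - m k; omega)
  refine ⟨N, fun i hi => Or.inr ⟨0, by simp, ?_⟩⟩
  have h1 : m (i + 1) = m i := by
    have h2 := hN i hi
    have h3 := hN (i + 1) (by omega)
    have h4 := hm i
    have h5 := hm (i + 1)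
    omega
  obtain ⟨b, hb, hb'⟩ := Nat.find_spec (hex (i + 1))
  change IsOrd b.1 (m (i + 1)) at hb'
  rw [h1] at hb'
  refine V.dev_zero hb hb' fun c hc j hj => ?_
  by_contra hne
  rcases V.cases c with h | ⟨n, hn⟩
  · exact hne (by rw [h]; simp)
  have h6 : m i ≤ n := Nat.find_min' (hex i) ⟨c, hc, hn⟩
  exact hne (hn.2 j (by omega))

theorem dev_two : DevLE 2 (⊥ : Submodule V.Rᵐᵒᵖ V.R) ⊤ := by
  rw [DevLE]
  intro f hf _
  by_cases h : ∃ N, f N = ⊥
  · obtain ⟨N, hN⟩ := h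
    refine ⟨N, fun i hi => Or.inl ?_⟩
    have h1 : f i = ⊥ := le_bot_iff.mp (hN ▸ hf hi)
    have h2 : f (i + 1) = ⊥ := le_bot_iff.mp (hN ▸ hf (by omega))
    rw [h1, h2]
  · push Not at h
    exact ⟨0, fun i _ => Or.inr ⟨1, by norm_num, V.dev_one (h (i + 1))⟩⟩

/-- the right ideal of elements of order at least `l` and, at `l`, value at least `k` -/
def PI (l : ℕ) (k : ℤ) (_ : 1 ≤ l) : Submodule V.Rᵐᵒᵖ V.R where
  carrier := {b | (∀ j < l, b.1 0 j = 0) ∧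
    (b.1 0 l = 0 ∨ k ≤ V.ν ((σ ^ l).symm (b.1 0 l)))}
  zero_mem' := ⟨fun j _ => by simp, Or.inl (by simp)⟩
  add_mem' := by
    rintro a b ⟨ha, ha'⟩ ⟨hb, hb'⟩
    refine ⟨fun j hj => ?_, ?_⟩
    · show (a.1 + b.1) 0 j = 0
      rw [IncidenceAlgebra.add_apply, ha j hj, hb j hj, add_zero]
    · show (a.1 + b.1) 0 l = 0 ∨ k ≤ V.ν ((σ ^ l).symm ((a.1 + b.1) 0 l))
      rw [IncidenceAlgebra.add_apply]
      by_cases h1 : a.1 0 l = 0
      · rw [h1, zero_add]; exact hb'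
      by_cases h2 : b.1 0 l = 0
      · rw [h2, add_zero]; exact ha'
      by_cases h3 : a.1 0 l + b.1 0 l = 0
      · exact Or.inl h3
      right
      rw [map_add]
      have := V.add ((σ ^ l).symm (a.1 0 l)) ((σ ^ l).symm (b.1 0 l))
        ((map_ne_zero _).mpr h1) ((map_ne_zero _).mpr h2)
        (by rw [← map_add]; exact (map_ne_zero _).mpr h3)
      have h4 := ha'.resolve_left h1
      have h5 := hb'.resolve_left h2
      omega
  smul_mem' := by
    intro r b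
    obtain ⟨r, rfl⟩ := op_surjective r
    rintro ⟨hb, hb'⟩
    refine ⟨fun j hj => ?_, ?_⟩
    · show (b.1 * r.1) 0 j = 0
      exact mul_coeff_lt (V.tw r) (m := l) (n := 0) hb (by simp) (by omega)
    · show (b.1 * r.1) 0 l = 0 ∨ k ≤ V.ν ((σ ^ l).symm ((b.1 * r.1) 0 l))
      have h0 := mul_coeff_add (f := b.1) (V.tw r) (m := l) (n := 0) hb (by simp)
      rw [add_zero] at h0
      rw [h0]
      by_cases h1 : b.1 0 l = 0
      · left; rw [h1, zero_mul]
      by_cases h2 : r.1 0 0 = 0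
      · left; rw [h2, map_zero (σ ^ l), mul_zero]
      right
      rw [map_mul, RingEquiv.symm_apply_apply, V.mul _ _ ((map_ne_zero _).mpr h1) h2]
      have h3 := hb'.resolve_left h1
      have h4 := r.2.2.resolve_left h2
      omega

/-- the right ideal of elements of order at least `l` -/
def TI (l : ℕ) : Submodule V.Rᵐᵒᵖ V.R where
  carrier := {b | ∀ j < l, b.1 0 j = 0}
  zero_mem' := fun j _ => by simp
  add_mem' := by
    intro a b ha hb j hj
    show (a.1 + b.1) 0 j = 0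
    rw [IncidenceAlgebra.add_apply, ha j hj, hb j hj, add_zero]
  smul_mem' := by
    intro r b hb j hj
    obtain ⟨r, rfl⟩ := op_surjective r
    show (b.1 * r.1) 0 j = 0
    exact mul_coeff_lt (V.tw r) (m := l) (n := 0) hb (by simp) (by omega)

/-- an element of order `l ≥ 1` with prescribed value -/
theorem exists_elt (l : ℕ) (hl : 1 ≤ l) (k : ℤ) : ∃ a : V.R, IsOrd a.1 l ∧
    V.ν ((σ ^ l).symm (a.1 0 l)) = k := by
  obtain ⟨x, hx, hx'⟩ := V.surj k
  have hmem : mono (σ := σ) l ((σ ^ l) x) ∈ V.R := by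
    refine ⟨Tw_mkT σ _, ?_⟩
    rw [mono, mkT_zero_apply, if_neg (by omega)]
    exact V.D_zero
  refine ⟨⟨_, hmem⟩, isOrd_mono ((map_ne_zero _).mpr hx), ?_⟩
  show V.ν ((σ ^ l).symm ((mono (σ := σ) l ((σ ^ l) x)) 0 l)) = _
  rw [mono_apply, RingEquiv.symm_apply_apply, hx']

theorem not_dev_zero (l : ℕ) (hl : 1 ≤ l) : ¬ DevLE 0 (V.TI (l + 1)) (V.TI l) := by
  intro h
  rw [DevLE] at h
  obtain ⟨N, hN⟩ := h (fun k => V.PI l k hl)
    (fun k k' hkk b hb => ⟨hb.1, hb.2.imp id (fun h => by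
      have : (k : ℤ) ≤ k' := by exact_mod_cast hkk
      omega)⟩)
    (fun k => ⟨fun b hb => ⟨fun j hj => hb j (by omega), Or.inl (hb l (by omega))⟩,
      fun b hb => hb.1⟩)
  rcases hN N (le_refl _) with h1 | ⟨β, hβ, _⟩
  · obtain ⟨a, ha, ha'⟩ := V.exists_elt l hl N
    have h2 : a ∈ V.PI l (N : ℤ) hl := ⟨ha.2, Or.inr ha'.ge⟩
    have h3 : a ∈ V.PI l ((N + 1 : ℕ) : ℤ) hl := by
      have h4 : V.PI l ((N + 1 : ℕ) : ℤ) hl = V.PI l (N : ℤ) hl := h1
      rw [h4]; exact h2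
    have h5 := h3.2.resolve_left ha.1
    rw [ha'] at h5
    push_cast at h5
    omega
  · exact absurd hβ (by simp)

theorem not_dev_one : ¬ DevLE 1 (⊥ : Submodule V.Rᵐᵒᵖ V.R) ⊤ := by
  intro h
  rw [DevLE] at h
  obtain ⟨N, hN⟩ := h (fun k => V.TI (k + 1))
    (fun k k' hkk b hb j hj => hb j (by omega)) (fun k => ⟨bot_le, le_top⟩)
  rcases hN N (le_refl _) with h1 | ⟨β, hβ, h1⟩
  · obtain ⟨a, ha, _⟩ := V.exists_elt (N + 1) (by omega) 0
    have h2 : a ∈ V.TI (N + 1) := ha.2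
    have h3 : a ∈ V.TI (N + 1 + 1) := by
      have h4 : V.TI (N + 1 + 1) = V.TI (N + 1) := h1
      rw [h4]; exact h2
    exact ha.1 (h3 (N + 1) (by omega))
  · have : β = 0 := by
      rwa [Order.lt_one_iff] at hβ
    subst this
    exact V.not_dev_zero (N + 1) (by omega) h1

theorem hasKrullDim : HasKrullDim V.R 2 := by
  refine ⟨V.dev_two, fun β hβ h => ?_⟩
  refine V.not_dev_one (h.mono ?_)
  rw [← one_add_one_eq_two, Order.lt_add_one_iff] at hβ
  exact hβ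

theorem no_zero_div (a b : V.R) (h : a * b = 0) : a = 0 ∨ b = 0 := by
  by_contra hcon
  push Not at hcon
  rcases V.cases a with ha | ⟨m, ha⟩
  · exact hcon.1 (Subtype.ext ha)
  rcases V.cases b with hb | ⟨n, hb⟩
  · exact hcon.2 (Subtype.ext hb)
  have := (ha.mul (V.tw b) hb).ne_zero
  exact this (congrArg Subtype.val h)

theorem one_ne : (1 : V.R) ≠ 0 := by
  intro h
  have h1 : (1 : V.R).1 0 0 = (0 : V.R).1 0 0 := by rw [h]
  have h2 : (1 : V.R).1 0 0 = 1 := by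
    show (1 : IncidenceAlgebra K ℕ) 0 0 = 1
    rw [IncidenceAlgebra.one_apply, if_pos rfl]
  have h3 : (0 : V.R).1 0 0 = 0 := by
    show (0 : IncidenceAlgebra K ℕ) 0 0 = 0
    simp
  rw [h2, h3] at h1
  exact one_ne_zero h1

theorem isSerialRing : IsSerialRing V.R := by
  refine ⟨1, fun _ => 1, by simp, fun _ => ⟨by simp, V.one_ne, ?_⟩, ?_, fun _ => ?_, fun _ => ?_⟩
  · intro f g _ _ h _ _
    exact V.no_zero_div f g h
  · intro i j hij
    exact absurd (Subsingleton.elim i j) hij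
  · intro N P
    by_contra hcon
    push Not at hcon
    obtain ⟨h1, h2⟩ := hcon
    obtain ⟨x, hxN, hxP⟩ := SetLike.not_le_iff_exists.mp h1
    obtain ⟨y, hyP, hyN⟩ := SetLike.not_le_iff_exists.mp h2
    rcases V.chainRing.right x.1 y.1 with ⟨r, hr⟩ | ⟨r, hr⟩
    · apply hxP
      have : x = op r • y := Subtype.ext hr
      rw [this]
      exact P.smul_mem _ hyP
    · apply hyN
      have : y = op r • x := Subtype.ext hr
      rw [this]
      exact N.smul_mem _ hxN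
  · intro N P
    by_contra hcon
    push Not at hcon
    obtain ⟨h1, h2⟩ := hcon
    obtain ⟨x, hxN, hxP⟩ := SetLike.not_le_iff_exists.mp h1
    obtain ⟨y, hyP, hyN⟩ := SetLike.not_le_iff_exists.mp h2
    rcases V.chainRing.left x.1 y.1 with ⟨r, hr⟩ | ⟨r, hr⟩
    · apply hxP
      have : x = r • y := Subtype.ext hr
      rw [this]
      exact P.smul_mem _ hyP
    · apply hyN
      have : y = r • x := Subtype.ext hr
      rw [this]
      exact N.smul_mem _ hxN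

end VData

end Pool.Agent.Helper37.KG
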