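import Pool.Agent.Helper37.KGDefs
import Pool.Agent.Helper37.KGDiag

/-!
# Normal forms of pp formulas in one variable over chain rings
-/

set_option autoImplicit false

namespace Pool.Agent.Helper37.KG

open MulOpposite

section action

variable {R : Type} [Ring R] {M : Type} [AddCommGroup M] [Module Rᵐᵒᵖ M]

/-- row vector times matrix -/
def vm {ι κ : Type} [Fintype ι] (z : ι → M) (A : Matrix ι κ R) : κ → M :=
  fun j => ∑ i, op (A i j) • z i

theorem vm_add {ι κ : Type} [Fintype ι] (z w : ι → M) (A : Matrix ι κ R) :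
    vm (z + w) A = vm z A + vm w A := by
  funext j
  simp [vm, Finset.sum_add_distrib]

theorem vm_zero {ι κ : Type} [Fintype ι] (A : Matrix ι κ R) : vm (0 : ι → M) A = 0 := by
  funext j
  simp [vm]

theorem vm_mul {ι κ τ : Type} [Fintype ι] [Fintype κ] (z : ι → M) (A : Matrix ι κ R)
    (B : Matrix κ τ R) : vm (vm z A) B = vm z (A * B) := by
  funext k
  simp only [vm, Finset.smul_sum, smul_smul, ← op_mul, Matrix.mul_apply, Finset.op_sum,
    Finset.sum_smul]
  exact Finset.sum_comm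

theorem vm_one {ι : Type} [Fintype ι] [DecidableEq ι] (z : ι → M) :
    vm z (1 : Matrix ι ι R) = z := by
  funext j
  rw [vm, Finset.sum_eq_single j]
  · simp
  · intro i _ hi
    rw [Matrix.one_apply_ne hi]
    simp
  · intro h; exact absurd (Finset.mem_univ _) h

end action

variable {R : Type} [Ring R]

/-- the formula `a ∣ x` -/
def dvdF (a : R) : PPFormula R where
  n := 1
  m := 1
  r := fun _ => 1
  s := fun _ _ => -a

/-- the formula `x * b = 0` -/
def annF (b : R) : PPFormula R where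
  n := 0
  m := 1
  r := fun _ => b
  s := fun _ _ => 0

theorem mem_dvdF (a : R) (M : ModuleCat.{0} Rᵐᵒᵖ) (x : M) :
    x ∈ (dvdF a).eval M ↔ ∃ y : M, x = op a • y := by
  constructor
  · rintro ⟨y, hy⟩
    change Fin 1 → M at y
    change ∀ j : Fin 1, op (1 : R) • x + ∑ i : Fin 1, op (-a) • y i = 0 at hy
    have h := hy 0
    refine ⟨y 0, ?_⟩
    simp only [op_one, one_smul, op_neg, neg_smul, Finset.univ_unique, Fin.default_eq_zero,
      Finset.sum_singleton] at h
    exact (neg_eq_of_add_eq_zero_left h).symm.trans (neg_neg _)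
  · rintro ⟨y, rfl⟩
    refine ⟨(fun _ => y : Fin 1 → M), ?_⟩
    change ∀ j : Fin 1, op (1 : R) • (op a • y) + ∑ i : Fin 1, op (-a) • y = 0
    intro j
    simp

theorem mem_annF (b : R) (M : ModuleCat.{0} Rᵐᵒᵖ) (x : M) :
    x ∈ (annF b).eval M ↔ op b • x = 0 := by
  constructor
  · rintro ⟨y, hy⟩
    change ∀ j : Fin 1, op b • x + ∑ i : Fin 0, op (0 : R) • y i = 0 at hy
    have h := hy 0
    simpa using h
  · intro h
    refine ⟨(fun i => i.elim0 : Fin 0 → M), ?_⟩
    change ∀ j : Fin 1, op b • x + ∑ i : Fin 0, _ = 0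
    intro j
    simpa using h

/-- the class of `a ∣ x` -/
def dl (a : R) : PPLattice R := ⟨fun M => (dvdF a).eval M, dvdF a, rfl⟩

/-- the class of `x * b = 0` -/
def al (b : R) : PPLattice R := ⟨fun M => (annF b).eval M, annF b, rfl⟩

theorem pple_iff {φ ψ : PPLattice R} :
    φ ≤ ψ ↔ ∀ (M : ModuleCat.{0} Rᵐᵒᵖ) (x : M), x ∈ φ.1 M → x ∈ ψ.1 M := Iff.rfl

theorem mem_dl (a : R) (M : ModuleCat.{0} Rᵐᵒᵖ) (x : M) :
    x ∈ (dl a).1 M ↔ ∃ y : M, x = op a • y := mem_dvdF a M x

theorem mem_al (b : R) (M : ModuleCat.{0} Rᵐᵒᵖ) (x : M) :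
    x ∈ (al b).1 M ↔ op b • x = 0 := mem_annF b M x

theorem mem_ppinf (φ ψ : PPLattice R) (M : ModuleCat.{0} Rᵐᵒᵖ) (x : M) :
    x ∈ (φ ⊓ ψ).1 M ↔ x ∈ φ.1 M ∧ x ∈ ψ.1 M := Iff.rfl

theorem mem_ppsup (φ ψ : PPLattice R) (M : ModuleCat.{0} Rᵐᵒᵖ) (x : M) :
    x ∈ (φ ⊔ ψ).1 M ↔ ∃ y ∈ φ.1 M, ∃ z ∈ ψ.1 M, y + z = x := by
  show x ∈ (φ.1 M ⊔ ψ.1 M) ↔ _
  rw [AddSubgroup.mem_sup]

theorem joins_of_chain (hR : ChainRing R) (φ : PPLattice R) :
    ∃ s : Finset (R × R), IsLUB {x | ∃ p ∈ s, x = dl p.1 ⊓ al p.2} φ := by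
  classical
  obtain ⟨_, ⟨n, m, r, s⟩, rfl⟩ := φ
  let A : Matrix (Fin (n + 1)) (Fin m) R := Fin.cons r s
  obtain ⟨U, U', V, V', hU, hU', hV, hV', hB⟩ := diagble_all hR (n + 1) (Fin m) A
  generalize hBdef : U * A * V = B at hB
  -- description of solutions
  have hsol : ∀ (M : ModuleCat.{0} Rᵐᵒᵖ) (z : Fin (n + 1) → M),
      vm z A = 0 ↔ ∀ i j, op (B i j) • (vm z U') i = 0 := by
    intro M z
    have h1 : vm (vm z U') B = vm (vm z A) V := by
      rw [← hBdef, vm_mul, vm_mul, ← Matrix.mul_assoc, ← Matrix.mul_assoc, hU', Matrix.one_mul]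
    constructor
    · intro hz i j
      rw [hz, vm_zero] at h1
      by_cases hij : B i j = 0
      · simp [hij]
      · have h2 := congrFun h1 j
        rw [vm, Finset.sum_eq_single i] at h2
        · exact h2
        · intro i' _ hi'
          have : B i' j = 0 := by
            by_contra h
            exact hi' (hB.2 i' i j h hij)
          simp [this]
        · intro h; exact absurd (Finset.mem_univ _) h
    · intro h
      have h2 : vm (vm z U') B = 0 := by
        funext j
        exact Finset.sum_eq_zero fun i _ => h i j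
      rw [h2] at h1
      have h3 : vm (vm (vm z A) V) V' = 0 := by rw [← h1, vm_zero]
      rwa [vm_mul, hV, vm_one] at h3
  have hmem : ∀ (M : ModuleCat.{0} Rᵐᵒᵖ) (x : M),
      x ∈ (PPFormula.eval ⟨n, m, r, s⟩ M) ↔ ∃ w : Fin (n + 1) → M,
        (∀ i j, op (B i j) • w i = 0) ∧ x = ∑ i, op (U i 0) • w i := by
    intro M x
    constructor
    · rintro ⟨y, hy⟩
      change Fin n → M at y
      change ∀ j : Fin m, op (r j) • x + ∑ i : Fin n, op (s i j) • y i = 0 at hy
      have hz : vm (Fin.cons x y : Fin (n + 1) → M) A = 0 := by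
        funext j
        show ∑ i, op (A i j) • (Fin.cons x y : Fin (n + 1) → M) i = 0
        rw [Fin.sum_univ_succ]
        exact hy j
      refine ⟨vm (Fin.cons x y : Fin (n + 1) → M) U', (hsol M _).mp hz, ?_⟩
      have h4 : vm (vm (Fin.cons x y : Fin (n + 1) → M) U') U = Fin.cons x y := by
        rw [vm_mul, hU', vm_one]
      have h5 := congrFun h4 0
      rw [Fin.cons_zero] at h5
      exact h5.symm
    · rintro ⟨w, hw, rfl⟩
      have hz : vm (vm w U) A = 0 := by
        rw [hsol, vm_mul, hU, vm_one]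
        exact hw
      refine ⟨(fun i => vm w U i.succ : Fin n → M), ?_⟩
      change ∀ j : Fin m, op (r j) • (∑ i, op (U i 0) • w i) + ∑ i : Fin n,
        op (s i j) • (vm w U i.succ) = 0
      intro j
      have h5 := congrFun hz j
      rw [vm, Fin.sum_univ_succ] at h5
      exact h5
  -- choose the pairs
  have hpair : ∀ i : Fin (n + 1), ∃ q : R × R, ∀ (M : ModuleCat.{0} Rᵐᵒᵖ) (x : M),
      x ∈ (dl q.1 ⊓ al q.2).1 M ↔ ∃ w : M, (∀ j, op (B i j) • w = 0) ∧ x = op (U i 0) • w := by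
    intro i
    have hb : ∃ b : R, ∀ (M : ModuleCat.{0} Rᵐᵒᵖ) (w : M),
        (∀ j, op (B i j) • w = 0) ↔ op b • w = 0 := by
      by_cases hex : ∃ j, B i j ≠ 0
      · obtain ⟨j0, hj0⟩ := hex
        refine ⟨B i j0, fun M w => ⟨fun h => h j0, fun h j => ?_⟩⟩
        by_cases hj : B i j = 0
        · simp [hj]
        · rw [hB.1 i j j0 hj hj0]; exact h
      · push Not at hex
        exact ⟨0, fun M w => ⟨fun _ => by simp, fun _ j => by simp [hex j]⟩⟩
    obtain ⟨b, hb⟩ := hb
    rcases hR.right b (U i 0) with ⟨c, hc⟩ | ⟨c, hc⟩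
    · refine ⟨(U i 0, c), fun M x => ?_⟩
      rw [mem_ppinf, mem_dl, mem_al]
      constructor
      · rintro ⟨⟨w, rfl⟩, h⟩
        refine ⟨w, (hb M w).mpr ?_, rfl⟩
        rw [hc, op_mul, mul_smul]
        exact h
      · rintro ⟨w, hw, rfl⟩
        refine ⟨⟨w, rfl⟩, ?_⟩
        have := (hb M w).mp hw
        rwa [hc, op_mul, mul_smul] at this
    · refine ⟨(0, 0), fun M x => ?_⟩
      rw [mem_ppinf, mem_dl, mem_al]
      constructor
      · rintro ⟨⟨w, rfl⟩, _⟩
        exact ⟨0, by simp, by simp⟩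
      · rintro ⟨w, hw, rfl⟩
        have := (hb M w).mp hw
        rw [hc, op_mul, mul_smul, this]
        simp
  choose q hq using hpair
  refine ⟨Finset.univ.image q, ?_, ?_⟩
  · rintro _ ⟨p, hp, rfl⟩
    obtain ⟨i, _, rfl⟩ := Finset.mem_image.mp hp
    intro M x hx
    obtain ⟨w, hw, rfl⟩ := (hq i M x).mp hx
    refine (hmem M _).mpr ⟨Pi.single i w, fun i' j => ?_, ?_⟩
    · by_cases h : i' = i
      · subst h; simpa using hw j
      · simp [h]
    · rw [Finset.sum_eq_single i]
      · simp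
      · intro i' _ h; simp [h]
      · intro h; exact absurd (Finset.mem_univ _) h
  · intro ψ hψ M x hx
    obtain ⟨w, hw, rfl⟩ := (hmem M x).mp hx
    refine AddSubgroup.sum_mem _ fun i _ => ?_
    have h1 : dl (q i).1 ⊓ al (q i).2 ≤ ψ :=
      hψ ⟨q i, Finset.mem_image_of_mem _ (Finset.mem_univ _), rfl⟩
    exact h1 M ((hq i M _).mpr ⟨w i, hw i, rfl⟩)

theorem meets_of_chain (hR : ChainRing R) (φ : PPLattice R) :
    ∃ s : Finset (R × R), IsGLB {x | ∃ p ∈ s, x = dl p.1 ⊔ al p.2} φ := by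
  classical
  obtain ⟨_, ⟨n, m, r, s⟩, rfl⟩ := φ
  let A : Matrix (Fin n) (Fin m) R := s
  obtain ⟨U, U', V, V', hU, hU', hV, hV', hB⟩ := diagble_all hR n (Fin m) A
  generalize hBdef : U * A * V = B at hB
  let r' : Fin m → R := fun k => ∑ j, r j * V j k
  have hmem : ∀ (M : ModuleCat.{0} Rᵐᵒᵖ) (x : M),
      x ∈ (PPFormula.eval ⟨n, m, r, s⟩ M) ↔ ∃ w : Fin n → M,
        ∀ k, op (r' k) • x + ∑ i, op (B i k) • w i = 0 := by
    intro M x
    have hr' : (vm (fun j => op (r j) • x) V : Fin m → M) = fun k => op (r' k) • x := by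
      funext k
      simp only [vm, r', Finset.op_sum, Finset.sum_smul, op_mul, mul_smul]
    constructor
    · rintro ⟨y, hy⟩
      change Fin n → M at y
      change ∀ j : Fin m, op (r j) • x + ∑ i : Fin n, op (s i j) • y i = 0 at hy
      have h1 : (fun j => op (r j) • x) + vm y A = 0 := by
        funext j
        exact hy j
      have h2 : vm ((fun j => op (r j) • x) + vm y A) V = 0 := by rw [h1, vm_zero]
      rw [vm_add, hr', vm_mul] at h2
      have h3 : vm y (A * V) = vm (vm y U') B := by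
        rw [← hBdef, vm_mul, ← Matrix.mul_assoc, ← Matrix.mul_assoc, hU', Matrix.one_mul]
      rw [h3] at h2
      exact ⟨vm y U', fun k => congrFun h2 k⟩
    · rintro ⟨w, hw⟩
      refine ⟨(vm w U : Fin n → M), ?_⟩
      change ∀ j : Fin m, op (r j) • x + ∑ i : Fin n, op (s i j) • (vm w U i) = 0
      have h2 : (fun k => op (r' k) • x) + vm w B = 0 := by
        funext k
        exact hw k
      have h3 : vm w B = vm (vm (vm w U) A) V := by
        rw [← hBdef, vm_mul, vm_mul, Matrix.mul_assoc]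
      rw [← hr', h3, ← vm_add] at h2
      have h4 : vm (vm ((fun j => op (r j) • x) + vm (vm w U) A) V) V' = 0 := by
        rw [h2, vm_zero]
      rw [vm_mul, hV, vm_one] at h4
      intro j
      exact congrFun h4 j
  -- choose the pairs
  have hcol : ∀ k : Fin m, ∃ d : R, (∀ i, B i k ≠ 0 → B i k = d) ∧
      ((∀ i, B i k = 0) → d = 0) := by
    intro k
    by_cases hex : ∃ i, B i k ≠ 0
    · obtain ⟨i0, hi0⟩ := hex
      refine ⟨B i0 k, fun i hi => by rw [hB.2 i i0 k hi hi0], fun h => absurd (h i0) hi0⟩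
    · push Not at hex
      exact ⟨0, fun i hi => absurd (hex i) hi, fun _ => rfl⟩
  choose d hd hd' using hcol
  have hmem2 : ∀ (M : ModuleCat.{0} Rᵐᵒᵖ) (x : M),
      x ∈ (PPFormula.eval ⟨n, m, r, s⟩ M) ↔ ∀ k, ∃ y : M, op (r' k) • x = op (d k) • y := by
    intro M x
    rw [hmem]
    constructor
    · rintro ⟨w, hw⟩ k
      have h := hw k
      by_cases hex : ∃ i, B i k ≠ 0
      · obtain ⟨i0, hi0⟩ := hex
        rw [Finset.sum_eq_single i0] at h
        · refine ⟨-w i0, ?_⟩
          rw [← hd k i0 hi0, smul_neg]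
          exact eq_neg_of_add_eq_zero_left h
        · intro i _ hi
          have : B i k = 0 := by
            by_contra h
            exact hi (hB.2 i i0 k h hi0)
          simp [this]
        · intro h; exact absurd (Finset.mem_univ _) h
      · push Not at hex
        refine ⟨0, ?_⟩
        rw [smul_zero]
        rw [Finset.sum_eq_zero (fun i _ => by simp [hex i]), add_zero] at h
        exact h
    · intro h
      choose y hy using h
      refine ⟨fun i => if h : ∃ k, B i k ≠ 0 then - y h.choose else 0, fun k => ?_⟩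
      by_cases hex : ∃ i, B i k ≠ 0
      · obtain ⟨i0, hi0⟩ := hex
        rw [Finset.sum_eq_single i0]
        · have hex' : ∃ k, B i0 k ≠ 0 := ⟨k, hi0⟩
          have hk : hex'.choose = k := hB.1 i0 _ _ hex'.choose_spec hi0
          beta_reduce
          rw [dif_pos hex', hk, hd k i0 hi0, hy k, smul_neg, add_neg_cancel]
        · intro i _ hi
          have : B i k = 0 := by
            by_contra h
            exact hi (hB.2 i i0 k h hi0)
          simp [this]
        · intro h; exact absurd (Finset.mem_univ _) h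
      · push Not at hex
        rw [Finset.sum_eq_zero (fun i _ => by simp [hex i]), add_zero, hy k, hd' k hex]
        simp
  have hpair : ∀ k : Fin m, ∃ q : R × R, ∀ (M : ModuleCat.{0} Rᵐᵒᵖ) (x : M),
      x ∈ (dl q.1 ⊔ al q.2).1 M ↔ ∃ y : M, op (r' k) • x = op (d k) • y := by
    intro k
    rcases hR.left (d k) (r' k) with ⟨c, hc⟩ | ⟨c, hc⟩
    · refine ⟨(c, r' k), fun M x => ?_⟩
      rw [mem_ppsup]
      constructor
      · rintro ⟨u, hu, v, hv, rfl⟩
        rw [mem_dl] at hu
        rw [mem_al] at hv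
        obtain ⟨y, rfl⟩ := hu
        exact ⟨y, by rw [smul_add, hv, add_zero, hc, op_mul, mul_smul]⟩
      · rintro ⟨y, hy⟩
        refine ⟨op c • y, (mem_dl _ _ _).mpr ⟨y, rfl⟩, x - op c • y, (mem_al _ _ _).mpr ?_, by abel⟩
        rw [smul_sub, hy, ← mul_smul, ← op_mul, ← hc, sub_self]
    · refine ⟨(1, 1), fun M x => ?_⟩
      rw [mem_ppsup]
      constructor
      · intro _
        exact ⟨op c • x, by rw [← mul_smul, ← op_mul, ← hc]⟩
      · intro _
        exact ⟨x, (mem_dl _ _ _).mpr ⟨x, by simp⟩, 0, (mem_al _ _ _).mpr (by simp), by simp⟩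
  choose q hq using hpair
  refine ⟨Finset.univ.image q, ?_, ?_⟩
  · rintro _ ⟨p, hp, rfl⟩
    obtain ⟨k, _, rfl⟩ := Finset.mem_image.mp hp
    intro M x hx
    exact (hq k M x).mpr ((hmem2 M x).mp hx k)
  · intro ψ hψ M x hx
    refine (hmem2 M x).mpr fun k => ?_
    have h1 : ψ ≤ dl (q k).1 ⊔ al (q k).2 :=
      hψ ⟨q k, Finset.mem_image_of_mem _ (Finset.mem_univ _), rfl⟩
    exact (hq k M x).mp (h1 M hx)

end Pool.Agent.Helper37.KG
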