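import Pool.Agent.Helper37.KGCollapse

/-!
# The space of points (pairs of cuts) and its ranks
-/

set_option autoImplicit false

namespace Pool.Agent.Helper37.KG

/-- keys: `none` is the key of zero, `some (l, v)` has level `l` and value `v` -/
abbrev Key := Option (ℕ × ℤ)

/-- cuts: principal one-sided ideals, level ideals, zero ideal -/
inductive Cut
  | P (i : ℕ) (v : ℤ)
  | T (j : ℕ)
  | Z

/-- the key belongs to the ideal given by the cut -/
def Kmem : Key → Cut → Prop
  | none, _ => True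
  | some (l, v), .P i w => i < l ∨ (i = l ∧ w ≤ v)
  | some (l, _), .T j => j ≤ l
  | some _, .Z => False

/-- the ideal is proper -/
def Cut.Proper : Cut → Prop
  | .P i v => 1 ≤ i ∨ 1 ≤ v
  | .T j => 1 ≤ j
  | .Z => True

/-- keys which occur -/
def KValid : Key → Prop
  | none => True
  | some (l, v) => 1 ≤ l ∨ 0 ≤ v

/-- compatible cuts -/
def Compat : Cut → Cut → Prop
  | .P i _, .P j _ => i = 0 ∧ j = 0
  | _, _ => True

/-- the points -/
def Point : Type := {p : Cut × Cut // p.1.Proper ∧ p.2.Proper ∧ Compat p.1 p.2}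

/-- ranks -/
def rk : Cut → Cut → ℕ
  | .P _ _, .P _ _ => 0
  | .P i _, .T j => if i = 0 ∧ j = 1 then 1 else 0
  | .T j, .P i _ => if i = 0 ∧ j = 1 then 1 else 0
  | .P _ _, .Z => 1
  | .Z, .P _ _ => 1
  | .T i, .T j => if i = 1 ∧ j = 1 then 2 else 1
  | .T _, .Z => 2
  | .Z, .T _ => 2
  | .Z, .Z => 3

/-- rank of a point -/
def Point.rank (p : Point) : ℕ := rk p.1.1 p.1.2

/-- rectangles -/
def rect (κ₁ κ₂ κ₃ κ₄ : Key) : Set Point :=
  {p | ¬ Kmem κ₁ p.1.1 ∧ Kmem κ₂ p.1.2 ∧ Kmem κ₃ p.1.1 ∧ ¬ Kmem κ₄ p.1.2}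

theorem rank_le_three (p : Point) : p.rank ≤ 3 := by
  obtain ⟨⟨c, d⟩, h1, h2, h3⟩ := p
  cases c <;> cases d <;> simp [Point.rank, rk] <;> split_ifs <;> omega

theorem rect_lower (κ₁ κ₂ κ₃ κ₄ : Key) (p : Point) (hp : p ∈ rect κ₁ κ₂ κ₃ κ₄) (n : ℕ)
    (hn : p.rank = n + 1) : ∃ q, q ≠ p ∧ q ∈ rect κ₁ κ₂ κ₃ κ₄ ∧ n ≤ q.rank := by
  obtain ⟨⟨c, d⟩, hc, hd, hcd⟩ := p
  obtain ⟨h1, h2, h3, h4⟩ := hp
  dsimp only at h1 h2 h3 h4
  rcases κ₁ with _ | ⟨l1, v1⟩
  · simp [Kmem] at h1
  rcases κ₄ with _ | ⟨l4, v4⟩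
  · simp [Kmem] at h4
  have hn' : rk c d = n + 1 := hn
  cases c with
  | P i v =>
    cases d with
    | P j w => simp [rk] at hn'
    | T j =>
      simp only [rk] at hn'
      split_ifs at hn' with hij
      · obtain ⟨rfl, rfl⟩ := hij
        refine ⟨⟨(.P 0 v, .P 0 (max (v4 + 1) 1)), hc, ?_, ?_⟩, ?_, ⟨h1, ?_, h3, ?_⟩, ?_⟩
        · simp [Cut.Proper]
        · simp [Compat]
        · intro h; have h := congrArg Subtype.val h; simp at h
        · rcases κ₂ with _ | ⟨l2, v2⟩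
          · simp [Kmem]
          · simp [Kmem] at h2 ⊢; omega
        · simp [Kmem] at h4 ⊢; omega
        · simp [Point.rank, rk]; omega
    | Z =>
      have : n = 0 := by simp [rk] at hn'; omega
      subst this
      refine ⟨⟨(.P i v, .T (l4 + 2)), hc, ?_, ?_⟩, ?_, ⟨h1, ?_, h3, ?_⟩, ?_⟩
      · simp [Cut.Proper]
      · simp [Compat]
      · intro h; have h := congrArg Subtype.val h; simp at h
      · rcases κ₂ with _ | ⟨l2, v2⟩
        · simp [Kmem]
        · simp [Kmem] at h2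
      · simp [Kmem]
      · simp
  | T i =>
    cases d with
    | P j w =>
      simp only [rk] at hn'
      split_ifs at hn' with hij
      · obtain ⟨rfl, rfl⟩ := hij
        refine ⟨⟨(.P 0 (max (v1 + 1) 1), .P 0 w), ?_, hd, ?_⟩, ?_, ⟨?_, h2, ?_, h4⟩, ?_⟩
        · simp [Cut.Proper]
        · simp [Compat]
        · intro h; have h := congrArg Subtype.val h; simp at h
        · simp [Kmem] at h1 ⊢; omega
        · rcases κ₃ with _ | ⟨l3, v3⟩
          · simp [Kmem]
          · simp [Kmem] at h3 ⊢; omega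
        · simp [Point.rank, rk]; omega
    | T j =>
      simp [Cut.Proper] at hc hd
      refine ⟨⟨(.P (i - 1) (max (v1 + 1) 1), .T j), ?_, hd, ?_⟩, ?_, ⟨?_, h2, ?_, h4⟩, ?_⟩
      · simp [Cut.Proper]
      · simp [Compat]
      · intro h; have h := congrArg Subtype.val h; simp at h
      · simp [Kmem] at h1 ⊢; omega
      · rcases κ₃ with _ | ⟨l3, v3⟩
        · simp [Kmem]
        · simp [Kmem] at h3 ⊢; omega
      · simp only [Point.rank, rk]
        simp only [rk] at hn'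
        split_ifs at hn' ⊢ <;> omega
    | Z =>
      simp [Cut.Proper] at hc
      simp [rk] at hn'
      refine ⟨⟨(.P (i - 1) (max (v1 + 1) 1), .Z), ?_, hd, ?_⟩, ?_, ⟨?_, h2, ?_, h4⟩, ?_⟩
      · simp [Cut.Proper]
      · simp [Compat]
      · intro h; have h := congrArg Subtype.val h; simp at h
      · simp [Kmem] at h1 ⊢; omega
      · rcases κ₃ with _ | ⟨l3, v3⟩
        · simp [Kmem]
        · simp [Kmem] at h3 ⊢; omega
      · simp only [Point.rank, rk]; omega
  | Z =>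
    have hκ : κ₃ = none := by
      rcases κ₃ with _ | ⟨l3, v3⟩
      · rfl
      · simp [Kmem] at h3
    subst hκ
    cases d with
    | P j w =>
      have : n = 0 := by simp [rk] at hn'; omega
      subst this
      refine ⟨⟨(.T (l1 + 2), .P j w), ?_, hd, ?_⟩, ?_, ⟨?_, h2, ?_, h4⟩, ?_⟩
      · simp [Cut.Proper]
      · simp [Compat]
      · intro h; have h := congrArg Subtype.val h; simp at h
      · simp [Kmem]
      · simp [Kmem]
      · simp
    | T j =>
      simp [Cut.Proper] at hd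
      simp [rk] at hn'
      refine ⟨⟨(.Z, .P (j - 1) (max (v4 + 1) 1)), hc, ?_, ?_⟩, ?_, ⟨h1, ?_, h3, ?_⟩, ?_⟩
      · simp [Cut.Proper]
      · simp [Compat]
      · intro h; have h := congrArg Subtype.val h; simp at h
      · rcases κ₂ with _ | ⟨l2, v2⟩
        · simp [Kmem]
        · simp [Kmem] at h2 ⊢; omega
      · simp [Kmem] at h4 ⊢; omega
      · simp only [Point.rank, rk]; omega
    | Z =>
      simp [rk] at hn'
      refine ⟨⟨(.T (l1 + 1), .Z), ?_, hd, ?_⟩, ?_, ⟨?_, h2, ?_, h4⟩, ?_⟩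
      · simp [Cut.Proper]
      · simp [Compat]
      · intro h; have h := congrArg Subtype.val h; simp at h
      · simp [Kmem]
      · simp [Kmem]
      · simp only [Point.rank, rk]; omega

/-- bounded cuts -/
def Cut.InBox (N : ℕ) : Cut → Prop
  | .P i v => i ≤ N ∧ -(N : ℤ) ≤ v ∧ v ≤ N
  | .T j => j ≤ N
  | .Z => True

theorem finite_box (N : ℕ) : {c : Cut | c.InBox N}.Finite := by
  have : {c : Cut | c.InBox N} ⊆
      ((fun p : ℕ × ℤ => Cut.P p.1 p.2) '' (Set.Iic N ×ˢ Set.Icc (-(N : ℤ)) N)) ∪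
      (Cut.T '' Set.Iic N) ∪ {Cut.Z} := by
    intro c hc
    cases c with
    | P i v =>
      simp [Cut.InBox] at hc
      exact Or.inl (Or.inl ⟨(i, v), ⟨by simpa using hc.1, by simpa using hc.2⟩, rfl⟩)
    | T j =>
      simp [Cut.InBox] at hc
      exact Or.inl (Or.inr ⟨j, by simpa using hc, rfl⟩)
    | Z => exact Or.inr rfl
  refine Set.Finite.subset ?_ this
  exact ((((Set.finite_Iic N).prod (Set.finite_Icc _ _)).image _).union
    ((Set.finite_Iic N).image _)).union (Set.finite_singleton _)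

theorem finite_box_points (N : ℕ) : {p : Point | p.1.1.InBox N ∧ p.1.2.InBox N}.Finite := by
  have h := (finite_box N).prod (finite_box N)
  refine Set.Finite.of_finite_image (f := fun p : Point => p.1) (h.subset ?_)
    (Subtype.val_injective.injOn)
  rintro _ ⟨p, hp, rfl⟩
  exact hp

/-- size of a key -/
def Key.bound : Key → ℕ
  | none => 0
  | some (l, v) => l + v.natAbs

theorem rect_fin (κ₁ κ₂ κ₃ κ₄ : Key) (n : ℕ)
    (hr : ∀ p ∈ rect κ₁ κ₂ κ₃ κ₄, p.rank ≤ n) :
    {p | p ∈ rect κ₁ κ₂ κ₃ κ₄ ∧ p.rank = n}.Finite := by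
  apply (finite_box_points (Key.bound κ₁ + Key.bound κ₂ + Key.bound κ₃ + Key.bound κ₄ + 2)).subset
  rintro ⟨⟨c, d⟩, hc, hd, hcd⟩ ⟨⟨h1, h2, h3, h4⟩, hn⟩
  dsimp only at h1 h2 h3 h4
  rcases κ₁ with _ | ⟨l1, v1⟩
  · simp [Kmem] at h1
  rcases κ₄ with _ | ⟨l4, v4⟩
  · simp [Kmem] at h4
  have hn' : rk c d = n := hn
  -- test points
  have test : ∀ (c' d' : Cut) (_ : c'.Proper) (_ : d'.Proper) (_ : Compat c' d'),
      ¬ Kmem (some (l1, v1)) c' → Kmem κ₂ d' → Kmem κ₃ c' → ¬ Kmem (some (l4, v4)) d' →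
      rk c' d' ≤ n := fun c' d' x1 x2 x3 y1 y2 y3 y4 => hr ⟨(c', d'), x1, x2, x3⟩ ⟨y1, y2, y3, y4⟩
  show Cut.InBox _ c ∧ Cut.InBox _ d
  cases c with
  | P i v =>
    cases d with
    | P j w =>
      simp only [Compat] at hcd
      obtain ⟨rfl, rfl⟩ := hcd
      simp only [rk] at hn'
      subst hn'
      have t1 := test (.T 1) (.P 0 w) (by simp [Cut.Proper]) hd (by simp [Compat])
      have t2 := test (.P 0 v) (.T 1) hc (by simp [Cut.Proper]) (by simp [Compat])
      simp [rk, Kmem] at t1 t2 h1 h2 h3 h4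
      rcases κ₂ with _ | ⟨l2, v2⟩ <;> rcases κ₃ with _ | ⟨l3, v3⟩ <;>
        simp [Kmem, Cut.InBox, Key.bound, -Nat.cast_natAbs] at * <;> omega
    | T j =>
      simp only [rk] at hn'
      split_ifs at hn' with hij
      · obtain ⟨rfl, rfl⟩ := hij
        subst hn'
        have t1 := test (.T 1) (.T 1) (by simp [Cut.Proper]) hd (by simp [Compat])
        simp [rk, Kmem] at t1 h1 h2 h3 h4
        rcases κ₂ with _ | ⟨l2, v2⟩ <;> rcases κ₃ with _ | ⟨l3, v3⟩ <;>
          simp [Kmem, Cut.InBox, Key.bound, -Nat.cast_natAbs] at * <;> omega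
      · subst hn'
        have t1 := test (.T (l1 + 1)) (.T j) (by simp [Cut.Proper]) hd (by simp [Compat])
        have t2 := test (.P i v) .Z hc (by simp [Cut.Proper]) (by simp [Compat])
        have r1 : ¬ rk (.T (l1 + 1)) (.T j) ≤ 0 := by
          simp only [rk]; split_ifs <;> omega
        have t1' := fun a b c d => r1 (t1 a b c d)
        simp [rk, Kmem] at t1' t2 h1 h2 h3 h4
        rcases κ₂ with _ | ⟨l2, v2⟩ <;> rcases κ₃ with _ | ⟨l3, v3⟩ <;>
          simp [Kmem, Cut.InBox, Key.bound, Cut.Proper, -Nat.cast_natAbs] at * <;> omega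
    | Z =>
      simp only [rk] at hn'
      subst hn'
      have t1 := test (.T (l1 + 1)) .Z (by simp [Cut.Proper]) hd (by simp [Compat])
      simp [rk, Kmem] at t1 h1 h2 h3 h4
      rcases κ₂ with _ | ⟨l2, v2⟩ <;> rcases κ₃ with _ | ⟨l3, v3⟩ <;>
        simp [Kmem, Cut.InBox, Key.bound, Cut.Proper, -Nat.cast_natAbs] at * <;> omega
  | T i =>
    cases d with
    | P j w =>
      simp only [rk] at hn'
      split_ifs at hn' with hij
      · obtain ⟨rfl, rfl⟩ := hij
        subst hn'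
        have t1 := test (.T 1) (.T 1) hc (by simp [Cut.Proper]) (by simp [Compat])
        simp [rk, Kmem] at t1 h1 h2 h3 h4
        rcases κ₂ with _ | ⟨l2, v2⟩ <;> rcases κ₃ with _ | ⟨l3, v3⟩ <;>
          simp [Kmem, Cut.InBox, Key.bound, -Nat.cast_natAbs] at * <;> omega
      · subst hn'
        have t1 := test (.T i) (.T (l4 + 1)) hc (by simp [Cut.Proper]) (by simp [Compat])
        have t2 := test .Z (.P j w) (by simp [Cut.Proper]) hd (by simp [Compat])
        have r1 : ¬ rk (.T i) (.T (l4 + 1)) ≤ 0 := by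
          simp only [rk]; split_ifs <;> omega
        have t1' := fun a b c d => r1 (t1 a b c d)
        simp [rk, Kmem] at t1' t2 h1 h2 h3 h4
        rcases κ₂ with _ | ⟨l2, v2⟩ <;> rcases κ₃ with _ | ⟨l3, v3⟩ <;>
          simp [Kmem, Cut.InBox, Key.bound, Cut.Proper, -Nat.cast_natAbs] at * <;> omega
    | T j =>
      simp only [rk] at hn'
      split_ifs at hn' with hij
      · obtain ⟨rfl, rfl⟩ := hij
        simp [Cut.InBox]
      · subst hn'
        have t1 := test .Z (.T j) (by simp [Cut.Proper]) hd (by simp [Compat])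
        have t2 := test (.T i) .Z hc (by simp [Cut.Proper]) (by simp [Compat])
        simp [rk, Kmem] at t1 t2 h1 h2 h3 h4
        rcases κ₂ with _ | ⟨l2, v2⟩ <;> rcases κ₃ with _ | ⟨l3, v3⟩ <;>
          simp [Kmem, Cut.InBox, Key.bound, Cut.Proper, -Nat.cast_natAbs] at * <;> omega
    | Z =>
      simp only [rk] at hn'
      subst hn'
      have t1 := test .Z .Z (by simp [Cut.Proper]) hd (by simp [Compat])
      simp [rk, Kmem] at t1 h1 h2 h3 h4
      rcases κ₂ with _ | ⟨l2, v2⟩ <;> rcases κ₃ with _ | ⟨l3, v3⟩ <;>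
        simp [Kmem, Cut.InBox, Key.bound, Cut.Proper, -Nat.cast_natAbs] at * <;> omega
  | Z =>
    cases d with
    | P j w =>
      simp only [rk] at hn'
      subst hn'
      have t1 := test .Z (.T (l4 + 1)) (by simp [Cut.Proper]) (by simp [Cut.Proper])
        (by simp [Compat])
      simp [rk, Kmem] at t1 h1 h2 h3 h4
      rcases κ₂ with _ | ⟨l2, v2⟩ <;> rcases κ₃ with _ | ⟨l3, v3⟩ <;>
        simp [Kmem, Cut.InBox, Key.bound, Cut.Proper, -Nat.cast_natAbs] at * <;> omega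
    | T j =>
      simp only [rk] at hn'
      subst hn'
      have t1 := test .Z .Z (by simp [Cut.Proper]) (by simp [Cut.Proper]) (by simp [Compat])
      simp [rk, Kmem] at t1 h1 h2 h3 h4
      rcases κ₂ with _ | ⟨l2, v2⟩ <;> rcases κ₃ with _ | ⟨l3, v3⟩ <;>
        simp [Kmem, Cut.InBox, Key.bound, Cut.Proper, -Nat.cast_natAbs] at * <;> omega
    | Z => exact ⟨trivial, trivial⟩

end Pool.Agent.Helper37.KG
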