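import Pool.Agent.Helper37.KGSkew
import Pool.Agent.Helper37.KGFrame
import Pool.Agent.Helper37.KGNormal

/-!
# The chain domain `D + x K[[x; σ]]`
-/

set_option autoImplicit false

namespace Pool.Agent.Helper37.KG

open MulOpposite

/-- valuation data on a field with an automorphism -/
structure VData (K : Type) [Field K] (σ : RingAut K) where
  ν : K → ℤ
  mul : ∀ x y, x ≠ 0 → y ≠ 0 → ν (x * y) = ν x + ν y
  add : ∀ x y, x ≠ 0 → y ≠ 0 → x + y ≠ 0 → min (ν x) (ν y) ≤ ν (x + y)
  surj : ∀ n : ℤ, ∃ x, x ≠ 0 ∧ ν x = n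
  approx : ∀ m : ℕ, 1 ≤ m → ∀ N : ℤ, ∃ u : K, (u = 1 ∨ N ≤ ν (u - 1)) ∧
    ((σ ^ m).symm u = 0 ∨ N ≤ ν ((σ ^ m).symm u))

namespace VData

variable {K : Type} [Field K] {σ : RingAut K} (V : VData K σ)

/-- membership in the valuation ring -/
def D (x : K) : Prop := x = 0 ∨ 0 ≤ V.ν x

theorem ν_one : V.ν 1 = 0 := by
  have := V.mul 1 1 one_ne_zero one_ne_zero
  rw [mul_one] at this
  omega

theorem ν_neg_one : V.ν (-1) = 0 := by
  have := V.mul (-1) (-1) (by simp) (by simp)
  rw [neg_mul_neg, mul_one, V.ν_one] at this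
  omega

theorem ν_neg {x : K} (hx : x ≠ 0) : V.ν (-x) = V.ν x := by
  rw [← neg_one_mul, V.mul _ _ (by simp) hx, V.ν_neg_one, zero_add]

theorem ν_div {x y : K} (hx : x ≠ 0) (hy : y ≠ 0) : V.ν (x / y) = V.ν x - V.ν y := by
  have := V.mul (x / y) y (div_ne_zero hx hy) hy
  rw [div_mul_cancel₀ _ hy] at this
  omega

theorem D_zero : V.D 0 := Or.inl rfl

theorem D_one : V.D 1 := Or.inr (by rw [V.ν_one])

theorem D_mul {x y : K} (hx : V.D x) (hy : V.D y) : V.D (x * y) := by
  by_cases h1 : x = 0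
  · left; rw [h1, zero_mul]
  by_cases h2 : y = 0
  · left; rw [h2, mul_zero]
  right
  rw [V.mul _ _ h1 h2]
  have := hx.resolve_left h1
  have := hy.resolve_left h2
  omega

theorem D_add {x y : K} (hx : V.D x) (hy : V.D y) : V.D (x + y) := by
  by_cases h1 : x = 0
  · rw [h1, zero_add]; exact hy
  by_cases h2 : y = 0
  · rw [h2, add_zero]; exact hx
  by_cases h3 : x + y = 0
  · exact Or.inl h3
  right
  have := V.add _ _ h1 h2 h3
  have := hx.resolve_left h1
  have := hy.resolve_left h2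
  omega

theorem D_neg {x : K} (hx : V.D x) : V.D (-x) := by
  by_cases h1 : x = 0
  · left; rw [h1, neg_zero]
  · right
    rw [V.ν_neg h1]
    exact hx.resolve_left h1

/-- the ring `D + x K[[x; σ]]` -/
def R : Subring (IncidenceAlgebra K ℕ) where
  carrier := {f | Tw σ f ∧ V.D (f 0 0)}
  mul_mem' := by
    rintro f g ⟨hf, hf'⟩ ⟨hg, hg'⟩
    refine ⟨hf.mul hg, ?_⟩
    have := mul_coeff_add (f := f) (g := g) hg (m := 0) (n := 0) (by simp) (by simp)
    simp only [add_zero, pow_zero, RingAut.one_apply] at this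
    rw [this]
    exact V.D_mul hf' hg'
  one_mem' := ⟨Tw.one, by rw [IncidenceAlgebra.one_apply, if_pos rfl]; exact V.D_one⟩
  add_mem' := by
    rintro f g ⟨hf, hf'⟩ ⟨hg, hg'⟩
    refine ⟨hf.add hg, ?_⟩
    rw [IncidenceAlgebra.add_apply]
    exact V.D_add hf' hg'
  zero_mem' := ⟨Tw.zero, by rw [IncidenceAlgebra.zero_apply]; exact V.D_zero⟩
  neg_mem' := by
    rintro f ⟨hf, hf'⟩
    refine ⟨hf.neg, ?_⟩
    rw [IncidenceAlgebra.neg_apply]
    exact V.D_neg hf'

theorem tw (a : V.R) : Tw σ a.1 := a.2.1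

/-- left key -/
noncomputable def κL (a : V.R) : Key := by
  classical
  exact if h : a.1 = 0 then none else
    some ((exists_isOrd a.2.1 h).choose, V.ν (a.1 0 (exists_isOrd a.2.1 h).choose))

/-- right key -/
noncomputable def κR (a : V.R) : Key := by
  classical
  exact if h : a.1 = 0 then none else
    some ((exists_isOrd a.2.1 h).choose,
      V.ν ((σ ^ (exists_isOrd a.2.1 h).choose).symm (a.1 0 (exists_isOrd a.2.1 h).choose)))

theorem κL_zero (a : V.R) (h : a.1 = 0) : V.κL a = none := by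
  unfold κL
  rw [dif_pos h]

theorem κR_zero (a : V.R) (h : a.1 = 0) : V.κR a = none := by
  unfold κR
  rw [dif_pos h]

theorem κL_ord {a : V.R} {m : ℕ} (h : IsOrd a.1 m) : V.κL a = some (m, V.ν (a.1 0 m)) := by
  unfold κL
  rw [dif_neg h.ne_zero]
  rw [(exists_isOrd a.2.1 h.ne_zero).choose_spec.unique h]

theorem κR_ord {a : V.R} {m : ℕ} (h : IsOrd a.1 m) :
    V.κR a = some (m, V.ν ((σ ^ m).symm (a.1 0 m))) := by
  unfold κR
  rw [dif_neg h.ne_zero]
  rw [(exists_isOrd a.2.1 h.ne_zero).choose_spec.unique h]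

theorem cases (a : V.R) : a.1 = 0 ∨ ∃ m, IsOrd a.1 m := by
  by_cases h : a.1 = 0
  · exact Or.inl h
  · exact Or.inr (exists_isOrd a.2.1 h)

theorem Kmem_le {l l' : ℕ} {v v' : ℤ} (h : l < l' ∨ (l = l' ∧ v ≤ v')) (c : Cut)
    (hc : Kmem (some (l, v)) c) : Kmem (some (l', v')) c := by
  cases c with
  | P i w => simp only [Kmem] at *; omega
  | T j => simp only [Kmem] at *; omega
  | Z => simp only [Kmem] at *

theorem le_of_Kmem {l l' : ℕ} {v v' : ℤ} (h : ∀ c, Kmem (some (l, v)) c → Kmem (some (l', v')) c) :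
    l < l' ∨ (l = l' ∧ v ≤ v') := by
  have := h (.P l v) (by simp [Kmem])
  simpa [Kmem] using this

theorem left_iff (a a' : V.R) :
    (∀ c, Kmem (V.κL a) c → Kmem (V.κL a') c) ↔ ∃ r : V.R, a' = r * a := by
  constructor
  · intro h
    rcases V.cases a' with ha' | ⟨m', hm'⟩
    · exact ⟨0, by rw [zero_mul]; exact Subtype.ext ha'⟩
    rcases V.cases a with ha | ⟨m, hm⟩
    · rw [V.κL_zero a ha, V.κL_ord hm'] at h
      exact absurd (h .Z trivial) (by simp [Kmem])
    rw [V.κL_ord hm, V.κL_ord hm'] at h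
    have hle := le_of_Kmem h
    obtain ⟨g, hg, hgeq⟩ := left_div (V.tw a') (V.tw a) (m := m)
      (fun i hi => hm'.2 i (by omega)) hm
    have h0 : a'.1 0 m = g 0 0 * a.1 0 m := by
      have := mul_coeff_add (f := g) (V.tw a) (m := 0) (n := m) (by simp) hm.2
      rw [← hgeq] at this
      simpa using this
    have hD : V.D (g 0 0) := by
      rcases hle with hlt | ⟨rfl, hv⟩
      · left
        rw [hm'.2 m hlt] at h0
        exact (mul_eq_zero.mp h0.symm).resolve_right hm.1
      · right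
        have h1 : g 0 0 ≠ 0 := by
          intro h1
          rw [h1, zero_mul] at h0
          exact hm'.1 h0
        rw [h0, V.mul _ _ h1 hm.1] at hv
        omega
    exact ⟨⟨g, hg, hD⟩, Subtype.ext hgeq⟩
  · rintro ⟨r, rfl⟩ c hc
    rcases V.cases (r * a) with h | ⟨m', hm'⟩
    · rw [V.κL_zero _ h]; trivial
    have hne : r.1 * a.1 ≠ 0 := hm'.ne_zero
    rcases V.cases r with hr | ⟨k, hk⟩
    · exact absurd (by rw [hr, zero_mul]) hne
    rcases V.cases a with ha | ⟨m, hm⟩
    · exact absurd (by rw [ha, mul_zero]) hne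
    have hkm : IsOrd (r * a).1 (k + m) := hk.mul (V.tw a) hm
    rw [V.κL_ord hkm]
    rw [V.κL_ord hm] at hc
    refine Kmem_le ?_ c hc
    rcases Nat.eq_zero_or_pos k with rfl | hk0
    · right
      refine ⟨by omega, ?_⟩
      have h0 := mul_coeff_add (f := r.1) (V.tw a) (m := 0) (n := m) (by simp) hm.2
      have h1 : (r * a).1 0 (0 + m) = r.1 0 0 * a.1 0 m := by
        simpa using h0
      rw [h1, V.mul _ _ hk.1 hm.1]
      have := r.2.2.resolve_left hk.1
      omega
    · left; omega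

theorem right_iff (a a' : V.R) :
    (∀ c, Kmem (V.κR a) c → Kmem (V.κR a') c) ↔ ∃ r : V.R, a' = a * r := by
  constructor
  · intro h
    rcases V.cases a' with ha' | ⟨m', hm'⟩
    · exact ⟨0, by rw [mul_zero]; exact Subtype.ext ha'⟩
    rcases V.cases a with ha | ⟨m, hm⟩
    · rw [V.κR_zero a ha, V.κR_ord hm'] at h
      exact absurd (h .Z trivial) (by simp [Kmem])
    rw [V.κR_ord hm, V.κR_ord hm'] at h
    have hle := le_of_Kmem h
    obtain ⟨g, hg, hgeq⟩ := right_div (V.tw a') (V.tw a) (m := m)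
      (fun i hi => hm'.2 i (by omega)) hm
    have h0 : a'.1 0 m = a.1 0 m * (σ ^ m) (g 0 0) := by
      have := mul_coeff_add (f := a.1) hg (m := m) (n := 0) hm.2 (by simp)
      rw [← hgeq] at this
      simpa using this
    have hD : V.D (g 0 0) := by
      rcases hle with hlt | ⟨rfl, hv⟩
      · left
        rw [hm'.2 m hlt] at h0
        exact (map_eq_zero (σ ^ m)).mp ((mul_eq_zero.mp h0.symm).resolve_left hm.1)
      · right
        have h1 : g 0 0 ≠ 0 := by
          intro h1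
          rw [h1, map_zero (σ ^ m), mul_zero] at h0
          exact hm'.1 h0
        have h2 : (σ ^ m).symm (a'.1 0 m) = (σ ^ m).symm (a.1 0 m) * g 0 0 := by
          rw [h0, map_mul, RingEquiv.symm_apply_apply]
        rw [h2, V.mul _ _ ((map_ne_zero _).mpr hm.1) h1] at hv
        omega
    exact ⟨⟨g, hg, hD⟩, Subtype.ext hgeq⟩
  · rintro ⟨r, rfl⟩ c hc
    rcases V.cases (a * r) with h | ⟨m', hm'⟩
    · rw [V.κR_zero _ h]; trivial
    have hne : a.1 * r.1 ≠ 0 := hm'.ne_zero
    rcases V.cases r with hr | ⟨k, hk⟩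
    · exact absurd (by rw [hr, mul_zero]) hne
    rcases V.cases a with ha | ⟨m, hm⟩
    · exact absurd (by rw [ha, zero_mul]) hne
    have hkm : IsOrd (a * r).1 (m + k) := hm.mul (V.tw r) hk
    rw [V.κR_ord hkm]
    rw [V.κR_ord hm] at hc
    refine Kmem_le ?_ c hc
    rcases Nat.eq_zero_or_pos k with rfl | hk0
    · right
      refine ⟨by omega, ?_⟩
      have h0 := mul_coeff_add (f := a.1) (V.tw r) (m := m) (n := 0) hm.2 (by simp)
      have h1 : (σ ^ (m + 0)).symm ((a * r).1 0 (m + 0)) =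
          (σ ^ m).symm (a.1 0 m) * r.1 0 0 := by
        show (σ ^ (m + 0)).symm ((a.1 * r.1) 0 (m + 0)) = _
        rw [h0, add_zero, map_mul, RingEquiv.symm_apply_apply]
      rw [h1, V.mul _ _ ((map_ne_zero _).mpr hm.1) hk.1]
      have := r.2.2.resolve_left hk.1
      omega
    · left; omega

theorem chainRing : ChainRing V.R where
  left := by
    intro a b
    rcases Kmem_total (V.κL a) (V.κL b) with h | h
    · right; exact (V.left_iff a b).mp h
    · left; exact (V.left_iff b a).mp h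
  right := by
    intro a b
    rcases Kmem_total (V.κR a) (V.κR b) with h | h
    · right; exact (V.right_iff a b).mp h
    · left; exact (V.right_iff b a).mp h

/-- monomials -/
noncomputable def mono (l : ℕ) (k : K) : IncidenceAlgebra K ℕ :=
  mkT σ (fun n => if n = l then k else 0)

theorem isOrd_mono {l : ℕ} {k : K} (hk : k ≠ 0) : IsOrd (mono (σ := σ) l k) l := by
  constructor
  · rw [mono, mkT_zero_apply, if_pos rfl]; exact hk
  · intro i hi
    rw [mono, mkT_zero_apply, if_neg (by omega)]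

theorem mono_apply (l : ℕ) (k : K) : (mono (σ := σ) l k) 0 l = k := by
  rw [mono, mkT_zero_apply, if_pos rfl]

theorem surjL (κ : Key) (hκ : KValid κ) : ∃ a, V.κL a = κ := by
  rcases κ with _ | ⟨l, v⟩
  · exact ⟨0, V.κL_zero 0 rfl⟩
  · obtain ⟨k, hk, hk'⟩ := V.surj v
    have hmem : mono (σ := σ) l k ∈ V.R := by
      refine ⟨Tw_mkT σ _, ?_⟩
      rw [mono, mkT_zero_apply]
      by_cases h : 0 = l
      · subst h
        rw [if_pos rfl]
        right
        simp [KValid] at hκ
        omega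
      · rw [if_neg h]; exact V.D_zero
    refine ⟨⟨_, hmem⟩, ?_⟩
    rw [V.κL_ord (a := ⟨_, hmem⟩) (isOrd_mono hk)]
    show some (l, V.ν ((mono (σ := σ) l k) 0 l)) = _
    rw [mono_apply, hk']

theorem surjR (κ : Key) (hκ : KValid κ) : ∃ a, V.κR a = κ := by
  rcases κ with _ | ⟨l, v⟩
  · exact ⟨0, V.κR_zero 0 rfl⟩
  · obtain ⟨k, hk, hk'⟩ := V.surj v
    have hmem : mono (σ := σ) l ((σ ^ l) k) ∈ V.R := by
      refine ⟨Tw_mkT σ _, ?_⟩
      rw [mono, mkT_zero_apply]
      by_cases h : 0 = l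
      · subst h
        rw [if_pos rfl]
        right
        simp [KValid] at hκ
        simp
        omega
      · rw [if_neg h]; exact V.D_zero
    refine ⟨⟨_, hmem⟩, ?_⟩
    rw [V.κR_ord (a := ⟨_, hmem⟩) (isOrd_mono ((map_ne_zero _).mpr hk))]
    show some (l, V.ν ((σ ^ l).symm ((mono (σ := σ) l ((σ ^ l) k)) 0 l))) = _
    rw [mono_apply, RingEquiv.symm_apply_apply, hk']

end VData

end Pool.Agent.Helper37.KG
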