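import Mathlib

/-!
# Skew power series as a subring of an incidence algebra
-/

set_option autoImplicit false

namespace Pool.Agent.Helper37.KG

variable {K : Type} [Field K] (σ : RingAut K)

/-- twisted upper triangular Toeplitz matrices, i.e. skew power series -/
def Tw (f : IncidenceAlgebra K ℕ) : Prop := ∀ i j, f (i + 1) (j + 1) = σ (f i j)

/-- the element with given coefficients -/
noncomputable def mkT (F : ℕ → K) : IncidenceAlgebra K ℕ where
  toFun := fun a b => if a ≤ b then (σ ^ a) (F (b - a)) else 0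
  eq_zero_of_not_le' := fun a b h => by simp [h]

theorem mkT_apply (F : ℕ → K) (a b : ℕ) :
    mkT σ F a b = if a ≤ b then (σ ^ a) (F (b - a)) else 0 := rfl

theorem mkT_zero_apply (F : ℕ → K) (n : ℕ) : mkT σ F 0 n = F n := by
  rw [mkT_apply, if_pos (Nat.zero_le _)]
  simp

theorem Tw_mkT (F : ℕ → K) : Tw σ (mkT σ F) := by
  intro i j
  rw [mkT_apply, mkT_apply]
  by_cases h : i ≤ j
  · rw [if_pos h, if_pos (by omega), pow_succ', RingAut.mul_apply]
    congr 3
    omega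
  · rw [if_neg h, if_neg (by omega), map_zero]

variable {σ}

theorem Tw.apply {f : IncidenceAlgebra K ℕ} (hf : Tw σ f) (i n : ℕ) :
    f i (i + n) = (σ ^ i) (f 0 n) := by
  induction i with
  | zero => simp
  | succ i ih =>
    rw [show i + 1 + n = (i + n) + 1 by omega, hf, ih, pow_succ', RingAut.mul_apply]

theorem Tw.ext {f g : IncidenceAlgebra K ℕ} (hf : Tw σ f) (hg : Tw σ g)
    (h : ∀ n, f 0 n = g 0 n) : f = g := by
  apply IncidenceAlgebra.ext
  intro a b hab
  obtain ⟨n, rfl⟩ := Nat.exists_eq_add_of_le hab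
  rw [hf.apply, hg.apply, h]

theorem Tw.mul {f g : IncidenceAlgebra K ℕ} (hf : Tw σ f) (hg : Tw σ g) : Tw σ (f * g) := by
  intro i j
  rw [IncidenceAlgebra.mul_apply, IncidenceAlgebra.mul_apply, map_sum]
  have : Finset.Icc (i + 1) (j + 1) = (Finset.Icc i j).map (addRightEmbedding 1) := by
    ext x
    simp only [Finset.mem_Icc, Finset.mem_map, addRightEmbedding_apply]
    constructor
    · rintro ⟨h1, h2⟩
      exact ⟨x - 1, ⟨by omega, by omega⟩, by omega⟩
    · rintro ⟨y, ⟨h1, h2⟩, rfl⟩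
      omega
  rw [this, Finset.sum_map]
  refine Finset.sum_congr rfl fun x _ => ?_
  rw [map_mul, addRightEmbedding_apply, hf, hg]

theorem Tw.one : Tw σ (1 : IncidenceAlgebra K ℕ) := by
  intro i j
  rw [IncidenceAlgebra.one_apply, IncidenceAlgebra.one_apply]
  by_cases h : i = j <;> simp [h]

theorem Tw.zero : Tw σ (0 : IncidenceAlgebra K ℕ) := by
  intro i j
  simp

theorem Tw.add {f g : IncidenceAlgebra K ℕ} (hf : Tw σ f) (hg : Tw σ g) : Tw σ (f + g) := by
  intro i j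
  rw [IncidenceAlgebra.add_apply, IncidenceAlgebra.add_apply, map_add σ, hf, hg]

theorem Tw.neg {f : IncidenceAlgebra K ℕ} (hf : Tw σ f) : Tw σ (-f) := by
  intro i j
  rw [IncidenceAlgebra.neg_apply, IncidenceAlgebra.neg_apply, map_neg, hf]

theorem Tw.sub {f g : IncidenceAlgebra K ℕ} (hf : Tw σ f) (hg : Tw σ g) : Tw σ (f - g) := by
  rw [sub_eq_add_neg]
  exact hf.add hg.neg

theorem mul_coeff (f g : IncidenceAlgebra K ℕ) (hg : Tw σ g) (n : ℕ) :
    (f * g) 0 n = ∑ x ∈ Finset.range (n + 1), f 0 x * (σ ^ x) (g 0 (n - x)) := by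
  rw [IncidenceAlgebra.mul_apply, Nat.range_succ_eq_Icc_zero]
  refine Finset.sum_congr rfl fun x hx => ?_
  rw [Finset.mem_Icc] at hx
  rw [← hg.apply x (n - x), show x + (n - x) = n by omega]

/-- product of leading coefficients -/
theorem mul_coeff_add {f g : IncidenceAlgebra K ℕ} (hg : Tw σ g) {m n : ℕ}
    (h1 : ∀ i < m, f 0 i = 0) (h2 : ∀ i < n, g 0 i = 0) :
    (f * g) 0 (m + n) = f 0 m * (σ ^ m) (g 0 n) := by
  rw [mul_coeff f g hg, Finset.sum_eq_single m]
  · rw [show m + n - m = n by omega]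
  · intro x hx hxm
    rw [Finset.mem_range] at hx
    rcases lt_or_gt_of_ne hxm with h | h
    · rw [h1 x h, zero_mul]
    · rw [h2 (m + n - x) (by omega), map_zero (σ ^ x), mul_zero]
  · intro h
    exact absurd (Finset.mem_range.mpr (by omega)) h

theorem mul_coeff_lt {f g : IncidenceAlgebra K ℕ} (hg : Tw σ g) {m n k : ℕ}
    (h1 : ∀ i < m, f 0 i = 0) (h2 : ∀ i < n, g 0 i = 0) (hk : k < m + n) :
    (f * g) 0 k = 0 := by
  rw [mul_coeff f g hg]
  apply Finset.sum_eq_zero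
  intro x hx
  rw [Finset.mem_range] at hx
  by_cases h : x < m
  · rw [h1 x h, zero_mul]
  · rw [h2 (k - x) (by omega), map_zero (σ ^ x), mul_zero]

/-- recursion -/
noncomputable def sol {K : Type} (Ψ : (k : ℕ) → (Fin k → K) → K) : ℕ → K
  | k => Ψ k (fun x => sol Ψ x.1)
termination_by k => k
decreasing_by exact x.2

theorem sol_eq {K : Type} (Ψ : (k : ℕ) → (Fin k → K) → K) (k : ℕ) :
    sol Ψ k = Ψ k (fun x => sol Ψ x.1) := by
  rw [sol]

/-- order of a series -/
def IsOrd (f : IncidenceAlgebra K ℕ) (m : ℕ) : Prop := f 0 m ≠ 0 ∧ ∀ i < m, f 0 i = 0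

theorem exists_isOrd {f : IncidenceAlgebra K ℕ} (hf : Tw σ f) (h : f ≠ 0) : ∃ m, IsOrd f m := by
  classical
  have hex : ∃ n, f 0 n ≠ 0 := by
    by_contra hcon
    push Not at hcon
    exact h (hf.ext Tw.zero (fun n => by rw [hcon n]; simp))
  exact ⟨Nat.find hex, Nat.find_spec hex, fun i hi => by
    have := Nat.find_min hex hi
    push Not at this
    exact this⟩

theorem IsOrd.unique {f : IncidenceAlgebra K ℕ} {m n : ℕ} (h1 : IsOrd f m) (h2 : IsOrd f n) :
    m = n := by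
  rcases lt_trichotomy m n with h | h | h
  · exact absurd (h2.2 m h) h1.1
  · exact h
  · exact absurd (h1.2 n h) h2.1

theorem IsOrd.ne_zero {f : IncidenceAlgebra K ℕ} {m : ℕ} (h1 : IsOrd f m) : f ≠ 0 := by
  rintro rfl
  exact h1.1 (by simp)

theorem IsOrd.mul {f g : IncidenceAlgebra K ℕ} (hg : Tw σ g) {m n : ℕ}
    (h1 : IsOrd f m) (h2 : IsOrd g n) : IsOrd (f * g) (m + n) := by
  refine ⟨?_, fun i hi => mul_coeff_lt hg h1.2 h2.2 hi⟩
  rw [mul_coeff_add hg h1.2 h2.2]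
  exact mul_ne_zero h1.1 ((map_ne_zero _).mpr h2.1)

theorem left_div {f g : IncidenceAlgebra K ℕ} (hf : Tw σ f) (hg : Tw σ g) {m : ℕ}
    (h1 : ∀ i < m, f 0 i = 0) (h2 : IsOrd g m) : ∃ h, Tw σ h ∧ f = h * g := by
  let Ψ : (k : ℕ) → (Fin k → K) → K := fun k H =>
    (f 0 (m + k) - ∑ x : Fin k, H x * (σ ^ x.1) (g 0 (m + k - x.1))) / (σ ^ k) (g 0 m)
  refine ⟨mkT σ (sol Ψ), Tw_mkT σ _, ?_⟩
  apply hf.ext ((Tw_mkT σ _).mul hg)
  intro n
  rw [mul_coeff _ _ hg]
  by_cases hn : n < m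
  · rw [h1 n hn]
    symm
    apply Finset.sum_eq_zero
    intro x hx
    rw [h2.2 (n - x) (by omega), map_zero (σ ^ x), mul_zero]
  · obtain ⟨k, rfl⟩ := Nat.exists_eq_add_of_le (Nat.le_of_not_lt hn)
    have h3 : ∑ x ∈ Finset.range (m + k + 1), mkT σ (sol Ψ) 0 x * (σ ^ x) (g 0 (m + k - x)) =
        ∑ x ∈ Finset.range (k + 1), sol Ψ x * (σ ^ x) (g 0 (m + k - x)) := by
      symm
      calc _ = ∑ x ∈ Finset.range (k + 1), mkT σ (sol Ψ) 0 x * (σ ^ x) (g 0 (m + k - x)) := by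
            refine Finset.sum_congr rfl fun x _ => ?_
            rw [mkT_zero_apply]
        _ = _ := by
            apply Finset.sum_subset
            · intro x hx
              rw [Finset.mem_range] at hx ⊢
              omega
            · intro x hx' hx
              rw [Finset.mem_range] at hx hx'
              rw [h2.2 (m + k - x) (by omega), map_zero (σ ^ x), mul_zero]
    rw [h3, Finset.sum_range_succ, sol_eq Ψ k]
    have h4 : (σ ^ k) (g 0 m) ≠ 0 := (map_ne_zero _).mpr h2.1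
    have h5 : Ψ k (fun x => sol Ψ x.1) * (σ ^ k) (g 0 m) =
        f 0 (m + k) - ∑ x : Fin k, sol Ψ x.1 * (σ ^ x.1) (g 0 (m + k - x.1)) := by
      show (_ / _) * _ = _
      rw [div_mul_cancel₀ _ h4]
    rw [show m + k - k = m by omega, h5, Finset.sum_range]
    ring

theorem right_div {f g : IncidenceAlgebra K ℕ} (hf : Tw σ f) (hg : Tw σ g) {m : ℕ}
    (h1 : ∀ i < m, f 0 i = 0) (h2 : IsOrd g m) : ∃ h, Tw σ h ∧ f = g * h := by
  let Ψ : (k : ℕ) → (Fin k → K) → K := fun k H =>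
    (σ ^ m).symm ((f 0 (m + k) -
      ∑ x : Fin k, g 0 (m + k - x.1) * (σ ^ (m + k - x.1)) (H x)) / g 0 m)
  refine ⟨mkT σ (sol Ψ), Tw_mkT σ _, ?_⟩
  apply hf.ext (hg.mul (Tw_mkT σ _))
  intro n
  rw [mul_coeff _ _ (Tw_mkT σ _)]
  have h0 : ∑ x ∈ Finset.range (n + 1), g 0 x * (σ ^ x) (mkT σ (sol Ψ) 0 (n - x)) =
      ∑ x ∈ Finset.range (n + 1), g 0 (n - x) * (σ ^ (n - x)) (sol Ψ x) := by
    rw [← Finset.sum_flip]
    refine Finset.sum_congr rfl fun x hx => ?_
    rw [Finset.mem_range] at hx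
    rw [mkT_zero_apply, show n - (n - x) = x by omega]
  rw [h0]
  by_cases hn : n < m
  · rw [h1 n hn]
    symm
    apply Finset.sum_eq_zero
    intro x hx
    rw [h2.2 (n - x) (by omega), zero_mul]
  · obtain ⟨k, rfl⟩ := Nat.exists_eq_add_of_le (Nat.le_of_not_lt hn)
    have h3 : ∑ x ∈ Finset.range (m + k + 1), g 0 (m + k - x) * (σ ^ (m + k - x)) (sol Ψ x) =
        ∑ x ∈ Finset.range (k + 1), g 0 (m + k - x) * (σ ^ (m + k - x)) (sol Ψ x) := by
      symm
      apply Finset.sum_subset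
      · intro x hx
        rw [Finset.mem_range] at hx ⊢
        omega
      · intro x hx' hx
        rw [Finset.mem_range] at hx hx'
        rw [h2.2 (m + k - x) (by omega), zero_mul]
    rw [h3, Finset.sum_range_succ, sol_eq Ψ k]
    have h5 : g 0 m * (σ ^ m) (Ψ k (fun x => sol Ψ x.1)) =
        f 0 (m + k) - ∑ x : Fin k, g 0 (m + k - x.1) * (σ ^ (m + k - x.1)) (sol Ψ x.1) := by
      show g 0 m * (σ ^ m) ((σ ^ m).symm _) = _
      rw [RingEquiv.apply_symm_apply, mul_div_cancel₀ _ h2.1]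
    rw [show m + k - k = m by omega, h5, Finset.sum_range]
    ring

end Pool.Agent.Helper37.KG
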