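import Pool.Agent.Helper37.KGRing

/-!
# The basic relations between divisibility and annihilator formulas
-/

set_option autoImplicit false

namespace Pool.Agent.Helper37.KG

open MulOpposite

namespace VData

variable {K : Type} [Field K] {σ : RingAut K} (V : VData K σ)

theorem mul_zero_coeff (a b : V.R) : (a * b).1 0 0 = a.1 0 0 * b.1 0 0 := by
  have := mul_coeff_add (f := a.1) (V.tw b) (m := 0) (n := 0) (by simp) (by simp)
  show (a.1 * b.1) 0 0 = _
  simpa only [add_zero, pow_zero, RingAut.one_apply] using this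

/-- if `c = r * a` and the key of `a` does not reach that of `c`, the constant term of `r`
is zero or has positive value -/
theorem left_const {a r : V.R} {l : ℕ} (ha : IsOrd a.1 l) (q : Cut)
    (h1 : ¬ Kmem (V.κL a) q) (h2 : Kmem (V.κL (r * a)) q) :
    r.1 0 0 = 0 ∨ (1 ≤ V.ν (r.1 0 0) ∧ ∃ v, q = .P l v) := by
  by_cases hr : r.1 0 0 = 0
  · exact Or.inl hr
  right
  have hr0 : IsOrd r.1 0 := ⟨hr, by simp⟩
  have hra : IsOrd (r * a).1 l := by
    have := hr0.mul (V.tw a) ha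
    rwa [zero_add] at this
  have hcoef : (r * a).1 0 l = r.1 0 0 * a.1 0 l := by
    have := mul_coeff_add (f := r.1) (V.tw a) (m := 0) (n := l) (by simp) ha.2
    simpa using this
  rw [V.κL_ord ha] at h1
  rw [V.κL_ord hra, hcoef, V.mul _ _ hr ha.1] at h2
  have h3 := r.2.2.resolve_left hr
  cases q with
  | P i w =>
    simp only [Kmem] at h1 h2
    refine ⟨by omega, w, ?_⟩
    congr 1
    omega
  | T j => exact absurd h2 h1
  | Z => exact absurd h2 h1

theorem right_const {d s : V.R} {l : ℕ} (hd : IsOrd d.1 l) (q : Cut)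
    (h1 : ¬ Kmem (V.κR d) q) (h2 : Kmem (V.κR (d * s)) q) :
    s.1 0 0 = 0 ∨ (1 ≤ V.ν (s.1 0 0) ∧ ∃ v, q = .P l v) := by
  by_cases hs : s.1 0 0 = 0
  · exact Or.inl hs
  right
  have hs0 : IsOrd s.1 0 := ⟨hs, by simp⟩
  have hds : IsOrd (d * s).1 l := by
    have := hd.mul (V.tw s) hs0
    rwa [add_zero] at this
  have hcoef : (σ ^ l).symm ((d * s).1 0 l) = (σ ^ l).symm (d.1 0 l) * s.1 0 0 := by
    have h0 := mul_coeff_add (f := d.1) (V.tw s) (m := l) (n := 0) hd.2 (by simp)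
    rw [add_zero] at h0
    show (σ ^ l).symm ((d.1 * s.1) 0 l) = _
    rw [h0, map_mul, RingEquiv.symm_apply_apply]
  rw [V.κR_ord hd] at h1
  rw [V.κR_ord hds, hcoef, V.mul _ _ ((map_ne_zero _).mpr hd.1) hs] at h2
  have h3 := s.2.2.resolve_left hs
  cases q with
  | P i w =>
    simp only [Kmem] at h1 h2
    refine ⟨by omega, w, ?_⟩
    congr 1
    omega
  | T j => exact absurd h2 h1
  | Z => exact absurd h2 h1

theorem star_forward (a b c d : V.R) (h : dl a ⊓ al b ≤ dl c ⊔ al d) (p : Point) :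
    p ∉ rect (V.κL a) (V.κR b) (V.κL c) (V.κR d) := by
  rintro ⟨h1, h2, h3, h4⟩
  obtain ⟨⟨q, q'⟩, hq, hq', hqq⟩ := p
  dsimp only at h1 h2 h3 h4
  -- orders
  rcases V.cases a with ha | ⟨l, ha⟩
  · rw [V.κL_zero a ha] at h1; exact h1 trivial
  rcases V.cases d with hd | ⟨l', hd⟩
  · rw [V.κR_zero d hd] at h4; exact h4 trivial
  -- factorizations
  obtain ⟨r, rfl⟩ : ∃ r, c = r * a := by
    rw [← V.left_iff]
    rcases Kmem_total (V.κL a) (V.κL c) with hh | hh
    · exact hh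
    · exact absurd (hh _ h3) h1
  obtain ⟨s, rfl⟩ : ∃ s, b = d * s := by
    rw [← V.right_iff]
    rcases Kmem_total (V.κR d) (V.κR b) with hh | hh
    · exact hh
    · exact absurd (hh _ h2) h4
  -- the test module
  let I : Submodule V.Rᵐᵒᵖ V.R := Submodule.span V.Rᵐᵒᵖ {a * (d * s)}
  have hx := h (ModuleCat.of V.Rᵐᵒᵖ (V.R ⧸ I)) (x := I.mkQ a) (by
    rw [mem_ppinf, mem_dl, mem_al]
    refine ⟨⟨I.mkQ 1, ?_⟩, ?_⟩
    · show I.mkQ a = op a • I.mkQ 1
      rw [← map_smul]
      simp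
    · show op (d * s) • I.mkQ a = 0
      rw [← map_smul, Submodule.mkQ_apply, Submodule.Quotient.mk_eq_zero]
      exact Submodule.subset_span rfl)
  rw [mem_ppsup] at hx
  obtain ⟨y, hy, z, hz, hyz⟩ := hx
  rw [mem_dl] at hy
  rw [mem_al] at hz
  obtain ⟨y', rfl⟩ := hy
  obtain ⟨y0, rfl⟩ := I.mkQ_surjective y'
  obtain ⟨z0, rfl⟩ := I.mkQ_surjective z
  have e1 : (a - y0 * (r * a) - z0) ∈ I := by
    rw [← Submodule.Quotient.mk_eq_zero, ← Submodule.mkQ_apply, map_sub, map_sub]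
    have : op (r * a) • I.mkQ y0 = I.mkQ (y0 * (r * a)) := by
      rw [← map_smul]; rfl
    have hyz' : op (r * a) • I.mkQ y0 + I.mkQ z0 = I.mkQ a := hyz
    rw [← hyz', this]
    abel
  have e2 : z0 * d ∈ I := by
    rw [← Submodule.Quotient.mk_eq_zero, ← Submodule.mkQ_apply]
    have : op d • I.mkQ z0 = I.mkQ (z0 * d) := by
      rw [← map_smul]; rfl
    rw [← this]
    exact hz
  have e3 : (a - y0 * (r * a)) * d ∈ I := by
    have h5 : (a - y0 * (r * a)) * d = op d • (a - y0 * (r * a) - z0) + z0 * d := by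
      show _ = (a - y0 * (r * a) - z0) * d + z0 * d
      rw [← add_mul]
      congr 1
      abel
    rw [h5]
    exact I.add_mem (I.smul_mem _ e1) e2
  obtain ⟨t, ht⟩ := Submodule.mem_span_singleton.mp e3
  obtain ⟨t, rfl⟩ := op_surjective t
  have e4 : (1 - y0 * r) * (a * d) = (a * d) * (s * t) := by
    have h6 : op t • (a * (d * s)) = (a * (d * s)) * t := rfl
    rw [h6] at ht
    calc (1 - y0 * r) * (a * d) = (a - y0 * (r * a)) * d := by noncomm_ring
      _ = (a * (d * s)) * t := ht.symm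
      _ = (a * d) * (s * t) := by noncomm_ring
  have hw : IsOrd (a * d).1 (l + l') := ha.mul (V.tw d) hd
  have e5 : (1 - y0.1 0 0 * r.1 0 0) * (a * d).1 0 (l + l') =
      (a * d).1 0 (l + l') * (σ ^ (l + l')) (s.1 0 0 * t.1 0 0) := by
    have h7 := mul_coeff_add (f := (1 - y0 * r).1) (V.tw (a * d)) (m := 0) (n := l + l')
      (by simp) hw.2
    have h8 := mul_coeff_add (f := (a * d).1) (V.tw (s * t)) (m := l + l') (n := 0)
      hw.2 (by simp)
    have h9 : ((1 - y0 * r) * (a * d)).1 0 (0 + (l + l')) =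
        ((a * d) * (s * t)).1 0 (l + l' + 0) := by rw [e4]; simp
    have h10 : (1 - y0 * r).1 0 0 = 1 - y0.1 0 0 * r.1 0 0 := by
      show (1 - (y0 * r).1) 0 0 = _
      rw [IncidenceAlgebra.sub_apply, IncidenceAlgebra.one_apply, if_pos rfl, V.mul_zero_coeff]
    have h11 : ((1 - y0 * r).1 * (a * d).1) 0 (0 + (l + l')) =
        ((a * d).1 * (s * t).1) 0 (l + l' + 0) := h9
    rw [h7, h8, h10, V.mul_zero_coeff] at h11
    simpa using h11
  have e6 : 1 - y0.1 0 0 * r.1 0 0 = (σ ^ (l + l')) (s.1 0 0 * t.1 0 0) := by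
    rw [mul_comm] at e5
    exact mul_left_cancel₀ hw.1 e5
  have hr := V.left_const ha q h1 h3
  have hs := V.right_const hd q' h4 h2
  -- a product with a small factor is not one
  have small : ∀ x y : K, V.D x → (y = 0 ∨ 1 ≤ V.ν y) → x * y = 0 ∨ 1 ≤ V.ν (x * y) := by
    intro x y hx hy
    by_cases hx0 : x = 0
    · left; rw [hx0, zero_mul]
    by_cases hy0 : y = 0
    · left; rw [hy0, mul_zero]
    right
    rw [V.mul _ _ hx0 hy0]
    have := hx.resolve_left hx0
    have := hy.resolve_left hy0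
    omega
  have hyr : y0.1 0 0 * r.1 0 0 = 0 ∨ 1 ≤ V.ν (y0.1 0 0 * r.1 0 0) :=
    small _ _ y0.2.2 (hr.imp id (fun h => h.1))
  have hst : s.1 0 0 * t.1 0 0 = 0 ∨ 1 ≤ V.ν (s.1 0 0 * t.1 0 0) := by
    rw [mul_comm]
    exact small _ _ t.2.2 (hs.imp id (fun h => h.1))
  have not_one : ∀ x : K, (x = 0 ∨ 1 ≤ V.ν x) → x ≠ 1 := by
    rintro x hx rfl
    rcases hx with h | h
    · exact one_ne_zero h
    · rw [V.ν_one] at h; omega
  have hcase : (σ ^ (l + l')) (s.1 0 0 * t.1 0 0) ≠ 0 := by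
    rw [← e6]
    intro h0
    exact not_one _ hyr (sub_eq_zero.mp h0).symm
  have hst0 : s.1 0 0 * t.1 0 0 ≠ 0 := (map_ne_zero _).mp hcase
  have hs0 : s.1 0 0 ≠ 0 := left_ne_zero_of_mul hst0
  have hyr0 : y0.1 0 0 * r.1 0 0 ≠ 0 := by
    intro h0
    rw [h0, sub_zero] at e6
    exact not_one _ hst ((σ ^ (l + l')).injective (by rw [← e6, map_one]))
  have hr0 : r.1 0 0 ≠ 0 := right_ne_zero_of_mul hyr0
  obtain ⟨_, v, rfl⟩ := hr.resolve_left hr0
  obtain ⟨_, v', rfl⟩ := hs.resolve_left hs0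
  obtain ⟨rfl, rfl⟩ := hqq
  simp only [add_zero, pow_zero, RingAut.one_apply] at e6
  have h1' : y0.1 0 0 * r.1 0 0 + s.1 0 0 * t.1 0 0 = 1 := by
    rw [← e6]; ring
  have := V.add _ _ hyr0 hst0 (by rw [h1']; exact one_ne_zero)
  rw [h1', V.ν_one] at this
  have h5 := hyr.resolve_left hyr0
  have h6 := hst.resolve_left hst0
  omega

theorem star_backward (a b c d : V.R)
    (h : ∀ p, p ∉ rect (V.κL a) (V.κR b) (V.κL c) (V.κR d)) :
    dl a ⊓ al b ≤ dl c ⊔ al d := by
  by_cases hac : ∃ r, a = r * c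
  · obtain ⟨r, rfl⟩ := hac
    refine le_trans inf_le_left (le_trans ?_ le_sup_left)
    intro M x hx
    change x ∈ (dl (r * c)).1 M at hx
    show x ∈ (dl c).1 M
    rw [mem_dl] at hx ⊢
    obtain ⟨y, rfl⟩ := hx
    exact ⟨op r • y, by rw [← mul_smul, ← op_mul]⟩
  by_cases hdb : ∃ s, d = b * s
  · obtain ⟨s, rfl⟩ := hdb
    refine le_trans inf_le_right (le_trans ?_ le_sup_right)
    intro M x hx
    change x ∈ (al b).1 M at hx
    show x ∈ (al (b * s)).1 M
    rw [mem_al] at hx ⊢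
    rw [op_mul, mul_smul, hx, smul_zero]
  obtain ⟨r, rfl⟩ := (V.chainRing.left a c).resolve_left hac
  obtain ⟨s, rfl⟩ := (V.chainRing.right d b).resolve_left hdb
  rcases V.cases a with ha | ⟨l, ha⟩
  · exact absurd ⟨0, by rw [zero_mul]; exact Subtype.ext ha⟩ hac
  rcases V.cases d with hd | ⟨l', hd⟩
  · exact absurd ⟨0, by rw [mul_zero]; exact Subtype.ext hd⟩ hdb
  -- cuts
  have cutL : ∃ q : Cut, q.Proper ∧ ¬ Kmem (V.κL a) q ∧ Kmem (V.κL (r * a)) q ∧
      (r.1 0 0 ≠ 0 → ∃ v, q = .P l v) ∧ (r.1 0 0 = 0 → q = .T (l + 1)) := by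
    by_cases hr0 : r.1 0 0 = 0
    · refine ⟨.T (l + 1), by simp [Cut.Proper], ?_, ?_, fun h => absurd hr0 h, fun _ => rfl⟩
      · rw [V.κL_ord ha]; simp [Kmem]
      · rcases V.cases (r * a) with hra | ⟨k, hk⟩
        · rw [V.κL_zero _ hra]; trivial
        · rw [V.κL_ord hk]
          simp only [Kmem]
          by_contra hlt
          have := mul_coeff_lt (f := r.1) (V.tw a) (m := 1) (n := l) (k := k)
            (by intro i hi; have : i = 0 := by omega
                subst this; exact hr0) ha.2 (by omega)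
          exact hk.1 this
    · have hr0' : IsOrd r.1 0 := ⟨hr0, by simp⟩
      have hra : IsOrd (r * a).1 l := by
        have := hr0'.mul (V.tw a) ha
        rwa [zero_add] at this
      have hna : ¬ ∀ c, Kmem (V.κL (r * a)) c → Kmem (V.κL a) c := by
        intro hh
        exact hac ((V.left_iff _ _).mp hh)
      rw [V.κL_ord ha, V.κL_ord hra] at hna
      have hlt : V.ν (a.1 0 l) < V.ν ((r * a).1 0 l) := by
        by_contra hge
        exact hna (fun c => Kmem_le (Or.inr ⟨rfl, by omega⟩) c)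
      refine ⟨.P l (V.ν ((r * a).1 0 l)), ?_, ?_, ?_, fun _ => ⟨_, rfl⟩, fun h => absurd h hr0⟩
      · by_cases hl : l = 0
        · right
          subst hl
          have := a.2.2.resolve_left ha.1
          omega
        · left; omega
      · rw [V.κL_ord ha]; simp only [Kmem]; omega
      · rw [V.κL_ord hra]; exact Or.inr ⟨rfl, le_refl _⟩
  have cutR : ∃ q : Cut, q.Proper ∧ ¬ Kmem (V.κR d) q ∧ Kmem (V.κR (d * s)) q ∧
      (s.1 0 0 ≠ 0 → ∃ v, q = .P l' v) ∧ (s.1 0 0 = 0 → q = .T (l' + 1)) := by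
    by_cases hs0 : s.1 0 0 = 0
    · refine ⟨.T (l' + 1), by simp [Cut.Proper], ?_, ?_, fun h => absurd hs0 h, fun _ => rfl⟩
      · rw [V.κR_ord hd]; simp [Kmem]
      · rcases V.cases (d * s) with hds | ⟨k, hk⟩
        · rw [V.κR_zero _ hds]; trivial
        · rw [V.κR_ord hk]
          simp only [Kmem]
          by_contra hlt
          have := mul_coeff_lt (f := d.1) (V.tw s) (m := l') (n := 1) (k := k) hd.2
            (by intro i hi; have : i = 0 := by omega
                subst this; exact hs0) (by omega)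
          exact hk.1 this
    · have hs0' : IsOrd s.1 0 := ⟨hs0, by simp⟩
      have hds : IsOrd (d * s).1 l' := by
        have := hd.mul (V.tw s) hs0'
        rwa [add_zero] at this
      have hna : ¬ ∀ c, Kmem (V.κR (d * s)) c → Kmem (V.κR d) c := by
        intro hh
        exact hdb ((V.right_iff _ _).mp hh)
      rw [V.κR_ord hd, V.κR_ord hds] at hna
      have hlt : V.ν ((σ ^ l').symm (d.1 0 l')) < V.ν ((σ ^ l').symm ((d * s).1 0 l')) := by
        by_contra hge
        exact hna (fun c => Kmem_le (Or.inr ⟨rfl, by omega⟩) c)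
      refine ⟨.P l' (V.ν ((σ ^ l').symm ((d * s).1 0 l'))), ?_, ?_, ?_, fun _ => ⟨_, rfl⟩,
        fun h => absurd h hs0⟩
      · by_cases hl : l' = 0
        · right
          subst hl
          have h12 := d.2.2.resolve_left hd.1
          have h13 : ∀ x : K, (σ ^ 0).symm x = x := fun x => by rw [pow_zero]; rfl
          rw [h13, h13] at hlt
          show 1 ≤ V.ν ((σ ^ 0).symm _)
          rw [h13]
          omega
        · left; omega
      · rw [V.κR_ord hd]; simp only [Kmem]; omega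
      · rw [V.κR_ord hds]; exact Or.inr ⟨rfl, le_refl _⟩
  obtain ⟨q, hq1, hq2, hq3, hq4, hq5⟩ := cutL
  obtain ⟨q', hq1', hq2', hq3', hq4', hq5'⟩ := cutR
  have hnc : ¬ Compat q q' := fun hc => h ⟨(q, q'), hq1, hq1', hc⟩ ⟨hq2, hq3', hq3, hq2'⟩
  have hr0 : r.1 0 0 ≠ 0 := by
    intro h0
    rw [hq5 h0] at hnc
    exact hnc (by simp [Compat])
  have hs0 : s.1 0 0 ≠ 0 := by
    intro h0
    rw [hq5' h0] at hnc
    apply hnc
    cases q <;> simp [Compat]
  obtain ⟨v, rfl⟩ := hq4 hr0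
  obtain ⟨v', rfl⟩ := hq4' hs0
  have hm : 1 ≤ l + l' := by
    by_contra hlt
    exact hnc ⟨by omega, by omega⟩
  obtain ⟨u, hu1, hu2⟩ := V.approx (l + l') hm (max (V.ν (r.1 0 0)) (V.ν (s.1 0 0)))
  -- the multiplier
  have hy0 : V.D ((1 - u) / r.1 0 0) := by
    rcases hu1 with rfl | hu1
    · left; simp
    · by_cases h1u : 1 - u = 0
      · left; rw [h1u, zero_div]
      right
      rw [V.ν_div h1u hr0]
      have h1u' : u - 1 ≠ 0 := fun h => h1u (by rw [← neg_sub, h, neg_zero])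
      have : V.ν (1 - u) = V.ν (u - 1) := by
        rw [← neg_sub, V.ν_neg h1u']
      omega
  let μ : V.R := ⟨mono (σ := σ) 0 ((1 - u) / r.1 0 0), Tw_mkT σ _, by
    rw [mono_apply]; exact hy0⟩
  have hμ : (1 - μ * r).1 0 0 = u := by
    show (1 - (μ * r).1) 0 0 = _
    rw [IncidenceAlgebra.sub_apply, IncidenceAlgebra.one_apply, if_pos rfl, V.mul_zero_coeff]
    show 1 - (mono (σ := σ) 0 ((1 - u) / r.1 0 0)) 0 0 * r.1 0 0 = u
    rw [mono_apply, div_mul_cancel₀ _ hr0]
    ring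
  have hw : IsOrd (a * d).1 (l + l') := ha.mul (V.tw d) hd
  have hs0' : IsOrd s.1 0 := ⟨hs0, by simp⟩
  have hws : IsOrd ((a * d) * s).1 (l + l') := by
    have := hw.mul (V.tw s) hs0'
    rwa [add_zero] at this
  obtain ⟨t, ht, hteq⟩ := right_div (f := ((1 - μ * r) * (a * d)).1) (g := ((a * d) * s).1)
    (V.tw _) (V.tw _) (m := l + l')
    (fun i hi => mul_coeff_lt (f := (1 - μ * r).1) (V.tw (a * d)) (m := 0) (n := l + l')
      (by simp) hw.2 (by omega)) hws
  have hcoef : u * (a * d).1 0 (l + l') =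
      ((a * d).1 0 (l + l') * (σ ^ (l + l')) (s.1 0 0)) * (σ ^ (l + l')) (t 0 0) := by
    have h7 := mul_coeff_add (f := (1 - μ * r).1) (V.tw (a * d)) (m := 0) (n := l + l')
      (by simp) hw.2
    have h8 := mul_coeff_add (f := ((a * d) * s).1) ht (m := l + l') (n := 0)
      hws.2 (by simp)
    have h9 := mul_coeff_add (f := (a * d).1) (V.tw s) (m := l + l') (n := 0)
      hw.2 (by simp)
    rw [← hteq] at h8
    have h7' : ((1 - μ * r) * (a * d)).1 0 (0 + (l + l')) = u * (a * d).1 0 (l + l') := by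
      rw [← hμ]
      simpa using h7
    have h9' : ((a * d) * s).1 0 (l + l') =
        (a * d).1 0 (l + l') * (σ ^ (l + l')) (s.1 0 0) := by
      simpa using h9
    rw [← h7', ← h9']
    simpa using h8
  have hu : u = (σ ^ (l + l')) (s.1 0 0 * t 0 0) := by
    have h10 : (a * d).1 0 (l + l') * u =
        (a * d).1 0 (l + l') * (σ ^ (l + l')) (s.1 0 0 * t 0 0) := by
      rw [map_mul, ← mul_assoc, ← hcoef, mul_comm]
    exact mul_left_cancel₀ hw.1 h10
  have hDt : V.D (t 0 0) := by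
    by_cases ht0 : t 0 0 = 0
    · exact Or.inl ht0
    right
    rw [hu, RingEquiv.symm_apply_apply] at hu2
    have h11 := hu2.resolve_left (mul_ne_zero hs0 ht0)
    rw [V.mul _ _ hs0 ht0] at h11
    omega
  let t' : V.R := ⟨t, ht, hDt⟩
  have hrel : (1 - μ * r) * (a * d) = (a * d) * s * t' := Subtype.ext hteq
  intro M x hx
  change x ∈ (dl a ⊓ al (d * s)).1 M at hx
  show x ∈ (dl (r * a) ⊔ al d).1 M
  rw [mem_ppinf, mem_dl, mem_al] at hx
  obtain ⟨⟨y, rfl⟩, hx2⟩ := hx
  rw [mem_ppsup]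
  refine ⟨op (r * a) • (op μ • y), (mem_dl _ _ _).mpr ⟨_, rfl⟩,
    op ((1 - μ * r) * a) • y, (mem_al _ _ _).mpr ?_, ?_⟩
  · rw [← mul_smul, ← op_mul, mul_assoc, hrel]
    have : a * d * s * t' = a * (d * s) * t' := by noncomm_ring
    rw [this, op_mul, op_mul, mul_smul, mul_smul, hx2, smul_zero]
  · rw [← mul_smul, ← op_mul, ← add_smul, ← op_add]
    congr 2
    noncomm_ring

/-- the pp lattice of the ring satisfies the abstract hypotheses -/
theorem frame : Frame (PPLattice V.R) V.R V.κL V.κR dl al where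
  surjL := V.surjL
  surjR := V.surjR
  monoδ := by
    intro a a' h
    obtain ⟨r, rfl⟩ := (V.left_iff _ _).mp h
    intro M x hx
    change x ∈ (dl (r * a)).1 M at hx
    show x ∈ (dl a).1 M
    rw [mem_dl] at hx ⊢
    obtain ⟨y, rfl⟩ := hx
    exact ⟨op r • y, by rw [← mul_smul, ← op_mul]⟩
  monoα := by
    intro b b' h
    obtain ⟨s, rfl⟩ := (V.right_iff _ _).mp h
    intro M x hx
    change x ∈ (al b).1 M at hx
    show x ∈ (al (b * s)).1 M
    rw [mem_al] at hx ⊢
    rw [op_mul, mul_smul, hx, smul_zero]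
  star := fun a b c d => ⟨V.star_forward a b c d, V.star_backward a b c d⟩
  joins := joins_of_chain V.chainRing
  meets := meets_of_chain V.chainRing

theorem hasKGDim : HasKGDim V.R 3 := V.frame.hasMDim

end VData

end Pool.Agent.Helper37.KG
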