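import Mathlib

set_option autoImplicit false

/-!
Painting games (online list colouring), with arbitrary token and demand functions, and the
lifting construction: a root joined to a set of vertices in many disjoint copies.
-/

namespace Pool.Agent.Helper37.Paint

open Set

variable {V : Type}

/-- `1` on `M` and `0` elsewhere. -/
noncomputable abbrev one (M : Set V) : V → ℕ := M.indicator (fun _ => (1 : ℕ))

/-- Painter wins from the position in which `v` has `t v` tokens and still needs `n v` colours. -/
def PW (G : SimpleGraph V) (t n : V → ℕ) : Prop :=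
  ∀ W : (V → ℕ) → (V → ℕ) → Prop,
    (∀ t n : V → ℕ, (∀ v, n v ≤ t v) →
      (∀ M : Set V, M.Nonempty → (∀ v ∈ M, 0 < n v) →
        ∃ I ⊆ M, G.IsIndepSet I ∧
          W (t - M.indicator (fun _ => (1 : ℕ))) (n - I.indicator (fun _ => (1 : ℕ)))) →
      W t n) →
    W t n

theorem PW.mk {G : SimpleGraph V} {t n : V → ℕ} (h0 : ∀ v, n v ≤ t v)
    (h : ∀ M : Set V, M.Nonempty → (∀ v ∈ M, 0 < n v) →
      ∃ I ⊆ M, G.IsIndepSet I ∧ PW G (t - one M) (n - one I)) : PW G t n := by
  intro W hW
  refine hW t n h0 fun M hM hn => ?_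
  obtain ⟨I, hI, hind, hw⟩ := h M hM hn
  exact ⟨I, hI, hind, hw W hW⟩

theorem PW.inv {G : SimpleGraph V} {t n : V → ℕ} (h : PW G t n) :
    (∀ v, n v ≤ t v) ∧ (∀ M : Set V, M.Nonempty → (∀ v ∈ M, 0 < n v) →
      ∃ I ⊆ M, G.IsIndepSet I ∧ PW G (t - one M) (n - one I)) := by
  refine h (fun t n => (∀ v, n v ≤ t v) ∧ (∀ M : Set V, M.Nonempty → (∀ v ∈ M, 0 < n v) →
      ∃ I ⊆ M, G.IsIndepSet I ∧ PW G (t - one M) (n - one I))) ?_
  intro t n h0 h1
  refine ⟨h0, fun M hM hn => ?_⟩
  obtain ⟨I, hI, hind, hw⟩ := h1 M hM hn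
  exact ⟨I, hI, hind, PW.mk hw.1 hw.2⟩

theorem PW.le {G : SimpleGraph V} {t n : V → ℕ} (h : PW G t n) (v : V) : n v ≤ t v := h.inv.1 v

/-- A reply to any set of unfinished vertices, the empty one included. -/
theorem PW.reply {G : SimpleGraph V} {t n : V → ℕ} (h : PW G t n) (M : Set V)
    (hn : ∀ v ∈ M, 0 < n v) : ∃ I ⊆ M, G.IsIndepSet I ∧ PW G (t - one M) (n - one I) := by
  rcases M.eq_empty_or_nonempty with rfl | hM
  · refine ⟨∅, Subset.rfl, by simp [SimpleGraph.IsIndepSet], ?_⟩
    have h1 : t - one (∅ : Set V) = t := by funext v; simp [one]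
    have h2 : n - one (∅ : Set V) = n := by funext v; simp [one]
    rwa [h1, h2]
  · exact h.inv.2 M hM hn

/-- Lister's invariants. -/
theorem not_PW_of_inv {G : SimpleGraph V} (L : (V → ℕ) → (V → ℕ) → Prop)
    (hL : ∀ t n, L t n → (∃ v, t v < n v) ∨ ∃ M : Set V, M.Nonempty ∧ (∀ v ∈ M, 0 < n v) ∧
      ∀ I ⊆ M, G.IsIndepSet I → L (t - one M) (n - one I))
    {t n : V → ℕ} (h : L t n) : ¬ PW G t n := by
  intro hp
  refine hp (fun t n => ¬ L t n) ?_ h
  intro t n h0 h1 h2
  rcases hL t n h2 with ⟨v, hv⟩ | ⟨M, hM, hn, hI⟩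
  · exact absurd (h0 v) (not_le.2 hv)
  · obtain ⟨I, hIM, hind, hw⟩ := h1 M hM hn
    exact hw (hI I hIM hind)

/-- Painter's invariants. -/
theorem PW_of_inv [Fintype V] {G : SimpleGraph V} (P : (V → ℕ) → (V → ℕ) → Prop)
    (hP : ∀ t n, P t n → (∀ v, n v ≤ t v) ∧ ∀ M : Set V, M.Nonempty → (∀ v ∈ M, 0 < n v) →
      ∃ I ⊆ M, G.IsIndepSet I ∧ P (t - one M) (n - one I))
    {t n : V → ℕ} (h : P t n) : PW G t n := by
  have key : ∀ k : ℕ, ∀ t n : V → ℕ, (∑ v, t v) = k → P t n → PW G t n := by
    intro k
    induction k using Nat.strong_induction_on with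
    | _ k ih =>
      intro t n hk hp
      obtain ⟨h0, h1⟩ := hP t n hp
      refine PW.mk h0 fun M hM hn => ?_
      obtain ⟨I, hI, hind, hp'⟩ := h1 M hM hn
      refine ⟨I, hI, hind, ?_⟩
      obtain ⟨v, hv⟩ := hM
      refine ih (∑ u, (t - one M) u) ?_ _ _ rfl hp'
      rw [← hk]
      refine Finset.sum_lt_sum (fun u _ => Nat.sub_le _ _) ⟨v, Finset.mem_univ v, ?_⟩
      have : 0 < t v := lt_of_lt_of_le (hn v hv) (h0 v)
      simp only [Pi.sub_apply, one, indicator_of_mem hv]
      omega
  exact key _ t n rfl h

theorem one_le_of_mem {M : Set V} {v : V} (h : v ∈ M) : one M v = 1 := indicator_of_mem h _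

theorem one_of_not_mem {M : Set V} {v : V} (h : v ∉ M) : one M v = 0 := indicator_of_notMem h _

/-- More tokens and smaller demands help Painter. -/
theorem PW.mono [Fintype V] {G : SimpleGraph V} {t n t' n' : V → ℕ} (h : PW G t n)
    (ht : ∀ v, t v ≤ t' v) (hn : ∀ v, n' v ≤ n v) : PW G t' n' := by
  refine PW_of_inv (fun t' n' => ∃ t n : V → ℕ, PW G t n ∧ (∀ v, t v ≤ t' v) ∧
    (∀ v, n' v ≤ n v)) ?_ ⟨t, n, h, ht, hn⟩
  rintro t' n' ⟨t, n, h, ht, hn⟩
  refine ⟨fun v => (hn v).trans ((h.le v).trans (ht v)), fun M _ hM0 => ?_⟩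
  obtain ⟨I, hI, hind, hp⟩ := h.reply M (fun v hv => lt_of_lt_of_le (hM0 v hv) (hn v))
  exact ⟨I, hI, hind, _, _, hp, fun v => Nat.sub_le_sub_right (ht v) _,
    fun v => Nat.sub_le_sub_right (hn v) _⟩

/-- An edge whose ends have both fewer tokens than the sum of their demands is lost. -/
theorem not_PW_of_edge {G : SimpleGraph V} {t n : V → ℕ} {u v : V} (huv : G.Adj u v)
    (hu : t u < n u + n v) (hv : t v < n u + n v) : ¬ PW G t n := by
  refine not_PW_of_inv (fun t n => t u < n u + n v ∧ t v < n u + n v) ?_ ⟨hu, hv⟩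
  rintro t n ⟨hu, hv⟩
  by_cases h1 : t u < n u
  · exact Or.inl ⟨u, h1⟩
  by_cases h2 : t v < n v
  · exact Or.inl ⟨v, h2⟩
  refine Or.inr ⟨{u, v}, ⟨u, by simp⟩, ?_, ?_⟩
  · rintro w (rfl | rfl) <;> omega
  · intro I hI hind
    have e1 : (t - one ({u, v} : Set V)) u = t u - 1 := by
      simp [one]
    have e2 : (t - one ({u, v} : Set V)) v = t v - 1 := by
      simp [one]
    have e3 : (n - one I) u = n u - one I u := rfl
    have e4 : (n - one I) v = n v - one I v := rfl
    have hne : u ≠ v := huv.ne
    have hI2 : one I u = 0 ∨ one I v = 0 := by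
      by_contra hcon
      push Not at hcon
      have a1 : u ∈ I := by
        by_contra hh; exact hcon.1 (one_of_not_mem hh)
      have a2 : v ∈ I := by
        by_contra hh; exact hcon.2 (one_of_not_mem hh)
      exact hind a1 a2 hne huv
    have b1 : one I u ≤ 1 := by
      by_cases hh : u ∈ I
      · rw [one_le_of_mem hh]
      · rw [one_of_not_mem hh]; omega
    have b2 : one I v ≤ 1 := by
      by_cases hh : v ∈ I
      · rw [one_le_of_mem hh]
      · rw [one_of_not_mem hh]; omega
    rw [e1, e2, e3, e4]
    omega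

/-! ### The lift -/

/-- The lift: a root `none`, and `N` disjoint copies of `G`; the root is joined to the vertices
of `S` in every copy. -/
def lift (G : SimpleGraph V) (S : Set V) (N : ℕ) : SimpleGraph (Option (Fin N × V)) where
  Adj x y := match x, y with
    | none, none => False
    | none, some (_, v) => v ∈ S
    | some (_, v), none => v ∈ S
    | some (i, u), some (j, v) => i = j ∧ G.Adj u v
  symm := ⟨by
    rintro (_ | ⟨i, u⟩) (_ | ⟨j, v⟩) h
    · exact h
    · exact h
    · exact h
    · exact ⟨h.1.symm, h.2.symm⟩⟩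
  loopless := ⟨by
    rintro (_ | ⟨i, u⟩) h
    · exact h
    · exact G.loopless.irrefl _ h.2⟩

/-- The restriction of a function on the lift to copy `i`. -/
def cp {N : ℕ} (t : Option (Fin N × V) → ℕ) (i : Fin N) : V → ℕ := fun v => t (some (i, v))

/-- The restriction of a set to copy `i`. -/
def cs {N : ℕ} (M : Set (Option (Fin N × V))) (i : Fin N) : Set V := {v | some (i, v) ∈ M}

theorem cp_sub_one {N : ℕ} (t : Option (Fin N × V) → ℕ) (M : Set (Option (Fin N × V)))
    (i : Fin N) : cp (t - one M) i = cp t i - one (cs M i) := by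
  funext v
  by_cases h : v ∈ cs M i
  · have h' : some (i, v) ∈ M := h
    simp [cp, one, h, h']
  · have h' : some (i, v) ∉ M := h
    simp [cp, one, h, h']

theorem one_cs {N : ℕ} (M : Set (Option (Fin N × V))) (i : Fin N) (v : V) :
    one M (some (i, v)) = one (cs M i) v := by
  by_cases h : v ∈ cs M i
  · have h' : some (i, v) ∈ M := h
    simp [one, h, h']
  · have h' : some (i, v) ∉ M := h
    simp [one, h, h']

/-- Painter, one colour per vertex: the lift is paintable with one more token on `S` and any
positive number of tokens at the root. -/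
theorem lift_PW [Fintype V] {G : SimpleGraph V} {f : V → ℕ} (S : Set V) (N k : ℕ) (hk : 1 ≤ k)
    (h : PW G f (fun _ => 1)) (f' : Option (Fin N × V) → ℕ) (hf0 : f' none = k)
    (hf : ∀ i v, f' (some (i, v)) = f v + one S v) :
    PW (lift G S N) f' (fun _ => 1) := by
  refine PW_of_inv (fun t n =>
    (n none = 0 ∧ ∀ i, ∃ τ : V → ℕ, (∀ v, τ v ≤ cp t i v) ∧ PW G τ (cp n i)) ∨
    (n none = 1 ∧ 1 ≤ t none ∧ ∀ i, ∃ τ : V → ℕ, (∀ v, τ v + one S v ≤ cp t i v) ∧
      PW G τ (cp n i))) ?_ (Or.inr ⟨rfl, by omega, fun i => ⟨f, fun v => (hf i v).ge, h⟩⟩)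
  rintro t n (⟨hn0, hi⟩ | ⟨hn1, ht1, hi⟩)
  · choose τ hτ hpw using hi
    refine ⟨?_, ?_⟩
    · rintro (_ | ⟨i, v⟩)
      · omega
      · exact ((hpw i).le v).trans (hτ i v)
    · intro M _ hM
      have hnone : none ∉ M := fun hh => by have := hM _ hh; omega
      have hr : ∀ i, ∃ I ⊆ cs M i, G.IsIndepSet I ∧
          PW G (τ i - one (cs M i)) (cp n i - one I) := fun i =>
        (hpw i).reply (cs M i) (fun v hv => hM _ hv)
      choose I hI hind hp using hr
      refine ⟨{x | ∃ i v, v ∈ I i ∧ x = some (i, v)}, ?_, ?_, Or.inl ⟨?_, ?_⟩⟩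
      · rintro x ⟨i, v, hv, rfl⟩
        exact hI i hv
      · rintro x ⟨i, u, hu, rfl⟩ y ⟨j, v, hv, rfl⟩ hne hadj
        obtain ⟨hij, hadj⟩ := hadj
        subst hij
        exact hind i hu hv (fun hh => hne (by rw [hh])) hadj
      · simp [hn0]
      · intro i
        refine ⟨τ i - one (cs M i), ?_, ?_⟩
        rotate_left
        · rw [cp_sub_one]
          have e : cs {x : Option (Fin N × V) | ∃ i v, v ∈ I i ∧ x = some (i, v)} i = I i := by
            ext v
            simp [cs]
          rw [e]
          exact hp i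
        · intro v
          rw [cp_sub_one]
          exact Nat.sub_le_sub_right (hτ i v) _
  · choose τ hτ hpw using hi
    refine ⟨?_, ?_⟩
    · rintro (_ | ⟨i, v⟩)
      · omega
      · exact ((hpw i).le v).trans ((Nat.le_add_right _ _).trans (hτ i v))
    · intro M _ hM
      by_cases hnone : none ∈ M
      · have hr : ∀ i, ∃ I ⊆ cs M i \ S, G.IsIndepSet I ∧
            PW G (τ i - one (cs M i \ S)) (cp n i - one I) := fun i =>
          (hpw i).reply (cs M i \ S) (fun v hv => hM _ hv.1)
        choose I hI hind hp using hr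
        refine ⟨{x | x = none ∨ ∃ i v, v ∈ I i ∧ x = some (i, v)}, ?_, ?_, Or.inl ⟨?_, ?_⟩⟩
        · rintro x (rfl | ⟨i, v, hv, rfl⟩)
          · exact hnone
          · exact (hI i hv).1
        · rintro x (rfl | ⟨i, u, hu, rfl⟩) y (rfl | ⟨j, v, hv, rfl⟩) hne hadj
          · exact hne rfl
          · exact (hI j hv).2 hadj
          · exact (hI i hu).2 hadj
          · obtain ⟨hij, hadj⟩ := hadj
            subst hij
            exact hind i hu hv (fun hh => hne (by rw [hh])) hadj
        · have : one {x : Option (Fin N × V) | x = none ∨ ∃ i v, v ∈ I i ∧ x = some (i, v)}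
              none = 1 := one_le_of_mem (Or.inl rfl)
          rw [Pi.sub_apply, this, hn1]
        · intro i
          refine ⟨τ i - one (cs M i \ S), ?_, ?_⟩
          rotate_left
          · rw [cp_sub_one]
            have e : cs {x : Option (Fin N × V) | x = none ∨
                ∃ i v, v ∈ I i ∧ x = some (i, v)} i = I i := by
              ext v
              simp [cs]
            rw [e]
            exact hp i
          · intro v
            rw [cp_sub_one]
            have h1 := hτ i v
            by_cases hv : v ∈ S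
            · have e1 : one S v = 1 := one_le_of_mem hv
              have e2 : one (cs M i \ S) v = 0 := one_of_not_mem (fun hh => hh.2 hv)
              have e3 : one (cs M i) v ≤ 1 := by
                by_cases hh : v ∈ cs M i
                · rw [one_le_of_mem hh]
                · rw [one_of_not_mem hh]; omega
              rw [Pi.sub_apply, Pi.sub_apply, e2]
              omega
            · have e1 : one S v = 0 := one_of_not_mem hv
              have e2 : one (cs M i \ S) v = one (cs M i) v := by
                by_cases hh : v ∈ cs M i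
                · rw [one_le_of_mem hh, one_le_of_mem (show v ∈ cs M i \ S from ⟨hh, hv⟩)]
                · rw [one_of_not_mem hh, one_of_not_mem (fun h => hh h.1)]
              rw [Pi.sub_apply, Pi.sub_apply, e2]
              omega
      · have hr : ∀ i, ∃ I ⊆ cs M i, G.IsIndepSet I ∧
            PW G (τ i - one (cs M i)) (cp n i - one I) := fun i =>
          (hpw i).reply (cs M i) (fun v hv => hM _ hv)
        choose I hI hind hp using hr
        have hIn : (none : Option (Fin N × V)) ∉ {x | ∃ i v, v ∈ I i ∧ x = some (i, v)} := by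
          rintro ⟨i, v, _, h⟩
          exact absurd h (by simp)
        refine ⟨{x | ∃ i v, v ∈ I i ∧ x = some (i, v)}, ?_, ?_, Or.inr ⟨?_, ?_, ?_⟩⟩
        · rintro x ⟨i, v, hv, rfl⟩
          exact hI i hv
        · rintro x ⟨i, u, hu, rfl⟩ y ⟨j, v, hv, rfl⟩ hne hadj
          obtain ⟨hij, hadj⟩ := hadj
          subst hij
          exact hind i hu hv (fun hh => hne (by rw [hh])) hadj
        · rw [Pi.sub_apply, one_of_not_mem hIn, hn1]
        · rw [Pi.sub_apply, one_of_not_mem hnone]
          omega
        · intro i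
          refine ⟨τ i - one (cs M i), ?_, ?_⟩
          rotate_left
          · rw [cp_sub_one]
            have e : cs {x : Option (Fin N × V) | ∃ i v, v ∈ I i ∧ x = some (i, v)} i = I i := by
              ext v
              simp [cs]
            rw [e]
            exact hp i
          · intro v
            rw [cp_sub_one]
            have h1 := hτ i v
            by_cases hh : v ∈ cs M i
            · have h2 : 0 < cp n i v := hM _ hh
              have h3 := (hpw i).le v
              rw [Pi.sub_apply, Pi.sub_apply, one_le_of_mem hh]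
              omega
            · rw [Pi.sub_apply, Pi.sub_apply, one_of_not_mem hh]
              omega

/-- Lister on the lift. -/
theorem lift_not_PW {G : SimpleGraph V} {t₀ n₀ : V → ℕ} (S : Set V) (N a c : ℕ)
    (hS : ∀ v ∈ S, 0 < n₀ v) (hN : a.choose c ≤ N) (hc : 0 < c)
    (h : ¬ PW G t₀ n₀) (t n : Option (Fin N × V) → ℕ) (ht0 : t none = a) (hn0 : n none = c)
    (ht : ∀ i v, t (some (i, v)) = t₀ v + c * one S v) (hn : ∀ i v, n (some (i, v)) = n₀ v) :
    ¬ PW (lift G S N) t n := by
  refine not_PW_of_inv (fun t n => (∃ i, ¬ PW G (cp t i) (cp n i)) ∨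
    (0 < n none ∧ ∃ A : Finset (Fin N), (t none).choose (n none) ≤ A.card ∧ ∀ i ∈ A, ∀ v,
      t (some (i, v)) = t₀ v + n none * one S v ∧ n (some (i, v)) = n₀ v)) ?_
    (Or.inr ⟨by omega, Finset.univ, by simpa [ht0, hn0] using hN, fun i _ v =>
      ⟨by rw [ht, hn0], hn i v⟩⟩)
  clear ht0 hn0 ht hn t n
  rintro t n (⟨i, hi⟩ | ⟨hn0, A, hA, hAv⟩)
  · by_cases hle : ∀ v, cp n i v ≤ cp t i v
    · have : ∃ M : Set V, M.Nonempty ∧ (∀ v ∈ M, 0 < cp n i v) ∧ ∀ I ⊆ M, G.IsIndepSet I →
          ¬ PW G (cp t i - one M) (cp n i - one I) := by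
        by_contra hcon
        push Not at hcon
        exact hi (PW.mk hle fun M hM hn => hcon M hM hn)
      obtain ⟨M, hM, hMn, hMI⟩ := this
      refine Or.inr ⟨{x | ∃ v ∈ M, x = some (i, v)}, ?_, ?_, ?_⟩
      · obtain ⟨v, hv⟩ := hM
        exact ⟨some (i, v), v, hv, rfl⟩
      · rintro x ⟨v, hv, rfl⟩
        exact hMn v hv
      · intro I hI hind
        refine Or.inl ⟨i, ?_⟩
        rw [cp_sub_one, cp_sub_one]
        have e : cs {x : Option (Fin N × V) | ∃ v ∈ M, x = some (i, v)} i = M := by
          ext v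
          simp [cs]
        rw [e]
        refine hMI (cs I i) ?_ ?_
        · intro v hv
          obtain ⟨w, hw, hwe⟩ := hI hv
          simp only [Option.some.injEq, Prod.mk.injEq, true_and] at hwe
          rwa [hwe]
        · intro u hu v hv hne hadj
          exact hind hu hv (fun hh => hne (by simpa using hh)) ⟨rfl, hadj⟩
    · push Not at hle
      obtain ⟨v, hv⟩ := hle
      exact Or.inl ⟨some (i, v), hv⟩
  · by_cases hdead : t none < n none
    · exact Or.inl ⟨none, hdead⟩
    push Not at hdead
    obtain ⟨a, ha⟩ : ∃ a, t none = a + 1 := ⟨t none - 1, by omega⟩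
    obtain ⟨c, hc⟩ : ∃ c, n none = c + 1 := ⟨n none - 1, by omega⟩
    rw [ha, hc, Nat.choose_succ_succ, Nat.succ_eq_add_one] at hA
    obtain ⟨A₁, hA₁, hcard⟩ := Finset.exists_subset_card_eq
      (show a.choose c ≤ A.card by omega)
    refine Or.inr ⟨{x | x = none ∨ ∃ i ∈ A₁, ∃ v ∈ S, x = some (i, v)}, ⟨none, Or.inl rfl⟩, ?_, ?_⟩
    · rintro x (rfl | ⟨i, hi, v, hv, rfl⟩)
      · exact hn0
      · rw [(hAv i (hA₁ hi) v).2]
        exact hS v hv
    · intro I hI hind
      set M : Set (Option (Fin N × V)) := {x | x = none ∨ ∃ i ∈ A₁, ∃ v ∈ S, x = some (i, v)}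
        with hMdef
      have hMnone : one M none = 1 := one_le_of_mem (Or.inl rfl)
      by_cases hIn : none ∈ I
      · have hI0 : ∀ i v, some (i, v) ∉ I := by
          intro i v hiv
          rcases hI hiv with h1 | ⟨j, hj, w, hw, h1⟩
          · exact absurd h1 (by simp)
          · simp only [Option.some.injEq, Prod.mk.injEq] at h1
            refine hind hIn hiv (by simp) ?_
            change v ∈ S
            rw [h1.2]
            exact hw
        have hcv : ∀ i ∈ A₁, ∀ v, (t - one M) (some (i, v)) = t₀ v + c * one S v ∧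
            (n - one I) (some (i, v)) = n₀ v := by
          intro i hi v
          obtain ⟨h1, h2⟩ := hAv i (hA₁ hi) v
          constructor
          · rw [Pi.sub_apply, h1, hc]
            by_cases hv : v ∈ S
            · rw [one_le_of_mem (show some (i, v) ∈ M from Or.inr ⟨i, hi, v, hv, rfl⟩),
                one_le_of_mem hv]
              omega
            · have : some (i, v) ∉ M := by
                rintro (h1 | ⟨j, hj, w, hw, h1⟩)
                · exact absurd h1 (by simp)
                · simp only [Option.some.injEq, Prod.mk.injEq] at h1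
                  exact hv (by rw [h1.2]; exact hw)
              rw [one_of_not_mem this, one_of_not_mem hv]
              omega
          · rw [Pi.sub_apply, h2, one_of_not_mem (hI0 i v)]
            rfl
        have hn1 : (n - one I) none = c := by
          rw [Pi.sub_apply, hc, one_le_of_mem hIn]
          rfl
        have ht1 : (t - one M) none = a := by
          rw [Pi.sub_apply, ha, hMnone]
          rfl
        rcases Nat.eq_zero_or_pos c with hc0 | hcpos
        · left
          have hpos : 0 < A₁.card := by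
            rw [hcard, hc0]
            simp
          obtain ⟨i, hi⟩ := Finset.card_pos.1 hpos
          refine ⟨i, ?_⟩
          have e1 : cp (t - one M) i = t₀ := by
            funext v
            have := (hcv i hi v).1
            rw [hc0] at this
            simpa [cp] using this
          have e2 : cp (n - one I) i = n₀ := by
            funext v
            exact (hcv i hi v).2
          rw [e1, e2]
          exact h
        · right
          refine ⟨by rw [hn1]; exact hcpos, A₁, ?_, ?_⟩
          · rw [ht1, hn1, hcard]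
          · intro i hi v
            rw [hn1]
            exact hcv i hi v
      · right
        have hn1 : (n - one I) none = c + 1 := by
          rw [Pi.sub_apply, hc, one_of_not_mem hIn]
          rfl
        have ht1 : (t - one M) none = a := by
          rw [Pi.sub_apply, ha, hMnone]
          rfl
        refine ⟨by rw [hn1]; omega, A \ A₁, ?_, ?_⟩
        · rw [ht1, hn1, Finset.card_sdiff_of_subset hA₁]
          omega
        · intro i hi v
          obtain ⟨hiA, hiA₁⟩ := Finset.mem_sdiff.1 hi
          obtain ⟨h1, h2⟩ := hAv i hiA v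
          have hiM : some (i, v) ∉ M := by
            rintro (h1 | ⟨j, hj, w, hw, h1⟩)
            · exact absurd h1 (by simp)
            · simp only [Option.some.injEq, Prod.mk.injEq] at h1
              exact hiA₁ (by rw [h1.1]; exact hj)
          have hiI : some (i, v) ∉ I := fun hh => hiM (hI hh)
          rw [hn1, Pi.sub_apply, Pi.sub_apply, one_of_not_mem hiM, one_of_not_mem hiI, h1, h2, hc]
          exact ⟨rfl, rfl⟩

/-- The general lift to constant token functions. -/
theorem exists_uniform (b e k : ℕ) (hb : 0 < b) (hk : 1 ≤ k) : ∀ (j : ℕ) (V : Type) [Fintype V]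
    (G : SimpleGraph V) (f : V → ℕ), (∀ v, f v ≤ k) → (∀ v, k ≤ f v + j) →
    PW G f (fun _ => 1) → ¬ PW G (fun v => b * f v + e) (fun _ => b) →
    ∃ (V' : Type) (_ : Fintype V') (G' : SimpleGraph V'), PW G' (fun _ => k) (fun _ => 1) ∧
      ¬ PW G' (fun _ => k * b + e) (fun _ => b) := by
  classical
  intro j
  induction j with
  | zero =>
    intro V _ G f h1 h2 h3 h4
    have hf : f = fun _ => k := by
      funext v
      have := h1 v
      have := h2 v
      omega
    subst hf
    refine ⟨V, inferInstance, G, h3, ?_⟩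
    have e1 : (fun _ : V => k * b + e) = (fun _ : V => b * k + e) := by
      funext v
      rw [mul_comm]
    rw [e1]
    exact h4
  | succ j ih =>
    intro V _ G f h1 h2 h3 h4
    let S : Set V := {v | f v < k}
    let N : ℕ := (b * k + e).choose b
    let f' : Option (Fin N × V) → ℕ := fun x => match x with
      | none => k
      | some (_, v) => f v + one S v
    have hbound : ∀ v, f v + one S v ≤ k ∧ k ≤ f v + one S v + j := by
      intro v
      have a1 := h1 v
      have a2 := h2 v
      by_cases hv : f v < k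
      · rw [one_le_of_mem (show v ∈ S from hv)]
        omega
      · rw [one_of_not_mem (show v ∉ S from hv)]
        omega
    refine ih (Option (Fin N × V)) (lift G S N) f' ?_ ?_ ?_ ?_
    · rintro (_ | ⟨i, v⟩)
      · exact le_rfl
      · exact (hbound v).1
    · rintro (_ | ⟨i, v⟩)
      · exact Nat.le_add_right _ _
      · exact (hbound v).2
    · exact lift_PW S N k hk h3 f' rfl (fun i v => rfl)
    · refine lift_not_PW S N (b * k + e) b (fun v _ => hb) le_rfl hb h4 _ _ rfl rfl ?_
        (fun i v => rfl)
      intro i v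
      change b * (f v + one S v) + e = b * f v + e + b * one S v
      ring

end Pool.Agent.Helper37.Paint
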