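import Pool.Agent.Helper37.PaintCheck

set_option autoImplicit false

/-!
The seven-vertex gadget: the complete bipartite graph with parts `{0, 1}` and `{2, 3, 4, 5}`
and a vertex `6` adjacent to `0` and `2`; with `3, 2, 3, 2, 2, 2, 2` tokens Painter wins, with
twice as many tokens and two colours per vertex Lister wins.
-/

namespace Pool.Agent.Helper37.Paint

/-- The neighbourhoods of the gadget, as bit masks. -/
def gAdj : List ℕ := [124, 60, 67, 3, 3, 3, 5]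

/-- The token function of the gadget. -/
def gF : List ℕ := [3, 2, 3, 2, 2, 2, 2]

/-- Lister's strategy in the twofold game. -/
def gL : List (List ℕ × List ℕ × ℕ) := [
  ([6, 4, 6, 4, 4, 4, 4], [2, 2, 2, 2, 2, 2, 2], 14),
  ([6, 3, 5, 3, 4, 4, 4], [2, 2, 1, 1, 2, 2, 2], 17),
  ([5, 3, 5, 3, 3, 4, 4], [2, 2, 1, 1, 1, 2, 2], 33),
  ([4, 3, 5, 3, 3, 3, 4], [2, 2, 1, 1, 1, 1, 2], 6),
  ([4, 2, 99, 3, 3, 3, 99], [2, 2, 0, 1, 1, 1, 0], 9),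
  ([3, 2, 99, 99, 3, 3, 99], [2, 2, 0, 0, 1, 1, 0], 17),
  ([2, 2, 99, 99, 99, 3, 99], [2, 2, 0, 0, 0, 1, 0], 33),
  ([4, 2, 4, 3, 3, 3, 4], [2, 1, 1, 1, 1, 1, 2], 69),
  ([3, 2, 3, 3, 3, 3, 3], [2, 1, 1, 1, 1, 1, 1], 69),
  ([2, 99, 2, 99, 99, 99, 2], [1, 0, 1, 0, 0, 0, 1], 69),
  ([3, 99, 3, 99, 99, 99, 3], [1, 0, 1, 0, 0, 0, 2], 69),
  ([6, 3, 5, 3, 4, 4, 4], [2, 1, 2, 2, 2, 2, 2], 25),
  ([5, 3, 5, 2, 3, 4, 4], [2, 1, 2, 1, 1, 2, 2], 7),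
  ([4, 2, 4, 2, 3, 4, 4], [2, 1, 1, 1, 1, 2, 2], 103),
  ([3, 1, 3, 2, 3, 3, 3], [2, 1, 1, 1, 1, 1, 1], 77),
  ([4, 99, 4, 99, 99, 99, 4], [1, 0, 2, 0, 0, 0, 2], 69),
  ([3, 99, 3, 99, 99, 99, 3], [1, 0, 2, 0, 0, 0, 1], 69),
  ([5, 3, 5, 2, 3, 99, 4], [1, 1, 2, 2, 2, 0, 2], 11),
  ([4, 2, 5, 1, 3, 99, 4], [1, 1, 2, 1, 2, 0, 2], 11),
  ([3, 1, 5, 99, 3, 99, 4], [1, 1, 2, 0, 2, 0, 2], 22),
  ([3, 99, 4, 99, 2, 99, 4], [1, 0, 2, 0, 2, 0, 2], 69)]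

/-- Painter's positions. -/
def gP : List (List ℕ) := [
  [3, 2, 3, 2, 2, 2, 2],
  [3, 0, 2, 1, 1, 2, 0],
  [2, 0, 2, 2, 1, 2, 0],
  [2, 0, 3, 2, 1, 2, 2],
  [0, 0, 2, 1, 1, 1, 1],
  [2, 2, 0, 2, 2, 2, 2],
  [2, 2, 3, 0, 2, 0, 2],
  [3, 0, 1, 2, 2, 2, 2],
  [3, 0, 1, 2, 2, 1, 0],
  [2, 1, 3, 0, 0, 2, 0],
  [3, 2, 2, 2, 2, 2, 0],
  [2, 1, 0, 2, 0, 0, 2],
  [3, 1, 2, 0, 0, 2, 0],
  [2, 1, 0, 0, 2, 0, 2],
  [3, 1, 2, 0, 2, 0, 0],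
  [2, 1, 3, 0, 2, 0, 0],
  [2, 0, 3, 2, 2, 1, 2],
  [1, 1, 3, 0, 0, 0, 0],
  [2, 1, 0, 0, 0, 2, 2],
  [2, 1, 2, 0, 0, 0, 0],
  [3, 1, 0, 2, 0, 2, 2],
  [0, 2, 1, 2, 2, 2, 2],
  [3, 0, 2, 1, 2, 1, 0],
  [3, 1, 2, 0, 0, 0, 2],
  [3, 1, 0, 0, 2, 2, 2],
  [2, 1, 0, 0, 0, 0, 1],
  [2, 0, 2, 1, 2, 2, 0],
  [3, 0, 1, 1, 2, 2, 0],
  [2, 2, 3, 2, 2, 2, 0],
  [0, 2, 2, 2, 1, 2, 2],
  [1, 2, 2, 0, 0, 0, 0],
  [2, 0, 3, 1, 2, 2, 2],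
  [2, 2, 3, 0, 0, 2, 2],
  [2, 2, 2, 0, 2, 2, 0],
  [2, 2, 2, 2, 2, 0, 0],
  [2, 2, 3, 2, 0, 0, 2],
  [3, 0, 3, 1, 1, 2, 2],
  [3, 0, 1, 2, 1, 2, 0],
  [2, 1, 3, 2, 0, 0, 0],
  [2, 0, 2, 2, 2, 1, 0],
  [0, 2, 2, 1, 2, 2, 2],
  [2, 0, 1, 2, 2, 2, 0],
  [0, 2, 3, 1, 2, 2, 1],
  [0, 2, 3, 2, 2, 1, 1],
  [3, 1, 2, 2, 0, 0, 0],
  [1, 1, 0, 0, 0, 0, 2],
  [1, 2, 3, 0, 2, 0, 0],
  [1, 0, 2, 2, 2, 2, 0],
  [1, 0, 3, 2, 2, 2, 2],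
  [1, 2, 0, 0, 2, 0, 2],
  [1, 2, 0, 0, 0, 2, 2],
  [0, 2, 3, 2, 1, 2, 1],
  [3, 0, 3, 2, 1, 1, 2],
  [0, 1, 2, 2, 2, 2, 2],
  [3, 1, 0, 2, 2, 0, 2],
  [2, 0, 3, 2, 2, 2, 1],
  [0, 2, 2, 2, 2, 2, 1],
  [1, 2, 3, 2, 0, 0, 0],
  [0, 1, 3, 2, 2, 2, 1],
  [2, 2, 2, 2, 0, 2, 0],
  [0, 0, 1, 1, 1, 1, 2],
  [3, 0, 2, 2, 1, 1, 0],
  [0, 2, 2, 2, 2, 1, 2],
  [1, 2, 3, 0, 0, 2, 0],
  [3, 0, 3, 1, 2, 1, 2],
  [1, 2, 0, 2, 0, 0, 2]]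

/-- Painter's replies. -/
def gR : List (List (ℕ × ℕ)) := [
  [(0, 0), (1, 0), (2, 0), (3, 0), (4, 0), (4, 5), (2, 7), (3, 7), (8, 0), (1, 40), (2, 31), (3, 40), (12, 5), (12, 5), (12, 24), (3, 40), (16, 0), (1, 29), (2, 3), (3, 29), (20, 5), (20, 5), (20, 20), (3, 29), (24, 0), (24, 32), (2, 36), (3, 36), (28, 5), (28, 5), (28, 24), (28, 18), (32, 0), (1, 62), (2, 16), (3, 62), (36, 5), (36, 5), (36, 54), (3, 62), (40, 0), (40, 6), (2, 64), (3, 64), (44, 5), (44, 5), (44, 24), (44, 13), (48, 0), (48, 35), (2, 52), (3, 52), (52, 5), (52, 5), (52, 20), (52, 11), (56, 32), (56, 32), (56, 23), (3, 60), (60, 18), (60, 18), (60, 18), (60, 18), (64, 0), (64, 28), (66, 31), (66, 31), (64, 10), (1, 56), (66, 7), (3, 56), (72, 28), (72, 28), (66, 31), (66, 31), (72, 10), (72, 33), (66, 26), (66, 26), (80, 28), (80, 28), (66, 3), (66, 3),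 (80, 10), (80, 59), (66, 2), (66, 2), (88, 33), (88, 33), (66, 36), (88, 9), (88, 33), (88, 33), (88, 12), (3, 4), (96, 28), (96, 28), (66, 16), (66, 16), (96, 10), (96, 34), (66, 39), (66, 39), (104, 33), (104, 33), (66, 64), (3, 4), (104, 33), (104, 33), (104, 14), (3, 4), (112, 59), (112, 59), (66, 52), (3, 4), (112, 59), (112, 59), (112, 44), (3, 4), (120, 9), (120, 9), (120, 9), (120, 9), (120, 33), (120, 33), (120, 23), (3, 4)],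
  [(0, 1), (1, 60), (0, 0), (0, 0), (4, 1), (1, 60), (0, 0), (0, 0), (8, 2), (8, 2), (0, 0), (0, 0), (12, 2), (12, 2), (0, 0), (0, 0), (16, 26), (16, 26), (0, 0), (0, 0), (20, 26), (20, 26), (0, 0), (0, 0), (24, 47), (24, 47), (0, 0), (0, 0), (28, 47), (28, 47), (0, 0), (0, 0), (32, 1), (1, 60), (0, 0), (0, 0), (36, 1), (1, 60), (0, 0), (0, 0), (40, 2), (40, 2), (0, 0), (0, 0), (44, 2), (44, 2), (0, 0), (0, 0), (48, 26), (48, 26), (0, 0), (0, 0), (52, 26), (52, 26), (0, 0), (0, 0), (56, 47), (56, 47), (0, 0), (0, 0), (60, 47), (60, 47), (0, 0), (0, 0), (0, 0), (0, 0), (0, 0), (0, 0), (0, 0), (0, 0), (0, 0), (0, 0), (0, 0), (0, 0), (0, 0), (0, 0), (0, 0), (0, 0), (0, 0), (0, 0), (0, 0), (0, 0), (0, 0), (0, 0), (0, 0), (0, 0), (0, 0), (0, 0), (0, 0), (0, 0), (0, 0), (0, 0), (0, 0), (0, 0), (0, 0), (0, 0), (0, 0), (0, 0), (0, 0), (0,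 0), (0, 0), (0, 0), (0, 0), (0, 0), (0, 0), (0, 0), (0, 0), (0, 0), (0, 0), (0, 0), (0, 0), (0, 0), (0, 0), (0, 0), (0, 0), (0, 0), (0, 0), (0, 0), (0, 0), (0, 0), (0, 0), (0, 0), (0, 0), (0, 0), (0, 0), (0, 0), (0, 0), (0, 0)],
  [(0, 2), (1, 60), (0, 0), (0, 0), (4, 2), (1, 60), (0, 0), (0, 0), (8, 2), (1, 60), (0, 0), (0, 0), (12, 2), (1, 60), (0, 0), (0, 0), (16, 47), (16, 47), (0, 0), (0, 0), (20, 47), (20, 47), (0, 0), (0, 0), (24, 47), (24, 47), (0, 0), (0, 0), (28, 47), (28, 47), (0, 0), (0, 0), (32, 2), (1, 60), (0, 0), (0, 0), (36, 2), (1, 60), (0, 0), (0, 0), (40, 2), (1, 60), (0, 0), (0, 0), (44, 2), (1, 60), (0, 0), (0, 0), (48, 47), (48, 47), (0, 0), (0, 0), (52, 47), (52, 47), (0, 0), (0, 0), (56, 47), (56, 47), (0, 0), (0, 0), (60, 47), (60, 47), (0, 0), (0, 0), (0, 0), (0, 0), (0, 0), (0, 0), (0, 0), (0, 0), (0,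 0), (0, 0), (0, 0), (0, 0), (0, 0), (0, 0), (0, 0), (0, 0), (0, 0), (0, 0), (0, 0), (0, 0), (0, 0), (0, 0), (0, 0), (0, 0), (0, 0), (0, 0), (0, 0), (0, 0), (0, 0), (0, 0), (0, 0), (0, 0), (0, 0), (0, 0), (0, 0), (0, 0), (0, 0), (0, 0), (0, 0), (0, 0), (0, 0), (0, 0), (0, 0), (0, 0), (0, 0), (0, 0), (0, 0), (0, 0), (0, 0), (0, 0), (0, 0), (0, 0), (0, 0), (0, 0), (0, 0), (0, 0), (0, 0), (0, 0), (0, 0), (0, 0), (0, 0), (0, 0), (0, 0), (0, 0), (0, 0), (0, 0)],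
  [(0, 3), (1, 60), (0, 0), (0, 0), (4, 3), (1, 60), (0, 0), (0, 0), (8, 3), (1, 60), (0, 0), (0, 0), (12, 3), (1, 60), (0, 0), (0, 0), (16, 48), (16, 48), (0, 0), (0, 0), (20, 48), (20, 48), (0, 0), (0, 0), (24, 48), (24, 48), (0, 0), (0, 0), (28, 48), (28, 48), (0, 0), (0, 0), (32, 3), (1, 60), (0, 0), (0, 0), (36, 3), (1, 60), (0, 0), (0, 0), (40, 3), (1, 60), (0, 0), (0, 0), (44, 3), (1, 60), (0, 0), (0, 0), (48, 48), (48, 48), (0, 0), (0, 0), (52, 48), (52, 48), (0, 0), (0, 0), (56, 48), (56, 48), (0, 0), (0, 0), (60, 48), (60, 48), (0, 0), (0, 0), (64, 2), (1, 4), (0, 0), (0, 0), (64, 2), (1, 4), (0, 0), (0, 0), (72, 2), (1, 4), (0, 0), (0, 0), (72, 2), (1, 4), (0, 0), (0, 0), (80, 47), (80, 47), (0, 0), (0, 0), (80, 47), (80, 47), (0, 0), (0, 0), (88, 47), (88, 47), (0, 0), (0, 0), (88, 47), (88, 47), (0, 0), (0, 0), (96,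 2), (1, 4), (0, 0), (0, 0), (96, 2), (1, 4), (0, 0), (0, 0), (104, 2), (1, 4), (0, 0), (0, 0), (104, 2), (1, 4), (0, 0), (0, 0), (112, 47), (112, 47), (0, 0), (0, 0), (112, 47), (112, 47), (0, 0), (0, 0), (120, 47), (120, 47), (0, 0), (0, 0), (120, 47), (120, 47), (0, 0), (0, 0)],
  [(0, 4), (0, 0), (0, 0), (0, 0), (4, 4), (0, 0), (0, 0), (0, 0), (8, 4), (0, 0), (0, 0), (0, 0), (12, 4), (0, 0), (0, 0), (0, 0), (16, 4), (0, 0), (0, 0), (0, 0), (20, 4), (0, 0), (0, 0), (0, 0), (24, 4), (0, 0), (0, 0), (0, 0), (28, 4), (0, 0), (0, 0), (0, 0), (32, 4), (0, 0), (0, 0), (0, 0), (36, 4), (0, 0), (0, 0), (0, 0), (40, 4), (0, 0), (0, 0), (0, 0), (44, 4), (0, 0), (0, 0), (0, 0), (48, 4), (0, 0), (0, 0), (0, 0), (52, 4), (0, 0), (0, 0), (0, 0), (56, 4), (0, 0), (0, 0), (0, 0), (60, 4), (0, 0), (0, 0), (0, 0), (64, 60), (0, 0), (0, 0), (0, 0),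 (64, 60), (0, 0), (0, 0), (0, 0), (72, 60), (0, 0), (0, 0), (0, 0), (72, 60), (0, 0), (0, 0), (0, 0), (80, 60), (0, 0), (0, 0), (0, 0), (80, 60), (0, 0), (0, 0), (0, 0), (88, 60), (0, 0), (0, 0), (0, 0), (88, 60), (0, 0), (0, 0), (0, 0), (96, 60), (0, 0), (0, 0), (0, 0), (96, 60), (0, 0), (0, 0), (0, 0), (104, 60), (0, 0), (0, 0), (0, 0), (104, 60), (0, 0), (0, 0), (0, 0), (112, 60), (0, 0), (0, 0), (0, 0), (112, 60), (0, 0), (0, 0), (0, 0), (120, 60), (0, 0), (0, 0), (0, 0), (120, 60), (0, 0), (0, 0), (0, 0)],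
  [(0, 5), (1, 53), (2, 48), (3, 60), (0, 0), (0, 0), (0, 0), (0, 0), (8, 5), (1, 40), (2, 31), (3, 60), (0, 0), (0, 0), (0, 0), (0, 0), (16, 5), (1, 29), (2, 3), (3, 60), (0, 0), (0, 0), (0, 0), (0, 0), (24, 50), (24, 50), (24, 18), (3, 60), (0, 0), (0, 0), (0, 0), (0, 0), (32, 5), (1, 62), (2, 16), (3, 60), (0, 0), (0, 0), (0, 0), (0, 0), (40, 49), (40, 49), (40, 13), (3, 60), (0, 0), (0, 0), (0, 0), (0, 0), (48, 65), (48, 65), (48, 11), (3, 60), (0, 0), (0, 0), (0, 0), (0, 0), (56, 45), (56, 45), (56, 45), (56, 45), (0, 0), (0, 0), (0, 0), (0, 0), (64, 5), (1, 58), (66, 47), (66, 47), (0, 0), (0, 0), (0, 0), (0, 0), (72, 5), (1, 42), (66, 26), (3, 4), (0, 0), (0, 0), (0, 0), (0, 0), (80, 5), (1, 51), (66, 2), (3, 4), (0, 0), (0, 0), (0, 0), (0, 0), (88, 50), (88, 50), (88, 18), (3, 4), (0, 0), (0, 0), (0, 0), (0, 0), (96, 5),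 (1, 43), (66, 39), (3, 4), (0, 0), (0, 0), (0, 0), (0, 0), (104, 49), (104, 49), (104, 13), (3, 4), (0, 0), (0, 0), (0, 0), (0, 0), (112, 65), (112, 65), (112, 11), (3, 4), (0, 0), (0, 0), (0, 0), (0, 0), (120, 45), (120, 45), (120, 45), (120, 45), (0, 0), (0, 0), (0, 0), (0, 0)],
  [(0, 6), (1, 53), (2, 31), (3, 60), (4, 49), (4, 49), (4, 13), (3, 60), (0, 0), (0, 0), (0, 0), (0, 0), (0, 0), (0, 0), (0, 0), (0, 0), (16, 32), (1, 29), (2, 3), (3, 60), (20, 45), (20, 45), (20, 45), (20, 45), (0, 0), (0, 0), (0, 0), (0, 0), (0, 0), (0, 0), (0, 0), (0, 0), (0, 0), (0, 0), (0, 0), (0, 0), (0, 0), (0, 0), (0, 0), (0, 0), (0, 0), (0, 0), (0, 0), (0, 0), (0, 0), (0, 0), (0, 0), (0, 0), (0, 0), (0, 0), (0, 0), (0, 0), (0, 0), (0, 0), (0, 0), (0, 0), (0, 0), (0, 0), (0, 0), (0, 0), (0, 0), (0, 0), (0, 0), (0, 0), (64, 46), (64, 46), (66,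 47), (66, 47), (64, 33), (1, 56), (66, 47), (66, 47), (0, 0), (0, 0), (0, 0), (0, 0), (0, 0), (0, 0), (0, 0), (0, 0), (80, 17), (80, 17), (80, 17), (80, 17), (80, 30), (80, 30), (80, 19), (3, 4), (0, 0), (0, 0), (0, 0), (0, 0), (0, 0), (0, 0), (0, 0), (0, 0), (0, 0), (0, 0), (0, 0), (0, 0), (0, 0), (0, 0), (0, 0), (0, 0), (0, 0), (0, 0), (0, 0), (0, 0), (0, 0), (0, 0), (0, 0), (0, 0), (0, 0), (0, 0), (0, 0), (0, 0), (0, 0), (0, 0), (0, 0), (0, 0), (0, 0), (0, 0), (0, 0), (0, 0), (0, 0), (0, 0), (0, 0), (0, 0)],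
  [(0, 7), (1, 60), (0, 0), (0, 0), (4, 48), (4, 48), (0, 0), (0, 0), (8, 7), (1, 60), (0, 0), (0, 0), (12, 48), (12, 48), (0, 0), (0, 0), (16, 7), (1, 60), (0, 0), (0, 0), (20, 48), (20, 48), (0, 0), (0, 0), (24, 7), (1, 60), (0, 0), (0, 0), (28, 48), (28, 48), (0, 0), (0, 0), (32, 7), (1, 60), (0, 0), (0, 0), (36, 48), (36, 48), (0, 0), (0, 0), (40, 7), (1, 60), (0, 0), (0, 0), (44, 48), (44, 48), (0, 0), (0, 0), (48, 7), (1, 60), (0, 0), (0, 0), (52, 48), (52, 48), (0, 0), (0, 0), (56, 7), (1, 60), (0, 0), (0, 0), (60, 48), (60, 48), (0, 0), (0, 0), (64, 41), (64, 41), (0, 0), (0, 0), (4, 55), (4, 55), (0, 0), (0, 0), (72, 41), (72, 41), (0, 0), (0, 0), (12, 55), (12, 55), (0, 0), (0, 0), (80, 41), (80, 41), (0, 0), (0, 0), (20, 55), (20, 55), (0, 0), (0, 0), (88, 41), (88, 41), (0, 0), (0, 0), (28, 55), (28, 55), (0, 0), (0,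 0), (96, 41), (96, 41), (0, 0), (0, 0), (36, 55), (36, 55), (0, 0), (0, 0), (104, 41), (104, 41), (0, 0), (0, 0), (44, 55), (44, 55), (0, 0), (0, 0), (112, 41), (112, 41), (0, 0), (0, 0), (52, 55), (52, 55), (0, 0), (0, 0), (120, 41), (120, 41), (0, 0), (0, 0), (60, 55), (60, 55), (0, 0), (0, 0)],
  [(0, 8), (1, 60), (0, 0), (0, 0), (4, 39), (4, 39), (0, 0), (0, 0), (8, 8), (1, 60), (0, 0), (0, 0), (12, 39), (12, 39), (0, 0), (0, 0), (16, 8), (1, 60), (0, 0), (0, 0), (20, 39), (20, 39), (0, 0), (0, 0), (24, 8), (1, 60), (0, 0), (0, 0), (28, 39), (28, 39), (0, 0), (0, 0), (32, 41), (32, 41), (0, 0), (0, 0), (36, 47), (36, 47), (0, 0), (0, 0), (40, 41), (40, 41), (0, 0), (0, 0), (44, 47), (44, 47), (0, 0), (0, 0), (48, 41), (48, 41), (0, 0), (0, 0), (52, 47), (52, 47), (0, 0), (0, 0), (56, 41), (56, 41), (0, 0), (0, 0), (60, 47), (60,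 47), (0, 0), (0, 0), (0, 0), (0, 0), (0, 0), (0, 0), (0, 0), (0, 0), (0, 0), (0, 0), (0, 0), (0, 0), (0, 0), (0, 0), (0, 0), (0, 0), (0, 0), (0, 0), (0, 0), (0, 0), (0, 0), (0, 0), (0, 0), (0, 0), (0, 0), (0, 0), (0, 0), (0, 0), (0, 0), (0, 0), (0, 0), (0, 0), (0, 0), (0, 0), (0, 0), (0, 0), (0, 0), (0, 0), (0, 0), (0, 0), (0, 0), (0, 0), (0, 0), (0, 0), (0, 0), (0, 0), (0, 0), (0, 0), (0, 0), (0, 0), (0, 0), (0, 0), (0, 0), (0, 0), (0, 0), (0, 0), (0, 0), (0, 0), (0, 0), (0, 0), (0, 0), (0, 0), (0, 0), (0, 0), (0, 0), (0, 0)],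
  [(0, 9), (1, 53), (2, 47), (3, 60), (4, 18), (1, 53), (2, 47), (3, 60), (0, 0), (0, 0), (0, 0), (0, 0), (0, 0), (0, 0), (0, 0), (0, 0), (0, 0), (0, 0), (0, 0), (0, 0), (0, 0), (0, 0), (0, 0), (0, 0), (0, 0), (0, 0), (0, 0), (0, 0), (0, 0), (0, 0), (0, 0), (0, 0), (32, 19), (32, 17), (2, 39), (3, 60), (36, 45), (36, 45), (2, 39), (3, 60), (0, 0), (0, 0), (0, 0), (0, 0), (0, 0), (0, 0), (0, 0), (0, 0), (0, 0), (0, 0), (0, 0), (0, 0), (0, 0), (0, 0), (0, 0), (0, 0), (0, 0), (0, 0), (0, 0), (0, 0), (0, 0), (0, 0), (0, 0), (0, 0), (0, 0), (0, 0), (0, 0), (0, 0), (0, 0), (0, 0), (0, 0), (0, 0), (0, 0), (0, 0), (0, 0), (0, 0), (0, 0), (0, 0), (0, 0), (0, 0), (0, 0), (0, 0), (0, 0), (0, 0), (0, 0), (0, 0), (0, 0), (0, 0), (0, 0), (0, 0), (0, 0), (0, 0), (0, 0), (0, 0), (0, 0), (0, 0), (0, 0), (0, 0), (0, 0), (0, 0), (0, 0), (0, 0), (0,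 0), (0, 0), (0, 0), (0, 0), (0, 0), (0, 0), (0, 0), (0, 0), (0, 0), (0, 0), (0, 0), (0, 0), (0, 0), (0, 0), (0, 0), (0, 0), (0, 0), (0, 0), (0, 0), (0, 0), (0, 0), (0, 0), (0, 0), (0, 0), (0, 0), (0, 0)],
  [(0, 10), (1, 53), (2, 47), (3, 60), (4, 5), (4, 5), (2, 41), (3, 60), (8, 33), (8, 33), (2, 26), (3, 60), (12, 5), (12, 5), (12, 24), (3, 60), (16, 59), (16, 59), (2, 2), (3, 60), (20, 5), (20, 5), (20, 20), (3, 60), (24, 33), (24, 33), (24, 12), (3, 60), (28, 50), (28, 50), (28, 18), (28, 18), (32, 34), (32, 34), (2, 39), (3, 60), (36, 5), (36, 5), (36, 54), (3, 60), (40, 33), (40, 33), (40, 14), (3, 60), (44, 49), (44, 49), (44, 13), (44, 13), (48, 59), (48, 59), (48, 44), (3, 60), (52, 65), (52, 65), (52, 11), (52, 11), (56, 30), (56, 30), (56, 19), (56, 19), (60, 45), (60, 45), (60, 45), (60, 45), (0, 0), (0, 0), (0, 0),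 (0, 0), (0, 0), (0, 0), (0, 0), (0, 0), (0, 0), (0, 0), (0, 0), (0, 0), (0, 0), (0, 0), (0, 0), (0, 0), (0, 0), (0, 0), (0, 0), (0, 0), (0, 0), (0, 0), (0, 0), (0, 0), (0, 0), (0, 0), (0, 0), (0, 0), (0, 0), (0, 0), (0, 0), (0, 0), (0, 0), (0, 0), (0, 0), (0, 0), (0, 0), (0, 0), (0, 0), (0, 0), (0, 0), (0, 0), (0, 0), (0, 0), (0, 0), (0, 0), (0, 0), (0, 0), (0, 0), (0, 0), (0, 0), (0, 0), (0, 0), (0, 0), (0, 0), (0, 0), (0, 0), (0, 0), (0, 0), (0, 0), (0, 0), (0, 0), (0, 0), (0, 0)],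
  [(0, 11), (1, 53), (2, 65), (3, 60), (0, 0), (0, 0), (0, 0), (0, 0), (8, 45), (8, 45), (2, 31), (3, 60), (0, 0), (0, 0), (0, 0), (0, 0), (0, 0), (0, 0), (0, 0), (0, 0), (0, 0), (0, 0), (0, 0), (0, 0), (0, 0), (0, 0), (0, 0), (0, 0), (0, 0), (0, 0), (0, 0), (0, 0), (0, 0), (0, 0), (0, 0), (0, 0), (0, 0), (0, 0), (0, 0), (0, 0), (0, 0), (0, 0), (0, 0), (0, 0), (0, 0), (0, 0), (0, 0), (0, 0), (0, 0), (0, 0), (0, 0), (0, 0), (0, 0), (0, 0), (0, 0), (0, 0), (0, 0), (0, 0), (0, 0), (0, 0), (0, 0), (0, 0), (0, 0), (0, 0), (64, 11), (1, 58), (66, 47), (66, 47), (0, 0), (0, 0), (0, 0), (0, 0), (72, 45), (72, 45), (66, 26), (3, 4), (0, 0), (0, 0), (0, 0), (0, 0), (0, 0), (0, 0), (0, 0), (0, 0), (0, 0), (0, 0), (0, 0), (0, 0), (0, 0), (0, 0), (0, 0), (0, 0), (0, 0), (0, 0), (0, 0), (0, 0), (0, 0), (0, 0), (0, 0), (0, 0), (0, 0), (0, 0), (0,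 0), (0, 0), (0, 0), (0, 0), (0, 0), (0, 0), (0, 0), (0, 0), (0, 0), (0, 0), (0, 0), (0, 0), (0, 0), (0, 0), (0, 0), (0, 0), (0, 0), (0, 0), (0, 0), (0, 0), (0, 0), (0, 0), (0, 0), (0, 0), (0, 0), (0, 0)],
  [(0, 12), (1, 53), (2, 47), (3, 60), (4, 18), (4, 18), (2, 41), (3, 60), (0, 0), (0, 0), (0, 0), (0, 0), (0, 0), (0, 0), (0, 0), (0, 0), (0, 0), (0, 0), (0, 0), (0, 0), (0, 0), (0, 0), (0, 0), (0, 0), (0, 0), (0, 0), (0, 0), (0, 0), (0, 0), (0, 0), (0, 0), (0, 0), (32, 19), (32, 19), (2, 39), (3, 60), (36, 45), (36, 45), (2, 8), (3, 60), (0, 0), (0, 0), (0, 0), (0, 0), (0, 0), (0, 0), (0, 0), (0, 0), (0, 0), (0, 0), (0, 0), (0, 0), (0, 0), (0, 0), (0, 0), (0, 0), (0, 0), (0, 0), (0, 0), (0, 0), (0, 0), (0, 0), (0, 0), (0, 0), (0, 0), (0, 0), (0, 0), (0, 0), (0, 0), (0, 0), (0, 0), (0, 0), (0, 0), (0, 0), (0, 0), (0, 0), (0, 0),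 (0, 0), (0, 0), (0, 0), (0, 0), (0, 0), (0, 0), (0, 0), (0, 0), (0, 0), (0, 0), (0, 0), (0, 0), (0, 0), (0, 0), (0, 0), (0, 0), (0, 0), (0, 0), (0, 0), (0, 0), (0, 0), (0, 0), (0, 0), (0, 0), (0, 0), (0, 0), (0, 0), (0, 0), (0, 0), (0, 0), (0, 0), (0, 0), (0, 0), (0, 0), (0, 0), (0, 0), (0, 0), (0, 0), (0, 0), (0, 0), (0, 0), (0, 0), (0, 0), (0, 0), (0, 0), (0, 0), (0, 0), (0, 0), (0, 0), (0, 0), (0, 0)],
  [(0, 13), (1, 53), (2, 49), (3, 60), (0, 0), (0, 0), (0, 0), (0, 0), (0, 0), (0, 0), (0, 0), (0, 0), (0, 0), (0, 0), (0, 0), (0, 0), (16, 45), (16, 45), (2, 3), (3, 60), (0, 0), (0, 0), (0, 0), (0, 0), (0, 0), (0, 0), (0, 0), (0, 0), (0, 0), (0, 0), (0, 0), (0, 0), (0, 0), (0, 0), (0, 0), (0, 0), (0, 0), (0, 0), (0, 0), (0, 0), (0, 0), (0, 0), (0, 0), (0, 0), (0, 0), (0, 0), (0, 0), (0, 0), (0, 0), (0, 0), (0, 0), (0, 0), (0,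 0), (0, 0), (0, 0), (0, 0), (0, 0), (0, 0), (0, 0), (0, 0), (0, 0), (0, 0), (0, 0), (0, 0), (64, 13), (1, 58), (66, 47), (66, 47), (0, 0), (0, 0), (0, 0), (0, 0), (0, 0), (0, 0), (0, 0), (0, 0), (0, 0), (0, 0), (0, 0), (0, 0), (80, 45), (80, 45), (66, 2), (3, 4), (0, 0), (0, 0), (0, 0), (0, 0), (0, 0), (0, 0), (0, 0), (0, 0), (0, 0), (0, 0), (0, 0), (0, 0), (0, 0), (0, 0), (0, 0), (0, 0), (0, 0), (0, 0), (0, 0), (0, 0), (0, 0), (0, 0), (0, 0), (0, 0), (0, 0), (0, 0), (0, 0), (0, 0), (0, 0), (0, 0), (0, 0), (0, 0), (0, 0), (0, 0), (0, 0), (0, 0), (0, 0), (0, 0), (0, 0), (0, 0), (0, 0), (0, 0), (0, 0), (0, 0)],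
  [(0, 14), (1, 53), (2, 47), (3, 60), (4, 13), (4, 13), (2, 41), (3, 60), (0, 0), (0, 0), (0, 0), (0, 0), (0, 0), (0, 0), (0, 0), (0, 0), (16, 19), (16, 19), (2, 2), (3, 60), (20, 45), (20, 45), (2, 37), (3, 60), (0, 0), (0, 0), (0, 0), (0, 0), (0, 0), (0, 0), (0, 0), (0, 0), (0, 0), (0, 0), (0, 0), (0, 0), (0, 0), (0, 0), (0, 0), (0, 0), (0, 0), (0, 0), (0, 0), (0, 0), (0, 0), (0, 0), (0, 0), (0, 0), (0, 0), (0, 0), (0, 0), (0, 0), (0, 0), (0, 0), (0, 0), (0, 0), (0, 0), (0, 0), (0, 0), (0, 0), (0, 0), (0, 0), (0, 0), (0, 0), (0, 0), (0, 0), (0, 0), (0, 0), (0, 0), (0, 0), (0, 0), (0, 0), (0, 0), (0, 0), (0, 0), (0, 0), (0, 0), (0, 0), (0, 0), (0, 0), (0, 0), (0, 0), (0, 0), (0, 0), (0, 0), (0, 0), (0, 0), (0, 0), (0, 0), (0, 0), (0, 0), (0, 0), (0, 0), (0, 0), (0, 0), (0, 0), (0, 0), (0, 0), (0, 0), (0, 0), (0, 0), (0, 0), (0,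 0), (0, 0), (0, 0), (0, 0), (0, 0), (0, 0), (0, 0), (0, 0), (0, 0), (0, 0), (0, 0), (0, 0), (0, 0), (0, 0), (0, 0), (0, 0), (0, 0), (0, 0), (0, 0), (0, 0), (0, 0), (0, 0), (0, 0), (0, 0), (0, 0), (0, 0)],
  [(0, 15), (1, 53), (2, 47), (3, 60), (4, 13), (1, 53), (2, 47), (3, 60), (0, 0), (0, 0), (0, 0), (0, 0), (0, 0), (0, 0), (0, 0), (0, 0), (16, 17), (16, 17), (2, 2), (3, 60), (20, 45), (20, 45), (2, 2), (3, 60), (0, 0), (0, 0), (0, 0), (0, 0), (0, 0), (0, 0), (0, 0), (0, 0), (0, 0), (0, 0), (0, 0), (0, 0), (0, 0), (0, 0), (0, 0), (0, 0), (0, 0), (0, 0), (0, 0), (0, 0), (0, 0), (0, 0), (0, 0), (0, 0), (0, 0), (0, 0), (0, 0), (0, 0), (0, 0), (0, 0), (0, 0), (0, 0), (0, 0), (0, 0), (0, 0), (0, 0), (0, 0), (0, 0), (0, 0), (0, 0), (0, 0), (0, 0), (0, 0), (0, 0), (0, 0), (0, 0), (0, 0), (0, 0), (0, 0), (0, 0), (0, 0), (0, 0), (0, 0),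 (0, 0), (0, 0), (0, 0), (0, 0), (0, 0), (0, 0), (0, 0), (0, 0), (0, 0), (0, 0), (0, 0), (0, 0), (0, 0), (0, 0), (0, 0), (0, 0), (0, 0), (0, 0), (0, 0), (0, 0), (0, 0), (0, 0), (0, 0), (0, 0), (0, 0), (0, 0), (0, 0), (0, 0), (0, 0), (0, 0), (0, 0), (0, 0), (0, 0), (0, 0), (0, 0), (0, 0), (0, 0), (0, 0), (0, 0), (0, 0), (0, 0), (0, 0), (0, 0), (0, 0), (0, 0), (0, 0), (0, 0), (0, 0), (0, 0), (0, 0), (0, 0)],
  [(0, 16), (1, 60), (0, 0), (0, 0), (4, 16), (1, 60), (0, 0), (0, 0), (8, 16), (1, 60), (0, 0), (0, 0), (12, 16), (1, 60), (0, 0), (0, 0), (16, 16), (1, 60), (0, 0), (0, 0), (20, 16), (1, 60), (0, 0), (0, 0), (24, 16), (1, 60), (0, 0), (0, 0), (28, 16), (1, 60), (0, 0), (0, 0), (32, 31), (32, 48), (0, 0), (0, 0), (36, 48), (36, 48), (0, 0), (0, 0), (40, 48), (40, 48), (0, 0), (0, 0), (44, 48), (44, 48), (0, 0), (0, 0), (48, 48),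 (48, 48), (0, 0), (0, 0), (52, 48), (52, 48), (0, 0), (0, 0), (56, 48), (56, 48), (0, 0), (0, 0), (60, 48), (60, 48), (0, 0), (0, 0), (64, 39), (1, 4), (0, 0), (0, 0), (64, 39), (1, 4), (0, 0), (0, 0), (72, 39), (1, 4), (0, 0), (0, 0), (72, 39), (1, 4), (0, 0), (0, 0), (80, 39), (1, 4), (0, 0), (0, 0), (80, 39), (1, 4), (0, 0), (0, 0), (88, 39), (1, 4), (0, 0), (0, 0), (88, 39), (1, 4), (0, 0), (0, 0), (96, 47), (96, 47), (0, 0), (0, 0), (96, 47), (96, 47), (0, 0), (0, 0), (104, 47), (104, 47), (0, 0), (0, 0), (104, 47), (104, 47), (0, 0), (0, 0), (112, 47), (112, 47), (0, 0), (0, 0), (112, 47), (112, 47), (0, 0), (0, 0), (120, 47), (120, 47), (0, 0), (0, 0), (120, 47), (120, 47), (0, 0), (0, 0)],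
  [(0, 17), (1, 53), (2, 47), (3, 60), (4, 45), (1, 53), (2, 47), (3, 60), (0, 0), (0, 0), (0, 0), (0, 0), (0, 0), (0, 0), (0, 0), (0, 0), (0, 0), (0, 0), (0, 0), (0, 0), (0, 0), (0, 0), (0, 0), (0, 0), (0, 0), (0, 0), (0, 0), (0, 0), (0, 0), (0, 0), (0, 0), (0, 0), (0, 0), (0, 0), (0, 0), (0, 0), (0, 0), (0, 0), (0, 0), (0, 0), (0, 0), (0, 0), (0, 0), (0, 0), (0, 0), (0, 0), (0, 0), (0, 0), (0, 0), (0, 0), (0, 0), (0, 0), (0, 0), (0, 0), (0, 0), (0, 0), (0, 0), (0, 0), (0, 0), (0, 0), (0, 0), (0, 0), (0, 0), (0, 0), (0, 0), (0, 0), (0, 0), (0, 0), (0, 0), (0, 0), (0, 0), (0, 0), (0, 0), (0, 0), (0, 0), (0, 0), (0, 0), (0, 0), (0, 0), (0, 0), (0, 0), (0, 0), (0, 0), (0, 0), (0, 0), (0, 0), (0, 0), (0, 0), (0, 0), (0, 0), (0, 0), (0, 0), (0, 0), (0, 0), (0, 0), (0, 0), (0, 0), (0, 0), (0, 0), (0, 0), (0, 0), (0, 0), (0, 0), (0, 0),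 (0, 0), (0, 0), (0, 0), (0, 0), (0, 0), (0, 0), (0, 0), (0, 0), (0, 0), (0, 0), (0, 0), (0, 0), (0, 0), (0, 0), (0, 0), (0, 0), (0, 0), (0, 0), (0, 0), (0, 0), (0, 0), (0, 0), (0, 0), (0, 0)],
  [(0, 18), (1, 53), (2, 48), (3, 60), (0, 0), (0, 0), (0, 0), (0, 0), (0, 0), (0, 0), (0, 0), (0, 0), (0, 0), (0, 0), (0, 0), (0, 0), (0, 0), (0, 0), (0, 0), (0, 0), (0, 0), (0, 0), (0, 0), (0, 0), (0, 0), (0, 0), (0, 0), (0, 0), (0, 0), (0, 0), (0, 0), (0, 0), (32, 45), (32, 45), (2, 16), (3, 60), (0, 0), (0, 0), (0, 0), (0, 0), (0, 0), (0, 0), (0, 0), (0, 0), (0, 0), (0, 0), (0, 0), (0, 0), (0, 0), (0, 0), (0, 0), (0, 0), (0, 0), (0, 0), (0, 0), (0, 0), (0, 0), (0, 0), (0, 0), (0, 0), (0, 0), (0, 0), (0, 0), (0, 0), (64, 18), (1, 58), (66, 47), (66, 47), (0, 0), (0, 0), (0, 0), (0, 0), (0, 0), (0, 0), (0, 0), (0, 0), (0, 0), (0, 0), (0,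 0), (0, 0), (0, 0), (0, 0), (0, 0), (0, 0), (0, 0), (0, 0), (0, 0), (0, 0), (0, 0), (0, 0), (0, 0), (0, 0), (0, 0), (0, 0), (0, 0), (0, 0), (96, 45), (96, 45), (66, 39), (3, 4), (0, 0), (0, 0), (0, 0), (0, 0), (0, 0), (0, 0), (0, 0), (0, 0), (0, 0), (0, 0), (0, 0), (0, 0), (0, 0), (0, 0), (0, 0), (0, 0), (0, 0), (0, 0), (0, 0), (0, 0), (0, 0), (0, 0), (0, 0), (0, 0), (0, 0), (0, 0), (0, 0), (0, 0)],
  [(0, 19), (1, 19), (2, 47), (3, 60), (4, 18), (4, 45), (2, 41), (3, 60), (0, 0), (0, 0), (0, 0), (0, 0), (0, 0), (0, 0), (0, 0), (0, 0), (0, 0), (0, 0), (0, 0), (0, 0), (0, 0), (0, 0), (0, 0), (0, 0), (0, 0), (0, 0), (0, 0), (0, 0), (0, 0), (0, 0), (0, 0), (0, 0), (0, 0), (0, 0), (0, 0), (0, 0), (0, 0), (0, 0), (0, 0), (0, 0), (0, 0), (0, 0), (0, 0), (0, 0), (0, 0), (0, 0), (0, 0), (0, 0), (0, 0), (0, 0), (0, 0), (0, 0), (0, 0), (0,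 0), (0, 0), (0, 0), (0, 0), (0, 0), (0, 0), (0, 0), (0, 0), (0, 0), (0, 0), (0, 0), (0, 0), (0, 0), (0, 0), (0, 0), (0, 0), (0, 0), (0, 0), (0, 0), (0, 0), (0, 0), (0, 0), (0, 0), (0, 0), (0, 0), (0, 0), (0, 0), (0, 0), (0, 0), (0, 0), (0, 0), (0, 0), (0, 0), (0, 0), (0, 0), (0, 0), (0, 0), (0, 0), (0, 0), (0, 0), (0, 0), (0, 0), (0, 0), (0, 0), (0, 0), (0, 0), (0, 0), (0, 0), (0, 0), (0, 0), (0, 0), (0, 0), (0, 0), (0, 0), (0, 0), (0, 0), (0, 0), (0, 0), (0, 0), (0, 0), (0, 0), (0, 0), (0, 0), (0, 0), (0, 0), (0, 0), (0, 0), (0, 0), (0, 0), (0, 0), (0, 0), (0, 0), (0, 0), (0, 0), (0, 0)],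
  [(0, 20), (1, 53), (2, 48), (3, 60), (0, 0), (0, 0), (0, 0), (0, 0), (8, 18), (8, 18), (2, 31), (3, 60), (0, 0), (0, 0), (0, 0), (0, 0), (0, 0), (0, 0), (0, 0), (0, 0), (0, 0), (0, 0), (0, 0), (0, 0), (0, 0), (0, 0), (0, 0), (0, 0), (0, 0), (0, 0), (0, 0), (0, 0), (32, 11), (32, 11), (2, 16), (3, 60), (0, 0), (0, 0), (0, 0), (0, 0), (40, 45), (40, 45), (2, 64), (3, 60), (0, 0), (0, 0), (0, 0), (0, 0), (0, 0), (0, 0), (0, 0), (0, 0), (0, 0), (0, 0), (0, 0), (0, 0), (0, 0), (0, 0), (0, 0), (0, 0), (0, 0), (0, 0), (0, 0), (0, 0), (64, 20), (1, 58), (66, 47), (66, 47), (0, 0), (0, 0), (0, 0), (0, 0), (72, 18), (72, 18), (66, 26), (66, 26), (0, 0), (0, 0), (0, 0), (0, 0), (0, 0), (0, 0), (0, 0), (0, 0), (0, 0), (0, 0), (0, 0), (0, 0), (0, 0), (0, 0), (0, 0), (0, 0), (0, 0), (0, 0), (0, 0), (0, 0), (96, 11), (96, 11), (66, 39), (66,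 39), (0, 0), (0, 0), (0, 0), (0, 0), (104, 45), (104, 45), (66, 22), (3, 4), (0, 0), (0, 0), (0, 0), (0, 0), (0, 0), (0, 0), (0, 0), (0, 0), (0, 0), (0, 0), (0, 0), (0, 0), (0, 0), (0, 0), (0, 0), (0, 0), (0, 0), (0, 0), (0, 0), (0, 0)],
  [(0, 21), (0, 0), (2, 60), (0, 0), (4, 53), (0, 0), (4, 53), (0, 0), (8, 21), (0, 0), (2, 60), (0, 0), (12, 53), (0, 0), (12, 53), (0, 0), (16, 21), (0, 0), (2, 60), (0, 0), (20, 53), (0, 0), (20, 53), (0, 0), (24, 21), (0, 0), (2, 60), (0, 0), (28, 53), (0, 0), (28, 53), (0, 0), (32, 21), (0, 0), (2, 60), (0, 0), (36, 53), (0, 0), (36, 53), (0, 0), (40, 21), (0, 0), (2, 60), (0, 0), (44, 53), (0, 0), (44, 53), (0, 0), (48, 21), (0, 0), (2, 60), (0, 0), (52, 53), (0, 0), (52, 53), (0, 0), (56, 21), (0, 0), (2, 60), (0, 0), (60, 53), (0, 0), (60, 53), (0, 0), (64, 21), (0, 0), (66, 60), (0, 0),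 (4, 58), (0, 0), (4, 58), (0, 0), (72, 21), (0, 0), (66, 60), (0, 0), (12, 58), (0, 0), (12, 58), (0, 0), (80, 21), (0, 0), (66, 60), (0, 0), (20, 58), (0, 0), (20, 58), (0, 0), (88, 21), (0, 0), (66, 60), (0, 0), (28, 58), (0, 0), (28, 58), (0, 0), (96, 21), (0, 0), (66, 60), (0, 0), (36, 58), (0, 0), (36, 58), (0, 0), (104, 21), (0, 0), (66, 60), (0, 0), (44, 58), (0, 0), (44, 58), (0, 0), (112, 21), (0, 0), (66, 60), (0, 0), (52, 58), (0, 0), (52, 58), (0, 0), (120, 21), (0, 0), (66, 60), (0, 0), (60, 58), (0, 0), (60, 58), (0, 0)],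
  [(0, 22), (1, 60), (0, 0), (0, 0), (4, 22), (1, 60), (0, 0), (0, 0), (8, 39), (8, 39), (0, 0), (0, 0), (12, 39), (12, 39), (0, 0), (0, 0), (16, 22), (1, 60), (0, 0), (0, 0), (20, 22), (1, 60), (0, 0), (0, 0), (24, 39), (24, 39), (0, 0), (0, 0), (28, 39), (28, 39), (0, 0), (0, 0), (32, 26), (32, 26), (0, 0), (0, 0), (36, 26), (36, 26), (0, 0), (0, 0), (40, 47), (40, 47), (0, 0), (0, 0), (44, 47), (44, 47), (0, 0), (0, 0), (48, 26), (48, 26), (0, 0), (0, 0), (52, 26), (52, 26), (0, 0), (0, 0), (56, 47), (56, 47), (0, 0), (0, 0), (60, 47), (60, 47), (0, 0), (0, 0), (0, 0), (0, 0), (0, 0), (0, 0), (0, 0), (0, 0), (0, 0), (0, 0), (0, 0), (0, 0), (0, 0), (0, 0), (0, 0), (0, 0), (0, 0), (0, 0), (0, 0), (0, 0), (0, 0), (0, 0), (0, 0), (0, 0), (0, 0), (0, 0), (0, 0), (0, 0), (0, 0), (0, 0), (0, 0), (0, 0), (0, 0), (0, 0), (0, 0), (0, 0),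 (0, 0), (0, 0), (0, 0), (0, 0), (0, 0), (0, 0), (0, 0), (0, 0), (0, 0), (0, 0), (0, 0), (0, 0), (0, 0), (0, 0), (0, 0), (0, 0), (0, 0), (0, 0), (0, 0), (0, 0), (0, 0), (0, 0), (0, 0), (0, 0), (0, 0), (0, 0), (0, 0), (0, 0), (0, 0), (0, 0)],
  [(0, 23), (1, 53), (2, 7), (3, 60), (4, 45), (4, 45), (2, 7), (3, 60), (0, 0), (0, 0), (0, 0), (0, 0), (0, 0), (0, 0), (0, 0), (0, 0), (0, 0), (0, 0), (0, 0), (0, 0), (0, 0), (0, 0), (0, 0), (0, 0), (0, 0), (0, 0), (0, 0), (0, 0), (0, 0), (0, 0), (0, 0), (0, 0), (0, 0), (0, 0), (0, 0), (0, 0), (0, 0), (0, 0), (0, 0), (0, 0), (0, 0), (0, 0), (0, 0), (0, 0), (0, 0), (0, 0), (0, 0), (0, 0), (0, 0), (0, 0), (0, 0), (0, 0), (0, 0), (0, 0), (0, 0), (0, 0), (0, 0), (0, 0), (0, 0), (0, 0), (0, 0), (0, 0), (0, 0), (0, 0), (64, 19), (64, 19), (66, 47), (66, 47), (4, 25), (4, 25), (66, 41), (66, 41), (0,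 0), (0, 0), (0, 0), (0, 0), (0, 0), (0, 0), (0, 0), (0, 0), (0, 0), (0, 0), (0, 0), (0, 0), (0, 0), (0, 0), (0, 0), (0, 0), (0, 0), (0, 0), (0, 0), (0, 0), (0, 0), (0, 0), (0, 0), (0, 0), (0, 0), (0, 0), (0, 0), (0, 0), (0, 0), (0, 0), (0, 0), (0, 0), (0, 0), (0, 0), (0, 0), (0, 0), (0, 0), (0, 0), (0, 0), (0, 0), (0, 0), (0, 0), (0, 0), (0, 0), (0, 0), (0, 0), (0, 0), (0, 0), (0, 0), (0, 0), (0, 0), (0, 0), (0, 0), (0, 0), (0, 0), (0, 0)],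
  [(0, 24), (1, 53), (2, 48), (3, 60), (0, 0), (0, 0), (0, 0), (0, 0), (0, 0), (0, 0), (0, 0), (0, 0), (0, 0), (0, 0), (0, 0), (0, 0), (16, 18), (16, 18), (2, 3), (3, 60), (0, 0), (0, 0), (0, 0), (0, 0), (0, 0), (0, 0), (0, 0), (0, 0), (0, 0), (0, 0), (0, 0), (0, 0), (32, 13), (32, 13), (2, 16), (3, 60), (0, 0), (0, 0), (0, 0), (0, 0), (0, 0), (0, 0), (0, 0), (0, 0), (0, 0), (0, 0), (0, 0), (0, 0), (48, 45), (48, 45), (2, 52), (3, 60), (0, 0), (0, 0), (0, 0), (0, 0), (0, 0), (0, 0), (0, 0), (0, 0), (0, 0), (0, 0), (0, 0), (0, 0), (64, 24), (1, 58), (66, 47), (66, 47), (0, 0), (0, 0), (0, 0), (0, 0), (0, 0), (0, 0), (0, 0), (0, 0), (0, 0), (0, 0), (0, 0), (0, 0), (80, 18), (80, 18), (66, 2), (66, 2), (0, 0), (0, 0), (0, 0), (0, 0), (0, 0), (0, 0), (0, 0), (0, 0), (0, 0), (0, 0), (0, 0), (0, 0), (96, 13), (96, 13), (66, 39), (66, 39),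 (0, 0), (0, 0), (0, 0), (0, 0), (0, 0), (0, 0), (0, 0), (0, 0), (0, 0), (0, 0), (0, 0), (0, 0), (112, 45), (112, 45), (66, 61), (3, 4), (0, 0), (0, 0), (0, 0), (0, 0), (0, 0), (0, 0), (0, 0), (0, 0), (0, 0), (0, 0), (0, 0), (0, 0)],
  [(0, 25), (1, 58), (2, 25), (3, 4), (0, 0), (0, 0), (0, 0), (0, 0), (0, 0), (0, 0), (0, 0), (0, 0), (0, 0), (0, 0), (0, 0), (0, 0), (0, 0), (0, 0), (0, 0), (0, 0), (0, 0), (0, 0), (0, 0), (0, 0), (0, 0), (0, 0), (0, 0), (0, 0), (0, 0), (0, 0), (0, 0), (0, 0), (0, 0), (0, 0), (0, 0), (0, 0), (0, 0), (0, 0), (0, 0), (0, 0), (0, 0), (0, 0), (0, 0), (0, 0), (0, 0), (0, 0), (0, 0), (0, 0), (0, 0), (0, 0), (0, 0), (0, 0), (0, 0), (0, 0), (0, 0), (0, 0), (0, 0), (0, 0), (0, 0), (0, 0), (0, 0), (0, 0), (0, 0), (0, 0), (64, 45), (64, 45), (66, 47), (66, 47), (0, 0), (0, 0), (0, 0), (0, 0), (0, 0), (0, 0), (0,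 0), (0, 0), (0, 0), (0, 0), (0, 0), (0, 0), (0, 0), (0, 0), (0, 0), (0, 0), (0, 0), (0, 0), (0, 0), (0, 0), (0, 0), (0, 0), (0, 0), (0, 0), (0, 0), (0, 0), (0, 0), (0, 0), (0, 0), (0, 0), (0, 0), (0, 0), (0, 0), (0, 0), (0, 0), (0, 0), (0, 0), (0, 0), (0, 0), (0, 0), (0, 0), (0, 0), (0, 0), (0, 0), (0, 0), (0, 0), (0, 0), (0, 0), (0, 0), (0, 0), (0, 0), (0, 0), (0, 0), (0, 0), (0, 0), (0, 0), (0, 0), (0, 0), (0, 0), (0, 0)],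
  [(0, 26), (1, 60), (0, 0), (0, 0), (4, 26), (1, 60), (0, 0), (0, 0), (8, 47), (8, 47), (0, 0), (0, 0), (12, 47), (12, 47), (0, 0), (0, 0), (16, 26), (1, 60), (0, 0), (0, 0), (20, 26), (1, 60), (0, 0), (0, 0), (24, 47), (24, 47), (0, 0), (0, 0), (28, 47), (28, 47), (0, 0), (0, 0), (32, 26), (1, 60), (0, 0), (0, 0), (36, 26), (1, 60), (0, 0), (0, 0), (40, 47), (40, 47), (0, 0), (0, 0), (44, 47), (44, 47), (0, 0), (0, 0), (48, 26), (1, 60), (0, 0), (0, 0), (52, 26), (1, 60), (0, 0), (0, 0), (56, 47), (56, 47), (0, 0), (0, 0), (60, 47), (60, 47), (0, 0), (0, 0), (0, 0), (0, 0), (0, 0), (0, 0), (0, 0), (0, 0), (0, 0), (0, 0), (0, 0), (0, 0), (0, 0), (0, 0), (0, 0), (0, 0), (0, 0), (0, 0), (0, 0), (0, 0), (0, 0), (0, 0), (0, 0), (0, 0), (0, 0), (0, 0), (0, 0), (0, 0), (0, 0), (0, 0), (0, 0), (0, 0), (0, 0), (0, 0), (0, 0), (0, 0), (0,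 0), (0, 0), (0, 0), (0, 0), (0, 0), (0, 0), (0, 0), (0, 0), (0, 0), (0, 0), (0, 0), (0, 0), (0, 0), (0, 0), (0, 0), (0, 0), (0, 0), (0, 0), (0, 0), (0, 0), (0, 0), (0, 0), (0, 0), (0, 0), (0, 0), (0, 0), (0, 0), (0, 0), (0, 0), (0, 0)],
  [(0, 27), (1, 60), (0, 0), (0, 0), (4, 26), (4, 26), (0, 0), (0, 0), (8, 27), (8, 41), (0, 0), (0, 0), (12, 41), (12, 41), (0, 0), (0, 0), (16, 27), (1, 60), (0, 0), (0, 0), (20, 26), (20, 26), (0, 0), (0, 0), (24, 41), (24, 41), (0, 0), (0, 0), (28, 41), (28, 41), (0, 0), (0, 0), (32, 27), (1, 60), (0, 0), (0, 0), (36, 26), (36, 26), (0, 0), (0, 0), (40, 41), (40, 41), (0, 0), (0, 0), (44, 41), (44, 41), (0, 0), (0, 0), (48, 27), (1, 60), (0, 0), (0, 0), (52, 26), (52, 26), (0, 0), (0, 0), (56, 41), (56, 41), (0, 0), (0, 0), (60, 41), (60, 41), (0, 0), (0, 0), (0, 0), (0, 0), (0, 0), (0, 0), (0,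 0), (0, 0), (0, 0), (0, 0), (0, 0), (0, 0), (0, 0), (0, 0), (0, 0), (0, 0), (0, 0), (0, 0), (0, 0), (0, 0), (0, 0), (0, 0), (0, 0), (0, 0), (0, 0), (0, 0), (0, 0), (0, 0), (0, 0), (0, 0), (0, 0), (0, 0), (0, 0), (0, 0), (0, 0), (0, 0), (0, 0), (0, 0), (0, 0), (0, 0), (0, 0), (0, 0), (0, 0), (0, 0), (0, 0), (0, 0), (0, 0), (0, 0), (0, 0), (0, 0), (0, 0), (0, 0), (0, 0), (0, 0), (0, 0), (0, 0), (0, 0), (0, 0), (0, 0), (0, 0), (0, 0), (0, 0), (0, 0), (0, 0), (0, 0), (0, 0)],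
  [(0, 28), (1, 53), (2, 47), (3, 60), (4, 5), (1, 53), (2, 47), (3, 60), (8, 33), (1, 40), (2, 26), (3, 60), (12, 5), (1, 40), (2, 26), (3, 60), (16, 59), (1, 29), (2, 2), (3, 60), (20, 5), (1, 29), (2, 2), (3, 60), (24, 9), (24, 63), (24, 9), (3, 60), (28, 50), (28, 50), (28, 18), (3, 60), (32, 34), (1, 62), (2, 39), (3, 60), (36, 5), (1, 62), (2, 39), (3, 60), (40, 33), (40, 46), (40, 15), (3, 60), (44, 49), (44, 49), (44, 13), (3, 60), (48, 59), (48, 57), (48, 38), (3, 60), (52, 65), (52, 65), (52, 11), (3, 60), (56, 17), (56, 17), (56, 17), (56, 17), (60, 45), (60, 45), (60, 45), (60, 45), (0, 0), (0, 0), (0, 0), (0, 0), (0, 0), (0, 0), (0, 0), (0, 0), (0, 0), (0, 0), (0, 0), (0, 0), (0, 0), (0, 0), (0, 0), (0, 0), (0, 0), (0, 0), (0, 0), (0, 0), (0, 0), (0, 0), (0, 0), (0, 0), (0, 0), (0, 0), (0, 0), (0, 0), (0, 0), (0, 0),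 (0, 0), (0, 0), (0, 0), (0, 0), (0, 0), (0, 0), (0, 0), (0, 0), (0, 0), (0, 0), (0, 0), (0, 0), (0, 0), (0, 0), (0, 0), (0, 0), (0, 0), (0, 0), (0, 0), (0, 0), (0, 0), (0, 0), (0, 0), (0, 0), (0, 0), (0, 0), (0, 0), (0, 0), (0, 0), (0, 0), (0, 0), (0, 0), (0, 0), (0, 0)],
  [(0, 29), (0, 0), (2, 60), (0, 0), (4, 29), (0, 0), (2, 60), (0, 0), (8, 29), (0, 0), (2, 60), (0, 0), (12, 29), (0, 0), (2, 60), (0, 0), (16, 53), (0, 0), (16, 53), (0, 0), (20, 53), (0, 0), (20, 53), (0, 0), (24, 53), (0, 0), (24, 53), (0, 0), (28, 53), (0, 0), (28, 53), (0, 0), (32, 29), (0, 0), (2, 60), (0, 0), (36, 29), (0, 0), (2, 60), (0, 0), (40, 29), (0, 0), (2, 60), (0, 0), (44, 29), (0, 0), (2, 60), (0, 0), (48, 53), (0, 0), (48, 53), (0, 0), (52, 53), (0, 0), (52, 53), (0, 0), (56, 53), (0, 0), (56, 53), (0, 0), (60, 53), (0, 0), (60, 53), (0, 0),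 (64, 29), (0, 0), (66, 60), (0, 0), (4, 51), (0, 0), (66, 60), (0, 0), (72, 29), (0, 0), (66, 60), (0, 0), (12, 51), (0, 0), (66, 60), (0, 0), (80, 53), (0, 0), (80, 53), (0, 0), (80, 21), (0, 0), (20, 58), (0, 0), (88, 53), (0, 0), (88, 53), (0, 0), (88, 21), (0, 0), (28, 58), (0, 0), (96, 29), (0, 0), (66, 60), (0, 0), (36, 51), (0, 0), (66, 60), (0, 0), (104, 29), (0, 0), (66, 60), (0, 0), (44, 51), (0, 0), (66, 60), (0, 0), (112, 53), (0, 0), (112, 53), (0, 0), (112, 21), (0, 0), (52, 58), (0, 0), (120, 53), (0, 0), (120, 53), (0, 0), (120, 21), (0, 0), (60, 58), (0, 0)],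
  [(0, 30), (1, 53), (2, 47), (3, 60), (4, 45), (1, 21), (4, 45), (3, 60), (0, 0), (0, 0), (0, 0), (0, 0), (0, 0), (0, 0), (0, 0), (0, 0), (0, 0), (0, 0), (0, 0), (0, 0), (0, 0), (0, 0), (0, 0), (0, 0), (0, 0), (0, 0), (0, 0), (0, 0), (0, 0), (0, 0), (0, 0), (0, 0), (0, 0), (0, 0), (0, 0), (0, 0), (0, 0), (0, 0), (0, 0), (0, 0), (0, 0), (0, 0), (0, 0), (0, 0), (0, 0), (0, 0), (0, 0), (0, 0), (0, 0), (0, 0), (0, 0), (0, 0), (0, 0), (0, 0), (0, 0), (0, 0), (0, 0), (0, 0), (0, 0), (0, 0), (0, 0), (0, 0), (0, 0), (0, 0), (0, 0), (0, 0), (0, 0), (0, 0), (0, 0), (0, 0), (0, 0), (0, 0), (0, 0), (0, 0), (0, 0), (0, 0), (0, 0), (0, 0), (0, 0), (0, 0), (0, 0), (0, 0), (0, 0), (0, 0), (0, 0), (0, 0), (0, 0), (0, 0), (0, 0), (0, 0), (0, 0), (0, 0), (0, 0), (0, 0), (0, 0), (0, 0), (0, 0), (0, 0), (0, 0), (0, 0), (0, 0), (0, 0), (0, 0), (0, 0),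 (0, 0), (0, 0), (0, 0), (0, 0), (0, 0), (0, 0), (0, 0), (0, 0), (0, 0), (0, 0), (0, 0), (0, 0), (0, 0), (0, 0), (0, 0), (0, 0), (0, 0), (0, 0), (0, 0), (0, 0), (0, 0), (0, 0), (0, 0), (0, 0)],
  [(0, 31), (1, 60), (0, 0), (0, 0), (4, 31), (1, 60), (0, 0), (0, 0), (8, 48), (8, 48), (0, 0), (0, 0), (12, 48), (12, 48), (0, 0), (0, 0), (16, 31), (1, 60), (0, 0), (0, 0), (20, 31), (1, 60), (0, 0), (0, 0), (24, 48), (24, 48), (0, 0), (0, 0), (28, 48), (28, 48), (0, 0), (0, 0), (32, 31), (1, 60), (0, 0), (0, 0), (36, 31), (1, 60), (0, 0), (0, 0), (40, 48), (40, 48), (0, 0), (0, 0), (44, 48), (44, 48), (0, 0), (0, 0), (48, 31), (1, 60), (0, 0), (0, 0), (52, 31), (1, 60), (0, 0), (0, 0), (56, 48), (56, 48), (0, 0), (0, 0), (60, 48), (60, 48), (0, 0), (0, 0), (64, 26), (1, 4), (0, 0), (0, 0), (64, 26), (1, 4), (0, 0), (0, 0), (72, 47), (72,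 47), (0, 0), (0, 0), (72, 47), (72, 47), (0, 0), (0, 0), (80, 26), (1, 4), (0, 0), (0, 0), (80, 26), (1, 4), (0, 0), (0, 0), (88, 47), (88, 47), (0, 0), (0, 0), (88, 47), (88, 47), (0, 0), (0, 0), (96, 26), (1, 4), (0, 0), (0, 0), (96, 26), (1, 4), (0, 0), (0, 0), (104, 47), (104, 47), (0, 0), (0, 0), (104, 47), (104, 47), (0, 0), (0, 0), (112, 26), (1, 4), (0, 0), (0, 0), (112, 26), (1, 4), (0, 0), (0, 0), (120, 47), (120, 47), (0, 0), (0, 0), (120, 47), (120, 47), (0, 0), (0, 0)],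
  [(0, 32), (1, 53), (2, 48), (3, 60), (4, 50), (4, 50), (4, 18), (3, 60), (0, 0), (0, 0), (0, 0), (0, 0), (0, 0), (0, 0), (0, 0), (0, 0), (0, 0), (0, 0), (0, 0), (0, 0), (0, 0), (0, 0), (0, 0), (0, 0), (0, 0), (0, 0), (0, 0), (0, 0), (0, 0), (0, 0), (0, 0), (0, 0), (32, 32), (1, 62), (2, 16), (3, 60), (36, 45), (36, 45), (36, 45), (36, 45), (0, 0), (0, 0), (0, 0), (0, 0), (0, 0), (0, 0), (0, 0), (0, 0), (0, 0), (0, 0), (0, 0), (0, 0), (0, 0), (0, 0), (0, 0), (0, 0), (0, 0), (0, 0), (0, 0), (0, 0), (0, 0), (0, 0), (0, 0), (0, 0), (64, 63), (64, 63), (66, 47), (66, 47), (64, 33), (1, 56), (66, 47), (66, 47), (0, 0), (0, 0), (0, 0), (0, 0), (0, 0), (0, 0), (0, 0), (0, 0), (0, 0), (0, 0), (0, 0), (0, 0), (0, 0), (0, 0), (0, 0), (0, 0), (0, 0), (0, 0), (0, 0), (0, 0), (0, 0), (0, 0), (0, 0), (0, 0), (96, 17), (96, 17), (96, 17), (96,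 17), (96, 30), (96, 30), (96, 19), (3, 4), (0, 0), (0, 0), (0, 0), (0, 0), (0, 0), (0, 0), (0, 0), (0, 0), (0, 0), (0, 0), (0, 0), (0, 0), (0, 0), (0, 0), (0, 0), (0, 0), (0, 0), (0, 0), (0, 0), (0, 0), (0, 0), (0, 0), (0, 0), (0, 0)],
  [(0, 33), (1, 53), (2, 47), (3, 60), (4, 5), (1, 21), (2, 41), (3, 60), (0, 0), (0, 0), (0, 0), (0, 0), (0, 0), (0, 0), (0, 0), (0, 0), (16, 33), (1, 29), (2, 2), (3, 60), (20, 50), (20, 50), (20, 18), (3, 60), (0, 0), (0, 0), (0, 0), (0, 0), (0, 0), (0, 0), (0, 0), (0, 0), (32, 33), (1, 62), (2, 39), (3, 60), (36, 49), (36, 49), (36, 13), (3, 60), (0, 0), (0, 0), (0, 0), (0, 0), (0, 0), (0, 0), (0, 0), (0, 0), (48, 30), (48, 30), (48, 19), (3, 60), (52, 45), (52, 45), (52, 45), (52, 45), (0, 0), (0, 0), (0, 0), (0, 0), (0, 0), (0, 0), (0, 0), (0, 0), (0, 0), (0, 0), (0, 0), (0, 0), (0, 0), (0, 0),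 (0, 0), (0, 0), (0, 0), (0, 0), (0, 0), (0, 0), (0, 0), (0, 0), (0, 0), (0, 0), (0, 0), (0, 0), (0, 0), (0, 0), (0, 0), (0, 0), (0, 0), (0, 0), (0, 0), (0, 0), (0, 0), (0, 0), (0, 0), (0, 0), (0, 0), (0, 0), (0, 0), (0, 0), (0, 0), (0, 0), (0, 0), (0, 0), (0, 0), (0, 0), (0, 0), (0, 0), (0, 0), (0, 0), (0, 0), (0, 0), (0, 0), (0, 0), (0, 0), (0, 0), (0, 0), (0, 0), (0, 0), (0, 0), (0, 0), (0, 0), (0, 0), (0, 0), (0, 0), (0, 0), (0, 0), (0, 0), (0, 0), (0, 0)],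
  [(0, 34), (1, 53), (2, 47), (3, 60), (4, 5), (1, 21), (2, 41), (3, 60), (8, 33), (1, 40), (2, 26), (3, 60), (12, 13), (12, 49), (12, 13), (3, 60), (16, 59), (1, 29), (2, 2), (3, 60), (20, 11), (20, 65), (20, 11), (3, 60), (24, 19), (24, 30), (24, 19), (3, 60), (28, 45), (28, 45), (28, 45), (28, 45), (0, 0), (0, 0), (0, 0), (0, 0), (0, 0), (0, 0), (0, 0), (0, 0), (0, 0), (0, 0), (0, 0), (0, 0), (0, 0), (0, 0), (0, 0), (0, 0), (0, 0), (0, 0), (0, 0), (0, 0), (0, 0), (0, 0), (0, 0), (0, 0), (0, 0), (0, 0), (0, 0), (0, 0), (0, 0), (0, 0), (0, 0), (0, 0), (0, 0), (0, 0), (0, 0), (0, 0), (0, 0), (0, 0), (0, 0), (0, 0), (0, 0), (0, 0), (0, 0), (0, 0), (0, 0), (0, 0), (0, 0), (0, 0), (0, 0), (0, 0), (0, 0), (0, 0), (0, 0), (0, 0), (0, 0), (0, 0), (0, 0), (0, 0), (0, 0), (0, 0), (0, 0), (0, 0), (0, 0), (0, 0), (0, 0), (0, 0), (0, 0), (0,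 0), (0, 0), (0, 0), (0, 0), (0, 0), (0, 0), (0, 0), (0, 0), (0, 0), (0, 0), (0, 0), (0, 0), (0, 0), (0, 0), (0, 0), (0, 0), (0, 0), (0, 0), (0, 0), (0, 0), (0, 0), (0, 0), (0, 0), (0, 0), (0, 0), (0, 0), (0, 0), (0, 0), (0, 0)],
  [(0, 35), (1, 53), (2, 31), (3, 60), (4, 65), (4, 65), (4, 11), (3, 60), (8, 32), (1, 40), (2, 31), (3, 60), (12, 45), (12, 45), (12, 45), (12, 45), (0, 0), (0, 0), (0, 0), (0, 0), (0, 0), (0, 0), (0, 0), (0, 0), (0, 0), (0, 0), (0, 0), (0, 0), (0, 0), (0, 0), (0, 0), (0, 0), (0, 0), (0, 0), (0, 0), (0, 0), (0, 0), (0, 0), (0, 0), (0, 0), (0, 0), (0, 0), (0, 0), (0, 0), (0, 0), (0, 0), (0, 0), (0, 0), (0, 0), (0, 0), (0, 0), (0, 0), (0, 0), (0, 0), (0, 0), (0, 0), (0, 0), (0, 0), (0, 0), (0, 0), (0, 0), (0, 0), (0, 0), (0, 0), (64, 57), (64, 57), (66, 47), (66, 47), (64, 59), (1, 56), (66, 47), (66, 47),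 (72, 17), (72, 17), (72, 17), (72, 17), (72, 30), (72, 30), (72, 19), (3, 4), (0, 0), (0, 0), (0, 0), (0, 0), (0, 0), (0, 0), (0, 0), (0, 0), (0, 0), (0, 0), (0, 0), (0, 0), (0, 0), (0, 0), (0, 0), (0, 0), (0, 0), (0, 0), (0, 0), (0, 0), (0, 0), (0, 0), (0, 0), (0, 0), (0, 0), (0, 0), (0, 0), (0, 0), (0, 0), (0, 0), (0, 0), (0, 0), (0, 0), (0, 0), (0, 0), (0, 0), (0, 0), (0, 0), (0, 0), (0, 0), (0, 0), (0, 0), (0, 0), (0, 0), (0, 0), (0, 0), (0, 0), (0, 0)],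
  [(0, 36), (1, 60), (0, 0), (0, 0), (4, 36), (1, 60), (0, 0), (0, 0), (8, 3), (8, 3), (0, 0), (0, 0), (12, 3), (12, 3), (0, 0), (0, 0), (16, 31), (16, 31), (0, 0), (0, 0), (20, 31), (20, 31), (0, 0), (0, 0), (24, 48), (24, 48), (0, 0), (0, 0), (28, 48), (28, 48), (0, 0), (0, 0), (32, 36), (1, 60), (0, 0), (0, 0), (36, 36), (1, 60), (0, 0), (0, 0), (40, 3), (40, 3), (0, 0), (0, 0), (44, 3), (44, 3), (0, 0), (0, 0), (48, 31), (48, 31), (0, 0), (0, 0), (52, 31), (52, 31), (0, 0), (0, 0), (56, 48), (56, 48), (0, 0), (0, 0), (60, 48), (60, 48), (0, 0), (0, 0), (64, 36), (1, 4), (0, 0), (0, 0), (64, 1), (1, 4), (0, 0), (0, 0), (72, 2), (72, 2), (0, 0), (0, 0), (72, 2), (72, 2), (0, 0), (0, 0), (80, 26), (80, 26), (0, 0), (0, 0), (80, 26), (80, 26), (0, 0), (0, 0), (88, 47), (88, 47), (0, 0), (0, 0), (88, 47), (88, 47), (0, 0), (0, 0),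 (96, 1), (1, 4), (0, 0), (0, 0), (96, 1), (1, 4), (0, 0), (0, 0), (104, 2), (104, 2), (0, 0), (0, 0), (104, 2), (104, 2), (0, 0), (0, 0), (112, 26), (112, 26), (0, 0), (0, 0), (112, 26), (112, 26), (0, 0), (0, 0), (120, 47), (120, 47), (0, 0), (0, 0), (120, 47), (120, 47), (0, 0), (0, 0)],
  [(0, 37), (1, 60), (0, 0), (0, 0), (4, 2), (4, 2), (0, 0), (0, 0), (8, 37), (1, 60), (0, 0), (0, 0), (12, 2), (12, 2), (0, 0), (0, 0), (16, 41), (16, 41), (0, 0), (0, 0), (20, 47), (20, 47), (0, 0), (0, 0), (24, 41), (24, 41), (0, 0), (0, 0), (28, 47), (28, 47), (0, 0), (0, 0), (32, 37), (1, 60), (0, 0), (0, 0), (36, 2), (36, 2), (0, 0), (0, 0), (40, 37), (1, 60), (0, 0), (0, 0), (44, 2), (44, 2), (0, 0), (0, 0), (48, 41), (48, 41), (0, 0), (0, 0), (52, 47), (52, 47), (0, 0), (0, 0), (56, 41), (56, 41), (0, 0), (0, 0), (60, 47), (60, 47), (0,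 0), (0, 0), (0, 0), (0, 0), (0, 0), (0, 0), (0, 0), (0, 0), (0, 0), (0, 0), (0, 0), (0, 0), (0, 0), (0, 0), (0, 0), (0, 0), (0, 0), (0, 0), (0, 0), (0, 0), (0, 0), (0, 0), (0, 0), (0, 0), (0, 0), (0, 0), (0, 0), (0, 0), (0, 0), (0, 0), (0, 0), (0, 0), (0, 0), (0, 0), (0, 0), (0, 0), (0, 0), (0, 0), (0, 0), (0, 0), (0, 0), (0, 0), (0, 0), (0, 0), (0, 0), (0, 0), (0, 0), (0, 0), (0, 0), (0, 0), (0, 0), (0, 0), (0, 0), (0, 0), (0, 0), (0, 0), (0, 0), (0, 0), (0, 0), (0, 0), (0, 0), (0, 0), (0, 0), (0, 0), (0, 0), (0, 0)],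
  [(0, 38), (1, 53), (2, 47), (3, 60), (4, 11), (1, 53), (2, 47), (3, 60), (8, 17), (8, 17), (2, 26), (3, 60), (12, 45), (12, 45), (2, 26), (3, 60), (0, 0), (0, 0), (0, 0), (0, 0), (0, 0), (0, 0), (0, 0), (0, 0), (0, 0), (0, 0), (0, 0), (0, 0), (0, 0), (0, 0), (0, 0), (0, 0), (0, 0), (0, 0), (0, 0), (0, 0), (0, 0), (0, 0), (0, 0), (0, 0), (0, 0), (0, 0), (0, 0), (0, 0), (0, 0), (0, 0), (0, 0), (0, 0), (0, 0), (0, 0), (0, 0), (0, 0), (0, 0), (0, 0), (0, 0), (0, 0), (0, 0), (0, 0), (0, 0), (0, 0), (0, 0), (0, 0), (0, 0), (0, 0), (0, 0), (0, 0), (0, 0), (0, 0), (0, 0), (0, 0), (0, 0), (0, 0), (0, 0), (0, 0), (0, 0), (0, 0), (0, 0), (0, 0), (0, 0), (0, 0), (0, 0), (0, 0), (0, 0), (0, 0), (0, 0), (0, 0), (0, 0), (0, 0), (0, 0), (0, 0), (0, 0), (0, 0), (0, 0), (0, 0), (0, 0), (0, 0), (0, 0), (0, 0), (0, 0), (0, 0), (0, 0), (0, 0), (0,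 0), (0, 0), (0, 0), (0, 0), (0, 0), (0, 0), (0, 0), (0, 0), (0, 0), (0, 0), (0, 0), (0, 0), (0, 0), (0, 0), (0, 0), (0, 0), (0, 0), (0, 0), (0, 0), (0, 0), (0, 0), (0, 0), (0, 0), (0, 0), (0, 0), (0, 0)],
  [(0, 39), (1, 60), (0, 0), (0, 0), (4, 39), (1, 60), (0, 0), (0, 0), (8, 39), (1, 60), (0, 0), (0, 0), (12, 39), (1, 60), (0, 0), (0, 0), (16, 39), (1, 60), (0, 0), (0, 0), (20, 39), (1, 60), (0, 0), (0, 0), (24, 39), (1, 60), (0, 0), (0, 0), (28, 39), (1, 60), (0, 0), (0, 0), (32, 47), (32, 47), (0, 0), (0, 0), (36, 47), (36, 47), (0, 0), (0, 0), (40, 47), (40, 47), (0, 0), (0, 0), (44, 47), (44, 47), (0, 0), (0, 0), (48, 47), (48, 47), (0, 0), (0, 0), (52, 47), (52, 47), (0, 0), (0, 0), (56, 47), (56, 47), (0, 0), (0, 0), (60, 47), (60, 47), (0, 0), (0, 0), (0, 0), (0, 0), (0, 0), (0, 0), (0, 0), (0, 0), (0, 0), (0, 0), (0,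 0), (0, 0), (0, 0), (0, 0), (0, 0), (0, 0), (0, 0), (0, 0), (0, 0), (0, 0), (0, 0), (0, 0), (0, 0), (0, 0), (0, 0), (0, 0), (0, 0), (0, 0), (0, 0), (0, 0), (0, 0), (0, 0), (0, 0), (0, 0), (0, 0), (0, 0), (0, 0), (0, 0), (0, 0), (0, 0), (0, 0), (0, 0), (0, 0), (0, 0), (0, 0), (0, 0), (0, 0), (0, 0), (0, 0), (0, 0), (0, 0), (0, 0), (0, 0), (0, 0), (0, 0), (0, 0), (0, 0), (0, 0), (0, 0), (0, 0), (0, 0), (0, 0), (0, 0), (0, 0), (0, 0), (0, 0)],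
  [(0, 40), (0, 0), (2, 60), (0, 0), (4, 40), (0, 0), (2, 60), (0, 0), (8, 53), (0, 0), (8, 53), (0, 0), (12, 53), (0, 0), (12, 53), (0, 0), (16, 40), (0, 0), (2, 60), (0, 0), (20, 40), (0, 0), (2, 60), (0, 0), (24, 53), (0, 0), (24, 53), (0, 0), (28, 53), (0, 0), (28, 53), (0, 0), (32, 40), (0, 0), (2, 60), (0, 0), (36, 40), (0, 0), (2, 60), (0, 0), (40, 53), (0, 0), (40, 53), (0, 0), (44, 53), (0, 0), (44, 53), (0, 0), (48, 40), (0, 0), (2, 60), (0, 0), (52, 40), (0, 0), (2, 60), (0, 0), (56, 53), (0, 0), (56, 53), (0, 0), (60, 53), (0, 0), (60, 53), (0, 0), (64, 40), (0, 0), (66, 60), (0, 0), (4, 42), (0, 0), (66, 60), (0, 0), (72, 53), (0, 0), (72, 53), (0, 0), (72, 21), (0, 0), (12, 58), (0, 0), (80, 40), (0, 0), (66, 60), (0, 0), (20, 42), (0, 0), (66, 60), (0, 0), (88, 53), (0, 0), (88, 53), (0, 0), (88, 21), (0, 0), (28,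 58), (0, 0), (96, 40), (0, 0), (66, 60), (0, 0), (36, 42), (0, 0), (66, 60), (0, 0), (104, 53), (0, 0), (104, 53), (0, 0), (104, 21), (0, 0), (44, 58), (0, 0), (112, 40), (0, 0), (66, 60), (0, 0), (52, 42), (0, 0), (66, 60), (0, 0), (120, 53), (0, 0), (120, 53), (0, 0), (120, 21), (0, 0), (60, 58), (0, 0)],
  [(0, 41), (1, 60), (0, 0), (0, 0), (4, 41), (4, 47), (0, 0), (0, 0), (8, 41), (1, 60), (0, 0), (0, 0), (12, 47), (12, 47), (0, 0), (0, 0), (16, 41), (1, 60), (0, 0), (0, 0), (20, 47), (20, 47), (0, 0), (0, 0), (24, 41), (1, 60), (0, 0), (0, 0), (28, 47), (28, 47), (0, 0), (0, 0), (32, 41), (1, 60), (0, 0), (0, 0), (36, 47), (36, 47), (0, 0), (0, 0), (40, 41), (1, 60), (0, 0), (0, 0), (44, 47), (44, 47), (0, 0), (0, 0), (48, 41), (1, 60), (0, 0), (0, 0), (52, 47), (52, 47), (0, 0), (0, 0), (56, 41), (1, 60), (0, 0), (0, 0), (60,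 47), (60, 47), (0, 0), (0, 0), (0, 0), (0, 0), (0, 0), (0, 0), (0, 0), (0, 0), (0, 0), (0, 0), (0, 0), (0, 0), (0, 0), (0, 0), (0, 0), (0, 0), (0, 0), (0, 0), (0, 0), (0, 0), (0, 0), (0, 0), (0, 0), (0, 0), (0, 0), (0, 0), (0, 0), (0, 0), (0, 0), (0, 0), (0, 0), (0, 0), (0, 0), (0, 0), (0, 0), (0, 0), (0, 0), (0, 0), (0, 0), (0, 0), (0, 0), (0, 0), (0, 0), (0, 0), (0, 0), (0, 0), (0, 0), (0, 0), (0, 0), (0, 0), (0, 0), (0, 0), (0, 0), (0, 0), (0, 0), (0, 0), (0, 0), (0, 0), (0, 0), (0, 0), (0, 0), (0, 0), (0, 0), (0, 0), (0, 0), (0, 0)],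
  [(0, 42), (0, 0), (2, 4), (0, 0), (4, 42), (0, 0), (2, 4), (0, 0), (8, 58), (0, 0), (8, 58), (0, 0), (12, 58), (0, 0), (12, 58), (0, 0), (16, 42), (0, 0), (2, 4), (0, 0), (20, 42), (0, 0), (2, 4), (0, 0), (24, 58), (0, 0), (24, 58), (0, 0), (28, 58), (0, 0), (28, 58), (0, 0), (32, 42), (0, 0), (2, 4), (0, 0), (36, 42), (0, 0), (2, 4), (0, 0), (40, 58), (0, 0), (40, 58), (0, 0), (44, 58), (0, 0), (44, 58), (0, 0), (48, 42), (0, 0), (2, 4), (0, 0), (52, 42), (0, 0), (2, 4), (0, 0), (56, 58), (0, 0), (56, 58), (0, 0), (60, 58), (0, 0), (60, 58), (0, 0), (64, 40), (0, 0), (66, 60), (0, 0), (64, 40), (0, 0), (66, 60), (0, 0), (72, 53), (0, 0), (72, 53), (0, 0), (72, 53), (0, 0), (72, 53), (0, 0), (80, 40), (0, 0), (66, 60), (0, 0), (80, 40), (0, 0), (66, 60), (0, 0), (88, 53), (0, 0), (88, 53), (0, 0), (88, 53), (0, 0), (88, 53), (0,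 0), (96, 40), (0, 0), (66, 60), (0, 0), (96, 40), (0, 0), (66, 60), (0, 0), (104, 53), (0, 0), (104, 53), (0, 0), (104, 53), (0, 0), (104, 53), (0, 0), (112, 40), (0, 0), (66, 60), (0, 0), (112, 40), (0, 0), (66, 60), (0, 0), (120, 53), (0, 0), (120, 53), (0, 0), (120, 53), (0, 0), (120, 53), (0, 0)],
  [(0, 43), (0, 0), (2, 4), (0, 0), (4, 43), (0, 0), (2, 4), (0, 0), (8, 43), (0, 0), (2, 4), (0, 0), (12, 43), (0, 0), (2, 4), (0, 0), (16, 43), (0, 0), (2, 4), (0, 0), (20, 43), (0, 0), (2, 4), (0, 0), (24, 43), (0, 0), (2, 4), (0, 0), (28, 43), (0, 0), (2, 4), (0, 0), (32, 58), (0, 0), (32, 58), (0, 0), (36, 58), (0, 0), (36, 58), (0, 0), (40, 58), (0, 0), (40, 58), (0, 0), (44, 58), (0, 0), (44, 58), (0, 0), (48, 58), (0, 0), (48, 58), (0, 0), (52, 58), (0, 0), (52, 58), (0, 0), (56, 58), (0, 0), (56, 58), (0, 0), (60, 58), (0,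 0), (60, 58), (0, 0), (64, 62), (0, 0), (66, 60), (0, 0), (64, 62), (0, 0), (66, 60), (0, 0), (72, 62), (0, 0), (66, 60), (0, 0), (72, 62), (0, 0), (66, 60), (0, 0), (80, 62), (0, 0), (66, 60), (0, 0), (80, 62), (0, 0), (66, 60), (0, 0), (88, 62), (0, 0), (66, 60), (0, 0), (88, 62), (0, 0), (66, 60), (0, 0), (96, 53), (0, 0), (96, 53), (0, 0), (96, 53), (0, 0), (96, 53), (0, 0), (104, 53), (0, 0), (104, 53), (0, 0), (104, 53), (0, 0), (104, 53), (0, 0), (112, 53), (0, 0), (112, 53), (0, 0), (112, 53), (0, 0), (112, 53), (0, 0), (120, 53), (0, 0), (120, 53), (0, 0), (120, 53), (0, 0), (120, 53), (0, 0)],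
  [(0, 44), (1, 44), (2, 26), (3, 60), (4, 11), (4, 11), (2, 7), (3, 60), (8, 23), (8, 19), (2, 26), (3, 60), (12, 18), (12, 18), (2, 27), (3, 60), (0, 0), (0, 0), (0, 0), (0, 0), (0, 0), (0, 0), (0, 0), (0, 0), (0, 0), (0, 0), (0, 0), (0, 0), (0, 0), (0, 0), (0, 0), (0, 0), (0, 0), (0, 0), (0, 0), (0, 0), (0, 0), (0, 0), (0, 0), (0, 0), (0, 0), (0, 0), (0, 0), (0, 0), (0, 0), (0, 0), (0, 0), (0, 0), (0, 0), (0, 0), (0, 0), (0, 0), (0, 0), (0, 0), (0, 0), (0, 0), (0, 0), (0, 0), (0, 0), (0, 0), (0, 0), (0, 0), (0, 0), (0, 0), (0, 0), (0, 0), (0, 0), (0, 0), (0, 0), (0, 0), (0, 0), (0, 0), (0, 0), (0, 0), (0, 0), (0, 0), (0, 0), (0, 0), (0, 0), (0, 0), (0, 0), (0, 0), (0, 0), (0, 0), (0, 0), (0, 0), (0, 0), (0, 0), (0, 0), (0, 0), (0, 0), (0, 0), (0, 0), (0, 0), (0, 0), (0, 0), (0, 0), (0, 0), (0, 0), (0, 0), (0, 0), (0, 0), (0, 0),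 (0, 0), (0, 0), (0, 0), (0, 0), (0, 0), (0, 0), (0, 0), (0, 0), (0, 0), (0, 0), (0, 0), (0, 0), (0, 0), (0, 0), (0, 0), (0, 0), (0, 0), (0, 0), (0, 0), (0, 0), (0, 0), (0, 0), (0, 0), (0, 0), (0, 0)],
  [(0, 45), (1, 45), (2, 45), (3, 60), (0, 0), (0, 0), (0, 0), (0, 0), (0, 0), (0, 0), (0, 0), (0, 0), (0, 0), (0, 0), (0, 0), (0, 0), (0, 0), (0, 0), (0, 0), (0, 0), (0, 0), (0, 0), (0, 0), (0, 0), (0, 0), (0, 0), (0, 0), (0, 0), (0, 0), (0, 0), (0, 0), (0, 0), (0, 0), (0, 0), (0, 0), (0, 0), (0, 0), (0, 0), (0, 0), (0, 0), (0, 0), (0, 0), (0, 0), (0, 0), (0, 0), (0, 0), (0, 0), (0, 0), (0, 0), (0, 0), (0, 0), (0, 0), (0, 0), (0, 0), (0, 0), (0, 0), (0, 0), (0, 0), (0, 0), (0, 0), (0, 0), (0, 0), (0, 0), (0, 0), (64, 45), (1, 58), (66, 47), (3, 4), (0, 0), (0, 0), (0, 0), (0, 0), (0, 0), (0, 0), (0, 0), (0, 0), (0, 0), (0, 0), (0,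 0), (0, 0), (0, 0), (0, 0), (0, 0), (0, 0), (0, 0), (0, 0), (0, 0), (0, 0), (0, 0), (0, 0), (0, 0), (0, 0), (0, 0), (0, 0), (0, 0), (0, 0), (0, 0), (0, 0), (0, 0), (0, 0), (0, 0), (0, 0), (0, 0), (0, 0), (0, 0), (0, 0), (0, 0), (0, 0), (0, 0), (0, 0), (0, 0), (0, 0), (0, 0), (0, 0), (0, 0), (0, 0), (0, 0), (0, 0), (0, 0), (0, 0), (0, 0), (0, 0), (0, 0), (0, 0), (0, 0), (0, 0), (0, 0), (0, 0)],
  [(0, 46), (1, 53), (2, 47), (3, 60), (4, 49), (1, 53), (2, 47), (3, 60), (0, 0), (0, 0), (0, 0), (0, 0), (0, 0), (0, 0), (0, 0), (0, 0), (16, 17), (1, 29), (16, 17), (3, 60), (20, 45), (1, 29), (20, 45), (3, 60), (0, 0), (0, 0), (0, 0), (0, 0), (0, 0), (0, 0), (0, 0), (0, 0), (0, 0), (0, 0), (0, 0), (0, 0), (0, 0), (0, 0), (0, 0), (0, 0), (0, 0), (0, 0), (0, 0), (0, 0), (0, 0), (0, 0), (0, 0), (0, 0), (0, 0), (0, 0), (0, 0), (0, 0), (0, 0),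 (0, 0), (0, 0), (0, 0), (0, 0), (0, 0), (0, 0), (0, 0), (0, 0), (0, 0), (0, 0), (0, 0), (0, 0), (0, 0), (0, 0), (0, 0), (0, 0), (0, 0), (0, 0), (0, 0), (0, 0), (0, 0), (0, 0), (0, 0), (0, 0), (0, 0), (0, 0), (0, 0), (0, 0), (0, 0), (0, 0), (0, 0), (0, 0), (0, 0), (0, 0), (0, 0), (0, 0), (0, 0), (0, 0), (0, 0), (0, 0), (0, 0), (0, 0), (0, 0), (0, 0), (0, 0), (0, 0), (0, 0), (0, 0), (0, 0), (0, 0), (0, 0), (0, 0), (0, 0), (0, 0), (0, 0), (0, 0), (0, 0), (0, 0), (0, 0), (0, 0), (0, 0), (0, 0), (0, 0), (0, 0), (0, 0), (0, 0), (0, 0), (0, 0), (0, 0), (0, 0), (0, 0), (0, 0), (0, 0), (0, 0), (0, 0)],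
  [(0, 47), (1, 60), (0, 0), (0, 0), (4, 47), (1, 60), (0, 0), (0, 0), (8, 47), (1, 60), (0, 0), (0, 0), (12, 47), (1, 60), (0, 0), (0, 0), (16, 47), (1, 60), (0, 0), (0, 0), (20, 47), (1, 60), (0, 0), (0, 0), (24, 47), (1, 60), (0, 0), (0, 0), (28, 47), (1, 60), (0, 0), (0, 0), (32, 47), (1, 60), (0, 0), (0, 0), (36, 47), (1, 60), (0, 0), (0, 0), (40, 47), (1, 60), (0, 0), (0, 0), (44, 47), (1, 60), (0, 0), (0, 0), (48, 47), (1, 60), (0, 0), (0, 0), (52, 47), (1, 60), (0, 0), (0, 0), (56, 47), (1, 60), (0, 0), (0, 0), (60, 47), (1, 60), (0, 0), (0, 0), (0, 0), (0, 0), (0, 0), (0, 0), (0, 0), (0, 0), (0, 0), (0, 0), (0, 0), (0, 0), (0, 0), (0, 0), (0, 0), (0, 0), (0, 0), (0, 0), (0, 0), (0, 0), (0, 0), (0, 0), (0, 0), (0, 0), (0, 0), (0, 0), (0, 0), (0, 0), (0, 0), (0, 0), (0, 0), (0, 0), (0, 0), (0, 0), (0, 0), (0, 0), (0, 0), (0,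 0), (0, 0), (0, 0), (0, 0), (0, 0), (0, 0), (0, 0), (0, 0), (0, 0), (0, 0), (0, 0), (0, 0), (0, 0), (0, 0), (0, 0), (0, 0), (0, 0), (0, 0), (0, 0), (0, 0), (0, 0), (0, 0), (0, 0), (0, 0), (0, 0), (0, 0), (0, 0), (0, 0), (0, 0)],
  [(0, 48), (1, 60), (0, 0), (0, 0), (4, 48), (1, 60), (0, 0), (0, 0), (8, 48), (1, 60), (0, 0), (0, 0), (12, 48), (1, 60), (0, 0), (0, 0), (16, 48), (1, 60), (0, 0), (0, 0), (20, 48), (1, 60), (0, 0), (0, 0), (24, 48), (1, 60), (0, 0), (0, 0), (28, 48), (1, 60), (0, 0), (0, 0), (32, 48), (1, 60), (0, 0), (0, 0), (36, 48), (1, 60), (0, 0), (0, 0), (40, 48), (1, 60), (0, 0), (0, 0), (44, 48), (1, 60), (0, 0), (0, 0), (48, 48), (1, 60), (0, 0), (0, 0), (52, 48), (1, 60), (0, 0), (0, 0), (56, 48), (1, 60), (0, 0), (0, 0), (60, 48), (1, 60), (0, 0), (0, 0), (64, 47), (1, 4), (0, 0), (0, 0), (64, 47), (1, 4),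 (0, 0), (0, 0), (72, 47), (1, 4), (0, 0), (0, 0), (72, 47), (1, 4), (0, 0), (0, 0), (80, 47), (1, 4), (0, 0), (0, 0), (80, 47), (1, 4), (0, 0), (0, 0), (88, 47), (1, 4), (0, 0), (0, 0), (88, 47), (1, 4), (0, 0), (0, 0), (96, 47), (1, 4), (0, 0), (0, 0), (96, 47), (1, 4), (0, 0), (0, 0), (104, 47), (1, 4), (0, 0), (0, 0), (104, 47), (1, 4), (0, 0), (0, 0), (112, 47), (1, 4), (0, 0), (0, 0), (112, 47), (1, 4), (0, 0), (0, 0), (120, 47), (1, 4), (0, 0), (0, 0), (120, 47), (1, 4), (0, 0), (0, 0)],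
  [(0, 49), (1, 53), (2, 49), (3, 60), (0, 0), (0, 0), (0, 0), (0, 0), (0, 0), (0, 0), (0, 0), (0, 0), (0, 0), (0, 0), (0, 0), (0, 0), (16, 45), (1, 29), (16, 45), (3, 60), (0, 0), (0, 0), (0, 0), (0, 0), (0, 0), (0, 0), (0, 0), (0, 0), (0, 0), (0, 0), (0, 0), (0, 0), (0, 0), (0, 0), (0, 0), (0, 0), (0, 0), (0, 0), (0, 0), (0, 0), (0, 0), (0, 0), (0, 0), (0, 0), (0, 0), (0, 0), (0, 0), (0, 0), (0, 0), (0, 0), (0, 0), (0, 0), (0, 0), (0, 0), (0, 0), (0, 0), (0, 0), (0, 0), (0, 0), (0, 0), (0, 0), (0, 0), (0, 0), (0, 0), (64, 49), (1, 58), (66, 47), (3, 4), (0, 0), (0, 0), (0, 0), (0, 0), (0, 0), (0, 0), (0, 0), (0, 0), (0, 0), (0, 0), (0, 0), (0, 0), (80, 45), (1, 51), (80, 45), (3, 4), (0, 0), (0, 0), (0, 0), (0, 0), (0, 0), (0, 0), (0, 0), (0, 0), (0, 0), (0, 0), (0, 0), (0, 0), (0, 0), (0, 0), (0, 0), (0, 0), (0, 0), (0, 0), (0,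 0), (0, 0), (0, 0), (0, 0), (0, 0), (0, 0), (0, 0), (0, 0), (0, 0), (0, 0), (0, 0), (0, 0), (0, 0), (0, 0), (0, 0), (0, 0), (0, 0), (0, 0), (0, 0), (0, 0), (0, 0), (0, 0), (0, 0), (0, 0), (0, 0), (0, 0)],
  [(0, 50), (1, 53), (2, 50), (3, 60), (0, 0), (0, 0), (0, 0), (0, 0), (0, 0), (0, 0), (0, 0), (0, 0), (0, 0), (0, 0), (0, 0), (0, 0), (0, 0), (0, 0), (0, 0), (0, 0), (0, 0), (0, 0), (0, 0), (0, 0), (0, 0), (0, 0), (0, 0), (0, 0), (0, 0), (0, 0), (0, 0), (0, 0), (32, 45), (1, 62), (32, 45), (3, 60), (0, 0), (0, 0), (0, 0), (0, 0), (0, 0), (0, 0), (0, 0), (0, 0), (0, 0), (0, 0), (0, 0), (0, 0), (0, 0), (0, 0), (0, 0), (0, 0), (0, 0), (0, 0), (0, 0), (0, 0), (0, 0), (0, 0), (0, 0), (0, 0), (0, 0), (0, 0), (0, 0), (0, 0), (64, 50), (1, 58), (66, 47), (3, 4), (0, 0), (0, 0), (0, 0), (0, 0), (0, 0), (0, 0), (0, 0), (0, 0), (0, 0), (0,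 0), (0, 0), (0, 0), (0, 0), (0, 0), (0, 0), (0, 0), (0, 0), (0, 0), (0, 0), (0, 0), (0, 0), (0, 0), (0, 0), (0, 0), (0, 0), (0, 0), (0, 0), (0, 0), (96, 45), (1, 43), (96, 45), (3, 4), (0, 0), (0, 0), (0, 0), (0, 0), (0, 0), (0, 0), (0, 0), (0, 0), (0, 0), (0, 0), (0, 0), (0, 0), (0, 0), (0, 0), (0, 0), (0, 0), (0, 0), (0, 0), (0, 0), (0, 0), (0, 0), (0, 0), (0, 0), (0, 0), (0, 0), (0, 0), (0, 0), (0, 0)],
  [(0, 51), (0, 0), (2, 4), (0, 0), (4, 51), (0, 0), (2, 4), (0, 0), (8, 51), (0, 0), (2, 4), (0, 0), (12, 51), (0, 0), (2, 4), (0, 0), (16, 58), (0, 0), (16, 58), (0, 0), (20, 58), (0, 0), (20, 58), (0, 0), (24, 58), (0, 0), (24, 58), (0, 0), (28, 58), (0, 0), (28, 58), (0, 0), (32, 51), (0, 0), (2, 4), (0, 0), (36, 51), (0, 0), (2, 4), (0, 0), (40, 51), (0, 0), (2, 4), (0, 0), (44, 51), (0, 0), (2, 4), (0, 0), (48, 58), (0, 0),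 (48, 58), (0, 0), (52, 58), (0, 0), (52, 58), (0, 0), (56, 58), (0, 0), (56, 58), (0, 0), (60, 58), (0, 0), (60, 58), (0, 0), (64, 29), (0, 0), (66, 60), (0, 0), (64, 29), (0, 0), (66, 60), (0, 0), (72, 29), (0, 0), (66, 60), (0, 0), (72, 29), (0, 0), (66, 60), (0, 0), (80, 53), (0, 0), (80, 53), (0, 0), (80, 53), (0, 0), (80, 53), (0, 0), (88, 53), (0, 0), (88, 53), (0, 0), (88, 53), (0, 0), (88, 53), (0, 0), (96, 29), (0, 0), (66, 60), (0, 0), (96, 29), (0, 0), (66, 60), (0, 0), (104, 29), (0, 0), (66, 60), (0, 0), (104, 29), (0, 0), (66, 60), (0, 0), (112, 53), (0, 0), (112, 53), (0, 0), (112, 53), (0, 0), (112, 53), (0, 0), (120, 53), (0, 0), (120, 53), (0, 0), (120, 53), (0, 0), (120, 53), (0, 0)],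
  [(0, 52), (1, 60), (0, 0), (0, 0), (4, 52), (1, 60), (0, 0), (0, 0), (8, 52), (1, 60), (0, 0), (0, 0), (12, 52), (1, 60), (0, 0), (0, 0), (16, 16), (16, 16), (0, 0), (0, 0), (20, 16), (20, 16), (0, 0), (0, 0), (24, 16), (24, 16), (0, 0), (0, 0), (28, 16), (28, 16), (0, 0), (0, 0), (32, 3), (32, 3), (0, 0), (0, 0), (36, 3), (36, 3), (0, 0), (0, 0), (40, 3), (40, 3), (0, 0), (0, 0), (44, 3), (44, 3), (0, 0), (0, 0), (48, 31), (48, 31), (0, 0), (0, 0), (52, 65), (52, 65), (0, 0), (0, 0), (56, 31), (56, 31), (0, 0), (0, 0), (60, 45), (60, 45), (0, 0), (0, 0), (64, 52), (1, 4), (0, 0), (0, 0), (64, 61), (1, 4), (0, 0), (0, 0), (72, 61), (1, 4), (0, 0), (0, 0), (72, 61), (1, 4), (0, 0), (0, 0), (80, 39), (80, 39), (0, 0), (0, 0), (80, 39), (80, 39), (0, 0), (0, 0), (88, 39), (88, 39), (0, 0), (0, 0), (88, 39), (88, 39), (0, 0), (0, 0),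 (96, 2), (96, 2), (0, 0), (0, 0), (96, 2), (96, 2), (0, 0), (0, 0), (104, 2), (104, 2), (0, 0), (0, 0), (104, 2), (104, 2), (0, 0), (0, 0), (112, 47), (112, 47), (0, 0), (0, 0), (112, 47), (112, 47), (0, 0), (0, 0), (120, 47), (120, 47), (0, 0), (0, 0), (120, 47), (120, 47), (0, 0), (0, 0)],
  [(0, 53), (0, 0), (2, 60), (0, 0), (4, 53), (0, 0), (2, 60), (0, 0), (8, 53), (0, 0), (2, 60), (0, 0), (12, 53), (0, 0), (2, 60), (0, 0), (16, 53), (0, 0), (2, 60), (0, 0), (20, 53), (0, 0), (2, 60), (0, 0), (24, 53), (0, 0), (2, 60), (0, 0), (28, 53), (0, 0), (2, 60), (0, 0), (32, 53), (0, 0), (2, 60), (0, 0), (36, 53), (0, 0), (2, 60), (0, 0), (40, 53), (0, 0), (2, 60), (0, 0), (44, 53), (0, 0), (2, 60), (0, 0), (48, 53), (0, 0), (2, 60), (0, 0), (52, 53), (0, 0), (2, 60), (0, 0), (56, 53), (0, 0), (2, 60), (0, 0), (60, 53), (0, 0), (2, 60),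 (0, 0), (64, 53), (0, 0), (66, 60), (0, 0), (4, 58), (0, 0), (66, 60), (0, 0), (72, 53), (0, 0), (66, 60), (0, 0), (12, 58), (0, 0), (66, 60), (0, 0), (80, 53), (0, 0), (66, 60), (0, 0), (20, 58), (0, 0), (66, 60), (0, 0), (88, 53), (0, 0), (66, 60), (0, 0), (28, 58), (0, 0), (66, 60), (0, 0), (96, 53), (0, 0), (66, 60), (0, 0), (36, 58), (0, 0), (66, 60), (0, 0), (104, 53), (0, 0), (66, 60), (0, 0), (44, 58), (0, 0), (66, 60), (0, 0), (112, 53), (0, 0), (66, 60), (0, 0), (52, 58), (0, 0), (66, 60), (0, 0), (120, 53), (0, 0), (66, 60), (0, 0), (60, 58), (0, 0), (66, 60), (0, 0)],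
  [(0, 54), (1, 53), (2, 31), (3, 60), (0, 0), (0, 0), (0, 0), (0, 0), (8, 13), (8, 13), (2, 31), (3, 60), (0, 0), (0, 0), (0, 0), (0, 0), (16, 11), (16, 11), (2, 3), (3, 60), (0, 0), (0, 0), (0, 0), (0, 0), (24, 45), (24, 45), (2, 36), (3, 60), (0, 0), (0, 0), (0, 0), (0, 0), (0, 0), (0, 0), (0, 0), (0, 0), (0, 0), (0, 0), (0, 0), (0, 0), (0, 0), (0, 0), (0, 0), (0, 0), (0, 0), (0, 0), (0, 0), (0, 0), (0, 0), (0, 0), (0, 0), (0, 0), (0, 0), (0, 0), (0, 0), (0, 0), (0, 0), (0, 0), (0, 0), (0, 0), (0, 0), (0, 0), (0, 0), (0, 0), (64, 54), (1, 58), (66, 47), (66, 47), (0, 0), (0, 0), (0, 0), (0, 0), (72, 13), (72, 13), (66, 26), (66, 26), (0, 0), (0, 0), (0, 0), (0, 0), (80, 11), (80, 11), (66, 2), (66, 2), (0, 0), (0, 0), (0, 0), (0, 0), (88, 45), (88, 45), (66, 36), (3, 4), (0, 0), (0, 0), (0, 0), (0, 0), (0, 0), (0, 0), (0, 0),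 (0, 0), (0, 0), (0, 0), (0, 0), (0, 0), (0, 0), (0, 0), (0, 0), (0, 0), (0, 0), (0, 0), (0, 0), (0, 0), (0, 0), (0, 0), (0, 0), (0, 0), (0, 0), (0, 0), (0, 0), (0, 0), (0, 0), (0, 0), (0, 0), (0, 0), (0, 0), (0, 0), (0, 0), (0, 0)],
  [(0, 55), (1, 4), (0, 0), (0, 0), (4, 55), (1, 4), (0, 0), (0, 0), (8, 55), (1, 4), (0, 0), (0, 0), (12, 55), (1, 4), (0, 0), (0, 0), (16, 55), (1, 4), (0, 0), (0, 0), (20, 55), (1, 4), (0, 0), (0, 0), (24, 55), (1, 4), (0, 0), (0, 0), (28, 55), (1, 4), (0, 0), (0, 0), (32, 55), (1, 4), (0, 0), (0, 0), (36, 55), (1, 4), (0, 0), (0, 0), (40, 55), (1, 4), (0, 0), (0, 0), (44, 55), (1, 4), (0, 0), (0, 0), (48, 55), (1, 4), (0, 0), (0, 0), (52, 55), (1, 4), (0, 0), (0, 0), (56, 55), (1, 4), (0, 0), (0, 0), (60, 55), (1, 4), (0, 0), (0, 0), (64, 47), (64, 47), (0, 0), (0, 0), (64, 47), (64, 47), (0, 0),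 (0, 0), (72, 47), (72, 47), (0, 0), (0, 0), (72, 47), (72, 47), (0, 0), (0, 0), (80, 47), (80, 47), (0, 0), (0, 0), (80, 47), (80, 47), (0, 0), (0, 0), (88, 47), (88, 47), (0, 0), (0, 0), (88, 47), (88, 47), (0, 0), (0, 0), (96, 47), (96, 47), (0, 0), (0, 0), (96, 47), (96, 47), (0, 0), (0, 0), (104, 47), (104, 47), (0, 0), (0, 0), (104, 47), (104, 47), (0, 0), (0, 0), (112, 47), (112, 47), (0, 0), (0, 0), (112, 47), (112, 47), (0, 0), (0, 0), (120, 47), (120, 47), (0, 0), (0, 0), (120, 47), (120, 47), (0, 0), (0, 0)],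
  [(0, 56), (0, 0), (2, 4), (0, 0), (4, 58), (0, 0), (4, 58), (0, 0), (8, 56), (0, 0), (2, 4), (0, 0), (12, 58), (0, 0), (12, 58), (0, 0), (16, 56), (0, 0), (2, 4), (0, 0), (20, 58), (0, 0), (20, 58), (0, 0), (24, 56), (0, 0), (2, 4), (0, 0), (28, 58), (0, 0), (28, 58), (0, 0), (32, 56), (0, 0), (2, 4), (0, 0), (36, 58), (0, 0), (36, 58), (0, 0), (40, 56), (0, 0), (2, 4), (0, 0), (44, 58), (0, 0), (44, 58), (0, 0), (48, 56), (0, 0), (2, 4), (0, 0), (52, 58), (0, 0), (52, 58), (0, 0), (56, 56), (0, 0), (2, 4), (0, 0), (60, 58), (0, 0), (60, 58), (0, 0), (64, 53), (0, 0), (66, 60), (0, 0), (64, 21), (0, 0), (66, 60), (0, 0), (72, 53), (0, 0), (72, 53), (0, 0), (72, 21), (0, 0), (66, 60), (0, 0), (80, 53), (0, 0), (80, 53), (0, 0), (80, 21), (0, 0), (66, 60), (0, 0), (88, 53), (0, 0), (88, 53), (0, 0), (88, 21), (0, 0), (66, 60), (0,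 0), (96, 53), (0, 0), (96, 53), (0, 0), (96, 21), (0, 0), (66, 60), (0, 0), (104, 53), (0, 0), (104, 53), (0, 0), (104, 21), (0, 0), (66, 60), (0, 0), (112, 53), (0, 0), (112, 53), (0, 0), (112, 21), (0, 0), (66, 60), (0, 0), (120, 53), (0, 0), (120, 53), (0, 0), (120, 21), (0, 0), (66, 60), (0, 0)],
  [(0, 57), (1, 53), (2, 47), (3, 60), (4, 65), (1, 53), (2, 47), (3, 60), (8, 17), (1, 40), (8, 17), (3, 60), (12, 45), (1, 40), (12, 45), (3, 60), (0, 0), (0, 0), (0, 0), (0, 0), (0, 0), (0, 0), (0, 0), (0, 0), (0, 0), (0, 0), (0, 0), (0, 0), (0, 0), (0, 0), (0, 0), (0, 0), (0, 0), (0, 0), (0, 0), (0, 0), (0, 0), (0, 0), (0, 0), (0, 0), (0, 0), (0, 0), (0, 0), (0, 0), (0, 0), (0, 0), (0, 0), (0, 0), (0, 0), (0, 0), (0, 0), (0, 0), (0, 0), (0, 0), (0, 0), (0, 0), (0, 0), (0, 0), (0, 0), (0, 0), (0, 0), (0, 0), (0, 0), (0, 0), (0, 0),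 (0, 0), (0, 0), (0, 0), (0, 0), (0, 0), (0, 0), (0, 0), (0, 0), (0, 0), (0, 0), (0, 0), (0, 0), (0, 0), (0, 0), (0, 0), (0, 0), (0, 0), (0, 0), (0, 0), (0, 0), (0, 0), (0, 0), (0, 0), (0, 0), (0, 0), (0, 0), (0, 0), (0, 0), (0, 0), (0, 0), (0, 0), (0, 0), (0, 0), (0, 0), (0, 0), (0, 0), (0, 0), (0, 0), (0, 0), (0, 0), (0, 0), (0, 0), (0, 0), (0, 0), (0, 0), (0, 0), (0, 0), (0, 0), (0, 0), (0, 0), (0, 0), (0, 0), (0, 0), (0, 0), (0, 0), (0, 0), (0, 0), (0, 0), (0, 0), (0, 0), (0, 0), (0, 0), (0, 0)],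
  [(0, 58), (0, 0), (2, 4), (0, 0), (4, 58), (0, 0), (2, 4), (0, 0), (8, 58), (0, 0), (2, 4), (0, 0), (12, 58), (0, 0), (2, 4), (0, 0), (16, 58), (0, 0), (2, 4), (0, 0), (20, 58), (0, 0), (2, 4), (0, 0), (24, 58), (0, 0), (2, 4), (0, 0), (28, 58), (0, 0), (2, 4), (0, 0), (32, 58), (0, 0), (2, 4), (0, 0), (36, 58), (0, 0), (2, 4), (0, 0), (40, 58), (0, 0), (2, 4), (0, 0), (44, 58), (0, 0), (2, 4), (0, 0), (48, 58), (0, 0), (2, 4), (0, 0), (52, 58), (0, 0), (2, 4), (0, 0), (56, 58), (0, 0), (2, 4), (0, 0), (60, 58), (0, 0), (2, 4), (0, 0), (64, 58), (0, 0), (66, 60), (0, 0), (64, 53), (0, 0), (66, 60), (0, 0), (72, 53), (0, 0), (66, 60), (0, 0), (72, 53), (0, 0), (66, 60), (0, 0), (80, 53), (0, 0), (66, 60), (0, 0), (80, 53), (0, 0), (66, 60), (0, 0), (88, 53), (0, 0), (66, 60), (0, 0), (88, 53), (0, 0), (66, 60), (0, 0), (96, 53),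 (0, 0), (66, 60), (0, 0), (96, 53), (0, 0), (66, 60), (0, 0), (104, 53), (0, 0), (66, 60), (0, 0), (104, 53), (0, 0), (66, 60), (0, 0), (112, 53), (0, 0), (66, 60), (0, 0), (112, 53), (0, 0), (66, 60), (0, 0), (120, 53), (0, 0), (66, 60), (0, 0), (120, 53), (0, 0), (66, 60), (0, 0)],
  [(0, 59), (1, 53), (2, 47), (3, 60), (4, 5), (1, 21), (2, 41), (3, 60), (8, 33), (1, 40), (2, 26), (3, 60), (12, 18), (12, 50), (12, 18), (3, 60), (0, 0), (0, 0), (0, 0), (0, 0), (0, 0), (0, 0), (0, 0), (0, 0), (0, 0), (0, 0), (0, 0), (0, 0), (0, 0), (0, 0), (0, 0), (0, 0), (32, 59), (1, 62), (2, 39), (3, 60), (36, 65), (36, 65), (36, 11), (3, 60), (40, 30), (40, 30), (40, 19), (3, 60), (44, 45), (44, 45), (44, 45), (44, 45), (0, 0), (0, 0), (0, 0), (0, 0), (0, 0), (0, 0), (0, 0), (0, 0), (0, 0), (0, 0), (0, 0), (0, 0), (0, 0), (0, 0), (0, 0), (0,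 0), (0, 0), (0, 0), (0, 0), (0, 0), (0, 0), (0, 0), (0, 0), (0, 0), (0, 0), (0, 0), (0, 0), (0, 0), (0, 0), (0, 0), (0, 0), (0, 0), (0, 0), (0, 0), (0, 0), (0, 0), (0, 0), (0, 0), (0, 0), (0, 0), (0, 0), (0, 0), (0, 0), (0, 0), (0, 0), (0, 0), (0, 0), (0, 0), (0, 0), (0, 0), (0, 0), (0, 0), (0, 0), (0, 0), (0, 0), (0, 0), (0, 0), (0, 0), (0, 0), (0, 0), (0, 0), (0, 0), (0, 0), (0, 0), (0, 0), (0, 0), (0, 0), (0, 0), (0, 0), (0, 0), (0, 0), (0, 0), (0, 0), (0, 0), (0, 0), (0, 0), (0, 0), (0, 0), (0, 0), (0, 0)],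
  [(0, 60), (0, 0), (0, 0), (0, 0), (4, 60), (0, 0), (0, 0), (0, 0), (8, 60), (0, 0), (0, 0), (0, 0), (12, 60), (0, 0), (0, 0), (0, 0), (16, 60), (0, 0), (0, 0), (0, 0), (20, 60), (0, 0), (0, 0), (0, 0), (24, 60), (0, 0), (0, 0), (0, 0), (28, 60), (0, 0), (0, 0), (0, 0), (32, 60), (0, 0), (0, 0), (0, 0), (36, 60), (0, 0), (0, 0), (0, 0), (40, 60), (0, 0), (0, 0), (0, 0), (44, 60), (0, 0), (0, 0), (0, 0), (48, 60), (0, 0), (0, 0), (0, 0), (52, 60), (0, 0), (0, 0), (0, 0), (56, 60), (0, 0), (0, 0), (0, 0), (60, 60), (0, 0), (0, 0), (0, 0), (64, 60), (0, 0), (0, 0), (0, 0), (4, 4), (0, 0), (0, 0), (0, 0), (72, 60), (0, 0), (0, 0), (0, 0), (12, 4), (0, 0), (0, 0), (0, 0), (80, 60), (0, 0), (0, 0), (0, 0), (20, 4), (0, 0), (0, 0), (0, 0), (88, 60), (0, 0), (0, 0), (0, 0), (28, 4), (0, 0), (0, 0), (0, 0), (96, 60), (0, 0), (0, 0), (0,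 0), (36, 4), (0, 0), (0, 0), (0, 0), (104, 60), (0, 0), (0, 0), (0, 0), (44, 4), (0, 0), (0, 0), (0, 0), (112, 60), (0, 0), (0, 0), (0, 0), (52, 4), (0, 0), (0, 0), (0, 0), (120, 60), (0, 0), (0, 0), (0, 0), (60, 4), (0, 0), (0, 0), (0, 0)],
  [(0, 61), (1, 60), (0, 0), (0, 0), (4, 61), (1, 60), (0, 0), (0, 0), (8, 61), (1, 60), (0, 0), (0, 0), (12, 61), (1, 60), (0, 0), (0, 0), (16, 39), (16, 39), (0, 0), (0, 0), (20, 39), (20, 39), (0, 0), (0, 0), (24, 39), (24, 39), (0, 0), (0, 0), (28, 39), (28, 39), (0, 0), (0, 0), (32, 2), (32, 2), (0, 0), (0, 0), (36, 2), (36, 2), (0, 0), (0, 0), (40, 2), (40, 2), (0, 0), (0, 0), (44, 2), (44, 2), (0, 0), (0, 0), (48, 47), (48, 47), (0, 0), (0, 0), (52, 47), (52, 47), (0, 0), (0, 0), (56, 47), (56, 47), (0, 0), (0, 0), (60, 47), (60, 47), (0, 0), (0, 0), (0, 0), (0, 0), (0, 0), (0, 0), (0,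 0), (0, 0), (0, 0), (0, 0), (0, 0), (0, 0), (0, 0), (0, 0), (0, 0), (0, 0), (0, 0), (0, 0), (0, 0), (0, 0), (0, 0), (0, 0), (0, 0), (0, 0), (0, 0), (0, 0), (0, 0), (0, 0), (0, 0), (0, 0), (0, 0), (0, 0), (0, 0), (0, 0), (0, 0), (0, 0), (0, 0), (0, 0), (0, 0), (0, 0), (0, 0), (0, 0), (0, 0), (0, 0), (0, 0), (0, 0), (0, 0), (0, 0), (0, 0), (0, 0), (0, 0), (0, 0), (0, 0), (0, 0), (0, 0), (0, 0), (0, 0), (0, 0), (0, 0), (0, 0), (0, 0), (0, 0), (0, 0), (0, 0), (0, 0), (0, 0)],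
  [(0, 62), (0, 0), (2, 60), (0, 0), (4, 62), (0, 0), (2, 60), (0, 0), (8, 62), (0, 0), (2, 60), (0, 0), (12, 62), (0, 0), (2, 60), (0, 0), (16, 62), (0, 0), (2, 60), (0, 0), (20, 62), (0, 0), (2, 60), (0, 0), (24, 62), (0, 0), (2, 60), (0, 0), (28, 62), (0, 0), (2, 60), (0, 0), (32, 53), (0, 0), (32, 53), (0, 0), (36, 53), (0, 0), (36, 53), (0, 0), (40, 53), (0, 0), (40, 53), (0, 0), (44, 53), (0, 0), (44, 53), (0, 0), (48, 53), (0, 0), (48, 53), (0, 0), (52, 53), (0, 0), (52, 53), (0, 0), (56, 53), (0, 0), (56, 53), (0, 0), (60, 53), (0, 0), (60, 53), (0, 0), (64, 62), (0, 0), (66, 60), (0, 0), (4, 43), (0, 0), (66, 60), (0, 0), (72, 62), (0, 0), (66, 60), (0, 0), (12, 43), (0, 0), (66, 60), (0, 0), (80, 62), (0, 0), (66, 60), (0, 0), (20, 43), (0, 0), (66, 60), (0, 0), (88, 62), (0, 0), (66, 60), (0, 0), (28, 43), (0, 0), (66,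 60), (0, 0), (96, 53), (0, 0), (96, 53), (0, 0), (96, 21), (0, 0), (36, 58), (0, 0), (104, 53), (0, 0), (104, 53), (0, 0), (104, 21), (0, 0), (44, 58), (0, 0), (112, 53), (0, 0), (112, 53), (0, 0), (112, 21), (0, 0), (52, 58), (0, 0), (120, 53), (0, 0), (120, 53), (0, 0), (120, 21), (0, 0), (60, 58), (0, 0)],
  [(0, 63), (1, 53), (2, 47), (3, 60), (4, 50), (1, 53), (2, 47), (3, 60), (0, 0), (0, 0), (0, 0), (0, 0), (0, 0), (0, 0), (0, 0), (0, 0), (0, 0), (0, 0), (0, 0), (0, 0), (0, 0), (0, 0), (0, 0), (0, 0), (0, 0), (0, 0), (0, 0), (0, 0), (0, 0), (0, 0), (0, 0), (0, 0), (32, 17), (1, 62), (32, 17), (3, 60), (36, 45), (1, 62), (36, 45), (3, 60), (0, 0), (0, 0), (0, 0), (0, 0), (0, 0), (0, 0), (0, 0), (0, 0), (0, 0), (0, 0), (0, 0), (0, 0), (0, 0), (0, 0), (0, 0), (0, 0), (0, 0), (0, 0), (0, 0), (0, 0), (0, 0), (0, 0), (0, 0), (0,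 0), (0, 0), (0, 0), (0, 0), (0, 0), (0, 0), (0, 0), (0, 0), (0, 0), (0, 0), (0, 0), (0, 0), (0, 0), (0, 0), (0, 0), (0, 0), (0, 0), (0, 0), (0, 0), (0, 0), (0, 0), (0, 0), (0, 0), (0, 0), (0, 0), (0, 0), (0, 0), (0, 0), (0, 0), (0, 0), (0, 0), (0, 0), (0, 0), (0, 0), (0, 0), (0, 0), (0, 0), (0, 0), (0, 0), (0, 0), (0, 0), (0, 0), (0, 0), (0, 0), (0, 0), (0, 0), (0, 0), (0, 0), (0, 0), (0, 0), (0, 0), (0, 0), (0, 0), (0, 0), (0, 0), (0, 0), (0, 0), (0, 0), (0, 0), (0, 0), (0, 0), (0, 0), (0, 0), (0, 0), (0, 0)],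
  [(0, 64), (1, 60), (0, 0), (0, 0), (4, 64), (1, 60), (0, 0), (0, 0), (8, 16), (8, 16), (0, 0), (0, 0), (12, 16), (12, 16), (0, 0), (0, 0), (16, 64), (1, 60), (0, 0), (0, 0), (20, 64), (1, 60), (0, 0), (0, 0), (24, 16), (24, 16), (0, 0), (0, 0), (28, 16), (28, 16), (0, 0), (0, 0), (32, 31), (32, 31), (0, 0), (0, 0), (36, 31), (36, 31), (0, 0), (0, 0), (40, 31), (40, 31), (0, 0), (0, 0), (44, 49), (44, 49), (0, 0), (0, 0), (48, 31), (48, 31), (0, 0), (0, 0), (52, 31), (52, 31), (0, 0), (0, 0), (56, 31), (56, 31), (0, 0), (0, 0), (60, 45), (60, 45), (0, 0), (0, 0), (64, 64), (1, 4), (0, 0), (0, 0), (64, 22), (1, 4), (0, 0), (0, 0), (72, 39), (72, 39), (0, 0), (0, 0), (72, 39), (72, 39), (0, 0), (0, 0), (80, 22), (1, 4), (0, 0), (0, 0), (80, 22), (1, 4), (0, 0), (0, 0), (88, 39), (88, 39), (0, 0), (0, 0), (88, 39), (88, 39), (0, 0),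 (0, 0), (96, 26), (96, 26), (0, 0), (0, 0), (96, 26), (96, 26), (0, 0), (0, 0), (104, 47), (104, 47), (0, 0), (0, 0), (104, 47), (104, 47), (0, 0), (0, 0), (112, 26), (112, 26), (0, 0), (0, 0), (112, 26), (112, 26), (0, 0), (0, 0), (120, 47), (120, 47), (0, 0), (0, 0), (120, 47), (120, 47), (0, 0), (0, 0)],
  [(0, 65), (1, 53), (2, 65), (3, 60), (0, 0), (0, 0), (0, 0), (0, 0), (8, 45), (1, 40), (8, 45), (3, 60), (0, 0), (0, 0), (0, 0), (0, 0), (0, 0), (0, 0), (0, 0), (0, 0), (0, 0), (0, 0), (0, 0), (0, 0), (0, 0), (0, 0), (0, 0), (0, 0), (0, 0), (0, 0), (0, 0), (0, 0), (0, 0), (0, 0), (0, 0), (0, 0), (0, 0), (0, 0), (0, 0), (0, 0), (0, 0), (0, 0), (0, 0), (0, 0), (0, 0), (0, 0), (0, 0), (0, 0), (0, 0), (0, 0), (0, 0), (0, 0), (0, 0), (0, 0), (0, 0), (0, 0), (0, 0), (0, 0), (0, 0), (0, 0), (0, 0), (0, 0), (0, 0), (0, 0), (64, 65),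 (1, 58), (66, 47), (3, 4), (0, 0), (0, 0), (0, 0), (0, 0), (72, 45), (1, 42), (72, 45), (3, 4), (0, 0), (0, 0), (0, 0), (0, 0), (0, 0), (0, 0), (0, 0), (0, 0), (0, 0), (0, 0), (0, 0), (0, 0), (0, 0), (0, 0), (0, 0), (0, 0), (0, 0), (0, 0), (0, 0), (0, 0), (0, 0), (0, 0), (0, 0), (0, 0), (0, 0), (0, 0), (0, 0), (0, 0), (0, 0), (0, 0), (0, 0), (0, 0), (0, 0), (0, 0), (0, 0), (0, 0), (0, 0), (0, 0), (0, 0), (0, 0), (0, 0), (0, 0), (0, 0), (0, 0), (0, 0), (0, 0), (0, 0), (0, 0), (0, 0), (0, 0), (0, 0), (0, 0)]]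

set_option maxRecDepth 100000 in
theorem gL_ok : lCheck 7 gAdj gL = true := by decide +kernel

set_option maxRecDepth 100000 in
theorem gP_ok : pCheck 7 gAdj gP gR = true := by decide +kernel

end Pool.Agent.Helper37.Paint
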