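import Pool.Agent.Helper37.PaintBase

set_option autoImplicit false

/-!
Boolean checkers for strategy certificates in painting games on `Fin N`.
-/

namespace Pool.Agent.Helper37.Paint

open Set

/-- The graph on `Fin N` with the given neighbourhood bit masks. -/
def gr (N : ℕ) (adj : List ℕ) : SimpleGraph (Fin N) :=
  SimpleGraph.fromRel fun u v => (adj.getD u 0).testBit v

/-- The mask contains no edge. -/
def indepB (N : ℕ) (adj : List ℕ) (m : ℕ) : Bool :=
  (List.range N).all fun u => (List.range N).all fun v =>
    !(m.testBit u && m.testBit v && (adj.getD u 0).testBit v)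

/-- The bit mask of a set. -/
noncomputable def mk {N : ℕ} (M : Set (Fin N)) : ℕ := by
  classical exact Nat.ofBits fun v : Fin N => decide (v ∈ M)

theorem mk_testBit {N : ℕ} (M : Set (Fin N)) (v : Fin N) :
    (mk M).testBit v = true ↔ v ∈ M := by
  classical
  unfold mk
  rw [Nat.testBit_ofBits_lt _ _ v.2]
  simp

theorem mk_lt {N : ℕ} (M : Set (Fin N)) : mk M < 2 ^ N := by
  classical
  exact Nat.ofBits_lt_two_pow _

theorem mk_indep {N : ℕ} {adj : List ℕ} {M : Set (Fin N)} (h : (gr N adj).IsIndepSet M)
    (hl : ∀ v : Fin N, (adj.getD v 0).testBit v = false) :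
    indepB N adj (mk M) = true := by
  simp only [indepB, List.all_eq_true, List.mem_range, Bool.not_eq_true', Bool.and_eq_false_iff]
  intro u hu v hv
  by_contra hcon
  push Not at hcon
  obtain ⟨⟨h1, h2⟩, h3⟩ := hcon
  have h1' : (⟨u, hu⟩ : Fin N) ∈ M := (mk_testBit M ⟨u, hu⟩).1 (by simpa using h1)
  have h2' : (⟨v, hv⟩ : Fin N) ∈ M := (mk_testBit M ⟨v, hv⟩).1 (by simpa using h2)
  have hne : (⟨u, hu⟩ : Fin N) ≠ ⟨v, hv⟩ := by
    intro hh
    have : u = v := by simpa using hh
    subst this
    exact h3 (hl ⟨u, hu⟩)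
  refine h h1' h2' hne ?_
  rw [gr, SimpleGraph.fromRel_adj]
  exact ⟨hne, Or.inl (by simpa using h3)⟩

/-- `b` if the bit of `m` at `v` is set, as a number. -/
def bt (m v : ℕ) : ℕ := if m.testBit v then 1 else 0

theorem one_eq_bt {N : ℕ} (M : Set (Fin N)) (v : Fin N) : one M v = bt (mk M) v := by
  unfold bt
  by_cases h : v ∈ M
  · rw [if_pos ((mk_testBit M v).2 h), one_le_of_mem h]
  · rw [if_neg (fun hh => h ((mk_testBit M v).1 hh)), one_of_not_mem h]

/-! ### Lister -/

/-- The position `(t, c)` after the move `U` and the reply `I` is lost for Painter: it has a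
vertex with more demands than tokens, or a lost edge, or is at most a position of the list. -/
def lNext (N : ℕ) (adj : List ℕ) (cert : List (List ℕ × List ℕ × ℕ)) (t c : List ℕ)
    (U I : ℕ) : Bool :=
  ((List.range N).any fun v => decide (t.getD v 0 - bt U v < c.getD v 0 - bt I v)) ||
  ((List.range N).any fun u => (List.range N).any fun v =>
    (adj.getD u 0).testBit v && decide (u ≠ v) &&
    decide (t.getD u 0 - bt U u < (c.getD u 0 - bt I u) + (c.getD v 0 - bt I v)) &&
    decide (t.getD v 0 - bt U v < (c.getD u 0 - bt I u) + (c.getD v 0 - bt I v))) ||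
  (cert.any fun p => (List.range N).all fun v =>
    decide (t.getD v 0 - bt U v ≤ p.1.getD v 0) && decide (p.2.1.getD v 0 ≤ c.getD v 0 - bt I v))

/-- Lister's certificate: each entry is a position and a move. -/
def lCheck (N : ℕ) (adj : List ℕ) (cert : List (List ℕ × List ℕ × ℕ)) : Bool :=
  cert.all fun p => decide (p.2.2 ≠ 0) && decide (p.2.2 < 2 ^ N) &&
    ((List.range N).all fun v => !p.2.2.testBit v || decide (0 < p.2.1.getD v 0)) &&
    ((List.range (2 ^ N)).all fun I => !(decide (I &&& p.2.2 = I) && indepB N adj I) ||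
      lNext N adj cert p.1 p.2.1 p.2.2 I)

theorem exists_testBit {N m : ℕ} (h0 : m ≠ 0) (h : m < 2 ^ N) :
    ∃ v : Fin N, m.testBit v = true := by
  by_contra hcon
  push Not at hcon
  apply h0
  apply Nat.eq_of_testBit_eq
  intro i
  rw [Nat.zero_testBit]
  by_cases hi : i < N
  · simpa using hcon ⟨i, hi⟩
  · push Not at hi
    exact Nat.testBit_lt_two_pow (lt_of_lt_of_le h (Nat.pow_le_pow_right (by norm_num) hi))

theorem mk_and {N : ℕ} {I : Set (Fin N)} {U : ℕ} (h : ∀ v ∈ I, U.testBit v = true) :
    mk I &&& U = mk I := by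
  apply Nat.eq_of_testBit_eq
  intro i
  rw [Nat.testBit_and]
  by_cases hi : i < N
  · by_cases hI : (⟨i, hi⟩ : Fin N) ∈ I
    · have := h _ hI
      have h2 := (mk_testBit I ⟨i, hi⟩).2 hI
      simp only at this h2
      rw [this, h2]
      rfl
    · have h2 : (mk I).testBit i = false := by
        have := (mk_testBit I ⟨i, hi⟩).not.2 hI
        simpa using this
      rw [h2]
      rfl
  · push Not at hi
    have h2 : (mk I).testBit i = false :=
      Nat.testBit_lt_two_pow (lt_of_lt_of_le (mk_lt I) (Nat.pow_le_pow_right (by norm_num) hi))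
    rw [h2]
    rfl

theorem lCheck_sound {N : ℕ} {adj : List ℕ} {cert : List (List ℕ × List ℕ × ℕ)}
    (hc : lCheck N adj cert = true) (hl : ∀ v : Fin N, (adj.getD v 0).testBit v = false)
    (p : List ℕ × List ℕ × ℕ) (hp : p ∈ cert) (t n : Fin N → ℕ) (ht : ∀ v : Fin N,
      t v ≤ p.1.getD v 0) (hn : ∀ v : Fin N, p.2.1.getD v 0 ≤ n v) :
    ¬ PW (gr N adj) t n := by
  refine not_PW_of_inv (fun t n => (∃ v, t v < n v) ∨
    (∃ u v, (gr N adj).Adj u v ∧ t u < n u + n v ∧ t v < n u + n v) ∨
    ∃ p ∈ cert, (∀ v : Fin N, t v ≤ p.1.getD v 0) ∧ ∀ v : Fin N, p.2.1.getD v 0 ≤ n v) ?_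
    (Or.inr (Or.inr ⟨p, hp, ht, hn⟩))
  clear ht hn hp p t n
  rintro t n (h | ⟨u, v, huv, hu, hv⟩ | ⟨p, hp, ht, hn⟩)
  · exact Or.inl h
  · by_cases h1 : t u < n u
    · exact Or.inl ⟨u, h1⟩
    by_cases h2 : t v < n v
    · exact Or.inl ⟨v, h2⟩
    refine Or.inr ⟨{u, v}, ⟨u, by simp⟩, ?_, ?_⟩
    · rintro w (rfl | rfl) <;> omega
    · intro I hI hind
      refine Or.inr (Or.inl ⟨u, v, huv, ?_⟩)
      have e1 : (t - one ({u, v} : Set (Fin N))) u = t u - 1 := by
        simp [one]
      have e2 : (t - one ({u, v} : Set (Fin N))) v = t v - 1 := by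
        simp [one]
      have e3 : (n - one I) u = n u - one I u := rfl
      have e4 : (n - one I) v = n v - one I v := rfl
      have hne : u ≠ v := huv.ne
      have hI2 : one I u = 0 ∨ one I v = 0 := by
        by_contra hcon
        push Not at hcon
        have a1 : u ∈ I := by
          by_contra hh; exact hcon.1 (one_of_not_mem hh)
        have a2 : v ∈ I := by
          by_contra hh; exact hcon.2 (one_of_not_mem hh)
        exact hind a1 a2 hne huv
      have b1 : one I u ≤ 1 := by
        by_cases hh : u ∈ I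
        · rw [one_le_of_mem hh]
        · rw [one_of_not_mem hh]; omega
      have b2 : one I v ≤ 1 := by
        by_cases hh : v ∈ I
        · rw [one_le_of_mem hh]
        · rw [one_of_not_mem hh]; omega
      rw [e1, e2, e3, e4]
      omega
  · by_cases hdead : ∃ v, t v < n v
    · exact Or.inl hdead
    push Not at hdead
    have hc' := List.all_eq_true.1 hc p hp
    simp only [Bool.and_eq_true, decide_eq_true_eq, List.all_eq_true, List.mem_range,
      Bool.or_eq_true, Bool.not_eq_true', Bool.and_eq_false_iff, decide_eq_false_iff_not] at hc'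
    obtain ⟨⟨⟨hU0, hU1⟩, hU2⟩, hU3⟩ := hc'
    refine Or.inr ⟨{v | p.2.2.testBit v = true}, exists_testBit hU0 hU1, ?_, ?_⟩
    · intro v hv
      rcases hU2 v v.2 with h1 | h1
      · rw [mem_setOf_eq, h1] at hv
        exact absurd hv (by simp)
      · exact lt_of_lt_of_le h1 (hn v)
    · intro I hI hind
      have hmU : mk {v : Fin N | p.2.2.testBit v = true} = p.2.2 := by
        apply Nat.eq_of_testBit_eq
        intro i
        by_cases hi : i < N
        · have := mk_testBit {v : Fin N | p.2.2.testBit v = true} ⟨i, hi⟩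
          simp only [mem_setOf_eq] at this
          exact Bool.eq_iff_iff.2 this
        · push Not at hi
          have hpow : (2 : ℕ) ^ N ≤ 2 ^ i := Nat.pow_le_pow_right (by norm_num) hi
          rw [Nat.testBit_lt_two_pow (lt_of_lt_of_le (mk_lt _) hpow),
            Nat.testBit_lt_two_pow (lt_of_lt_of_le hU1 hpow)]
      have hsub : ∀ v : Fin N, (t - one {v : Fin N | p.2.2.testBit v = true}) v =
          t v - bt p.2.2 v := by
        intro v
        rw [Pi.sub_apply, one_eq_bt, hmU]
      have hsubn : ∀ v : Fin N, (n - one I) v = n v - bt (mk I) v := by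
        intro v
        rw [Pi.sub_apply, one_eq_bt]
      have key : lNext N adj cert p.1 p.2.1 p.2.2 (mk I) = true := by
        rcases hU3 (mk I) (mk_lt I) with h1 | h1
        · exfalso
          rcases h1 with h1 | h1
          · exact h1 (mk_and fun v hv => hI hv)
          · rw [mk_indep hind hl] at h1
            exact absurd h1 (by simp)
        · exact h1
      simp only [lNext, Bool.or_eq_true, List.any_eq_true, List.mem_range, decide_eq_true_eq,
        Bool.and_eq_true, List.all_eq_true] at key
      rcases key with (⟨v, hv, h1⟩ | ⟨u, hu, v, hv, ⟨⟨⟨h1, h2⟩, h3⟩, h4⟩⟩) | ⟨q, hq, h1⟩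
      · refine Or.inl ⟨⟨v, hv⟩, ?_⟩
        rw [hsub, hsubn]
        have a1 := ht ⟨v, hv⟩
        have a2 := hn ⟨v, hv⟩
        simp only at a1 a2 ⊢
        omega
      · refine Or.inr (Or.inl ⟨⟨u, hu⟩, ⟨v, hv⟩, ?_, ?_, ?_⟩)
        · rw [gr, SimpleGraph.fromRel_adj]
          refine ⟨?_, Or.inl h1⟩
          simpa using h2
        · rw [hsub, hsubn, hsubn]
          have a1 := ht ⟨u, hu⟩
          have a2 := hn ⟨u, hu⟩
          have a3 := hn ⟨v, hv⟩
          simp only at a1 a2 a3 ⊢
          omega
        · rw [hsub, hsubn, hsubn]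
          have a1 := ht ⟨v, hv⟩
          have a2 := hn ⟨u, hu⟩
          have a3 := hn ⟨v, hv⟩
          simp only at a1 a2 a3 ⊢
          omega
      · refine Or.inr (Or.inr ⟨q, hq, fun v => ?_, fun v => ?_⟩)
        · rw [hsub]
          have := (h1 v v.2).1
          have a1 := ht v
          omega
        · rw [hsubn]
          have := (h1 v v.2).2
          have a1 := hn v
          omega

/-! ### Painter, one colour per vertex -/

/-- After the move `U` and the reply `I` from the position with tokens `t` (`0` on the finished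
vertices) Painter has the position `q` of the list. -/
def pDom (N : ℕ) (t q : List ℕ) (U I : ℕ) : Bool :=
  (List.range N).all fun v => decide (t.getD v 0 = 0) || I.testBit v ||
    (decide (0 < q.getD v 0) && decide (q.getD v 0 ≤ t.getD v 0 - bt U v))

/-- Painter's certificate: the list of positions, and for each position the list of the replies
(the reply and the number of the next position) to the masks `0, 1, 2, …`. -/
def pCheck (N : ℕ) (adj : List ℕ) (pos : List (List ℕ)) (rep : List (List (ℕ × ℕ))) : Bool :=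
  decide (pos.length = rep.length) &&
  ((pos.zip rep).all fun x => decide (x.2.length = 2 ^ N) &&
    ((x.2.zip (List.range (2 ^ N))).all fun y =>
      ((List.range N).any fun v => y.2.testBit v && decide (x.1.getD v 0 = 0)) ||
      (decide (y.1.1 &&& y.2 = y.1.1) && indepB N adj y.1.1 &&
        (match pos[y.1.2]? with
          | some q => pDom N x.1 q y.2 y.1.1
          | none => false))))

theorem indepB_sound {N : ℕ} {adj : List ℕ} {m : ℕ} (h : indepB N adj m = true) :
    (gr N adj).IsIndepSet {v : Fin N | m.testBit v = true} := by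
  simp only [indepB, List.all_eq_true, List.mem_range, Bool.not_eq_true',
    Bool.and_eq_false_iff] at h
  intro u hu v hv _ hadj
  rw [gr, SimpleGraph.fromRel_adj] at hadj
  rw [mem_setOf_eq] at hu hv
  rcases hadj.2 with h1 | h1
  · rcases h u u.2 v v.2 with (h2 | h2) | h2
    · rw [h2] at hu; exact absurd hu (by simp)
    · rw [h2] at hv; exact absurd hv (by simp)
    · rw [h2] at h1; exact absurd h1 (by simp)
  · rcases h v v.2 u u.2 with (h2 | h2) | h2
    · rw [h2] at hv; exact absurd hv (by simp)
    · rw [h2] at hu; exact absurd hu (by simp)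
    · rw [h2] at h1; exact absurd h1 (by simp)

theorem pCheck_sound {N : ℕ} {adj : List ℕ} {pos : List (List ℕ)} {rep : List (List (ℕ × ℕ))}
    (hc : pCheck N adj pos rep = true) (p : List ℕ) (hp : p ∈ pos) (t n : Fin N → ℕ)
    (h : ∀ v, n v = 0 ∨ (n v = 1 ∧ 0 < p.getD v 0 ∧ p.getD v 0 ≤ t v)) :
    PW (gr N adj) t n := by
  refine PW_of_inv (fun t n => ∃ p ∈ pos, ∀ v : Fin N, n v = 0 ∨ (n v = 1 ∧ 0 < p.getD v 0 ∧
    p.getD v 0 ≤ t v)) ?_ ⟨p, hp, h⟩
  clear h hp p t n
  rintro t n ⟨p, hp, h⟩
  refine ⟨fun v => ?_, ?_⟩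
  · rcases h v with h1 | ⟨h1, h2, h3⟩ <;> omega
  · intro M _ hM
    simp only [pCheck, Bool.and_eq_true, decide_eq_true_eq, List.all_eq_true] at hc
    obtain ⟨hlen, hall⟩ := hc
    obtain ⟨i, hi, hpi⟩ := List.getElem_of_mem hp
    have hi2 : i < rep.length := hlen ▸ hi
    have hz : (pos[i], rep[i]) ∈ pos.zip rep := by
      rw [List.mem_iff_getElem]
      refine ⟨i, by simp [hi, hi2], by simp⟩
    obtain ⟨hlen2, hall2⟩ := hall _ hz
    simp only at hlen2 hall2
    have hm : mk M < 2 ^ N := mk_lt M
    have hm2 : mk M < rep[i].length := by rw [hlen2]; exact hm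
    have hz2 : (rep[i][mk M], mk M) ∈ rep[i].zip (List.range (2 ^ N)) := by
      rw [List.mem_iff_getElem]
      refine ⟨mk M, by simp [hm2, hm], by simp⟩
    have hy := hall2 _ hz2
    simp only at hy
    generalize rep[i][mk M] = y at hy
    obtain ⟨I, j⟩ := y
    simp only [Bool.or_eq_true, List.any_eq_true, List.mem_range, Bool.and_eq_true,
      decide_eq_true_eq] at hy
    rcases hy with ⟨v, hv, hv1, hv2⟩ | ⟨⟨hI1, hI2⟩, hq⟩
    · exfalso
      have hvM : (⟨v, hv⟩ : Fin N) ∈ M := (mk_testBit M ⟨v, hv⟩).1 hv1
      have h1 := hM _ hvM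
      rcases h ⟨v, hv⟩ with h2 | ⟨h2, h3, h4⟩
      · omega
      · rw [← hpi] at h3
        simp only at h3
        omega
    · refine ⟨{v : Fin N | I.testBit v = true}, ?_, indepB_sound hI2, ?_⟩
      · intro v hv
        rw [mem_setOf_eq, ← hI1, Nat.testBit_and, Bool.and_eq_true] at hv
        exact (mk_testBit M v).1 hv.2
      · have hmI : ∀ v : Fin N, one {v : Fin N | I.testBit v = true} v = bt I v := by
          intro v
          unfold bt
          by_cases hh : I.testBit v = true
          · rw [if_pos hh, one_le_of_mem (show v ∈ {v : Fin N | I.testBit v = true} from hh)]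
          · rw [if_neg hh, one_of_not_mem (show v ∉ {v : Fin N | I.testBit v = true} from hh)]
        cases hqe : pos[j]? with
        | none => simp [hqe] at hq
        | some q =>
          simp only [hqe, pDom, List.all_eq_true, List.mem_range, Bool.or_eq_true,
            decide_eq_true_eq, Bool.and_eq_true] at hq
          refine ⟨q, List.mem_of_getElem? hqe, fun v => ?_⟩
          rw [Pi.sub_apply, Pi.sub_apply, hmI, one_eq_bt]
          rcases h v with h1 | ⟨h1, h2, h3⟩
          · left
            omega
          · rcases hq v v.2 with (h4 | h4) | ⟨h4, h5⟩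
            · rw [← hpi] at h2
              omega
            · left
              rw [bt, if_pos h4]
              omega
            · by_cases hb : I.testBit v = true
              · left
                rw [bt, if_pos hb]
                omega
              · right
                rw [bt, if_neg hb]
                rw [← hpi] at h3
                exact ⟨by omega, h4, by omega⟩

end Pool.Agent.Helper37.Paint
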