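import Pool.Agent.Helper37.SKTree

namespace Pool.Agent.Helper37.SK

open Classical Function

variable {k : ℕ} {X : Type} (B : Base k X)

namespace Base

/-- points of the tree of copies -/
def Pt : Type := {z : List B.Letter × X // Red z.1 ∧ z.2 ∉ tgt z.1}

variable {B}

/-- the copy at `v` -/
noncomputable def phi (v : List B.Letter) (x : X) : B.Pt :=
  if h : Red v then ⟨nf v x, h.of_suffix (nf_suffix v x), nf_notMem v x⟩
  else ⟨([], x), trivial, by simp [tgt]⟩

lemma phi_val {v : List B.Letter} (hv : Red v) (x : X) : (phi v x).1 = nf v x := by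
  unfold phi; rw [dif_pos hv]

lemma phi_eq_iff {v w : List B.Letter} (hv : Red v) (hw : Red w) (x y : X) :
    phi v x = phi w y ↔ nf v x = nf w y := by
  rw [← phi_val hv, ← phi_val hw]
  exact ⟨fun h => by rw [h], fun h => Subtype.ext h⟩

lemma phi_self (z : B.Pt) : phi z.1.1 z.1.2 = z := by
  apply Subtype.ext
  rw [phi_val z.2.1, nf_of_notMem _ _ z.2.2]

lemma phi_cons_q {n : B.Letter} {v : List B.Letter} (h : Red (n :: v)) (i : Fin k) :
    phi (n :: v) (n.q i) = phi v (n.p i) := by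
  rw [phi_eq_iff h h.2, nf_cons_q]

lemma Red.nil : Red ([] : List B.Letter) := trivial

/-- charts -/
def IsChart (ψ : X → B.Pt) : Prop :=
  ∃ (v : List B.Letter) (g : Equiv.Perm X), Red v ∧ g ∈ B.G ∧ ψ = fun x => phi v (g x)

lemma isChart_phi {v : List B.Letter} (hv : Red v) : IsChart (phi v) :=
  ⟨v, 1, hv, B.G.one_mem, rfl⟩

lemma IsChart.comp {ψ : X → B.Pt} (h : IsChart ψ) {g : Equiv.Perm X} (hg : g ∈ B.G) :
    IsChart (fun x => ψ (g x)) := by
  obtain ⟨v, g', hv, hg', rfl⟩ := h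
  exact ⟨v, g' * g, hv, B.G.mul_mem hg' hg, rfl⟩

lemma IsChart.inj {ψ : X → B.Pt} (h : IsChart ψ) : Injective ψ := by
  obtain ⟨v, g', hv, hg', rfl⟩ := h
  intro x y hxy
  rw [phi_eq_iff hv hv] at hxy
  exact g'.injective (nf_inj v hxy)

lemma IsChart.unique {ψ χ : X → B.Pt} (hψ : IsChart ψ) (hχ : IsChart χ) {p : Fin k → X}
    (hp : Injective p) (h : ∀ i, ψ (p i) = χ (p i)) : ψ = χ := by
  obtain ⟨v, g, hv, hg, rfl⟩ := hψ
  obtain ⟨w, g', hw, hg', rfl⟩ := hχ
  obtain ⟨rfl, rfl⟩ := chart_unique hv hw hg hg' hp (fun i => (phi_eq_iff hv hw _ _).1 (h i))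
  rfl

lemma IsChart.step {ψ : X → B.Pt} (hψ : IsChart ψ) {p q : Fin k → X} (hp : Injective p)
    (hq : Injective q) (hd : ∀ i j, B.D (p i) (p j) = B.D (q i) (q j)) :
    ∃ χ : X → B.Pt, IsChart χ ∧ ∀ i, χ (q i) = ψ (p i) := by
  obtain ⟨v, g, hv, hg, rfl⟩ := hψ
  obtain ⟨u, r, hc⟩ := exists_canon hv (p := fun i => g (p i)) (g.injective.comp hp)
  have hd' : ∀ i j, B.D (r i) (r j) = B.D (q i) (q j) := fun i j => by
    rw [← hc.dist, B.iso g hg, hd]
  have e : ∀ i, phi v (g (p i)) = phi u (r i) := fun i => by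
    rw [phi_eq_iff hv hc.1]; exact hc.nf_eq i
  rcases step_canon hc.1 hc.2.1 hq hc.2.2.1 hd' with ⟨h, hh, h1⟩ | ⟨-, n, h, hh, h1, -, -, h2⟩
  · refine ⟨fun x => phi u (h x), ⟨u, h, hc.1, hh, rfl⟩, fun i => ?_⟩
    change phi u (h (q i)) = phi v (g (p i))
    rw [e, h1]
  · refine ⟨fun x => phi (n :: u) (h x), ⟨n :: u, h, h1, hh, rfl⟩, fun i => ?_⟩
    change phi (n :: u) (h (q i)) = phi v (g (p i))
    rw [e, phi_eq_iff h1 hc.1]
    exact h2 i

/-- maps sending charts to charts -/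
def Endo (F : B.Pt → B.Pt) : Prop := ∀ ψ : X → B.Pt, IsChart ψ → IsChart (fun x => F (ψ x))

lemma Endo.comp {F F' : B.Pt → B.Pt} (h : Endo F) (h' : Endo F') : Endo (fun z => F (F' z)) :=
  fun _ hψ => h _ (h' _ hψ)

lemma Endo.id : Endo (fun z : B.Pt => z) := fun _ h => h

lemma Endo.eq_of_root {F F' : B.Pt → B.Pt} (hF : Endo F) (hF' : Endo F')
    (h : ∀ x, F (phi [] x) = F' (phi [] x)) : F = F' := by
  have key : ∀ v : List B.Letter, Red v → ∀ x, F (phi v x) = F' (phi v x) := by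
    intro v
    induction v with
    | nil => exact fun _ => h
    | cons n v ih =>
      intro hv x
      have h1 := (hF _ (isChart_phi hv)).unique (hF' _ (isChart_phi hv)) n.qinj (fun i => by
        rw [phi_cons_q hv, ih hv.2])
      exact congrFun h1 x
  funext z
  rw [← phi_self z]
  exact key _ z.2.1 _

/-- development of a chart -/
noncomputable def dev (ψ : X → B.Pt) : List B.Letter → X → B.Pt
  | [] => ψ
  | n :: v => if h : IsChart (dev ψ v) then (h.step n.pinj n.qinj n.isom).choose else dev ψ v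

lemma isChart_dev {ψ : X → B.Pt} (hψ : IsChart ψ) (v : List B.Letter) : IsChart (dev ψ v) := by
  induction v with
  | nil => exact hψ
  | cons n v ih =>
    rw [dev, dif_pos ih]
    exact (ih.step n.pinj n.qinj n.isom).choose_spec.1

lemma dev_cons_q {ψ : X → B.Pt} (hψ : IsChart ψ) (n : B.Letter) (v : List B.Letter) (i : Fin k) :
    dev ψ (n :: v) (n.q i) = dev ψ v (n.p i) := by
  rw [dev, dif_pos (isChart_dev hψ v)]
  exact ((isChart_dev hψ v).step n.pinj n.qinj n.isom).choose_spec.2 i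

lemma exists_endo {ψ : X → B.Pt} (hψ : IsChart ψ) :
    ∃ F : B.Pt → B.Pt, Endo F ∧ ∀ x, F (phi [] x) = ψ x := by
  let F : B.Pt → B.Pt := fun z => dev ψ z.1.1 z.1.2
  have key : ∀ v : List B.Letter, Red v → ∀ x, F (phi v x) = dev ψ v x := by
    intro v
    induction v with
    | nil => intro hv x; change dev ψ (phi [] x).1.1 (phi [] x).1.2 = _; rw [phi_val hv]; rfl
    | cons n v ih =>
      intro hv x
      by_cases hx : x ∈ tgt (n :: v)
      · obtain ⟨i, rfl⟩ := hx
        rw [phi_cons_q hv, ih hv.2, dev_cons_q hψ]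
      · change dev ψ (phi (n :: v) x).1.1 (phi (n :: v) x).1.2 = _
        rw [phi_val hv, nf_of_notMem _ _ hx]
  refine ⟨F, ?_, key [] trivial⟩
  rintro χ ⟨v, g, hv, hg, rfl⟩
  have : (fun x => F (phi v (g x))) = fun x => dev ψ v (g x) := funext fun x => key v hv _
  rw [this]
  exact (isChart_dev hψ v).comp hg

lemma exists_endo_to_root_aux (v : List B.Letter) (hv : Red v) :
    ∃ F : B.Pt → B.Pt, Endo F ∧ ∀ x, F (phi v x) = phi [] x := by
  induction v with
  | nil => exact ⟨fun z => z, Endo.id, fun x => rfl⟩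
  | cons n v ih =>
    obtain ⟨F0, h0, h1⟩ := ih hv.2
    have hθ : IsChart (fun x => F0 (phi (n :: v) x)) := h0 _ (isChart_phi hv)
    obtain ⟨χ, hχ, h2⟩ := (isChart_phi (B := B) Red.nil).step n.qinj n.pinj
      (fun i j => (n.isom i j).symm)
    obtain ⟨F1, h3, h4⟩ := exists_endo hχ
    refine ⟨fun z => F1 (F0 z), h3.comp h0, fun x => ?_⟩
    have h5 := (h3 _ hθ).unique (isChart_phi (B := B) Red.nil) n.qinj (fun i => by
      change F1 (F0 (phi (n :: v) (n.q i))) = _
      rw [phi_cons_q hv, h1, h4, h2])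
    exact congrFun h5 x

lemma exists_endo_to_root {ψ : X → B.Pt} (hψ : IsChart ψ) :
    ∃ F : B.Pt → B.Pt, Endo F ∧ ∀ x, F (ψ x) = phi [] x := by
  obtain ⟨v, g, hv, hg, rfl⟩ := hψ
  obtain ⟨F0, h0, h1⟩ := exists_endo_to_root_aux v hv
  obtain ⟨F1, h2, h3⟩ := exists_endo ((isChart_phi (B := B) Red.nil).comp (B.G.inv_mem hg))
  refine ⟨fun z => F1 (F0 z), h2.comp h0, fun x => ?_⟩
  change F1 (F0 (phi v (g x))) = _
  rw [h1, h3]
  simp

variable (B)

/-- the group -/
def Grp : Subgroup (Equiv.Perm B.Pt) where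
  carrier := {F | Endo F ∧ Endo F.symm}
  mul_mem' := by
    rintro F F' ⟨h1, h2⟩ ⟨h3, h4⟩
    exact ⟨h1.comp h3, h4.comp h2⟩
  one_mem' := ⟨Endo.id, Endo.id⟩
  inv_mem' := by
    rintro F ⟨h1, h2⟩
    exact ⟨h2, h1⟩

variable {B}

lemma exists_elt_root {ψ : X → B.Pt} (hψ : IsChart ψ) :
    ∃ F ∈ B.Grp, ∀ x, F (phi [] x) = ψ x := by
  obtain ⟨C, hC, hC1⟩ := exists_endo hψ
  obtain ⟨A, hA, hA1⟩ := exists_endo_to_root hψ
  obtain ⟨A', hA', hA1'⟩ := exists_endo_to_root (hA _ (isChart_phi (B := B) Red.nil))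
  have e1 : (fun z => A (C z)) = fun z => z :=
    (hA.comp hC).eq_of_root Endo.id (fun x => by rw [hC1, hA1])
  have e2 : (fun z => A' (A z)) = fun z => z :=
    (hA'.comp hA).eq_of_root Endo.id (fun x => by rw [hA1'])
  have e3 : ∀ z, C (A z) = z := by
    intro z
    have h1 : A' (A (C (A z))) = C (A z) := congrFun e2 (C (A z))
    have h2 : A (C (A z)) = A z := congrFun e1 (A z)
    rw [← h1, h2]
    exact congrFun e2 z
  exact ⟨⟨C, A, fun z => congrFun e1 z, e3⟩, ⟨hC, hA⟩, hC1⟩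

lemma exists_elt {ψ χ : X → B.Pt} (hψ : IsChart ψ) (hχ : IsChart χ) :
    ∃ F ∈ B.Grp, ∀ x, F (ψ x) = χ x := by
  obtain ⟨F, hF, h1⟩ := exists_elt_root hψ
  obtain ⟨F', hF', h2⟩ := exists_elt_root hχ
  refine ⟨F' * F⁻¹, B.Grp.mul_mem hF' (B.Grp.inv_mem hF), fun x => ?_⟩
  rw [← h1, ← h2]
  simp

lemma Grp.eq_of_chart {F F' : Equiv.Perm B.Pt} (hF : F ∈ B.Grp) (hF' : F' ∈ B.Grp)
    {ψ : X → B.Pt} (hψ : IsChart ψ) (h : ∀ x, F (ψ x) = F' (ψ x)) : F = F' := by
  obtain ⟨E, hE, h1⟩ := exists_elt_root hψ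
  have h2 : ((F * E : Equiv.Perm B.Pt) : B.Pt → B.Pt) = (F' * E : Equiv.Perm B.Pt) :=
    Endo.eq_of_root (B.Grp.mul_mem hF hE).1 (B.Grp.mul_mem hF' hE).1 (fun x => by
      change F (E (phi [] x)) = F' (E (phi [] x))
      rw [h1, h])
  have h3 : F * E = F' * E := DFunLike.coe_injective h2
  exact mul_right_cancel h3

/-- an element of the group is determined by the images of a frame -/
lemma Grp.eq_of_frame {F F' : Equiv.Perm B.Pt} (hF : F ∈ B.Grp) (hF' : F' ∈ B.Grp)
    {ψ : X → B.Pt} (hψ : IsChart ψ) {p : Fin k → X} (hp : Injective p)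
    (h : ∀ i, F (ψ (p i)) = F' (ψ (p i))) : F = F' := by
  apply Grp.eq_of_chart hF hF' hψ
  exact fun x => congrFun ((hF.1 _ hψ).unique (hF'.1 _ hψ) hp h) x

lemma Grp.eq_one_of_frame {F : Equiv.Perm B.Pt} (hF : F ∈ B.Grp)
    {ψ : X → B.Pt} (hψ : IsChart ψ) {p : Fin k → X} (hp : Injective p)
    (h : ∀ i, F (ψ (p i)) = ψ (p i)) : F = 1 :=
  Grp.eq_of_frame hF B.Grp.one_mem hψ hp h

lemma Endo.append {E : B.Pt → B.Pt} (hE : Endo E) {w : List B.Letter}
    (h : ∀ x, E (phi [] x) = phi w x) (v : List B.Letter) (hvw : Red (v ++ w)) (hv : Red v) (x : X) :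
    E (phi v x) = phi (v ++ w) x := by
  induction v generalizing x with
  | nil => exact h x
  | cons n v ih =>
    have h1 := (hE _ (isChart_phi hv)).unique (isChart_phi hvw) n.qinj (fun i => by
      rw [phi_cons_q hv, ih hvw.2 hv.2]
      exact (phi_cons_q hvw i).symm)
    exact congrFun h1 x

lemma frame_ne_empty (p : Fin k → X) (B : Base k X) : Set.range p ≠ ∅ := by
  intro h
  have : p ⟨0, B.kpos⟩ ∈ Set.range p := ⟨_, rfl⟩
  rw [h] at this
  exact this

lemma Red.left {v w : List B.Letter} (h : Red (v ++ w)) : Red v := by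
  induction v with
  | nil => trivial
  | cons n v ih =>
    refine ⟨?_, ih h.2⟩
    cases v with
    | nil => exact frame_ne_empty n.p B
    | cons m v => exact h.1

lemma Red.right {v w : List B.Letter} (h : Red (v ++ w)) : Red w :=
  h.of_suffix (List.suffix_append v w)

/-- no cancellation -/
lemma nc {F : B.Pt → B.Pt} (hF : Endo F) {w : List B.Letter} {g : Equiv.Perm X} (hw : Red w)
    (hg : g ∈ B.G) (h0 : ∀ x, F (phi [] x) = phi w (g x)) (v : List B.Letter) (hv : Red v)
    (hm : ∀ m ∈ v.getLast?, g '' Set.range m.p ≠ tgt w) :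
    ∃ (v' : List B.Letter) (h : Equiv.Perm X), h ∈ B.G ∧ Red (v' ++ w) ∧ v'.length = v.length ∧
      (∀ x, F (phi v x) = phi (v' ++ w) (h x)) ∧ (v ≠ [] → tgt (v' ++ w) = h '' tgt v) ∧
      (∀ m ∈ v.getLast?, ∃ m' ∈ v'.getLast?, Set.range m'.p = g '' Set.range m.p) := by
  induction v with
  | nil => exact ⟨[], g, hg, hw, rfl, h0, fun h => absurd rfl h, fun m hm => by simp at hm⟩
  | cons n v ih =>
    have hm' : ∀ m ∈ v.getLast?, g '' Set.range m.p ≠ tgt w := by
      intro m hmv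
      apply hm
      rw [List.getLast?_cons]
      rw [Option.mem_def] at hmv ⊢
      rw [hmv]; rfl
    obtain ⟨v', h, hh, h1, h2, h3, h4, h5⟩ := ih hv.2 hm'
    have hr : Injective (fun i => h (n.p i)) := h.injective.comp n.pinj
    have hrr : Set.range (fun i => h (n.p i)) = h '' Set.range n.p := by
      rw [← Set.range_comp]; rfl
    have hne : Set.range (fun i => h (n.p i)) ≠ tgt (v' ++ w) := by
      rw [hrr]
      by_cases hv0 : v = []
      · subst hv0
        have : v' = [] := List.length_eq_zero_iff.1 h2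
        subst this
        have hgh : h = g := by
          ext x
          have := h3 x
          rw [h0, List.nil_append, phi_eq_iff hw hw] at this
          exact (nf_inj w this).symm
        rw [hgh]
        exact hm n (by simp)
      · rw [h4 hv0]
        intro he
        exact hv.1 (Set.image_injective.2 h.injective he)
    have hd : ∀ i j, B.D (h (n.p i)) (h (n.p j)) = B.D (n.q i) (n.q j) := fun i j => by
      rw [B.iso h hh, n.isom]
    rcases step_canon h1 hr n.qinj hne hd with ⟨g1, hg1, h6⟩ | ⟨-, n', g1, hg1, h6, h7, h8, h9⟩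
    · exfalso
      apply n.diff
      refine ⟨g1⁻¹ * h, B.G.mul_mem (B.G.inv_mem hg1) hh, fun i => ?_⟩
      change _ = g1.symm (h (n.p i))
      rw [← h6]; simp
    · refine ⟨n' :: v', g1, hg1, h6, by simp [h2], ?_, fun _ => h8, ?_⟩
      · intro x
        have c1 : IsChart (fun x => phi (n' :: (v' ++ w)) (g1 x)) := (isChart_phi h6).comp hg1
        have h10 := (hF _ (isChart_phi hv)).unique c1 n.qinj (fun i => by
          rw [phi_cons_q hv, h3, phi_eq_iff h1 h6]
          exact (h9 i).symm)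
        exact congrFun h10 x
      · intro m hmm
        rw [List.getLast?_cons] at hmm ⊢
        rcases v.eq_nil_or_concat with hv0 | ⟨v0, m0, hv0⟩
        · subst hv0
          have : v' = [] := List.length_eq_zero_iff.1 h2
          subst this
          have hgh : h = g := by
            ext x
            have := h3 x
            rw [h0, List.nil_append, phi_eq_iff hw hw] at this
            exact (nf_inj w this).symm
          simp only [List.getLast?_nil, Option.getD_none, Option.mem_def, Option.some.injEq] at hmm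
          subst hmm
          refine ⟨n', by simp, ?_⟩
          rw [h7, hrr, hgh]
        · have hl : v.getLast? = some m0 := by rw [hv0]; simp
          rw [hl] at hmm
          simp only [Option.getD_some, Option.mem_def, Option.some.injEq] at hmm
          subst hmm
          obtain ⟨m', hm1, hm2⟩ := h5 m0 hl
          refine ⟨m', ?_, hm2⟩
          rw [Option.mem_def] at hm1
          rw [hm1]; rfl

end Base

end Pool.Agent.Helper37.SK
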