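import Mathlib

namespace Pool.Agent.Helper37.SK

/-- The rational Urysohn space: a countable metric space with rational distances which is
ultrahomogeneous and contains an isometric copy of every finite rational metric space. -/
structure IsRationalUrysohn (U : Type) [MetricSpace U] : Prop where
  countable : Countable U
  rational : ∀ x y : U, ∃ q : ℚ, dist x y = q
  ultrahomogeneous : ∀ (A : Finset U) (f : A → U), Isometry f →
    ∃ F : U ≃ᵢ U, ∀ a : A, F a = f a
  universal : ∀ (Y : Type) [MetricSpace Y] [Finite Y],
    (∀ x y : Y, ∃ q : ℚ, dist x y = q) → ∃ e : Y → U, Isometry e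

/-- A group of isometries of `U` is structurally sharply `k`-transitive: for any two `k`-tuples
of pairwise distinct points with the same mutual distances there is exactly one element of the
group carrying the first to the second. -/
def SharplyTransitive (U : Type) [MetricSpace U] (k : ℕ) (G : Subgroup (U ≃ᵢ U)) : Prop :=
  ∀ a b : Fin k → U, Function.Injective a → Function.Injective b →
    (∀ i j, dist (a i) (a j) = dist (b i) (b j)) → ∃! g : U ≃ᵢ U, g ∈ G ∧ ∀ i, g (a i) = b i

end Pool.Agent.Helper37.SK
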