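import Pool.Agent.Helper37.SKMetric

namespace Pool.Agent.Helper37.SK

open Classical Function

variable {k : ℕ} {X : Type}

section amal

variable {N : Type} (D : X → X → ℕ) (f : N → X → ℕ)

/-- adding new points with prescribed distances to the old ones -/
noncomputable def amal : X ⊕ N → X ⊕ N → ℕ
  | Sum.inl x, Sum.inl y => D x y
  | Sum.inl x, Sum.inr n => f n x
  | Sum.inr n, Sum.inl x => f n x
  | Sum.inr n, Sum.inr m => if n = m then 0 else sInf (Set.range fun z => f n z + f m z)

variable {D f}

lemma amal_inr_self (n : N) : amal D f (Sum.inr n) (Sum.inr n) = 0 := by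
  unfold amal; simp

lemma amal_inr_ne {n m : N} (h : n ≠ m) : amal D f (Sum.inr n) (Sum.inr m) =
    sInf (Set.range fun z => f n z + f m z) := by
  unfold amal; simp [h]

lemma amal_isMet [Nonempty X] (hD : IsMet D) (hpos : ∀ n x, 0 < f n x)
    (hlip : ∀ n x y, f n x ≤ f n y + D x y) (hsum : ∀ n x y, D x y ≤ f n x + f n y) :
    IsMet (amal D f) := by
  have hmem : ∀ n m, ∃ z, sInf (Set.range fun z => f n z + f m z) = f n z + f m z := by
    intro n m
    obtain ⟨z, hz⟩ := Nat.sInf_mem (Set.range_nonempty (fun z => f n z + f m z))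
    exact ⟨z, hz.symm⟩
  have hle : ∀ n m z, sInf (Set.range fun z => f n z + f m z) ≤ f n z + f m z :=
    fun n m z => Nat.sInf_le ⟨z, rfl⟩
  have hii : ∀ n m, amal D f (Sum.inr n) (Sum.inr m) =
      if n = m then 0 else sInf (Set.range fun z => f n z + f m z) := fun _ _ => rfl
  constructor
  · rintro (x | n) (y | m)
    · change D x y = 0 ↔ _
      rw [hD.zero_iff]
      exact ⟨fun h => by rw [h], fun h => Sum.inl.inj h⟩
    · change f m x = 0 ↔ _
      exact ⟨fun h => absurd h (hpos m x).ne', fun h => by simp at h⟩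
    · change f n y = 0 ↔ _
      exact ⟨fun h => absurd h (hpos n y).ne', fun h => by simp at h⟩
    · rw [hii]
      split_ifs with h
      · simp [h]
      · obtain ⟨z, hz⟩ := hmem n m
        rw [hz]
        have := hpos n z
        constructor
        · intro h1; omega
        · intro h1; exact absurd (Sum.inr.inj h1) h
  · rintro (x | n) (y | m)
    · exact hD.symm x y
    · rfl
    · rfl
    · rw [hii, hii]
      by_cases h : n = m
      · rw [h]
      · rw [if_neg h, if_neg (Ne.symm h)]
        congr 1
        congr 1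
        funext z
        exact add_comm _ _
  · rintro (x | n) (y | m) (z | l)
    · exact hD.tri x y z
    · change f l x ≤ D x y + f l y
      have := hlip l x y
      omega
    · change D x z ≤ f m x + f m z
      exact hsum m x z
    · rw [hii]
      change f l x ≤ f m x + _
      split_ifs with h
      · rw [h]; omega
      · obtain ⟨z, hz⟩ := hmem m l
        rw [hz]
        have h1 := hlip l x z
        have h2 := hsum m x z
        omega
    · change f n z ≤ f n y + D y z
      have := hlip n z y
      rw [hD.symm z y] at this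
      exact this
    · rw [hii]
      change _ ≤ f n y + f l y
      split_ifs with h
      · omega
      · exact hle n l y
    · rw [hii]
      change f n z ≤ _ + f m z
      split_ifs with h
      · rw [h]; omega
      · obtain ⟨w, hw⟩ := hmem n m
        rw [hw]
        have h1 := hlip n z w
        have h2 := hsum m w z
        rw [hD.symm w z] at h2
        omega
    · rw [hii, hii, hii]
      by_cases h1 : n = l
      · rw [if_pos h1]; omega
      · rw [if_neg h1]
        by_cases h2 : n = m
        · rw [if_pos h2, h2, if_neg (by rw [← h2]; exact h1)]; omega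
        · rw [if_neg h2]
          by_cases h3 : m = l
          · rw [if_pos h3, h3]; omega
          · rw [if_neg h3]
            obtain ⟨z, hz⟩ := hmem n m
            obtain ⟨w, hw⟩ := hmem m l
            rw [hz, hw]
            have h4 := hle n l w
            have h5 := hlip n w z
            have h6 := hsum m w z
            omega

end amal

variable (B : Base k X)

namespace Base

/-- finitely supported distance functions -/
def Kat : Type := {c : X →₀ ℕ // c.support.Nonempty ∧
  ∀ a ∈ c.support, ∀ b ∈ c.support, B.D a b ≤ c a + c b}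

variable {B}

/-- extension of a finitely supported distance function -/
noncomputable def Kat.f (c : B.Kat) (x : X) : ℕ :=
  sInf (Set.range fun a : {a // a ∈ c.1.support} => c.1 a + B.D a x)

lemma Kat.f_mem (c : B.Kat) (x : X) : ∃ a ∈ c.1.support, c.f x = c.1 a + B.D a x := by
  have h : (Set.range fun a : {a // a ∈ c.1.support} => c.1 a + B.D a x).Nonempty := by
    obtain ⟨a, ha⟩ := c.2.1
    exact ⟨_, ⟨⟨a, ha⟩, rfl⟩⟩
  obtain ⟨⟨a, ha⟩, h1⟩ := Nat.sInf_mem h
  exact ⟨a, ha, h1.symm⟩

lemma Kat.f_le (c : B.Kat) (x : X) {a : X} (ha : a ∈ c.1.support) : c.f x ≤ c.1 a + B.D a x :=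
  Nat.sInf_le ⟨⟨a, ha⟩, rfl⟩

lemma Kat.f_pos (c : B.Kat) (x : X) : 0 < c.f x := by
  obtain ⟨a, ha, h⟩ := c.f_mem x
  have : c.1 a ≠ 0 := Finsupp.mem_support_iff.1 ha
  omega

lemma Kat.f_lip (c : B.Kat) (x y : X) : c.f x ≤ c.f y + B.D x y := by
  obtain ⟨a, ha, h⟩ := c.f_mem y
  have h1 := c.f_le x ha
  have h2 := B.met.tri a y x
  rw [B.met.symm y x] at h2
  omega

lemma Kat.f_sum (c : B.Kat) (x y : X) : B.D x y ≤ c.f x + c.f y := by
  obtain ⟨a, ha, h⟩ := c.f_mem x
  obtain ⟨b, hb, h'⟩ := c.f_mem y
  have h1 := c.2.2 a ha b hb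
  have h2 := B.met.tri x a y
  have h3 := B.met.tri a b y
  rw [B.met.symm x a] at h2
  omega

lemma Kat.f_eq (c : B.Kat) (hc : ∀ a ∈ c.1.support, ∀ b ∈ c.1.support, c.1 a ≤ c.1 b + B.D b a)
    {a : X} (ha : a ∈ c.1.support) : c.f a = c.1 a := by
  apply le_antisymm
  · have := c.f_le a ha
    rwa [(B.met.zero_iff a a).2 rfl, add_zero] at this
  · obtain ⟨b, hb, h⟩ := c.f_mem a
    rw [h]
    exact hc a ha b hb

/-- distances from the new points to the old ones -/
noncomputable def newf (n : B.G × B.Kat) (x : X) : ℕ := n.2.f ((n.1⁻¹ : Equiv.Perm X) x)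

variable (B) in
/-- the action on the enlarged space -/
def extHom : B.G →* Equiv.Perm (X ⊕ (B.G × B.Kat)) where
  toFun g := Equiv.sumCongr g.1 (Equiv.prodCongr (Equiv.mulLeft g) (Equiv.refl _))
  map_one' := by
    ext u
    rcases u with x | ⟨h, c⟩
    · rfl
    · simp
  map_mul' g g' := by
    ext u
    rcases u with x | ⟨h, c⟩
    · rfl
    · simp [mul_assoc]

lemma extHom_inl (g : B.G) (x : X) : B.extHom g (Sum.inl x) = Sum.inl (g.1 x) := rfl

lemma extHom_inr (g : B.G) (h : B.G) (c : B.Kat) :
    B.extHom g (Sum.inr (h, c)) = Sum.inr (g * h, c) := rfl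

lemma newf_smul (g h : B.G) (c : B.Kat) (x : X) : newf (g * h, c) (g.1 x) = newf (h, c) x := by
  unfold newf
  congr 1
  simp [mul_inv_rev]

lemma extHom_iso (g : B.G) (u v : X ⊕ (B.G × B.Kat)) :
    amal B.D newf (B.extHom g u) (B.extHom g v) = amal B.D newf u v := by
  rcases u with x | ⟨h, c⟩ <;> rcases v with y | ⟨h', c'⟩
  · exact B.iso g.1 g.2 x y
  · exact newf_smul g h' c' x
  · exact newf_smul g h c y
  · rw [extHom_inr, extHom_inr]
    have h1 : (g * h, c) = (g * h', c') ↔ (h, c) = (h', c') := by simp
    by_cases h2 : (h, c) = (h', c')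
    · rw [h1.2 h2, h2, amal_inr_self, amal_inr_self]
    · rw [amal_inr_ne h2, amal_inr_ne (fun h3 => h2 (h1.1 h3))]
      congr 1
      rw [← g.1.surjective.range_comp]
      congr 1
      funext z
      change newf (g * h, c) (g.1 z) + newf (g * h', c') (g.1 z) = _
      rw [newf_smul, newf_smul]

lemma free_inr {g : B.G} {n : B.G × B.Kat} (h : B.extHom g (Sum.inr n) = Sum.inr n) : g = 1 := by
  obtain ⟨h', c⟩ := n
  rw [extHom_inr] at h
  have := Sum.inr.inj h
  simpa using this

variable (B) in
/-- the enlarged space -/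
noncomputable def ext : Base k (X ⊕ (B.G × B.Kat)) where
  D := amal B.D newf
  G := B.extHom.range
  hk := B.hk
  inf := by
    have := B.inf
    exact Infinite.of_injective (Sum.inl : X → X ⊕ (B.G × B.Kat)) Sum.inl_injective
  met := by
    have : Nonempty X := B.inf.nonempty
    refine amal_isMet B.met (fun n x => n.2.f_pos _) (fun n x y => ?_) (fun n x y => ?_)
    · unfold newf
      rw [← B.iso _ (B.G.inv_mem n.1.2) x y]
      exact n.2.f_lip _ _
    · unfold newf
      rw [← B.iso _ (B.G.inv_mem n.1.2) x y]
      exact n.2.f_sum _ _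
  iso := by
    rintro _ ⟨g, rfl⟩ u v
    exact extHom_iso g u v
  rig := by
    rintro _ ⟨g, rfl⟩ p hp h
    have : g = 1 := by
      by_cases hi : ∃ i n, p i = Sum.inr n
      · obtain ⟨i, n, hin⟩ := hi
        have := h i
        rw [hin] at this
        exact free_inr this
      · have h1 : ∀ i, ∃ x, p i = Sum.inl x := by
          intro i
          rcases hpi : p i with x | n
          · exact ⟨x, rfl⟩
          · exact absurd ⟨i, n, hpi⟩ hi
        choose x hx using h1
        apply Subtype.ext
        apply B.rig g.1 g.2 x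
        · intro i j hij
          apply hp
          rw [hx, hx, hij]
        · intro i
          have := h i
          rw [hx, extHom_inl] at this
          exact Sum.inl.inj this
    rw [this, map_one]
  tors := by
    rintro N j h1 h2 h3 _ ⟨g, rfl⟩ hN p hp h
    have hinj : Injective B.extHom := by
      intro a b hab
      apply Subtype.ext
      ext x
      have := congrArg (fun F : Equiv.Perm (X ⊕ (B.G × B.Kat)) => F (Sum.inl x)) hab
      exact Sum.inl.inj this
    have hgN : g ^ N = 1 := by
      apply hinj
      rw [map_pow, hN, map_one]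
    have : g = 1 := by
      by_cases hi : ∃ i n, p i = Sum.inr n
      · obtain ⟨i, n, hin⟩ := hi
        have := h i
        rw [hin] at this
        exact free_inr this
      · have h1' : ∀ i, ∃ x, p i = Sum.inl x := by
          intro i
          rcases hpi : p i with x | n
          · exact ⟨x, rfl⟩
          · exact absurd ⟨i, n, hpi⟩ hi
        choose x hx using h1'
        apply Subtype.ext
        apply B.tors N j h1 h2 h3 g.1 g.2 _ x
        · intro i j hij
          apply hp
          rw [hx, hx, hij]
        · intro i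
          have := h i
          rw [hx, extHom_inl] at this
          exact Sum.inl.inj this
        · have := congrArg Subtype.val hgN
          simpa using this
    rw [this, map_one]

lemma ext_dist (a b : X) : B.ext.D (Sum.inl a) (Sum.inl b) = B.D a b := rfl

lemma ext_ext (g : Equiv.Perm X) (hg : g ∈ B.G) :
    ∃ F ∈ B.ext.G, ∀ x, F (Sum.inl x) = Sum.inl (g x) :=
  ⟨B.extHom ⟨g, hg⟩, ⟨_, rfl⟩, fun _ => rfl⟩

/-- realisation of distance functions -/
lemma ext_real (A : Finset X) (hA : A.Nonempty) (c : X → ℕ) (hpos : ∀ a ∈ A, 0 < c a)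
    (h1 : ∀ a ∈ A, ∀ b ∈ A, B.D a b ≤ c a + c b) (h2 : ∀ a ∈ A, ∀ b ∈ A, c a ≤ c b + B.D b a) :
    ∃ z, ∀ a ∈ A, B.ext.D z (Sum.inl a) = c a := by
  let c' : X →₀ ℕ := Finsupp.onFinset A (fun x => if x ∈ A then c x else 0) (fun x hx => by
    by_contra hxA
    simp [hxA] at hx)
  have hsupp : c'.support = A := by
    ext x
    rw [Finsupp.mem_support_iff, Finsupp.onFinset_apply]
    constructor
    · intro hx
      by_contra hxA
      simp [hxA] at hx
    · intro hx
      rw [if_pos hx]
      exact (hpos x hx).ne'
  have hval : ∀ a ∈ A, c' a = c a := fun a ha => by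
    rw [Finsupp.onFinset_apply, if_pos ha]
  let κ : B.Kat := ⟨c', by rw [hsupp]; exact hA, fun a ha b hb => by
    rw [hsupp] at ha hb
    rw [hval a ha, hval b hb]
    exact h1 a ha b hb⟩
  refine ⟨Sum.inr (1, κ), fun a ha => ?_⟩
  change κ.f a = c a
  rw [κ.f_eq (fun a ha b hb => ?_) (by change a ∈ c'.support; rw [hsupp]; exact ha)]
  · exact hval a ha
  · change a ∈ c'.support at ha
    change b ∈ c'.support at hb
    rw [hsupp] at ha hb
    change c' a ≤ c' b + _
    rw [hval a ha, hval b hb]
    exact h2 a ha b hb

/-- multiplying the metric -/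
noncomputable def scale (B : Base k X) (m : ℕ) (hm : 0 < m) : Base k X where
  D x y := m * B.D x y
  G := B.G
  hk := B.hk
  inf := B.inf
  met := by
    refine ⟨fun x y => ?_, fun x y => ?_, fun x y z => ?_⟩
    · rw [mul_eq_zero, B.met.zero_iff]
      constructor
      · rintro (h | h)
        · omega
        · exact h
      · exact Or.inr
    · rw [B.met.symm]
    · rw [← mul_add]
      exact Nat.mul_le_mul_left m (B.met.tri x y z)
  iso g hg x y := by rw [B.iso g hg]
  rig := B.rig
  tors := B.tors

end Base

end Pool.Agent.Helper37.SK
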