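import Mathlib
import Pool.Agent.Helper37.SKDefs

namespace Pool.Agent.Helper37.SK

/-- extension (Katetov) property -/
def ExtProp (U : Type) [MetricSpace U] : Prop :=
  ∀ (A : Finset U) (f : U → ℚ), (∀ a ∈ A, 0 < f a) →
    (∀ a ∈ A, ∀ b ∈ A, |(f a : ℝ) - f b| ≤ dist a b ∧ dist a b ≤ f a + f b) →
    ∃ z : U, ∀ a ∈ A, dist z a = f a

/-- finite partial isometry, as a finite set of pairs -/
def IsPI {U V : Type} [MetricSpace U] [MetricSpace V] (S : Finset (U × V)) : Prop :=
  ∀ p ∈ S, ∀ q ∈ S, dist p.1 q.1 = dist p.2 q.2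

theorem one_point {U V : Type} [MetricSpace U] [MetricSpace V]
    (rU : ∀ x y : U, ∃ q : ℚ, dist x y = q) (eV : ExtProp V) (S : Finset (U × V))
    (hS : IsPI S) (u : U) : ∃ v : V, ∀ p ∈ S, dist u p.1 = dist v p.2 := by
  classical
  by_cases hu : ∃ p ∈ S, p.1 = u
  · obtain ⟨p, hp, rfl⟩ := hu
    exact ⟨p.2, fun q hq => hS p hp q hq⟩
  · choose r hr using rU u
    let f : V → ℚ := fun b => if h : ∃ a, (a, b) ∈ S then r h.choose else 1
    have hf : ∀ a b, (a, b) ∈ S → f b = r a := by
      intro a b hab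
      have h : ∃ a, (a, b) ∈ S := ⟨a, hab⟩
      have h2 := h.choose_spec
      have h3 : h.choose = a := by
        have := hS _ h2 _ hab
        simpa using this
      simp only [f, dif_pos h, h3]
    have hpos : ∀ b ∈ S.image Prod.snd, 0 < f b := by
      intro b hb
      obtain ⟨⟨a, b'⟩, hab, rfl⟩ := Finset.mem_image.mp hb
      rw [hf a _ hab]
      have h1 : (0 : ℝ) < dist u a := dist_pos.mpr fun h => hu ⟨_, hab, h.symm⟩
      rw [hr a] at h1
      exact_mod_cast h1
    have hkat : ∀ a ∈ S.image Prod.snd, ∀ b ∈ S.image Prod.snd,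
        |(f a : ℝ) - f b| ≤ dist a b ∧ dist a b ≤ f a + f b := by
      intro b hb b' hb'
      obtain ⟨⟨a, c⟩, hab, rfl⟩ := Finset.mem_image.mp hb
      obtain ⟨⟨a', c'⟩, hab', rfl⟩ := Finset.mem_image.mp hb'
      rw [hf a _ hab, hf a' _ hab', ← hr a, ← hr a']
      have h := hS _ hab _ hab'
      simp only at h ⊢
      rw [← h]
      constructor
      · rw [dist_comm u a, dist_comm u a']
        exact abs_dist_sub_le a a' u
      · exact dist_triangle_left a a' u
    obtain ⟨z, hz⟩ := eV (S.image Prod.snd) f hpos hkat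
    refine ⟨z, fun p hp => ?_⟩
    rw [hz p.2 (Finset.mem_image_of_mem _ hp), hf p.1 p.2 hp, hr]

theorem IsPI.insert {U V : Type} [MetricSpace U] [MetricSpace V] [DecidableEq (U × V)]
    {S : Finset (U × V)} (hS : IsPI S) {u : U} {v : V}
    (h : ∀ p ∈ S, dist u p.1 = dist v p.2) : IsPI (insert (u, v) S) := by
  intro p hp q hq
  rcases Finset.mem_insert.mp hp with rfl | hp
  · rcases Finset.mem_insert.mp hq with rfl | hq
    · simp
    · exact h q hq
  · rcases Finset.mem_insert.mp hq with rfl | hq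
    · rw [dist_comm p.1, dist_comm p.2]
      exact h p hp
    · exact hS p hp q hq

theorem extend_left {U V : Type} [MetricSpace U] [MetricSpace V]
    (rU : ∀ x y : U, ∃ q : ℚ, dist x y = q) (eV : ExtProp V) (S : Finset (U × V))
    (hS : IsPI S) (u : U) : ∃ S' : Finset (U × V), S ⊆ S' ∧ IsPI S' ∧ ∃ v, (u, v) ∈ S' := by
  classical
  obtain ⟨v, hv⟩ := one_point rU eV S hS u
  exact ⟨insert (u, v) S, Finset.subset_insert _ _, hS.insert hv, v, Finset.mem_insert_self _ _⟩

theorem extend_right {U V : Type} [MetricSpace U] [MetricSpace V]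
    (rV : ∀ x y : V, ∃ q : ℚ, dist x y = q) (eU : ExtProp U) (S : Finset (U × V))
    (hS : IsPI S) (v : V) : ∃ S' : Finset (U × V), S ⊆ S' ∧ IsPI S' ∧ ∃ u, (u, v) ∈ S' := by
  classical
  have hT : IsPI (S.image Prod.swap) := by
    intro p hp q hq
    obtain ⟨p', hp', rfl⟩ := Finset.mem_image.mp hp
    obtain ⟨q', hq', rfl⟩ := Finset.mem_image.mp hq
    exact (hS p' hp' q' hq').symm
  obtain ⟨u, hu⟩ := one_point rV eU (S.image Prod.swap) hT v
  refine ⟨insert (u, v) S, Finset.subset_insert _ _, hS.insert ?_, u, Finset.mem_insert_self _ _⟩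
  intro p hp
  exact (hu p.swap (Finset.mem_image_of_mem _ hp)).symm

theorem extend_both {U V : Type} [MetricSpace U] [MetricSpace V]
    (rU : ∀ x y : U, ∃ q : ℚ, dist x y = q) (rV : ∀ x y : V, ∃ q : ℚ, dist x y = q)
    (eU : ExtProp U) (eV : ExtProp V) (u : U) (v : V)
    (S : {S : Finset (U × V) // IsPI S}) :
    ∃ S' : {S : Finset (U × V) // IsPI S}, S.1 ⊆ S'.1 ∧ (∃ v, (u, v) ∈ S'.1) ∧
      ∃ u, (u, v) ∈ S'.1 := by
  obtain ⟨S1, h1, hp1, v', hv'⟩ := extend_left rU eV S.1 S.2 u
  obtain ⟨S2, h2, hp2, u', hu'⟩ := extend_right rV eU S1 hp1 v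
  exact ⟨⟨S2, hp2⟩, h1.trans h2, ⟨v', h2 hv'⟩, u', hu'⟩

theorem exists_equiv_of_ext (U V : Type) [MetricSpace U] [MetricSpace V] [Countable U]
    [Countable V] (rU : ∀ x y : U, ∃ q : ℚ, dist x y = q)
    (rV : ∀ x y : V, ∃ q : ℚ, dist x y = q) (eU : ExtProp U) (eV : ExtProp V)
    (A : Finset U) (f : A → V) (hf : Isometry f) : ∃ F : U ≃ᵢ V, ∀ a : A, F a = f a := by
  classical
  have : Nonempty U := by
    obtain ⟨z, -⟩ := eU ∅ (fun _ => 1) (by simp) (by simp)
    exact ⟨z⟩
  have : Nonempty V := by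
    obtain ⟨z, -⟩ := eV ∅ (fun _ => 1) (by simp) (by simp)
    exact ⟨z⟩
  obtain ⟨eu, heu⟩ := exists_surjective_nat U
  obtain ⟨ev, hev⟩ := exists_surjective_nat V
  -- initial partial isometry
  let S0 : Finset (U × V) := A.attach.image fun a => (a.1, f a)
  have hS0 : IsPI S0 := by
    intro p hp q hq
    obtain ⟨a, -, rfl⟩ := Finset.mem_image.mp hp
    obtain ⟨b, -, rfl⟩ := Finset.mem_image.mp hq
    exact (hf.dist_eq a b).symm
  choose nxt hsub hl hr using fun (u : U) (v : V) (S : {S : Finset (U × V) // IsPI S}) =>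
    extend_both rU rV eU eV u v S
  let T : ℕ → {S : Finset (U × V) // IsPI S} := fun n =>
    Nat.rec ⟨S0, hS0⟩ (fun n S => nxt (eu n) (ev n) S) n
  have hT0 : (T 0).1 = S0 := rfl
  have hTs : ∀ n, T (n + 1) = nxt (eu n) (ev n) (T n) := fun n => rfl
  have hmono : Monotone fun n => (T n).1 := by
    refine monotone_nat_of_le_succ fun n => ?_
    rw [hTs]
    exact hsub _ _ _
  let R : U → V → Prop := fun u v => ∃ n, (u, v) ∈ (T n).1
  have hR : ∀ u v u' v', R u v → R u' v' → dist u u' = dist v v' := by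
    rintro u v u' v' ⟨n, hn⟩ ⟨m, hm⟩
    exact (T (max n m)).2 _ (hmono (le_max_left n m) hn) _ (hmono (le_max_right n m) hm)
  have hRl : ∀ u, ∃ v, R u v := by
    intro u
    obtain ⟨n, rfl⟩ := heu u
    obtain ⟨v, hv⟩ := hl (eu n) (ev n) (T n)
    exact ⟨v, n + 1, by rw [hTs]; exact hv⟩
  have hRr : ∀ v, ∃ u, R u v := by
    intro v
    obtain ⟨n, rfl⟩ := hev v
    obtain ⟨u, hu⟩ := hr (eu n) (ev n) (T n)
    exact ⟨u, n + 1, by rw [hTs]; exact hu⟩
  choose F hF using hRl
  choose G hG using hRr
  have hFG : ∀ v, F (G v) = v := by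
    intro v
    have := hR _ _ _ _ (hF (G v)) (hG v)
    rw [dist_self] at this
    exact dist_eq_zero.mp this.symm
  have hGF : ∀ u, G (F u) = u := by
    intro u
    have := hR _ _ _ _ (hG (F u)) (hF u)
    rw [dist_self] at this
    exact dist_eq_zero.mp this
  have hiso : Isometry F := Isometry.of_dist_eq fun x y => (hR _ _ _ _ (hF x) (hF y)).symm
  refine ⟨⟨⟨F, G, hGF, hFG⟩, hiso⟩, fun a => ?_⟩
  have h0 : R a.1 (f a) := ⟨0, by
    rw [hT0]
    exact Finset.mem_image_of_mem _ (Finset.mem_attach _ a)⟩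
  have := hR _ _ _ _ (hF a.1) h0
  rw [dist_self] at this
  exact dist_eq_zero.mp this.symm

theorem universal_of_ext (U : Type) [MetricSpace U] (eU : ExtProp U)
    (Y : Type) [MetricSpace Y] [Finite Y] (rY : ∀ x y : Y, ∃ q : ℚ, dist x y = q) :
    ∃ e : Y → U, Isometry e := by
  classical
  have := Fintype.ofFinite Y
  have key : ∀ T : Finset Y, ∃ S : Finset (Y × U), IsPI S ∧ ∀ y ∈ T, ∃ u, (y, u) ∈ S := by
    intro T
    induction T using Finset.induction_on with
    | empty => exact ⟨∅, by intro p hp; simp at hp, by simp⟩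
    | insert y T _ ih =>
      obtain ⟨S, hS, hT⟩ := ih
      obtain ⟨S', hsub, hS', u, hu⟩ := extend_left rY eU S hS y
      refine ⟨S', hS', fun x hx => ?_⟩
      rcases Finset.mem_insert.mp hx with rfl | hx
      · exact ⟨u, hu⟩
      · obtain ⟨w, hw⟩ := hT x hx
        exact ⟨w, hsub hw⟩
  obtain ⟨S, hS, hT⟩ := key Finset.univ
  choose e he using fun y => hT y (Finset.mem_univ y)
  exact ⟨e, Isometry.of_dist_eq fun x y => (hS _ (he x) _ (he y)).symm⟩

theorem isRationalUrysohn_of_ext (U : Type) [MetricSpace U] (hc : Countable U)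
    (rU : ∀ x y : U, ∃ q : ℚ, dist x y = q) (eU : ExtProp U) : IsRationalUrysohn U where
  countable := hc
  rational := rU
  ultrahomogeneous := fun A f hf => exists_equiv_of_ext U U rU rU eU eU A f hf
  universal := fun Y _ _ rY => universal_of_ext U eU Y rY

/-- distances in the one-point extension -/
noncomputable def optDist {U : Type} [MetricSpace U] (A : Finset U) (f : U → ℚ) :
    Option A → Option A → ℝ
  | none, none => 0
  | none, some a => f a
  | some a, none => f a
  | some a, some b => dist (a : U) b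

theorem IsRationalUrysohn.ext (U : Type) [MetricSpace U] (h : IsRationalUrysohn U) :
    ExtProp U := by
  classical
  intro A f hpos hkat
  letI : MetricSpace (Option A) :=
    { dist := optDist A f
      dist_self := by rintro (_ | a) <;> simp [optDist]
      dist_comm := by rintro (_ | a) (_ | b) <;> simp [optDist, dist_comm]
      dist_triangle := by
        rintro (_ | a) (_ | b) (_ | c)
        · simp [optDist]
        · simp [optDist]
        · simp only [optDist]
          have := hpos b b.2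
          have : (0 : ℝ) < f b := by exact_mod_cast this
          linarith
        · simp only [optDist]
          have := (abs_le.mp (hkat b b.2 c c.2).1).1
          linarith
        · simp [optDist]
        · simp only [optDist]
          exact (hkat a a.2 c c.2).2
        · simp only [optDist]
          have := (abs_le.mp (hkat a a.2 b b.2).1).2
          linarith
        · simp only [optDist]
          exact dist_triangle _ _ _
      eq_of_dist_eq_zero := by
        rintro (_ | a) (_ | b) hab
        · rfl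
        · exfalso
          have h1 : ((f b : ℚ) : ℝ) = 0 := hab
          have h2 : f b = 0 := by exact_mod_cast h1
          have := hpos b b.2
          rw [h2] at this
          exact lt_irrefl _ this
        · exfalso
          have h1 : ((f a : ℚ) : ℝ) = 0 := hab
          have h2 : f a = 0 := by exact_mod_cast h1
          have := hpos a a.2
          rw [h2] at this
          exact lt_irrefl _ this
        · have h1 : dist (a : U) b = 0 := hab
          have h2 : (a : U) = b := dist_eq_zero.mp h1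
          exact congrArg some (Subtype.ext h2) }
  have hrat : ∀ x y : Option A, ∃ q : ℚ, dist x y = q := by
    rintro (_ | a) (_ | b)
    · exact ⟨0, by simp⟩
    · exact ⟨f b, rfl⟩
    · exact ⟨f a, rfl⟩
    · exact h.rational a b
  obtain ⟨e, he⟩ := h.universal (Option A) hrat
  obtain ⟨F, hF⟩ := h.ultrahomogeneous A (fun a => e (some a)) (by
    refine Isometry.of_dist_eq fun a b => ?_
    rw [he.dist_eq]
    rfl)
  refine ⟨F.symm (e none), fun a ha => ?_⟩
  have h1 : dist (F.symm (e none)) a = dist (e none) (F a) := by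
    rw [← F.dist_eq, F.apply_symm_apply]
  rw [h1, hF ⟨a, ha⟩, he.dist_eq]
  rfl

end Pool.Agent.Helper37.SK
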