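import Pool.Agent.Helper37.SKLimit
import Pool.Agent.Helper37.SKUrysohn

namespace Pool.Agent.Helper37.SK

open Classical Function

/-- transport of a sharply transitive group along an isometry -/
lemma SharplyTransitive.transport {U V : Type} [MetricSpace U] [MetricSpace V] {k : ℕ}
    {G : Subgroup (U ≃ᵢ U)} (h : SharplyTransitive U k G) (e : U ≃ᵢ V) :
    ∃ H : Subgroup (V ≃ᵢ V), SharplyTransitive V k H := by
  refine ⟨
    { carrier := {F | (e.trans F).trans e.symm ∈ G}
      mul_mem' := ?_
      one_mem' := ?_
      inv_mem' := ?_ }, ?_⟩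
  · intro F F' hF hF'
    have := G.mul_mem hF hF'
    change (e.trans (F * F')).trans e.symm ∈ G
    convert this using 1
    ext x
    change e.symm (F (F' (e x))) = e.symm (F (e (e.symm (F' (e x)))))
    rw [e.apply_symm_apply]
  · change (e.trans 1).trans e.symm ∈ G
    convert G.one_mem using 1
    ext x
    change e.symm (e x) = x
    exact e.symm_apply_apply x
  · intro F hF
    have := G.inv_mem hF
    change (e.trans F⁻¹).trans e.symm ∈ G
    convert this using 1
    ext x
    rfl
  · intro a b ha hb hab
    obtain ⟨g, ⟨hg, h1⟩, h2⟩ := h (fun i => e.symm (a i)) (fun i => e.symm (b i))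
      (e.symm.injective.comp ha) (e.symm.injective.comp hb) (fun i j => by
        rw [e.symm.dist_eq, e.symm.dist_eq]; exact hab i j)
    refine ⟨(e.symm.trans g).trans e, ⟨?_, fun i => ?_⟩, ?_⟩
    · change (e.trans ((e.symm.trans g).trans e)).trans e.symm ∈ G
      convert hg using 1
      ext x
      change e.symm (e (g (e.symm (e x)))) = g x
      rw [e.symm_apply_apply, e.symm_apply_apply]
    · change e (g (e.symm (a i))) = b i
      rw [h1, e.apply_symm_apply]
    · rintro F ⟨hF, hFa⟩
      have h3 := h2 ((e.trans F).trans e.symm) ⟨hF, fun i => by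
        change e.symm (F (e (e.symm (a i)))) = e.symm (b i)
        rw [e.apply_symm_apply, hFa]⟩
      ext y
      change F y = e (g (e.symm y))
      rw [← h3]
      change F y = e (e.symm (F (e (e.symm y))))
      rw [e.apply_symm_apply, e.apply_symm_apply]

theorem main : (∃ (U : Type) (_ : MetricSpace U), IsRationalUrysohn U) ∧
    ∀ (U : Type) [MetricSpace U], IsRationalUrysohn U → ∀ k : ℕ, k = 2 ∨ k = 3 →
      ∃ G : Subgroup (U ≃ᵢ U), SharplyTransitive U k G := by
  have hU : ∀ k (hk : k = 2 ∨ k = 3), IsRationalUrysohn (tower k hk).U := fun k hk =>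
    isRationalUrysohn_of_ext _ (tower k hk).countable_U (tower k hk).rational_U
      (fun A f h1 h2 => (tower k hk).realise A f h1 h2)
  refine ⟨⟨_, inferInstance, hU 2 (Or.inl rfl)⟩, ?_⟩
  intro V _ hV k hk
  have c1 := (tower k hk).countable_U
  have c2 := hV.countable
  obtain ⟨F, -⟩ := exists_equiv_of_ext (tower k hk).U V (tower k hk).rational_U hV.rational
    (fun A f h1 h2 => (tower k hk).realise A f h1 h2) (IsRationalUrysohn.ext V hV) ∅
    (fun a => absurd a.2 (Finset.notMem_empty _)) (fun a => absurd a.2 (Finset.notMem_empty _))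
  exact (tower k hk).sharply.transport F

end Pool.Agent.Helper37.SK
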