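import Pool.Agent.Helper37.SKChart

namespace Pool.Agent.Helper37.SK

open Classical Function

variable {k : ℕ} {X : Type} {B : Base k X}

namespace Base

lemma Grp.isChart {F : Equiv.Perm B.Pt} (hF : F ∈ B.Grp) {ψ : X → B.Pt} (hψ : IsChart ψ) :
    IsChart (fun x => F (ψ x)) := hF.1 ψ hψ

lemma conj_eq_one {F E : Equiv.Perm B.Pt} (h : E⁻¹ * F * E = 1) : F = 1 := by
  have : F = E * (E⁻¹ * F * E) * E⁻¹ := by group
  rw [this, h]; group

lemma exists_root_form {F : Equiv.Perm B.Pt} (hF : F ∈ B.Grp) :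
    ∃ (w : List B.Letter) (g : Equiv.Perm X), Red w ∧ g ∈ B.G ∧ ∀ x, F (phi [] x) = phi w (g x) := by
  obtain ⟨w, g, hw, hg, h⟩ := Grp.isChart hF (isChart_phi (B := B) Red.nil)
  exact ⟨w, g, hw, hg, fun x => congrFun h x⟩

lemma red_singleton (m : B.Letter) : Red [m] := ⟨frame_ne_empty m.p B, trivial⟩

lemma eq_of_phi_eq {v w : List B.Letter} {x y : X} (hv : Red v) (hw : Red w) (hx : x ∉ tgt v)
    (hy : y ∉ tgt w) (h : phi v x = phi w y) : v = w ∧ x = y := by
  rw [phi_eq_iff hv hw, nf_of_notMem _ _ hx, nf_of_notMem _ _ hy] at h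
  exact ⟨(Prod.ext_iff.1 h).1, (Prod.ext_iff.1 h).2⟩

lemma exists_rep (z : B.Pt) : ∃ v x, Red v ∧ x ∉ tgt v ∧ z = phi v x :=
  ⟨z.1.1, z.1.2, z.2.1, z.2.2, (phi_self z).symm⟩

lemma conj_mem {F E : Equiv.Perm B.Pt} (hF : F ∈ B.Grp) (hE : E ∈ B.Grp) : E⁻¹ * F * E ∈ B.Grp :=
  B.Grp.mul_mem (B.Grp.mul_mem (B.Grp.inv_mem hE) hF) hE

lemma conj_apply {F E : Equiv.Perm B.Pt} {z y : B.Pt} : (E⁻¹ * F * E) z = y ↔ F (E z) = E y := by
  change E.symm (F (E z)) = y ↔ _
  rw [Equiv.symm_apply_eq]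

/-- an element fixing a point, and an object in a chart, not contained with the point in a common
chart, is trivial (object at the root) -/
lemma fix_far_aux {α : Type} (π : α → α) (N : ℕ) : ∀ F ∈ B.Grp, ∀ o : α → X,
    (∀ a, F (phi [] (o a)) = phi [] (o (π a))) → ∀ v x, Red v → x ∉ tgt v → v.length = N →
    F (phi v x) = phi v x →
    (∀ χ : X → B.Pt, IsChart χ →
      ¬ ((∀ a, phi [] (o a) ∈ Set.range χ) ∧ phi v x ∈ Set.range χ)) → F = 1 := by
  induction N using Nat.strong_induction_on with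
  | _ N ih =>
  intro F hF o ho v x hv hx hvN hFz hfar
  obtain ⟨w, g, hw, hg, hwg⟩ := exists_root_form hF
  rcases v.eq_nil_or_concat with hv0 | ⟨v0, m, hv0⟩
  · exfalso
    apply hfar (phi []) (isChart_phi Red.nil)
    exact ⟨fun a => ⟨_, rfl⟩, ⟨x, by rw [hv0]⟩⟩
  · rw [List.concat_eq_append] at hv0
    have hlast : v.getLast? = some m := by rw [hv0]; simp
    by_cases hc : g '' Set.range m.p = tgt w
    · -- cancellation: re-root
      have h1 : ∀ a, o a ∈ Set.range m.p := by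
        intro a
        have h2 : g (o a) ∈ tgt w := by
          apply mem_tgt_of_nf_ne
          intro h3
          have h4 := ho a
          rw [hwg, phi_eq_iff hw Red.nil] at h4
          rw [h4] at h3
          simp only [nf_nil] at h3
          rw [← h3] at hc
          have : g (m.p ⟨0, B.kpos⟩) ∈ g '' Set.range m.p := ⟨_, ⟨_, rfl⟩, rfl⟩
          rw [hc] at this
          exact this
        rw [← hc] at h2
        obtain ⟨y, hy, hy2⟩ := h2
        rwa [← g.injective hy2]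
      choose j hj using h1
      obtain ⟨E, hE, hE1⟩ := exists_elt_root (isChart_phi (red_singleton m))
      have hE2 : ∀ i, E (phi [] (m.q i)) = phi [] (m.p i) := fun i => by
        rw [hE1, phi_cons_q (red_singleton m)]
      have hv0r : Red v0 := Red.left (w := [m]) (by rw [← hv0]; exact hv)
      have hEz : E (phi v0 x) = phi v x := by
        rw [Endo.append hE.1 hE1 v0 (by rw [← hv0]; exact hv) hv0r, ← hv0]
      apply conj_eq_one (E := E)
      obtain ⟨u, y, hu, hy, huy⟩ := exists_rep (phi v0 x)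
      have hul : u.length < N := by
        have h5 : (phi v0 x).1 = (phi u y).1 := by rw [huy]
        rw [phi_val hu, phi_val hv0r, nf_of_notMem u y hy] at h5
        have h6 := (nf_suffix v0 x).length_le
        rw [h5] at h6
        have : v.length = v0.length + 1 := by rw [hv0]; simp
        simp only at h6
        omega
      refine ih u.length hul _ (conj_mem hF hE) (fun a => m.q (j a)) (fun a => ?_) u y hu hy rfl
        ?_ ?_
      · rw [conj_apply, hE2, hE2, hj, hj, ho]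
      · rw [← huy, conj_apply, hEz, hFz]
      · intro χ hχ ⟨h5, h6⟩
        apply hfar (fun x => E (χ x)) (Grp.isChart hE hχ)
        constructor
        · intro a
          obtain ⟨b, hb⟩ := h5 a
          refine ⟨b, ?_⟩
          change E (χ b) = _
          rw [hb, hE2, hj]
        · obtain ⟨b, hb⟩ := h6
          refine ⟨b, ?_⟩
          change E (χ b) = _
          rw [hb, ← huy, hEz]
    · obtain ⟨v', h, hh, h1, h2, h3, h4, -⟩ := nc hF.1 hw hg hwg v hv (by
        intro m' hm'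
        rw [hlast, Option.mem_def, Option.some.injEq] at hm'
        rw [← hm']; exact hc)
      have hvne : v ≠ [] := by rw [hv0]; simp
      have h5 := h4 hvne
      have hx' : h x ∉ tgt (v' ++ w) := by
        rw [h5]
        rintro ⟨y, hy, hyx⟩
        rw [h.injective hyx] at hy
        exact hx hy
      rw [h3] at hFz
      obtain ⟨e1, e2⟩ := eq_of_phi_eq h1 hv hx' hx hFz
      have hw0 : w = [] := by
        have := congrArg List.length e1
        rw [List.length_append, h2] at this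
        exact List.length_eq_zero_iff.1 (by omega)
      have h6 : h = 1 := by
        rw [e1] at h5
        cases v with
        | nil => exact absurd rfl hvne
        | cons n v1 =>
          apply B.loc h hh n.q n.qinj _ x _ e2
          · intro i
            have : h (n.q i) ∈ tgt (n :: v1) := by rw [h5]; exact ⟨_, ⟨i, rfl⟩, rfl⟩
            obtain ⟨j, hj⟩ := this
            exact ⟨j, hj.symm⟩
          · intro i hi
            exact hx ⟨i, hi⟩
      refine Grp.eq_of_chart hF B.Grp.one_mem (isChart_phi hv) (fun y => ?_)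
      rw [h3, e1, h6]
      rfl

lemma fix_far {α : Type} {F : Equiv.Perm B.Pt} (hF : F ∈ B.Grp) {ψ : X → B.Pt} (hψ : IsChart ψ)
    (π : α → α) (o : α → X) (ho : ∀ a, F (ψ (o a)) = ψ (o (π a))) (z : B.Pt) (hz : F z = z)
    (hfar : ∀ χ : X → B.Pt, IsChart χ → ¬ ((∀ a, ψ (o a) ∈ Set.range χ) ∧ z ∈ Set.range χ)) :
    F = 1 := by
  obtain ⟨E, hE, hE1⟩ := exists_elt_root hψ
  apply conj_eq_one (E := E)
  obtain ⟨u, y, hu, hy, huy⟩ := exists_rep (E.symm z)
  refine fix_far_aux π u.length _ (conj_mem hF hE) o (fun a => ?_) u y hu hy rfl ?_ ?_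
  · rw [conj_apply, hE1, hE1, ho]
  · rw [← huy, conj_apply, Equiv.apply_symm_apply, hz]
  · intro χ hχ ⟨h5, h6⟩
    apply hfar (fun x => E (χ x)) (Grp.isChart hE hχ)
    constructor
    · intro a
      obtain ⟨b, hb⟩ := h5 a
      refine ⟨b, ?_⟩
      change E (χ b) = _
      rw [hb, hE1]
    · obtain ⟨b, hb⟩ := h6
      refine ⟨b, ?_⟩
      change E (χ b) = _
      rw [hb, ← huy, Equiv.apply_symm_apply]

lemma same_vertex_aux {v w : List B.Letter} (hv : Red v) (hw : Red w) {p r : Fin k → X} {x y : X}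
    (hp : Injective p) (h : ∀ i, phi v (p i) = phi w (r i)) (hxy : phi v x = phi w y)
    (hx : ∀ i, p i ≠ x) (hl : w.length ≤ v.length) : v = w := by
  by_contra hne
  have h1 : Set.range p = tgt v :=
    range_eq_tgt hp (fun i => mem_tgt_of_share hne hl ((phi_eq_iff hv hw _ _).1 (h i)))
  have h2 : x ∈ tgt v := mem_tgt_of_share hne hl ((phi_eq_iff hv hw _ _).1 hxy)
  rw [← h1] at h2
  obtain ⟨i, hi⟩ := h2
  exact hx i hi

/-- two charts sharing `k + 1` points have the same vertex -/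
lemma same_vertex {ψ χ : X → B.Pt} (hψ : IsChart ψ) (hχ : IsChart χ) {p r : Fin k → X} {x y : X}
    (hp : Injective p) (h : ∀ i, ψ (p i) = χ (r i)) (hxy : ψ x = χ y) (hx : ∀ i, p i ≠ x) :
    ∃ g ∈ B.G, ∀ z, χ z = ψ (g z) := by
  have hr : Injective r := by
    intro i j hij
    apply hp
    apply hψ.inj
    rw [h, h, hij]
  have hy : ∀ i, r i ≠ y := by
    intro i hi
    apply hx i
    apply hψ.inj
    rw [h, hxy, hi]
  obtain ⟨v, g, hv, hg, rfl⟩ := hψ
  obtain ⟨w, g', hw, hg', rfl⟩ := hχ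
  have hvw : v = w := by
    rcases le_total w.length v.length with hl | hl
    · exact same_vertex_aux hv hw (p := fun i => g (p i)) (r := fun i => g' (r i))
        (g.injective.comp hp) h hxy (fun i hi => hx i (g.injective hi)) hl
    · exact (same_vertex_aux hw hv (p := fun i => g' (r i)) (r := fun i => g (p i))
        (g'.injective.comp hr) (fun i => (h i).symm) hxy.symm
        (fun i hi => hy i (g'.injective hi)) hl).symm
  subst hvw
  refine ⟨g⁻¹ * g', B.G.mul_mem (B.G.inv_mem hg) hg', fun z => ?_⟩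
  simp

/-- an element preserving a frame and fixing a point outside it is trivial -/
lemma fix_frame {F : Equiv.Perm B.Pt} (hF : F ∈ B.Grp) {ψ : X → B.Pt} (hψ : IsChart ψ)
    {p : Fin k → X} (hp : Injective p) (π : Fin k → Fin k) (h : ∀ i, F (ψ (p i)) = ψ (p (π i)))
    (z : B.Pt) (hz : F z = z) (hzp : ∀ i, ψ (p i) ≠ z) : F = 1 := by
  by_cases hfar : ∃ χ : X → B.Pt, IsChart χ ∧ (∀ i, ψ (p i) ∈ Set.range χ) ∧ z ∈ Set.range χ
  · obtain ⟨χ, hχ, h1, ⟨y, hy⟩⟩ := hfar
    choose r hr using h1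
    have hrinj : Injective r := by
      intro i j hij
      apply hp
      apply hψ.inj
      rw [← hr, ← hr, hij]
    have hry : ∀ i, r i ≠ y := by
      intro i hi
      apply hzp i
      rw [← hr, hi, hy]
    obtain ⟨g, hg, h2⟩ := same_vertex hχ (Grp.isChart hF hχ) (p := fun i => r (π i)) (r := r)
      (x := y) (y := y) (by
        intro i j hij
        have h3 : π i = π j := hrinj hij
        apply hp
        apply hψ.inj
        apply F.injective
        rw [h, h, h3]) (fun i => by rw [hr, hr, h]) (by rw [hy, hz]) (fun i => hry _)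
    have h4 : g = 1 := by
      apply B.loc g hg r hrinj _ y hry
      · apply hχ.inj
        rw [← h2, hy, hz]
      · intro i
        refine ⟨π i, ?_⟩
        apply hχ.inj
        rw [← h2, hr, hr, h]
    refine Grp.eq_of_chart hF B.Grp.one_mem hχ (fun y => ?_)
    rw [h2, h4]
    rfl
  · exact fix_far hF hψ π p h z hz (fun χ hχ hh => hfar ⟨χ, hχ, hh.1, hh.2⟩)

lemma exists_frame_notMem (B : Base k X) : ∃ (p : Fin k → X) (x : X), Injective p ∧ ∀ i, p i ≠ x := by
  have := B.inf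
  let e : ℕ ↪ X := Infinite.natEmbedding X
  refine ⟨fun i => e i, e k, fun i j hij => Fin.ext (e.injective hij), fun i hi => ?_⟩
  have := e.injective hi
  omega

/-- an element preserving a chart and fixing a point outside it is trivial -/
lemma fix_chart {F : Equiv.Perm B.Pt} (hF : F ∈ B.Grp) {ψ : X → B.Pt} (hψ : IsChart ψ)
    (h : X → X) (hh : ∀ x, F (ψ x) = ψ (h x)) (z : B.Pt) (hz : F z = z) (hzp : z ∉ Set.range ψ) :
    F = 1 := by
  refine fix_far hF hψ h (fun x => x) hh z hz (fun χ hχ h1 => hzp ?_)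
  obtain ⟨p, x, hp, hx⟩ := exists_frame_notMem B
  obtain ⟨h2, ⟨y, hy⟩⟩ := h1
  choose r hr using h2
  obtain ⟨g, hg, h3⟩ := same_vertex hψ hχ (p := p) (r := fun i => r (p i)) (x := x) (y := r x)
    hp (fun i => (hr _).symm) (hr x).symm hx
  exact ⟨g y, by rw [← h3, hy]⟩

lemma mem_of_nf_append {u : List B.Letter} {m : B.Letter} {y x : X}
    (h : nf (u ++ [m]) y = ([], x)) : x ∈ Set.range m.p := by
  induction u generalizing y with
  | nil =>
    have h1 : y ∈ tgt [m] := by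
      apply mem_tgt_of_nf_ne
      rw [List.nil_append] at h
      rw [h]; simp
    obtain ⟨i, rfl⟩ := h1
    rw [List.nil_append, nf_cons_q, nf_nil] at h
    exact ⟨i, (Prod.ext_iff.1 h).2⟩
  | cons n u ih =>
    have h1 : y ∈ tgt (n :: (u ++ [m])) := by
      apply mem_tgt_of_nf_ne
      rw [List.cons_append] at h
      rw [h]; simp
    obtain ⟨i, rfl⟩ := h1
    rw [List.cons_append, nf_cons_q] at h
    exact ih h

/-- Helly property, two points at the root -/
lemma helly_aux (N : ℕ) : ∀ x1 x2 : X, ∀ (v : List B.Letter) (x : X), Red v → x ∉ tgt v →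
    v.length = N →
    (∃ χ : X → B.Pt, IsChart χ ∧ phi [] x1 ∈ Set.range χ ∧ phi v x ∈ Set.range χ) →
    (∃ χ : X → B.Pt, IsChart χ ∧ phi [] x2 ∈ Set.range χ ∧ phi v x ∈ Set.range χ) →
    ∃ χ : X → B.Pt, IsChart χ ∧ phi [] x1 ∈ Set.range χ ∧ phi [] x2 ∈ Set.range χ ∧
      phi v x ∈ Set.range χ := by
  induction N using Nat.strong_induction_on with
  | _ N ih =>
  intro x1 x2 v x hv hx hvN h1 h2
  rcases v.eq_nil_or_concat with hv0 | ⟨v0, m, hv0⟩
  · rw [hv0]
    exact ⟨phi [], isChart_phi Red.nil, ⟨_, rfl⟩, ⟨_, rfl⟩, ⟨_, rfl⟩⟩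
  · rw [List.concat_eq_append] at hv0
    have key : ∀ x1 : X, (∃ χ : X → B.Pt, IsChart χ ∧ phi [] x1 ∈ Set.range χ ∧
        phi v x ∈ Set.range χ) → x1 ∈ Set.range m.p := by
      rintro x1 ⟨χ, ⟨u, g, hu, hg, rfl⟩, ⟨y1, hy1⟩, ⟨y, hy⟩⟩
      change phi u (g y) = _ at hy
      change phi u (g y1) = _ at hy1
      rw [phi_eq_iff hu hv, nf_of_notMem v x hx] at hy
      rw [phi_eq_iff hu Red.nil, nf_nil] at hy1
      have h3 := nf_suffix u (g y)
      rw [hy] at h3
      obtain ⟨u', hu'⟩ := h3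
      simp only at hu'
      rw [← hu', hv0, ← List.append_assoc] at hy1
      exact mem_of_nf_append hy1
    obtain ⟨i1, hi1⟩ := key x1 h1
    obtain ⟨i2, hi2⟩ := key x2 h2
    obtain ⟨E, hE, hE1⟩ := exists_elt_root (isChart_phi (red_singleton m))
    have hE2 : ∀ i, E (phi [] (m.q i)) = phi [] (m.p i) := fun i => by
      rw [hE1, phi_cons_q (red_singleton m)]
    have hv0r : Red v0 := Red.left (w := [m]) (by rw [← hv0]; exact hv)
    have hEz : E (phi v0 x) = phi v x := by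
      rw [Endo.append hE.1 hE1 v0 (by rw [← hv0]; exact hv) hv0r, ← hv0]
    obtain ⟨u, y, hu, hy, huy⟩ := exists_rep (phi v0 x)
    have hul : u.length < N := by
      have h5 : (phi v0 x).1 = (phi u y).1 := by rw [huy]
      rw [phi_val hu, phi_val hv0r, nf_of_notMem u y hy] at h5
      have h6 := (nf_suffix v0 x).length_le
      rw [h5] at h6
      have : v.length = v0.length + 1 := by rw [hv0]; simp
      simp only at h6
      omega
    have conv : ∀ i (x1 : X), m.p i = x1 → (∃ χ : X → B.Pt, IsChart χ ∧ phi [] x1 ∈ Set.range χ ∧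
        phi v x ∈ Set.range χ) → ∃ χ : X → B.Pt, IsChart χ ∧ phi [] (m.q i) ∈ Set.range χ ∧
        phi u y ∈ Set.range χ := by
      rintro i x1 hi ⟨χ, hχ, ⟨a, ha⟩, ⟨b, hb⟩⟩
      refine ⟨fun x => E⁻¹ (χ x), Grp.isChart (B.Grp.inv_mem hE) hχ, ⟨a, ?_⟩, ⟨b, ?_⟩⟩
      · change E.symm (χ a) = _
        rw [ha, Equiv.symm_apply_eq, hE2, hi]
      · change E.symm (χ b) = _
        rw [hb, Equiv.symm_apply_eq, ← huy, hEz]
    obtain ⟨χ, hχ, ⟨a, ha⟩, ⟨b, hb⟩, ⟨c, hc⟩⟩ := ih u.length hul (m.q i1) (m.q i2) u y hu hy rfl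
      (conv i1 x1 hi1 h1) (conv i2 x2 hi2 h2)
    refine ⟨fun x => E (χ x), Grp.isChart hE hχ, ⟨a, ?_⟩, ⟨b, ?_⟩, ⟨c, ?_⟩⟩
    · change E (χ a) = _
      rw [ha, hE2, hi1]
    · change E (χ b) = _
      rw [hb, hE2, hi2]
    · change E (χ c) = _
      rw [hc, ← huy, hEz]

/-- Helly property -/
lemma helly {z1 z2 z3 : B.Pt}
    (h12 : ∃ χ : X → B.Pt, IsChart χ ∧ z1 ∈ Set.range χ ∧ z2 ∈ Set.range χ)
    (h13 : ∃ χ : X → B.Pt, IsChart χ ∧ z1 ∈ Set.range χ ∧ z3 ∈ Set.range χ)
    (h23 : ∃ χ : X → B.Pt, IsChart χ ∧ z2 ∈ Set.range χ ∧ z3 ∈ Set.range χ) :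
    ∃ χ : X → B.Pt, IsChart χ ∧ z1 ∈ Set.range χ ∧ z2 ∈ Set.range χ ∧ z3 ∈ Set.range χ := by
  obtain ⟨ψ, hψ, ⟨x1, hx1⟩, ⟨x2, hx2⟩⟩ := h12
  obtain ⟨E, hE, hE1⟩ := exists_elt_root hψ
  obtain ⟨u, y, hu, hy, huy⟩ := exists_rep (E.symm z3)
  have hz3 : E (phi u y) = z3 := by rw [← huy, Equiv.apply_symm_apply]
  have conv : ∀ (x1 : X) (z1 : B.Pt), ψ x1 = z1 → (∃ χ : X → B.Pt, IsChart χ ∧ z1 ∈ Set.range χ ∧
      z3 ∈ Set.range χ) → ∃ χ : X → B.Pt, IsChart χ ∧ phi [] x1 ∈ Set.range χ ∧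
      phi u y ∈ Set.range χ := by
    rintro x1 z1 hi ⟨χ, hχ, ⟨a, ha⟩, ⟨b, hb⟩⟩
    refine ⟨fun x => E⁻¹ (χ x), Grp.isChart (B.Grp.inv_mem hE) hχ, ⟨a, ?_⟩, ⟨b, ?_⟩⟩
    · change E.symm (χ a) = _
      rw [ha, Equiv.symm_apply_eq, hE1, hi]
    · change E.symm (χ b) = _
      rw [hb, Equiv.symm_apply_eq, hz3]
  obtain ⟨χ, hχ, ⟨a, ha⟩, ⟨b, hb⟩, ⟨c, hc⟩⟩ := helly_aux u.length x1 x2 u y hu hy rfl
    (conv x1 z1 hx1 h13) (conv x2 z2 hx2 h23)
  refine ⟨fun x => E (χ x), Grp.isChart hE hχ, ⟨a, ?_⟩, ⟨b, ?_⟩, ⟨c, ?_⟩⟩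
  · change E (χ a) = _
    rw [ha, hE1, hx1]
  · change E (χ b) = _
    rw [hb, hE1, hx2]
  · change E (χ c) = _
    rw [hc, hz3]

end Base

end Pool.Agent.Helper37.SK
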