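import Pool.Agent.Helper37.SKTower

namespace Pool.Agent.Helper37.SK

open Classical Function

variable {k : ℕ} (T : Tower k)

namespace Tower

noncomputable instance instMet (n : ℕ) : MetricSpace (T.S n).X where
  dist x y := ((T.S n).base.D x y : ℝ) / (n.factorial : ℝ)
  dist_self x := by rw [((T.S n).base.met.zero_iff x x).2 rfl]; simp
  dist_comm x y := by rw [(T.S n).base.met.symm]
  dist_triangle x y z := by
    rw [← add_div]
    apply div_le_div_of_nonneg_right _ (by positivity)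
    exact_mod_cast (T.S n).base.met.tri x y z
  eq_of_dist_eq_zero := by
    intro x y h
    have h1 : ((T.S n).base.D x y : ℝ) / (n.factorial : ℝ) = 0 := h
    rw [div_eq_zero_iff] at h1
    rcases h1 with h1 | h1
    · exact ((T.S n).base.met.zero_iff x y).1 (by exact_mod_cast h1)
    · exact absurd h1 (by positivity)

lemma dist_def (n : ℕ) (x y : (T.S n).X) :
    dist x y = ((T.S n).base.D x y : ℝ) / (n.factorial : ℝ) := rfl

lemma isoI (n : ℕ) : Isometry (T.ι n) := by
  apply Isometry.of_dist_eq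
  intro x y
  rw [dist_def, dist_def, T.hdist, Nat.factorial_succ]
  push_cast
  rw [mul_div_mul_left]
  positivity

/-- the limit space -/
abbrev U : Type := Metric.InductiveLimit T.isoI

/-- the embedding of the stages -/
noncomputable def j (n : ℕ) : (T.S n).X → T.U := Metric.toInductiveLimit T.isoI n

lemma j_iso (n : ℕ) : Isometry (T.j n) := Metric.toInductiveLimit_isometry T.isoI n

lemma j_succ (n : ℕ) (x : (T.S n).X) : T.j (n + 1) (T.ι n x) = T.j n x :=
  congrFun (Metric.toInductiveLimit_commute T.isoI n) x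

lemma exists_rep (z : T.U) : ∃ n x, T.j n x = z := by
  rcases z with ⟨n, x⟩
  exact ⟨n, x, rfl⟩

lemma range_mono_add (n d : ℕ) (z : T.U) (h : z ∈ Set.range (T.j n)) :
    z ∈ Set.range (T.j (n + d)) := by
  induction d with
  | zero => exact h
  | succ d ih =>
    obtain ⟨x, hx⟩ := ih
    exact ⟨T.ι (n + d) x, by rw [← hx]; exact T.j_succ (n + d) x⟩

lemma range_mono {n m : ℕ} (hnm : n ≤ m) {z : T.U} (h : z ∈ Set.range (T.j n)) :
    z ∈ Set.range (T.j m) := by
  obtain ⟨d, rfl⟩ := Nat.exists_eq_add_of_le hnm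
  exact T.range_mono_add n d z h

lemma exists_level (z : T.U) : ∃ n, z ∈ Set.range (T.j n) := by
  obtain ⟨n, x, h⟩ := T.exists_rep z
  exact ⟨n, x, h⟩

lemma exists_level_finset (A : Finset T.U) : ∃ n, ∀ z ∈ A, z ∈ Set.range (T.j n) := by
  induction A using Finset.induction_on with
  | empty => exact ⟨0, by simp⟩
  | insert a s _ ih =>
    obtain ⟨n, hn⟩ := ih
    obtain ⟨m, hm⟩ := T.exists_level a
    refine ⟨max n m, fun z hz => ?_⟩
    rcases Finset.mem_insert.1 hz with rfl | hz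
    · exact T.range_mono (le_max_right _ _) hm
    · exact T.range_mono (le_max_left _ _) (hn z hz)

lemma countable_U : Countable T.U := by
  have h : ∀ n, Countable (T.S n).X := fun n => (T.S n).cnt
  have : Surjective (fun p : Σ n, (T.S n).X => T.j p.1 p.2) := by
    intro z
    obtain ⟨n, x, h⟩ := T.exists_rep z
    exact ⟨⟨n, x⟩, h⟩
  exact this.countable

lemma rational_U (z z' : T.U) : ∃ q : ℚ, dist z z' = q := by
  obtain ⟨n, hn⟩ := T.exists_level_finset {z, z'}
  obtain ⟨x, hx⟩ := hn z (by simp)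
  obtain ⟨y, hy⟩ := hn z' (by simp)
  refine ⟨((T.S n).base.D x y : ℚ) / (n.factorial : ℚ), ?_⟩
  rw [← hx, ← hy, (T.j_iso n).dist_eq, dist_def]
  push_cast
  rfl

/-- compatible sequences extending an element of a stage group -/
lemma exists_ext_seq (n : ℕ) (g : Equiv.Perm (T.S n).X) (hg : g ∈ (T.S n).base.G) :
    ∃ γ : ∀ d, Equiv.Perm (T.S (n + d)).X, γ 0 = g ∧ (∀ d, γ d ∈ (T.S (n + d)).base.G) ∧
      ∀ d x, γ (d + 1) (T.ι (n + d) x) = T.ι (n + d) (γ d x) := by
  let γ : ∀ d, {h : Equiv.Perm (T.S (n + d)).X // h ∈ (T.S (n + d)).base.G} := fun d =>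
    Nat.rec (motive := fun d => {h : Equiv.Perm (T.S (n + d)).X // h ∈ (T.S (n + d)).base.G})
      ⟨g, hg⟩ (fun d h => ⟨(T.hext (n + d) h.1 h.2).choose,
        (T.hext (n + d) h.1 h.2).choose_spec.1⟩) d
  exact ⟨fun d => (γ d).1, rfl, fun d => (γ d).2,
    fun d x => (T.hext (n + d) (γ d).1 (γ d).2).choose_spec.2 x⟩

lemma seq_compat {n : ℕ} {γ : ∀ d, Equiv.Perm (T.S (n + d)).X}
    (hγ : ∀ d x, γ (d + 1) (T.ι (n + d) x) = T.ι (n + d) (γ d x)) (d e : ℕ)
    (x : (T.S (n + d)).X) (y : (T.S (n + (d + e))).X)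
    (h : T.j (n + d) x = T.j (n + (d + e)) y) :
    T.j (n + d) (γ d x) = T.j (n + (d + e)) (γ (d + e) y) := by
  induction e with
  | zero =>
    have : x = y := (T.j_iso (n + d)).injective h
    rw [this]; rfl
  | succ e ih =>
    obtain ⟨y', hy'⟩ : T.j (n + d) x ∈ Set.range (T.j (n + (d + e))) := by
      have := T.range_mono_add (n + d) e _ ⟨x, rfl⟩
      rwa [add_assoc] at this
    have h1 : y = T.ι (n + (d + e)) y' := by
      apply (T.j_iso (n + (d + e) + 1)).injective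
      rw [T.j_succ, hy', h]; rfl
    rw [ih y' hy'.symm, h1]
    have h2 := hγ (d + e) y'
    have h3 : T.j (n + (d + (e + 1))) (γ (d + (e + 1)) (T.ι (n + (d + e)) y')) =
        T.j (n + (d + e) + 1) (T.ι (n + (d + e)) (γ (d + e) y')) := by
      rw [← h2]; rfl
    rw [h3, T.j_succ]

lemma exists_add_rep (n : ℕ) (z : T.U) : ∃ d x, T.j (n + d) x = z := by
  obtain ⟨m, hm⟩ := T.exists_level z
  have h1 := T.range_mono_add m n z hm
  rw [add_comm] at h1
  exact ⟨m, h1⟩

lemma seq_compat' {n : ℕ} {γ : ∀ d, Equiv.Perm (T.S (n + d)).X}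
    (hγ : ∀ d x, γ (d + 1) (T.ι (n + d) x) = T.ι (n + d) (γ d x)) (d d' : ℕ)
    (x : (T.S (n + d)).X) (y : (T.S (n + d')).X)
    (h : T.j (n + d') y = T.j (n + d) x) :
    T.j (n + d') (γ d' y) = T.j (n + d) (γ d x) := by
  rcases le_total d d' with hle | hle
  · obtain ⟨e, rfl⟩ := Nat.exists_eq_add_of_le hle
    exact (T.seq_compat hγ d e x y h.symm).symm
  · obtain ⟨e, rfl⟩ := Nat.exists_eq_add_of_le hle
    exact T.seq_compat hγ d' e y x h

lemma exists_ext_map {n : ℕ} {γ : ∀ d, Equiv.Perm (T.S (n + d)).X}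
    (hγ : ∀ d x, γ (d + 1) (T.ι (n + d) x) = T.ι (n + d) (γ d x)) :
    ∃ F : T.U → T.U, ∀ d x, F (T.j (n + d) x) = T.j (n + d) (γ d x) := by
  choose δ ξ hξ using T.exists_add_rep n
  exact ⟨fun z => T.j (n + δ z) (γ (δ z) (ξ z)), fun d x => T.seq_compat' hγ d _ x _ (hξ _)⟩

/-- the limit group -/
def gr : Subgroup (T.U ≃ᵢ T.U) where
  carrier := {F | ∃ n, ∀ m, n ≤ m → ∃ g ∈ (T.S m).base.G, ∀ x, F (T.j m x) = T.j m (g x)}
  mul_mem' := by
    rintro F F' ⟨n, hn⟩ ⟨n', hn'⟩
    refine ⟨max n n', fun m hm => ?_⟩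
    obtain ⟨g, hg, h⟩ := hn m (le_trans (le_max_left _ _) hm)
    obtain ⟨g', hg', h'⟩ := hn' m (le_trans (le_max_right _ _) hm)
    refine ⟨g * g', (T.S m).base.G.mul_mem hg hg', fun x => ?_⟩
    change F (F' _) = T.j m (g (g' x))
    rw [h', h]
  one_mem' := ⟨0, fun m _ => ⟨1, (T.S m).base.G.one_mem, fun x => rfl⟩⟩
  inv_mem' := by
    rintro F ⟨n, hn⟩
    refine ⟨n, fun m hm => ?_⟩
    obtain ⟨g, hg, h⟩ := hn m hm
    refine ⟨g⁻¹, (T.S m).base.G.inv_mem hg, fun x => ?_⟩
    have h1 := h (g⁻¹ x)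
    have h2 : g (g⁻¹ x) = x := by simp
    rw [h2] at h1
    rw [← h1]
    exact F.symm_apply_apply _

lemma stage_iso (m : ℕ) {g : Equiv.Perm (T.S m).X} (hg : g ∈ (T.S m).base.G) (x y : (T.S m).X) :
    dist (g x) (g y) = dist x y := by
  rw [dist_def, dist_def, (T.S m).base.iso g hg]

/-- extension of an element of a stage group to the limit -/
lemma exists_ext (n : ℕ) (g : Equiv.Perm (T.S n).X) (hg : g ∈ (T.S n).base.G) :
    ∃ F ∈ T.gr, ∀ x, F (T.j n x) = T.j n (g x) := by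
  obtain ⟨γ, h0, hγG, hγ⟩ := T.exists_ext_seq n g hg
  obtain ⟨F, hF⟩ := T.exists_ext_map hγ
  have hiso : Isometry F := by
    apply Isometry.of_dist_eq
    intro z z'
    obtain ⟨m, hm⟩ := T.exists_level_finset {z, z'}
    have h1 := T.range_mono_add m n z (hm z (by simp))
    have h2 := T.range_mono_add m n z' (hm z' (by simp))
    rw [add_comm] at h1 h2
    obtain ⟨x, hx⟩ := h1
    obtain ⟨y, hy⟩ := h2
    rw [← hx, ← hy, hF, hF, (T.j_iso _).dist_eq, (T.j_iso _).dist_eq, T.stage_iso _ (hγG m)]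
  have hsurj : Surjective F := by
    intro z
    obtain ⟨d, x, hx⟩ := T.exists_add_rep n z
    refine ⟨T.j (n + d) ((γ d).symm x), ?_⟩
    rw [hF, Equiv.apply_symm_apply, hx]
  let F' : T.U ≃ᵢ T.U := ⟨Equiv.ofBijective F ⟨hiso.injective, hsurj⟩, hiso⟩
  refine ⟨F', ⟨n, fun m hm => ?_⟩, fun x => ?_⟩
  · obtain ⟨d, rfl⟩ := Nat.exists_eq_add_of_le hm
    exact ⟨γ d, hγG d, fun x => hF d x⟩
  · change F (T.j n x) = _
    rw [← h0]
    exact hF 0 x

lemma gr_rigid {F : T.U ≃ᵢ T.U} (hF : F ∈ T.gr) {a : Fin k → T.U} (ha : Injective a)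
    (h : ∀ i, F (a i) = a i) : F = 1 := by
  obtain ⟨n, hn⟩ := hF
  obtain ⟨n', hn'⟩ := T.exists_level_finset (Finset.univ.image a)
  have key : ∀ m, max n n' ≤ m → ∀ x, F (T.j m x) = T.j m x := by
    intro m hm x
    obtain ⟨g, hg, hgF⟩ := hn m (le_trans (le_max_left _ _) hm)
    have h1 : ∀ i, ∃ y, T.j m y = a i := fun i =>
      T.range_mono (le_trans (le_max_right _ _) hm) (hn' (a i) (by simp))
    choose y hy using h1
    have h2 : g = 1 := by
      apply (T.S m).base.rig g hg y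
      · intro i i' hii
        apply ha
        rw [← hy, ← hy, hii]
      · intro i
        apply (T.j_iso m).injective
        rw [← hgF, hy, h]
    rw [hgF, h2]; rfl
  ext z
  obtain ⟨d, x, hx⟩ := T.exists_add_rep (max n n') z
  rw [← hx]
  exact key _ (Nat.le_add_right _ _) x

lemma sharply : SharplyTransitive T.U k T.gr := by
  intro a b ha hb hab
  obtain ⟨n, hn⟩ := T.exists_level_finset (Finset.univ.image a ∪ Finset.univ.image b)
  have h1 : ∀ i, ∃ y, T.j n y = a i := fun i => hn (a i) (by simp)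
  have h2 : ∀ i, ∃ y, T.j n y = b i := fun i => hn (b i) (by simp)
  choose x hx using h1
  choose y hy using h2
  have hxi : Injective x := by
    intro i i' hii
    apply ha
    rw [← hx, ← hx, hii]
  have hyi : Injective y := by
    intro i i' hii
    apply hb
    rw [← hy, ← hy, hii]
  have hd : ∀ i i', (T.S n).base.D (x i) (x i') = (T.S n).base.D (y i) (y i') := by
    intro i i'
    have h3 := hab i i'
    rw [← hx, ← hx, ← hy, ← hy, (T.j_iso n).dist_eq, (T.j_iso n).dist_eq, dist_def, dist_def,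
      div_left_inj' (by positivity)] at h3
    exact_mod_cast h3
  obtain ⟨g, hg, h4⟩ := T.htrans n x y hxi hyi hd
  obtain ⟨F, hF, h5⟩ := T.exists_ext (n + 1) g hg
  have hFa : ∀ i, F (a i) = b i := by
    intro i
    rw [← hx, ← hy, ← T.j_succ, h5, h4, T.j_succ]
  refine ⟨F, ⟨hF, hFa⟩, ?_⟩
  rintro F' ⟨hF', hFa'⟩
  have h6 : F⁻¹ * F' = 1 := by
    apply T.gr_rigid (T.gr.mul_mem (T.gr.inv_mem hF) hF') ha
    intro i
    change F.symm (F' (a i)) = a i
    rw [hFa', ← hFa, IsometryEquiv.symm_apply_apply]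
  rw [inv_mul_eq_one] at h6
  exact h6.symm

/-- realisation of distance functions in the limit -/
lemma realise (A : Finset T.U) (f : T.U → ℚ) (hpos : ∀ a ∈ A, 0 < f a)
    (hf : ∀ a ∈ A, ∀ b ∈ A, |(f a : ℝ) - f b| ≤ dist a b ∧ dist a b ≤ f a + f b) :
    ∃ z : T.U, ∀ a ∈ A, dist z a = f a := by
  rcases A.eq_empty_or_nonempty with rfl | hA
  · have : Nonempty (T.S 0).X := (T.S 0).base.inf.nonempty
    obtain ⟨x⟩ := this
    exact ⟨T.j 0 x, by simp⟩
  obtain ⟨n0, hn0⟩ := T.exists_level_finset A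
  -- a common denominator
  have hden : ∃ n1 : ℕ, ∀ m, n1 ≤ m → ∀ a ∈ A, ∃ c : ℕ, (c : ℚ) = m.factorial * f a := by
    refine ⟨∑ a ∈ A, (f a).den, fun m hm a ha => ?_⟩
    have h1 : (f a).den ≤ m :=
      le_trans (Finset.single_le_sum (f := fun a => (f a).den) (fun _ _ => Nat.zero_le _) ha) hm
    have h2 : (f a).den ∣ m.factorial := Nat.dvd_factorial (f a).den_pos h1
    obtain ⟨e, he⟩ := h2
    have h3 : 0 ≤ (f a).num := Rat.num_nonneg.2 (hpos a ha).le
    refine ⟨e * (f a).num.toNat, ?_⟩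
    have h4 : ((f a).num.toNat : ℚ) = (f a).num := by
      have : ((f a).num.toNat : ℤ) = (f a).num := Int.toNat_of_nonneg h3
      exact_mod_cast this
    have h5 : ((f a).den : ℚ) * f a = (f a).num := Rat.den_mul_eq_num (f a)
    push_cast
    rw [h4, he, ← h5]
    push_cast
    ring
  obtain ⟨n1, hn1⟩ := hden
  set n := max n0 n1 with hn
  have hrep : ∀ a : T.U, a ∈ A → ∃ x, T.j n x = a := fun a ha =>
    T.range_mono (le_max_left _ _) (hn0 a ha)
  have hc : ∀ a : T.U, a ∈ A → ∃ c : ℕ, (c : ℚ) = (n + 1).factorial * f a := fun a ha =>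
    hn1 (n + 1) (by omega) a ha
  choose! c hc using hc
  let A' : Finset (T.S n).X := A.preimage (T.j n) ((T.j_iso n).injective.injOn)
  have hA'mem : ∀ x, x ∈ A' ↔ T.j n x ∈ A := fun x => by simp [A']
  have hA'ne : A'.Nonempty := by
    obtain ⟨a, ha⟩ := hA
    obtain ⟨x, hx⟩ := hrep a ha
    exact ⟨x, (hA'mem x).2 (by rw [hx]; exact ha)⟩
  have hfac : (0 : ℝ) < (n + 1).factorial := by positivity
  have hD : ∀ x y : (T.S n).X, (((n + 1) * (T.S n).base.D x y : ℕ) : ℝ) =
      (n + 1).factorial * dist (T.j n x) (T.j n y) := by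
    intro x y
    have h6 : (n.factorial : ℝ) ≠ 0 := by positivity
    rw [(T.j_iso n).dist_eq, dist_def, Nat.factorial_succ]
    push_cast
    field_simp
  have hcR : ∀ a ∈ A, (c a : ℝ) = (n + 1).factorial * f a := by
    intro a ha
    exact_mod_cast hc a ha
  obtain ⟨z, hz⟩ := T.hreal n A' hA'ne (fun x => c (T.j n x)) (by
      intro x hx
      rw [hA'mem] at hx
      have h7 := hcR _ hx
      have h8 := hpos _ hx
      have h9 : (0 : ℝ) < (c (T.j n x) : ℝ) := by
        rw [h7]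
        have : (0 : ℝ) < f (T.j n x) := by exact_mod_cast h8
        positivity
      exact_mod_cast h9) (by
      intro x hx y hy
      rw [hA'mem] at hx hy
      have h7 := (hf _ hx _ hy).2
      have h8 : (((n + 1) * (T.S n).base.D x y : ℕ) : ℝ) ≤ ((c (T.j n x) + c (T.j n y) : ℕ) : ℝ) := by
        rw [hD]
        push_cast
        rw [hcR _ hx, hcR _ hy, ← mul_add]
        exact mul_le_mul_of_nonneg_left h7 hfac.le
      exact_mod_cast h8) (by
      intro x hx y hy
      rw [hA'mem] at hx hy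
      have h7 := (hf _ hx _ hy).1
      have h8 : ((c (T.j n x) : ℕ) : ℝ) ≤
          ((c (T.j n y) + (n + 1) * (T.S n).base.D y x : ℕ) : ℝ) := by
        rw [Nat.cast_add, hD, hcR _ hx, hcR _ hy, ← mul_add]
        apply mul_le_mul_of_nonneg_left _ hfac.le
        have := (abs_le.1 h7).2
        rw [dist_comm (T.j n y)]
        linarith
      exact_mod_cast h8)
  refine ⟨T.j (n + 1) z, fun a ha => ?_⟩
  obtain ⟨x, hx⟩ := hrep a ha
  have h10 := hz x ((hA'mem x).2 (by rw [hx]; exact ha))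
  rw [← hx, ← T.j_succ n x, (T.j_iso _).dist_eq, dist_def, h10, hcR _ (by rw [hx]; exact ha), T.j_succ]
  field_simp

end Tower

end Pool.Agent.Helper37.SK
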