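import Pool.Agent.Helper37.SKTors

namespace Pool.Agent.Helper37.SK

open Classical Function

variable {k : ℕ} {X : Type} (B : Base k X)

namespace Base

/-- chains of points, consecutive ones in a common chart, with their total length -/
inductive Chain : B.Pt → B.Pt → ℕ → Prop
  | refl (z : B.Pt) : Chain z z 0
  | step {z : B.Pt} {ψ : X → B.Pt} {x : X} {s : ℕ} (hψ : IsChart ψ) (h : Chain z (ψ x) s) (y : X) :
      Chain z (ψ y) (s + B.D x y)

variable {B}

lemma Chain.trans {z z' z'' : B.Pt} {s t : ℕ} (h : B.Chain z z' s) (h' : B.Chain z' z'' t) :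
    B.Chain z z'' (s + t) := by
  induction h' with
  | refl => exact h
  | step hψ _ y ih => rw [← add_assoc]; exact Chain.step hψ ih y

lemma Chain.single {ψ : X → B.Pt} (hψ : IsChart ψ) (x y : X) : B.Chain (ψ x) (ψ y) (B.D x y) := by
  have := Chain.step hψ (Chain.refl (ψ x)) y
  rwa [zero_add] at this

lemma Chain.symm {z z' : B.Pt} {s : ℕ} (h : B.Chain z z' s) : B.Chain z' z s := by
  induction h with
  | refl => exact Chain.refl _
  | @step ψ x s hψ h y ih =>
    rw [add_comm, B.met.symm]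
    exact (Chain.single hψ y x).trans ih

lemma Chain.map {F : Equiv.Perm B.Pt} (hF : F ∈ B.Grp) {z z' : B.Pt} {s : ℕ}
    (h : B.Chain z z' s) : B.Chain (F z) (F z') s := by
  induction h with
  | refl => exact Chain.refl _
  | @step ψ x s hψ h y ih => exact Chain.step (Grp.isChart hF hψ) ih y

lemma exists_chain_root (x0 : X) (v : List B.Letter) (hv : Red v) (x : X) :
    ∃ s, B.Chain (phi [] x0) (phi v x) s := by
  induction v generalizing x with
  | nil => exact ⟨_, Chain.single (isChart_phi Red.nil) x0 x⟩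
  | cons n v ih =>
    obtain ⟨s, hs⟩ := ih hv.2 (n.p ⟨0, B.kpos⟩)
    rw [← phi_cons_q hv] at hs
    exact ⟨_, Chain.step (isChart_phi hv) hs x⟩

lemma exists_chain (z z' : B.Pt) : ∃ s, B.Chain z z' s := by
  have : Nonempty X := B.inf.nonempty
  obtain ⟨x0⟩ := this
  obtain ⟨s, hs⟩ := exists_chain_root x0 z.1.1 z.2.1 z.1.2
  obtain ⟨t, ht⟩ := exists_chain_root x0 z'.1.1 z'.2.1 z'.1.2
  rw [phi_self] at hs ht
  exact ⟨_, hs.symm.trans ht⟩

/-- the metric -/
noncomputable def ndist (z z' : B.Pt) : ℕ := sInf {s | B.Chain z z' s}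

lemma ndist_mem (z z' : B.Pt) : B.Chain z z' (ndist z z') := Nat.sInf_mem (exists_chain z z')

lemma ndist_le {z z' : B.Pt} {s : ℕ} (h : B.Chain z z' s) : ndist z z' ≤ s := Nat.sInf_le h

lemma Chain.eq_of_zero {z z' : B.Pt} {s : ℕ} (h : B.Chain z z' s) (hs : s = 0) : z = z' := by
  induction h with
  | refl => rfl
  | @step ψ x s hψ h y ih =>
    have h1 : s = 0 := by omega
    have h2 : B.D x y = 0 := by omega
    rw [ih h1, (B.met.zero_iff x y).1 h2]

lemma ndist_isMet : IsMet (ndist (B := B)) where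
  zero_iff z z' := by
    constructor
    · intro h
      exact (ndist_mem z z').eq_of_zero h
    · rintro rfl
      exact Nat.le_zero.1 (ndist_le (Chain.refl z))
  symm z z' := le_antisymm (ndist_le (ndist_mem z' z).symm) (ndist_le (ndist_mem z z').symm)
  tri x y z := ndist_le ((ndist_mem x y).trans (ndist_mem y z))

lemma ndist_map_le {F : Equiv.Perm B.Pt} (hF : F ∈ B.Grp) (z z' : B.Pt) :
    ndist (F z) (F z') ≤ ndist z z' := ndist_le ((ndist_mem z z').map hF)

lemma ndist_map {F : Equiv.Perm B.Pt} (hF : F ∈ B.Grp) (z z' : B.Pt) :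
    ndist (F z) (F z') = ndist z z' := by
  apply le_antisymm (ndist_map_le hF z z')
  have := ndist_map_le (B.Grp.inv_mem hF) (F z) (F z')
  simpa using this

/-- distance to a point of the root -/
noncomputable def hv (y : X) : List B.Letter → X → ℕ
  | [], a => B.D a y
  | n :: v, a => sInf (Set.range fun i => hv y v (n.p i) + B.D (n.q i) a)

lemma hv_cons_le (y : X) (n : B.Letter) (v : List B.Letter) (a : X) (i : Fin k) :
    hv y (n :: v) a ≤ hv y v (n.p i) + B.D (n.q i) a := by
  rw [hv]; exact Nat.sInf_le ⟨i, rfl⟩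

lemma hv_cons_mem (y : X) (n : B.Letter) (v : List B.Letter) (a : X) :
    ∃ i, hv y (n :: v) a = hv y v (n.p i) + B.D (n.q i) a := by
  have h : (Set.range fun i => hv y v (n.p i) + B.D (n.q i) a).Nonempty :=
    ⟨_, ⟨⟨0, B.kpos⟩, rfl⟩⟩
  obtain ⟨i, hi⟩ := Nat.sInf_mem h
  exact ⟨i, by rw [hv]; exact hi.symm⟩

lemma hv_lip (y : X) (v : List B.Letter) (a b : X) : hv y v a ≤ hv y v b + B.D a b := by
  cases v with
  | nil =>
    rw [hv, hv, add_comm]
    exact B.met.tri a b y
  | cons n v =>
    obtain ⟨i, hi⟩ := hv_cons_mem y n v b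
    rw [hi]
    have h1 := hv_cons_le y n v a i
    have h2 := B.met.tri (n.q i) b a
    rw [B.met.symm a b]
    omega

lemma hv_cons_q (y : X) (n : B.Letter) (v : List B.Letter) (j : Fin k) :
    hv y (n :: v) (n.q j) = hv y v (n.p j) := by
  apply le_antisymm
  · have := hv_cons_le y n v (n.q j) j
    rwa [(B.met.zero_iff _ _).2 rfl, add_zero] at this
  · obtain ⟨i, hi⟩ := hv_cons_mem y n v (n.q j)
    rw [hi, ← n.isom]
    have := hv_lip y v (n.p j) (n.p i)
    rwa [B.met.symm] at this

noncomputable def hpt (y : X) (z : B.Pt) : ℕ := hv y z.1.1 z.1.2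

lemma hpt_phi (y : X) (v : List B.Letter) (hvr : Red v) (x : X) : hpt y (phi v x) = hv y v x := by
  induction v generalizing x with
  | nil => rw [hpt, phi_val hvr]; rfl
  | cons n v ih =>
    by_cases hx : x ∈ tgt (n :: v)
    · obtain ⟨i, rfl⟩ := hx
      rw [phi_cons_q hvr, ih hvr.2, hv_cons_q]
    · rw [hpt, phi_val hvr, nf_of_notMem _ _ hx]

lemma hpt_lip (y : X) {ψ : X → B.Pt} (hψ : IsChart ψ) (a b : X) :
    hpt y (ψ a) ≤ hpt y (ψ b) + B.D a b := by
  obtain ⟨v, g, hvr, hg, rfl⟩ := hψ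
  change hpt y (phi v (g a)) ≤ hpt y (phi v (g b)) + _
  rw [hpt_phi y v hvr, hpt_phi y v hvr, ← B.iso g hg a b]
  exact hv_lip y v _ _

lemma Chain.lower (y : X) {z z' : B.Pt} {s : ℕ} (h : B.Chain z z' s) : hpt y z ≤ hpt y z' + s := by
  induction h with
  | refl => exact le_rfl
  | @step ψ x s hψ h b ih =>
    have := hpt_lip y hψ x b
    omega

lemma ndist_root (a b : X) : ndist (phi ([] : List B.Letter) a) (phi [] b) = B.D a b := by
  apply le_antisymm (ndist_le (Chain.single (isChart_phi Red.nil) a b))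
  have h := (ndist_mem (phi ([] : List B.Letter) a) (phi [] b)).lower b
  rw [hpt_phi b [] Red.nil, hpt_phi b [] Red.nil, hv, hv, (B.met.zero_iff b b).2 rfl] at h
  omega

variable (B)

/-- the tree of copies of `B` -/
noncomputable def next : Base k B.Pt where
  D := ndist
  G := B.Grp
  hk := B.hk
  inf := by
    have := B.inf
    exact Infinite.of_injective (phi (B := B) []) (isChart_phi Red.nil).inj
  met := ndist_isMet
  iso F hF z z' := ndist_map hF z z'
  rig F hF p hp h := next_rig F hF p hp h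
  tors N j h1 h2 h3 F hF hFN z hz hfix := next_tors N j h1 h2 h3 F hF hFN z hz hfix

lemma next_root_dist (a b : X) : B.next.D (phi [] a) (phi [] b) = B.D a b := ndist_root a b

lemma next_ext (g : Equiv.Perm X) (hg : g ∈ B.G) :
    ∃ F ∈ B.next.G, ∀ x, F (phi [] x) = phi [] (g x) :=
  exists_elt_root ((isChart_phi (B := B) Red.nil).comp hg)

lemma next_trans (a b : Fin k → X) (ha : Injective a) (hb : Injective b)
    (h : ∀ i j, B.D (a i) (a j) = B.D (b i) (b j)) :
    ∃ F ∈ B.next.G, ∀ i, F (phi [] (a i)) = phi [] (b i) := by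
  obtain ⟨χ, hχ, h1⟩ := (isChart_phi (B := B) Red.nil).step hb ha (fun i j => (h i j).symm)
  obtain ⟨F, hF, h2⟩ := exists_elt_root hχ
  exact ⟨F, hF, fun i => by rw [h2, h1]⟩

lemma countable_letter [Countable X] : Countable B.Letter := by
  have : Countable B.Pre := by
    have h : Injective (fun a : B.Pre => (a.p, a.q)) := by
      rintro ⟨p, q, _, _, _, _⟩ ⟨p', q', _, _, _, _⟩ h
      simp only [Prod.mk.injEq] at h
      obtain ⟨rfl, rfl⟩ := h
      rfl
    exact h.countable
  unfold Letter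
  infer_instance

lemma countable_pt [Countable X] : Countable B.Pt := by
  have := B.countable_letter
  unfold Pt
  infer_instance

end Base

end Pool.Agent.Helper37.SK
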