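import Pool.Agent.Helper37.SKFix

namespace Pool.Agent.Helper37.SK

open Classical Function

variable {k : ℕ} {X : Type} {B : Base k X}

namespace Base

lemma conj_pow {F E : Equiv.Perm B.Pt} {N : ℕ} (h : F ^ N = 1) : (E⁻¹ * F * E) ^ N = 1 := by
  have h1 : ∀ M : ℕ, (E⁻¹ * F * E) ^ M = E⁻¹ * F ^ M * E := by
    intro M
    induction M with
    | zero => simp
    | succ M ih => rw [pow_succ, ih, pow_succ]; group
  rw [h1, h]; group

/-- growth without cancellation -/
lemma growth {F : Equiv.Perm B.Pt} (hF : F ∈ B.Grp) {w : List B.Letter} {g : Equiv.Perm X}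
    (hw : Red w) (hg : g ∈ B.G) (h0 : ∀ x, F (phi [] x) = phi w (g x)) {m : B.Letter}
    (hm : w.getLast? = some m) (hc : g '' Set.range m.p ≠ tgt w) (j : ℕ) :
    ∃ (u : List B.Letter) (h : Equiv.Perm X), h ∈ B.G ∧ Red u ∧ u.length = (j + 1) * w.length ∧
      u.getLast? = some m ∧ ∀ x, (F ^ (j + 1)) (phi [] x) = phi u (h x) := by
  induction j with
  | zero => exact ⟨w, g, hg, hw, by simp, hm, by simpa using h0⟩
  | succ j ih =>
    obtain ⟨u, h, hh, hu, h1, h2, h3⟩ := ih
    obtain ⟨u', h', hh', h4, h5, h6, -, -⟩ := nc hF.1 hw hg h0 u hu (by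
      intro m' hm'
      rw [h2, Option.mem_def, Option.some.injEq] at hm'
      rw [← hm']; exact hc)
    refine ⟨u' ++ w, h' * h, B.G.mul_mem hh' hh, h4, ?_, ?_, ?_⟩
    · rw [List.length_append, h5, h1]; ring
    · rw [List.getLast?_append, hm]; rfl
    · intro x
      rw [pow_succ', Equiv.Perm.mul_apply, h3, h6]
      rfl

lemma torsion_aux (N : ℕ) (hN : 1 ≤ N) (L : ℕ) : ∀ F ∈ B.Grp, F ^ N = 1 →
    ∀ (w : List B.Letter) (g : Equiv.Perm X), Red w → g ∈ B.G → w.length = L →
    (∀ x, F (phi [] x) = phi w (g x)) →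
    (∃ (ψ : X → B.Pt) (h : Equiv.Perm X), IsChart ψ ∧ h ∈ B.G ∧ ∀ x, F (ψ x) = ψ (h x)) ∨
    (∃ (ψ : X → B.Pt) (p : Fin k → X) (π : Equiv.Perm (Fin k)), IsChart ψ ∧ Injective p ∧
      ∀ i, F (ψ (p i)) = ψ (p (π i))) := by
  induction L using Nat.strong_induction_on with
  | _ L ih =>
  intro F hF hFN w g hw hg hwL h0
  rcases w.eq_nil_or_concat with hw0 | ⟨w0, m, hw0⟩
  · left
    rw [hw0] at h0
    exact ⟨phi [], g, isChart_phi Red.nil, hg, h0⟩
  · rw [List.concat_eq_append] at hw0
    have hm : w.getLast? = some m := by rw [hw0]; simp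
    by_cases hc : g '' Set.range m.p = tgt w
    · cases w with
      | nil => simp at hw0
      | cons n v =>
        have h1 : Set.range (fun i => g (m.p i)) = Set.range n.q := by
          rw [← Set.range_comp] at hc; exact hc
        obtain ⟨π, hπ⟩ := exists_perm_of_range (g.injective.comp m.pinj) h1
        cases v with
        | nil =>
          have hmn : n = m := by simpa using hm
          subst hmn
          right
          refine ⟨phi [], n.p, π, isChart_phi Red.nil, n.pinj, fun i => ?_⟩
          have h2 : g (n.p i) = n.q (π i) := hπ i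
          rw [h0, h2, phi_cons_q hw]
        | cons n1 v1 =>
          have hm1 : (n1 :: v1).getLast? = some m := by
            rw [List.getLast?_cons_cons] at hm; exact hm
          obtain ⟨E, hE, hE1⟩ := exists_elt_root (isChart_phi (red_singleton m))
          have hd : ∀ i j, B.D (n.p (π i)) (n.p (π j)) = B.D (m.q i) (m.q j) := by
            intro i j
            have h2 : ∀ i, g (m.p i) = n.q (π i) := hπ
            rw [n.isom, ← h2, ← h2, B.iso g hg, m.isom]
          have hr : Injective (fun i => n.p (π i)) := n.pinj.comp π.injective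
          have hrr : Set.range (fun i => n.p (π i)) = Set.range n.p :=
            π.surjective.range_comp n.p
          obtain ⟨w1, g1, hg1, hw1, hl1, hlast1, hch⟩ : ∃ (w1 : List B.Letter) (g1 : Equiv.Perm X),
              g1 ∈ B.G ∧ Red w1 ∧ w1.length ≤ (n :: n1 :: v1).length ∧ w1.getLast? = some m ∧
              ∀ i, phi w1 (g1 (m.q i)) = phi (n1 :: v1) (n.p (π i)) := by
            rcases step_canon hw.2 hr m.qinj (by rw [hrr]; exact hw.1) hd with
              ⟨g1, hg1, h3⟩ | ⟨-, n', g1, hg1, h3, -, -, h4⟩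
            · refine ⟨n1 :: v1, g1, hg1, hw.2, by simp, hm1, fun i => ?_⟩
              rw [h3]
            · refine ⟨n' :: n1 :: v1, g1, hg1, h3, by simp, ?_, fun i => ?_⟩
              · rw [List.getLast?_cons_cons]; exact hm1
              · rw [phi_eq_iff h3 hw.2]
                exact h4 i
          have hFm : ∀ x, F (phi [m] x) = phi w1 (g1 x) := by
            have h5 := (Grp.isChart hF (isChart_phi (red_singleton m))).unique
              ((isChart_phi hw1).comp hg1) m.qinj (fun i => by
                have h2 : g (m.p i) = n.q (π i) := hπ i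
                rw [phi_cons_q (red_singleton m), h0, h2, phi_cons_q hw]
                exact (hch i).symm)
            exact fun x => congrFun h5 x
          rcases w1.eq_nil_or_concat with hw10 | ⟨w2, m', hw10⟩
          · rw [hw10] at hlast1; simp at hlast1
          · rw [List.concat_eq_append] at hw10
            have hmm : m' = m := by
              rw [hw10] at hlast1; simpa using hlast1
            subst hmm
            have hw2 : Red w2 := Red.left (w := [m']) (by rw [← hw10]; exact hw1)
            have hF' : ∀ x, (E⁻¹ * F * E) (phi [] x) = phi w2 (g1 x) := by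
              intro x
              rw [conj_apply, hE1, hFm, Endo.append hE.1 hE1 w2 (by rw [← hw10]; exact hw1) hw2,
                ← hw10]
            have hlt : w2.length < L := by
              rw [hw10, List.length_append, List.length_singleton] at hl1
              omega
            rcases ih w2.length hlt _ (conj_mem hF hE) (conj_pow hFN) w2 g1 hw2 hg1 rfl hF' with
              ⟨ψ, h, hψ, hh, h6⟩ | ⟨ψ, p, ρ, hψ, hp, h6⟩
            · left
              refine ⟨fun x => E (ψ x), h, Grp.isChart hE hψ, hh, fun x => ?_⟩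
              have := h6 x
              rw [conj_apply] at this
              exact this
            · right
              refine ⟨fun x => E (ψ x), p, ρ, Grp.isChart hE hψ, hp, fun i => ?_⟩
              have := h6 i
              rw [conj_apply] at this
              exact this
    · exfalso
      obtain ⟨u, h, hh, hu, h1, h2, h3⟩ := growth hF hw hg h0 hm hc (N - 1)
      rw [Nat.sub_add_cancel hN, hFN] at h3
      obtain ⟨p, x, hp, -⟩ := exists_frame_notMem B
      obtain ⟨h4, -⟩ := chart_unique Red.nil hu B.G.one_mem hh hp (fun i => by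
        rw [← phi_eq_iff Red.nil hu]
        exact h3 (p i))
      rw [← h4] at h2
      simp at h2

/-- an element of finite order preserves a chart or a frame -/
lemma torsion {N : ℕ} (hN : 1 ≤ N) {F : Equiv.Perm B.Pt} (hF : F ∈ B.Grp) (hFN : F ^ N = 1) :
    (∃ (ψ : X → B.Pt) (h : Equiv.Perm X), IsChart ψ ∧ h ∈ B.G ∧ ∀ x, F (ψ x) = ψ (h x)) ∨
    (∃ (ψ : X → B.Pt) (p : Fin k → X) (π : Equiv.Perm (Fin k)), IsChart ψ ∧ Injective p ∧
      ∀ i, F (ψ (p i)) = ψ (p (π i))) := by
  obtain ⟨w, g, hw, hg, h⟩ := exists_root_form hF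
  exact torsion_aux N hN w.length F hF hFN w g hw hg rfl h

lemma exists_chart_mem (z : B.Pt) : ∃ χ : X → B.Pt, IsChart χ ∧ z ∈ Set.range χ :=
  ⟨phi z.1.1, isChart_phi z.2.1, z.1.2, phi_self z⟩

lemma fix_pair {F : Equiv.Perm B.Pt} (hF : F ∈ B.Grp) (h1 : F ≠ 1) {z z' : B.Pt} (hz : F z = z)
    (hz' : F z' = z') : ∃ χ : X → B.Pt, IsChart χ ∧ z ∈ Set.range χ ∧ z' ∈ Set.range χ := by
  by_contra hno
  obtain ⟨ψ, hψ, ⟨x, hx⟩⟩ := exists_chart_mem z
  apply h1
  refine fix_far (α := Unit) hF hψ id (fun _ => x) (fun _ => by rw [hx, hz]) z' hz' ?_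
  intro χ hχ hh
  apply hno
  exact ⟨χ, hχ, hx ▸ hh.1 (), hh.2⟩

lemma next_rig (F : Equiv.Perm B.Pt) (hF : F ∈ B.Grp) (p : Fin k → B.Pt) (hp : Injective p)
    (h : ∀ i, F (p i) = p i) : F = 1 := by
  by_contra h1
  obtain ⟨χ, hχ, hr⟩ : ∃ χ : X → B.Pt, IsChart χ ∧ ∀ i, p i ∈ Set.range χ := by
    rcases B.hk with hk | hk
    · subst hk
      obtain ⟨χ, hχ, h2, h3⟩ := fix_pair hF h1 (h 0) (h 1)
      refine ⟨χ, hχ, fun i => ?_⟩
      fin_cases i
      · exact h2
      · exact h3
    · subst hk
      obtain ⟨χ, hχ, h2, h3, h4⟩ := helly (fix_pair hF h1 (h 0) (h 1))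
        (fix_pair hF h1 (h 0) (h 2)) (fix_pair hF h1 (h 1) (h 2))
      refine ⟨χ, hχ, fun i => ?_⟩
      fin_cases i
      · exact h2
      · exact h3
      · exact h4
  choose r hr using hr
  have hrinj : Injective r := by
    intro i j hij
    apply hp
    rw [← hr, ← hr, hij]
  apply h1
  exact Grp.eq_one_of_frame hF hχ hrinj (fun i => by rw [hr, h])

lemma perm_tors {k : ℕ} (hk : k = 2 ∨ k = 3) {N j : ℕ} (hNj : N + j = k + 1) (hN : 2 ≤ N)
    (hj : 1 ≤ j) (π : Equiv.Perm (Fin k)) (hπ : π ^ N = 1) (x : Fin j → Fin k) (hx : Injective x)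
    (hfix : ∀ i, π (x i) = x i) : π = 1 := by
  have h21 : ∀ σ : Equiv.Perm (Fin 2), ∀ a, σ a = a → σ = 1 := by decide
  have h31 : ∀ σ : Equiv.Perm (Fin 3), σ ^ 3 = 1 → ∀ a, σ a = a → σ = 1 := by decide
  have h32 : ∀ σ : Equiv.Perm (Fin 3), ∀ a b, a ≠ b → σ a = a → σ b = b → σ = 1 := by decide
  rcases hk with rfl | rfl
  · exact h21 π _ (hfix ⟨0, hj⟩)
  · have hj2 : j = 1 ∨ j = 2 := by omega
    rcases hj2 with rfl | rfl
    · have : N = 3 := by omega
      subst this
      exact h31 π hπ _ (hfix 0)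
    · refine h32 π (x 0) (x 1) (fun h => ?_) (hfix 0) (hfix 1)
      have := hx h
      simp at this

lemma next_tors (N j : ℕ) (hNj : N + j = k + 1) (hN : 2 ≤ N) (hj : 1 ≤ j) (F : Equiv.Perm B.Pt)
    (hF : F ∈ B.Grp) (hFN : F ^ N = 1) (z : Fin j → B.Pt) (hz : Injective z)
    (hfix : ∀ i, F (z i) = z i) : F = 1 := by
  by_contra h1
  rcases torsion (by omega) hF hFN with ⟨ψ, h, hψ, hh, h2⟩ | ⟨ψ, p, π, hψ, hp, h2⟩
  · have h3 : ∀ i, z i ∈ Set.range ψ := by
      intro i
      by_contra h4
      exact h1 (fix_chart hF hψ h h2 (z i) (hfix i) h4)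
    choose x hx using h3
    have h5 : ∀ M y, (F ^ M) (ψ y) = ψ ((h ^ M) y) := by
      intro M
      induction M with
      | zero => intro y; rfl
      | succ M ih => intro y; rw [pow_succ, pow_succ, Equiv.Perm.mul_apply, h2, ih]; rfl
    have h6 : h ^ N = 1 := by
      ext y
      apply hψ.inj
      rw [← h5, hFN]; rfl
    have h7 : h = 1 := by
      refine B.tors N j hNj hN hj h hh h6 x ?_ ?_
      · intro a b hab
        apply hz
        rw [← hx, ← hx, hab]
      · intro i
        apply hψ.inj
        rw [← h2, hx, hfix]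
    apply h1
    refine Grp.eq_of_chart hF B.Grp.one_mem hψ (fun y => ?_)
    rw [h2, h7]; rfl
  · have h3 : ∀ i, ∃ a, ψ (p a) = z i := by
      intro i
      by_contra h4
      exact h1 (fix_frame hF hψ hp π h2 (z i) (hfix i) (fun a ha => h4 ⟨a, ha⟩))
    choose x hx using h3
    have h5 : ∀ M y, (F ^ M) (ψ (p y)) = ψ (p ((π ^ M) y)) := by
      intro M
      induction M with
      | zero => intro y; rfl
      | succ M ih => intro y; rw [pow_succ, pow_succ, Equiv.Perm.mul_apply, h2, ih]; rfl
    have h6 : π ^ N = 1 := by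
      ext y
      congr 1
      apply hp
      apply hψ.inj
      rw [← h5, hFN]; rfl
    have h7 : π = 1 := by
      refine perm_tors B.hk hNj hN hj π h6 x ?_ ?_
      · intro a b hab
        apply hz
        rw [← hx, ← hx, hab]
      · intro i
        apply hp
        apply hψ.inj
        rw [← h2, hx, hfix]
    apply h1
    refine Grp.eq_one_of_frame hF hψ hp (fun i => ?_)
    rw [h2, h7]; rfl

end Base

end Pool.Agent.Helper37.SK
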