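import Pool.Agent.Helper37.SKExt
import Pool.Agent.Helper37.SKDefs

namespace Pool.Agent.Helper37.SK

open Classical Function

/-- a countable stage -/
structure Stage (k : ℕ) where
  X : Type
  base : Base k X
  cnt : Countable X

variable {k : ℕ}

namespace Stage

/-- the next stage -/
noncomputable def step (S : Stage k) (m : ℕ) (hm : 0 < m) : Stage k where
  X := (S.base.scale m hm).ext.Pt
  base := (S.base.scale m hm).ext.next
  cnt := by
    have := S.cnt
    have : Countable (S.X ⊕ ((S.base.scale m hm).G × (S.base.scale m hm).Kat)) := by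
      have h1 : Countable (S.base.scale m hm).Kat := by
        unfold Base.Kat
        infer_instance
      have h2 : Countable (S.base.scale m hm).G := by
        -- elements are determined by the images of a frame
        obtain ⟨p, x, hp, -⟩ := Base.exists_frame_notMem S.base
        have hinj : Injective (fun (g : (S.base.scale m hm).G) (i : Fin k) => g.1 (p i)) := by
          intro g g' h
          have h3 := S.base.rig (g'.1⁻¹ * g.1) (S.base.G.mul_mem (S.base.G.inv_mem g'.2) g.2) p hp
            (fun i => by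
              have := congrFun h i
              simp only at this
              simp [this])
          rw [inv_mul_eq_one] at h3
          exact Subtype.ext h3.symm
        exact hinj.countable
      infer_instance
    exact (S.base.scale m hm).ext.countable_pt

/-- the inclusion -/
noncomputable def inc (S : Stage k) (m : ℕ) (hm : 0 < m) (x : S.X) : (S.step m hm).X :=
  Base.phi [] (Sum.inl x)

lemma inc_dist (S : Stage k) (m : ℕ) (hm : 0 < m) (x y : S.X) :
    (S.step m hm).base.D (S.inc m hm x) (S.inc m hm y) = m * S.base.D x y :=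
  (S.base.scale m hm).ext.next_root_dist (Sum.inl x) (Sum.inl y)

lemma inc_ext (S : Stage k) (m : ℕ) (hm : 0 < m) (g : Equiv.Perm S.X) (hg : g ∈ S.base.G) :
    ∃ F ∈ (S.step m hm).base.G, ∀ x, F (S.inc m hm x) = S.inc m hm (g x) := by
  obtain ⟨F, hF, h⟩ := (S.base.scale m hm).ext_ext g hg
  obtain ⟨F', hF', h'⟩ := (S.base.scale m hm).ext.next_ext F hF
  refine ⟨F', hF', fun x => ?_⟩
  change F' (Base.phi [] (Sum.inl x)) = Base.phi [] (Sum.inl (g x))
  rw [h', h]

lemma inc_trans (S : Stage k) (m : ℕ) (hm : 0 < m) (a b : Fin k → S.X) (ha : Injective a)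
    (hb : Injective b) (h : ∀ i j, S.base.D (a i) (a j) = S.base.D (b i) (b j)) :
    ∃ F ∈ (S.step m hm).base.G, ∀ i, F (S.inc m hm (a i)) = S.inc m hm (b i) := by
  refine (S.base.scale m hm).ext.next_trans (fun i => Sum.inl (a i)) (fun i => Sum.inl (b i))
    (Sum.inl_injective.comp ha) (Sum.inl_injective.comp hb) (fun i j => ?_)
  rw [Base.ext_dist, Base.ext_dist]
  change m * S.base.D (a i) (a j) = m * S.base.D (b i) (b j)
  rw [h]

lemma inc_real (S : Stage k) (m : ℕ) (hm : 0 < m) (A : Finset S.X) (hA : A.Nonempty)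
    (c : S.X → ℕ) (hpos : ∀ a ∈ A, 0 < c a)
    (h1 : ∀ a ∈ A, ∀ b ∈ A, m * S.base.D a b ≤ c a + c b)
    (h2 : ∀ a ∈ A, ∀ b ∈ A, c a ≤ c b + m * S.base.D b a) :
    ∃ z, ∀ a ∈ A, (S.step m hm).base.D z (S.inc m hm a) = c a := by
  obtain ⟨z, hz⟩ := Base.ext_real (B := S.base.scale m hm) A hA c hpos h1 h2
  refine ⟨Base.phi [] z, fun a ha => ?_⟩
  rw [← hz a ha]
  exact (S.base.scale m hm).ext.next_root_dist z (Sum.inl a)

/-- the initial stage -/
noncomputable def zero (k : ℕ) (hk : k = 2 ∨ k = 3) : Stage k where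
  X := ℕ
  base :=
    { D := fun x y => if x = y then 0 else 1
      G := ⊥
      hk := hk
      inf := inferInstance
      met := by
        refine ⟨fun x y => ?_, fun x y => ?_, fun x y z => ?_⟩
        · split_ifs with h <;> simp [h]
        · by_cases h : x = y
          · simp [h]
          · rw [if_neg h, if_neg (Ne.symm h)]
        · by_cases h1 : x = y
          · subst h1; simp
          · rw [if_neg h1]
            split_ifs <;> omega
      iso := by
        intro g hg x y
        rw [Subgroup.mem_bot] at hg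
        rw [hg]; rfl
      rig := by
        intro g hg _ _ _
        exact Subgroup.mem_bot.1 hg
      tors := by
        intro _ _ _ _ _ g hg _ _ _ _
        exact Subgroup.mem_bot.1 hg }
  cnt := inferInstance

end Stage

/-- an increasing sequence of stages -/
structure Tower (k : ℕ) where
  S : ℕ → Stage k
  ι : ∀ n, (S n).X → (S (n + 1)).X
  hdist : ∀ n x y, (S (n + 1)).base.D (ι n x) (ι n y) = (n + 1) * (S n).base.D x y
  hext : ∀ n, ∀ g ∈ (S n).base.G, ∃ F ∈ (S (n + 1)).base.G, ∀ x, F (ι n x) = ι n (g x)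
  htrans : ∀ n (a b : Fin k → (S n).X), Injective a → Injective b →
    (∀ i j, (S n).base.D (a i) (a j) = (S n).base.D (b i) (b j)) →
    ∃ F ∈ (S (n + 1)).base.G, ∀ i, F (ι n (a i)) = ι n (b i)
  hreal : ∀ n (A : Finset (S n).X), A.Nonempty → ∀ c : (S n).X → ℕ, (∀ a ∈ A, 0 < c a) →
    (∀ a ∈ A, ∀ b ∈ A, (n + 1) * (S n).base.D a b ≤ c a + c b) →
    (∀ a ∈ A, ∀ b ∈ A, c a ≤ c b + (n + 1) * (S n).base.D b a) →
    ∃ z, ∀ a ∈ A, (S (n + 1)).base.D z (ι n a) = c a

/-- the sequence of stages -/
noncomputable def seqStage (k : ℕ) (hk : k = 2 ∨ k = 3) : ℕ → Stage k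
  | 0 => Stage.zero k hk
  | n + 1 => (seqStage k hk n).step (n + 1) n.succ_pos

noncomputable def tower (k : ℕ) (hk : k = 2 ∨ k = 3) : Tower k where
  S := seqStage k hk
  ι n := (seqStage k hk n).inc (n + 1) n.succ_pos
  hdist n := (seqStage k hk n).inc_dist (n + 1) n.succ_pos
  hext n := (seqStage k hk n).inc_ext (n + 1) n.succ_pos
  htrans n := (seqStage k hk n).inc_trans (n + 1) n.succ_pos
  hreal n := (seqStage k hk n).inc_real (n + 1) n.succ_pos

end Pool.Agent.Helper37.SK
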