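import Mathlib

namespace Pool.Agent.Helper37.SK

open Classical Function

/-- integral metric -/
structure IsMet {X : Type} (D : X → X → ℕ) : Prop where
  zero_iff : ∀ x y, D x y = 0 ↔ x = y
  symm : ∀ x y, D x y = D y x
  tri : ∀ x y z, D x z ≤ D x y + D y z

/-- A space with an integral metric and a group of isometries in which the elements fixing a
`k`-frame are trivial, together with a condition on torsion elements (`k = 2` or `k = 3`). -/
structure Base (k : ℕ) (X : Type) where
  D : X → X → ℕ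
  G : Subgroup (Equiv.Perm X)
  hk : k = 2 ∨ k = 3
  inf : Infinite X
  met : IsMet D
  iso : ∀ g ∈ G, ∀ x y, D (g x) (g y) = D x y
  rig : ∀ g ∈ G, ∀ p : Fin k → X, Injective p → (∀ i, g (p i) = p i) → g = 1
  tors : ∀ N j, N + j = k + 1 → 2 ≤ N → 1 ≤ j → ∀ g ∈ G, g ^ N = 1 →
    ∀ x : Fin j → X, Injective x → (∀ i, g (x i) = x i) → g = 1

variable {k : ℕ} {X : Type} (B : Base k X)

namespace Base

include B in
lemma kpos : 0 < k := by rcases B.hk with rfl | rfl <;> norm_num

lemma pow_frame {g : Equiv.Perm X} {p : Fin k → X} {π : Equiv.Perm (Fin k)}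
    (h : ∀ i, g (p i) = p (π i)) (N : ℕ) (i : Fin k) : (g ^ N) (p i) = p ((π ^ N) i) := by
  induction N generalizing i with
  | zero => rfl
  | succ N ih => rw [pow_succ, pow_succ, Equiv.Perm.mul_apply, Equiv.Perm.mul_apply, h, ih]

lemma loc' (g : Equiv.Perm X) (hg : g ∈ B.G) (p : Fin k → X) (hp : Injective p)
    (π : Equiv.Perm (Fin k)) (h : ∀ i, g (p i) = p (π i)) (x : X) (hx : ∀ i, p i ≠ x)
    (hgx : g x = x) : g = 1 := by
  have key : ∀ N, π ^ N = 1 → g ^ N = 1 := by
    intro N hN
    apply B.rig _ (B.G.pow_mem hg N) p hp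
    intro i
    rw [pow_frame h, hN]; rfl
  rcases B.hk with rfl | rfl
  · have h2 : ∀ σ : Equiv.Perm (Fin 2), σ ^ 2 = 1 := by decide
    exact B.tors 2 1 rfl le_rfl le_rfl g hg (key 2 (h2 π)) (fun _ => x)
      (fun a b _ => Subsingleton.elim a b) (fun _ => hgx)
  · have h3 : ∀ σ : Equiv.Perm (Fin 3), σ ^ 3 = 1 ∨ (σ ^ 2 = 1 ∧ ∃ i, σ i = i) := by decide
    rcases h3 π with h4 | ⟨h4, i, hi⟩
    · exact B.tors 3 1 rfl (by norm_num) le_rfl g hg (key 3 h4) (fun _ => x)
        (fun a b _ => Subsingleton.elim a b) (fun _ => hgx)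
    · apply B.tors 2 2 rfl le_rfl (by norm_num) g hg (key 2 h4) ![x, p i]
      · intro a b hab
        fin_cases a <;> fin_cases b
        · rfl
        · exact absurd hab.symm (hx i)
        · exact absurd hab (hx i)
        · rfl
      · intro a
        fin_cases a
        · exact hgx
        · change g (p i) = p i
          rw [h, hi]

lemma loc (g : Equiv.Perm X) (hg : g ∈ B.G) (p : Fin k → X) (hp : Injective p)
    (h : ∀ i, ∃ j, g (p i) = p j) (x : X) (hx : ∀ i, p i ≠ x)
    (hgx : g x = x) : g = 1 := by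
  choose f hf using h
  have hfi : Injective f := by
    intro i j hij
    apply hp
    apply g.injective
    rw [hf i, hf j, hij]
  exact B.loc' g hg p hp (Equiv.ofBijective f ⟨hfi, Finite.surjective_of_injective hfi⟩)
    (fun i => hf i) x hx hgx

/-- pairs of isometric frames in different orbits -/
structure Pre where
  p : Fin k → X
  q : Fin k → X
  pinj : Injective p
  qinj : Injective q
  isom : ∀ i j, B.D (p i) (p j) = B.D (q i) (q j)
  diff : ¬ ∃ g ∈ B.G, ∀ i, q i = g (p i)

/-- the equivalence of pairs -/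
def preSetoid : Setoid B.Pre where
  r a b := ∃ (π : Equiv.Perm (Fin k)) (g : Equiv.Perm X), g ∈ B.G ∧ (∀ i, b.p i = a.p (π i)) ∧
    (∀ i, b.q i = g (a.q (π i)))
  iseqv := by
    refine ⟨fun a => ⟨1, 1, B.G.one_mem, fun i => rfl, fun i => rfl⟩, ?_, ?_⟩
    · rintro a b ⟨π, g, hg, h1, h2⟩
      refine ⟨π⁻¹, g⁻¹, B.G.inv_mem hg, fun i => ?_, fun i => ?_⟩
      · rw [h1]; simp
      · rw [h2]; simp
    · rintro a b c ⟨π, g, hg, h1, h2⟩ ⟨π', g', hg', h1', h2'⟩
      refine ⟨π * π', g' * g, B.G.mul_mem hg' hg, fun i => ?_, fun i => ?_⟩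
      · rw [h1', h1]; rfl
      · rw [h2', h2]; rfl

/-- letters -/
def Letter : Type := Quotient B.preSetoid

variable {B}

/-- the frame in the parent -/
noncomputable def Letter.p (n : B.Letter) : Fin k → X := (Quotient.out n : B.Pre).p
/-- the frame in the child -/
noncomputable def Letter.q (n : B.Letter) : Fin k → X := (Quotient.out n : B.Pre).q

lemma Letter.pinj (n : B.Letter) : Injective n.p := (Quotient.out n : B.Pre).pinj
lemma Letter.qinj (n : B.Letter) : Injective n.q := (Quotient.out n : B.Pre).qinj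
lemma Letter.isom (n : B.Letter) : ∀ i j, B.D (n.p i) (n.p j) = B.D (n.q i) (n.q j) :=
  (Quotient.out n : B.Pre).isom
lemma Letter.diff (n : B.Letter) : ¬ ∃ g ∈ B.G, ∀ i, n.q i = g (n.p i) :=
  (Quotient.out n : B.Pre).diff

lemma Letter.ext_of {n m : B.Letter} (π : Equiv.Perm (Fin k)) (g : Equiv.Perm X) (hg : g ∈ B.G)
    (h1 : ∀ i, m.p i = n.p (π i)) (h2 : ∀ i, m.q i = g (n.q (π i))) : n = m := by
  have : B.preSetoid.r (Quotient.out n) (Quotient.out m) := ⟨π, g, hg, h1, h2⟩
  have h := Quotient.sound (s := B.preSetoid) this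
  rw [Quotient.out_eq, Quotient.out_eq] at h
  exact h

lemma Letter.exists_of (p q : Fin k → X) (hp : Injective p) (hq : Injective q)
    (h : ∀ i j, B.D (p i) (p j) = B.D (q i) (q j)) (hd : ¬ ∃ g ∈ B.G, ∀ i, q i = g (p i)) :
    ∃ (n : B.Letter) (π : Equiv.Perm (Fin k)) (g : Equiv.Perm X), g ∈ B.G ∧
      (∀ i, p i = n.p (π i)) ∧ (∀ i, g (q i) = n.q (π i)) := by
  let a : B.Pre := ⟨p, q, hp, hq, h, hd⟩
  have h1 := Quotient.mk_out (s := B.preSetoid) a
  obtain ⟨π, g, hg, h1, h2⟩ := h1
  refine ⟨Quotient.mk B.preSetoid a, π, g⁻¹, B.G.inv_mem hg, fun i => h1 i, fun i => ?_⟩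
  have := h2 i
  change q i = g ((Quotient.out (Quotient.mk B.preSetoid a) : B.Pre).q (π i)) at this
  rw [this]
  simp only [Equiv.Perm.coe_inv, Equiv.symm_apply_apply]
  rfl

/-- the frame of the copy at `v` glued to its parent -/
def tgt : List B.Letter → Set X
  | [] => ∅
  | n :: _ => Set.range n.q

/-- reduced words -/
def Red : List B.Letter → Prop
  | [] => True
  | n :: v => Set.range n.p ≠ tgt v ∧ Red v

/-- normal form of the point `x` of the copy at `v` -/
noncomputable def nf : List B.Letter → X → List B.Letter × X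
  | [], x => ([], x)
  | n :: v, x => if h : ∃ i, n.q i = x then nf v (n.p h.choose) else (n :: v, x)

lemma nf_nil (x : X) : nf ([] : List B.Letter) x = ([], x) := rfl

lemma nf_cons_q (n : B.Letter) (v : List B.Letter) (i : Fin k) :
    nf (n :: v) (n.q i) = nf v (n.p i) := by
  have h : ∃ j, n.q j = n.q i := ⟨i, rfl⟩
  rw [nf, dif_pos h, n.qinj h.choose_spec]

lemma nf_of_notMem (v : List B.Letter) (x : X) (h : x ∉ tgt v) : nf v x = (v, x) := by
  cases v with
  | nil => rfl
  | cons n v =>
    rw [nf, dif_neg]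
    exact h

lemma nf_suffix (v : List B.Letter) (x : X) : (nf v x).1 <:+ v := by
  induction v generalizing x with
  | nil => exact List.suffix_rfl
  | cons n v ih =>
    rw [nf]
    split_ifs with h
    · exact (ih _).trans (List.suffix_cons n v)
    · exact List.suffix_rfl

lemma Red.of_suffix {v w : List B.Letter} (h : Red v) (hw : w <:+ v) : Red w := by
  induction v with
  | nil => rw [List.suffix_nil.1 hw]; trivial
  | cons n v ih =>
    rcases List.suffix_cons_iff.1 hw with h1 | h1
    · rw [h1]; exact h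
    · exact ih h.2 h1

lemma nf_notMem (v : List B.Letter) (x : X) : (nf v x).2 ∉ tgt (nf v x).1 := by
  induction v generalizing x with
  | nil => simp [nf, tgt]
  | cons n v ih =>
    rw [nf]
    split_ifs with h
    · exact ih _
    · exact h

lemma mem_tgt_of_nf_ne {v : List B.Letter} {x : X} (h : (nf v x).1 ≠ v) : x ∈ tgt v := by
  by_contra hx
  exact h (by rw [nf_of_notMem v x hx])

lemma nf_inj (v : List B.Letter) : Injective (nf v) := by
  induction v with
  | nil => intro x y h; exact (Prod.ext_iff.1 h).2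
  | cons n v ih =>
    intro x y h
    have key : ∀ z, z ∈ tgt (n :: v) → (nf (n :: v) z).1.length ≤ v.length := by
      rintro z ⟨i, rfl⟩
      rw [nf_cons_q]
      exact (nf_suffix v _).length_le
    by_cases hx : x ∈ tgt (n :: v)
    · by_cases hy : y ∈ tgt (n :: v)
      · obtain ⟨i, rfl⟩ := hx
        obtain ⟨j, rfl⟩ := hy
        rw [nf_cons_q, nf_cons_q] at h
        rw [n.pinj (ih h)]
      · have := key x hx
        rw [h, nf_of_notMem _ _ hy] at this
        simp at this
    · by_cases hy : y ∈ tgt (n :: v)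
      · have := key y hy
        rw [← h, nf_of_notMem _ _ hx] at this
        simp at this
      · rw [nf_of_notMem _ _ hx, nf_of_notMem _ _ hy] at h
        exact (Prod.ext_iff.1 h).2

/-- if two copies share a point then in the (weakly) deeper one it lies in the glued frame -/
lemma mem_tgt_of_share {v w : List B.Letter} {x y : X} (hne : v ≠ w) (hl : w.length ≤ v.length)
    (h : nf v x = nf w y) : x ∈ tgt v := by
  apply mem_tgt_of_nf_ne
  intro h1
  rw [h] at h1
  have := nf_suffix w y
  rw [h1] at this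
  exact hne (this.eq_of_length_le hl)

lemma range_eq_of_subset {p q : Fin k → X} (hp : Injective p)
    (h : ∀ i, p i ∈ Set.range q) : Set.range p = Set.range q := by
  choose f hf using h
  have hfi : Injective f := by
    intro i j hij
    apply hp
    rw [← hf i, ← hf j, hij]
  have hfs : Surjective f := Finite.surjective_of_injective hfi
  apply Set.Subset.antisymm
  · rintro _ ⟨i, rfl⟩
    exact ⟨f i, hf i⟩
  · rintro _ ⟨i, rfl⟩
    obtain ⟨j, rfl⟩ := hfs i
    exact ⟨j, (hf j).symm⟩

lemma exists_perm_of_range {p q : Fin k → X} (hp : Injective p)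
    (h : Set.range p = Set.range q) : ∃ π : Equiv.Perm (Fin k), ∀ i, p i = q (π i) := by
  have h' : ∀ i, p i ∈ Set.range q := fun i => h ▸ ⟨i, rfl⟩
  choose f hf using h'
  have hfi : Injective f := by
    intro i j hij
    apply hp
    rw [← hf i, ← hf j, hij]
  exact ⟨Equiv.ofBijective f ⟨hfi, Finite.surjective_of_injective hfi⟩, fun i => (hf i).symm⟩

lemma range_eq_tgt {p : Fin k → X} (hp : Injective p) {v : List B.Letter}
    (h : ∀ i, p i ∈ tgt v) : Set.range p = tgt v := by
  cases v with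
  | nil => exact absurd (h ⟨0, B.kpos⟩) (by simp [tgt])
  | cons n v => exact range_eq_of_subset hp h

/-- uniqueness of canonical forms of frames -/
lemma canon_unique {v w : List B.Letter} {p r : Fin k → X} (hp : Injective p) (hr : Injective r)
    (h1 : Set.range p ≠ tgt v) (h2 : Set.range r ≠ tgt w)
    (h : ∀ i, nf v (p i) = nf w (r i)) : v = w ∧ p = r := by
  have hvw : v = w := by
    by_contra hne
    rcases le_total w.length v.length with hl | hl
    · exact h1 (range_eq_tgt hp (fun i => mem_tgt_of_share hne hl (h i)))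
    · exact h2 (range_eq_tgt hr (fun i => mem_tgt_of_share (Ne.symm hne) hl (h i).symm))
  subst hvw
  exact ⟨rfl, funext fun i => nf_inj v (h i)⟩

/-- canonical form of a frame: `(u, r)` is the canonical form of `(v, p)` -/
def Canon (v : List B.Letter) (p : Fin k → X) (u : List B.Letter) (r : Fin k → X) : Prop :=
  Red u ∧ Injective r ∧ Set.range r ≠ tgt u ∧ ((v = u ∧ p = r) ∨
    ∃ (n : B.Letter) (π : Equiv.Perm (Fin k)), v = n :: u ∧ (∀ i, p i = n.q (π i)) ∧
      (∀ i, r i = n.p (π i)))

lemma exists_canon {v : List B.Letter} (hv : Red v) {p : Fin k → X} (hp : Injective p) :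
    ∃ u r, Canon v p u r := by
  by_cases h : Set.range p = tgt v
  · cases v with
    | nil =>
      exfalso
      have : p ⟨0, B.kpos⟩ ∈ tgt ([] : List B.Letter) := h ▸ ⟨_, rfl⟩
      simp [tgt] at this
    | cons n v =>
      obtain ⟨π, hπ⟩ := exists_perm_of_range hp h
      refine ⟨v, fun i => n.p (π i), hv.2, n.pinj.comp π.injective, ?_, Or.inr ⟨n, π, rfl, hπ,
        fun i => rfl⟩⟩
      have : Set.range (fun i => n.p (π i)) = Set.range n.p := π.surjective.range_comp n.p
      rw [this]
      exact hv.1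
  · exact ⟨v, p, hv, hp, h, Or.inl ⟨rfl, rfl⟩⟩

lemma Canon.nf_eq {v u : List B.Letter} {p r : Fin k → X} (h : Canon v p u r) (i : Fin k) :
    nf v (p i) = nf u (r i) := by
  obtain ⟨-, -, -, ⟨rfl, rfl⟩ | ⟨n, π, rfl, h1, h2⟩⟩ := h
  · rfl
  · rw [h1, h2, nf_cons_q]

lemma Canon.dist {v u : List B.Letter} {p r : Fin k → X} (h : Canon v p u r) (i j : Fin k) :
    B.D (p i) (p j) = B.D (r i) (r j) := by
  obtain ⟨-, -, -, ⟨rfl, rfl⟩ | ⟨n, π, rfl, h1, h2⟩⟩ := h
  · rfl
  · rw [h1, h1, h2, h2, n.isom]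

/-- charts agreeing on a frame are equal -/
lemma chart_unique {v w : List B.Letter} (hv : Red v) (hw : Red w) {g h : Equiv.Perm X}
    (hg : g ∈ B.G) (hh : h ∈ B.G) {p : Fin k → X} (hp : Injective p)
    (e : ∀ i, nf v (g (p i)) = nf w (h (p i))) : v = w ∧ g = h := by
  have hgp : Injective (fun i => g (p i)) := g.injective.comp hp
  have hhp : Injective (fun i => h (p i)) := h.injective.comp hp
  have hvw : v = w := by
    obtain ⟨u, r, hur⟩ := exists_canon hv hgp
    obtain ⟨u', r', hur'⟩ := exists_canon hw hhp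
    have e' : ∀ i, nf u (r i) = nf u' (r' i) := fun i => by
      rw [← hur.nf_eq, ← hur'.nf_eq]; exact e i
    obtain ⟨huu, hrr⟩ := canon_unique hur.2.1 hur'.2.1 hur.2.2.1 hur'.2.2.1 e'
    subst huu hrr
    obtain ⟨-, -, -, ⟨a1, a2⟩ | ⟨n, π, a1, a2, a3⟩⟩ := hur
    · obtain ⟨-, -, -, ⟨b1, b2⟩ | ⟨m, ρ, b1, b2, b3⟩⟩ := hur'
      · rw [a1, b1]
      · exfalso
        apply m.diff
        refine ⟨h * g⁻¹, B.G.mul_mem hh (B.G.inv_mem hg), fun i => ?_⟩
        have c1 := b2 (ρ.symm i)
        have c2 := b3 (ρ.symm i)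
        have c3 := congrFun a2 (ρ.symm i)
        simp only [Equiv.apply_symm_apply] at c1 c2 c3
        rw [← c1, ← c2, ← c3]
        simp
    · obtain ⟨-, -, -, ⟨b1, b2⟩ | ⟨m, ρ, b1, b2, b3⟩⟩ := hur'
      · exfalso
        apply n.diff
        refine ⟨g * h⁻¹, B.G.mul_mem hg (B.G.inv_mem hh), fun i => ?_⟩
        have c1 := a2 (π.symm i)
        have c2 := a3 (π.symm i)
        have c3 := congrFun b2 (π.symm i)
        simp only [Equiv.apply_symm_apply] at c1 c2 c3
        rw [← c1, ← c2, ← c3]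
        simp
      · have : n = m := by
          refine Letter.ext_of (π * ρ⁻¹) (h * g⁻¹) (B.G.mul_mem hh (B.G.inv_mem hg))
            (fun i => ?_) (fun i => ?_)
          · have c2 := a3 (ρ.symm i)
            have c3 := b3 (ρ.symm i)
            simp only [Equiv.apply_symm_apply] at c3
            rw [← c3, c2]; rfl
          · have c2 := a2 (ρ.symm i)
            have c3 := b2 (ρ.symm i)
            simp only [Equiv.apply_symm_apply] at c3
            rw [← c3]
            change _ = (h * g⁻¹) (n.q (π (ρ.symm i)))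
            rw [← c2]
            simp
        rw [a1, b1, this]
  subst hvw
  refine ⟨rfl, ?_⟩
  have h1 : ∀ i, (h⁻¹ * g) (p i) = p i := fun i => by
    have := nf_inj v (e i)
    simp [this]
  have := B.rig _ (B.G.mul_mem (B.G.inv_mem hh) hg) p hp h1
  rw [inv_mul_eq_one] at this
  exact this.symm

/-- existence of the step: the chart sending `q` to the frame with canonical form `(u, r)` -/
lemma step_canon {u : List B.Letter} {r q : Fin k → X} (hu : Red u) (hr : Injective r)
    (hq : Injective q) (hne : Set.range r ≠ tgt u)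
    (hd : ∀ i j, B.D (r i) (r j) = B.D (q i) (q j)) :
    (∃ g ∈ B.G, ∀ i, g (q i) = r i) ∨
    ((¬ ∃ g ∈ B.G, ∀ i, q i = g (r i)) ∧ ∃ (n : B.Letter) (g : Equiv.Perm X), g ∈ B.G ∧ Red (n :: u) ∧
      Set.range n.p = Set.range r ∧ Set.range n.q = g '' Set.range q ∧
      ∀ i, nf (n :: u) (g (q i)) = nf u (r i)) := by
  by_cases h : ∃ g ∈ B.G, ∀ i, q i = g (r i)
  · left
    obtain ⟨g, hg, h1⟩ := h
    exact ⟨g⁻¹, B.G.inv_mem hg, fun i => by rw [h1]; simp⟩
  · right
    refine ⟨h, ?_⟩
    obtain ⟨n, π, g, hg, h1, h2⟩ := Letter.exists_of r q hr hq hd h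
    have e1 : Set.range n.p = Set.range r := by
      have : r = n.p ∘ π := funext h1
      rw [this, π.surjective.range_comp]
    have e2 : Set.range n.q = g '' Set.range q := by
      have : g ∘ q = n.q ∘ π := funext h2
      rw [← Set.range_comp, this, π.surjective.range_comp]
    refine ⟨n, g, hg, ⟨?_, hu⟩, e1, e2, fun i => ?_⟩
    · rw [e1]; exact hne
    · rw [h2, nf_cons_q, ← h1]

end Base

end Pool.Agent.Helper37.SK
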